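import Pool.Agent.NH35.HG.StmN

/-! Assembly of the number theoretic core. -/

set_option autoImplicit false
set_option linter.unusedSectionVars false

namespace Pool.Agent.NH35.HG

open Finset Pool.Agent.H916R2 Pool.Agent.H916K NumberField Ideal
open Pool.Agent.NH35.HD (sa xw iw)
open Pool.Agent.NH35.HC (Hk)

/-- the weight attached to a multiset of residues -/
def asmW {n : ℕ} (S : Multiset (ZMod n)) (u : ZMod n) : ℕ :=
  (S.map fun v => (-(v * u)).val).sum

/-- the total weight attached to a multiset of residues -/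
def asmC {n : ℕ} (S : Multiset (ZMod n)) : ℕ := (S.map fun v => if v = 0 then 0 else n).sum

theorem asmW_add {n : ℕ} [NeZero n] (S : Multiset (ZMod n)) (t : (ZMod n)ˣ) :
    asmW S t + asmW S ((-t : (ZMod n)ˣ) : ZMod n) = asmC S := by
  unfold asmW asmC
  rw [← Multiset.sum_map_add]
  congr 1
  refine Multiset.map_congr rfl fun v _ => ?_
  by_cases hv : v = 0
  · simp [hv]
  · rw [if_neg hv, Units.val_neg, mul_neg, neg_neg, ZMod.neg_val, if_neg]
    · have := ZMod.val_lt (v * (t : ZMod n))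
      omega
    · intro h
      exact hv ((Units.mul_left_eq_zero t).mp h)

section
variable {n : ℕ} [NeZero n] {K : Type} [Field K] [NumberField K] [IsCyclotomicExtension {n} ℚ K]

theorem iw_asmW (S : Multiset (ZMod n)) (I : Ideal (𝓞 K)) :
    (S.map fun v => iw n K (fun t => (-(v * (t : ZMod n))).val) I).prod =
      iw n K (fun t => asmW S t) I := by
  induction S using Multiset.induction_on with
  | empty =>
    simp only [asmW, iw, Multiset.map_zero, Multiset.prod_zero, Multiset.sum_zero, pow_zero,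
      Finset.prod_const_one]
  | cons a S ih =>
    rw [Multiset.map_cons, Multiset.prod_cons, ih]
    unfold iw
    rw [← Finset.prod_mul_distrib]
    refine Finset.prod_congr rfl fun t _ => ?_
    rw [← pow_add]
    congr 1
    simp [asmW]

theorem asm_norm_nonneg (hn : Odd n) (h1 : 1 < n) (α : 𝓞 K) : 0 ≤ Algebra.norm ℤ α := by
  refine HD.norm_nonneg (m := n) (W := fun t => if 2 * (t : ZMod n).val < n then 1 else 0) ?_ α
  intro t
  have : Fact (1 < n) := ⟨h1⟩
  have h2 : ((-t : (ZMod n)ˣ) : ZMod n).val = n - (t : ZMod n).val := by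
    rw [Units.val_neg, ZMod.neg_val, if_neg t.ne_zero]
  have h3 := ZMod.val_lt (t : ZMod n)
  obtain ⟨k, hk⟩ := hn
  simp only [h2]
  split_ifs <;> omega

theorem asm_nx {I : Ideal (𝓞 K)} (G : ZMod n → 𝓞 K)
    (hG : ∀ v, G v * sa n K (-1) (G v) = ((absNorm I : ℕ) : 𝓞 K) ^ (if v = 0 then 0 else n))
    (S : Multiset (ZMod n)) :
    (S.map G).prod * sa n K (-1) (S.map G).prod = ((absNorm I : ℕ) : 𝓞 K) ^ asmC S := by
  induction S using Multiset.induction_on with
  | empty => simp [asmC]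
  | cons a S ih =>
    have e : asmC (a ::ₘ S) = (if a = 0 then 0 else n) + asmC S := by simp [asmC]
    rw [Multiset.map_cons, Multiset.prod_cons, map_mul, e, pow_add, ← ih, ← hG a]
    ring

theorem asm_spx {I : Ideal (𝓞 K)} (G : ZMod n → 𝓞 K)
    (hG : ∀ v, span {G v} = iw n K (fun t => (-(v * (t : ZMod n))).val) I)
    (S : Multiset (ZMod n)) :
    span {(S.map G).prod} = iw n K (fun t => asmW S t) I := by
  rw [← iw_asmW, ← Ideal.multiset_prod_span_singleton, Multiset.map_map]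
  congr 1
  exact Multiset.map_congr rfl fun v _ => hG v

end

theorem asm_tau (K : Type) [Field K] [NumberField K] : ∃ τ : 𝓞 K →+* AI, Function.Injective τ := by
  obtain ⟨σ⟩ : Nonempty (K →+* ℂ) := inferInstance
  refine ⟨(σ.comp (algebraMap (𝓞 K) K)).codRestrict (integralClosure ℤ ℂ)
    (fun x => map_isIntegral_int σ x.2), ?_⟩
  intro x y h
  have h1 := congrArg (algebraMap AI ℂ) h
  have h2 : σ (x : K) = σ (y : K) := h1
  exact RingOfIntegers.ext (σ.injective h2)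

section
variable {F : Type} [Field F] [Fintype F] {k : Type} [Field k] {p : ℕ} [Fact p.Prime] [CharP k p]

theorem asm_red_congr (φ : AI →+* k) {M b : ℕ} {χ : MulChar F AI} (hχ : orderOf χ = M * p ^ b)
    (ψ : AddChar F AI) {a a' : ℕ} (h : a ≡ a' [MOD M]) :
    φ (gaussSum (χ ^ a) ψ) = φ (gaussSum (χ ^ a') ψ) := by
  unfold gaussSum
  rw [map_sum, map_sum]
  refine sum_congr rfl fun x _ => ?_
  rw [map_mul, map_mul]
  congr 1
  by_cases hx : x = 0
  · rw [hx, MulChar.map_zero, MulChar.map_zero]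
  · rw [mulChar_pow_apply χ a hx, mulChar_pow_apply χ a' hx, map_pow, map_pow]
    exact pow_eq_pow_of_modEq h (red_val (q := p) φ hχ hx)

theorem asm_red_one (φ : AI →+* k) {M b : ℕ} {χ : MulChar F AI} (hχ : orderOf χ = M * p ^ b)
    {ψ : AddChar F AI} (hψ : ψ ≠ 1) {a : ℕ} (h : M ∣ a) :
    φ (-gaussSum (χ ^ a) ψ) = 1 := by
  rw [map_neg, asm_red_congr φ hχ ψ ((Nat.modEq_zero_iff_dvd).mpr h), pow_zero,
    gaussSum_one_left hψ, map_neg, map_one, neg_neg]

end

theorem asm_psi {F : Type} [Field F] [Fintype F] (h : (Fintype.card F).Prime) :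
    ∃ ψ : AddChar F AI, ψ ≠ 1 := by
  have hinj : Function.Injective (algebraMap AI ℂ) := Subtype.val_injective
  set ℓ := Fintype.card F with hℓ
  have : NeZero ℓ := ⟨h.ne_zero⟩
  obtain ⟨ξ, hξ⟩ : ∃ ζ : AI, IsPrimitiveRoot ζ ℓ := by
    have h1 := Complex.isPrimitiveRoot_exp ℓ h.ne_zero
    have h2 : IsIntegral ℤ (Complex.exp (2 * Real.pi * Complex.I / ℓ)) :=
      h1.isIntegral h.pos
    exact ⟨⟨_, h2⟩, IsPrimitiveRoot.of_map_of_injective (f := algebraMap AI ℂ) h1 hinj⟩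
  set ψ0 : AddChar (ZMod ℓ) AI := AddChar.zmodChar ℓ hξ.pow_eq_one with hψ0
  have hψ1 : ψ0 1 ≠ 1 := by
    intro h1
    rw [hψ0, AddChar.zmodChar_apply] at h1
    have : Fact (1 < ℓ) := ⟨h.one_lt⟩
    rw [ZMod.val_one, pow_one] at h1
    exact hξ.ne_one h.one_lt h1
  let e : ZMod ℓ ≃+* F := ZMod.ringEquivOfPrime F h hℓ.symm
  refine ⟨ψ0.compAddMonoidHom (e.symm : F →+ ZMod ℓ), ?_⟩
  intro h2
  apply hψ1
  have h3 : (ψ0.compAddMonoidHom (e.symm : F →+ ZMod ℓ)) 1 = 1 := by rw [h2]; rfl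
  have h4 : (ψ0.compAddMonoidHom (e.symm : F →+ ZMod ℓ)) 1 = ψ0 (e.symm 1) := rfl
  rw [h4, map_one] at h3
  exact h3


theorem asm_factor {n : ℕ} (hn : 1 < n) (h : n.primeFactors.card ≤ 2) :
    ∃ p b q d : ℕ, p.Prime ∧ q.Prime ∧ 0 < b ∧ n = q ^ d * p ^ b ∧ (q ^ d).Coprime (p ^ b) ∧
      p ∣ n ∧ q ∣ n := by
  have hp : n.minFac.Prime := Nat.minFac_prime (by omega)
  set p := n.minFac with hpdef
  have hpn : p ∣ n := Nat.minFac_dvd n
  obtain ⟨b, n', hn', he⟩ := Nat.exists_eq_pow_mul_and_not_dvd (n := n) (by omega) p hp.ne_one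
  have hb : 0 < b := by
    rcases Nat.eq_zero_or_pos b with h0 | h0
    · rw [h0, pow_zero, one_mul] at he
      exact absurd (he ▸ hpn) hn'
    · exact h0
  have hn'0 : n' ≠ 0 := by
    rintro rfl
    exact hn' (dvd_zero _)
  have h1 : n.primeFactors = insert p n'.primeFactors := by
    rw [he, Nat.primeFactors_mul (pow_ne_zero _ hp.ne_zero) hn'0,
      Nat.primeFactors_prime_pow hb.ne' hp]
    rfl
  have h2 : p ∉ n'.primeFactors := fun h3 => hn' (Nat.dvd_of_mem_primeFactors h3)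
  rw [h1, card_insert_of_notMem h2] at h
  have hcop : ∀ q d : ℕ, n' = q ^ d → (q ^ d).Coprime (p ^ b) := by
    intro q d h3
    rw [← h3]
    exact ((Nat.Prime.coprime_iff_not_dvd hp).mpr hn').symm.pow_right b
  rcases Nat.lt_or_ge n'.primeFactors.card 1 with h3 | h3
  · have h4 : n'.primeFactors = ∅ := card_eq_zero.mp (by omega)
    have h5 : n' = 1 := by
      rcases Nat.primeFactors_eq_empty.mp h4 with h6 | h6
      · exact absurd h6 hn'0
      · exact h6
    exact ⟨p, b, p, 0, hp, hp, hb, by rw [he, h5]; ring, hcop p 0 (by rw [h5]; rfl), hpn, hpn⟩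
  · have h4 : n'.primeFactors.card = 1 := by omega
    obtain ⟨q, d, hq, hd, hqd⟩ := (isPrimePow_nat_iff _).mp
      (isPrimePow_iff_card_primeFactors_eq_one.mpr h4)
    refine ⟨p, b, q, d, hp, hq, hb, by rw [he, ← hqd]; ring, hcop q d hqd.symm, hpn, ?_⟩
    rw [he, ← hqd]
    exact (dvd_pow_self q hd.ne').mul_left _

theorem asm_crt {n M M' : ℕ} [NeZero n] (h : n = M * M') (hc : M.Coprime M') :
    ∃ e : ZMod n, ∀ v : ZMod n, v.val ≡ (e * v).val [MOD M] ∧ M' ∣ (e * v).val := by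
  set E : ℕ := (Nat.chineseRemainder hc 1 0 : ℕ) with hE
  have h1 : E ≡ 1 [MOD M] := (Nat.chineseRemainder hc 1 0).2.1
  have h2 : E ≡ 0 [MOD M'] := (Nat.chineseRemainder hc 1 0).2.2
  refine ⟨(E : ZMod n), fun v => ?_⟩
  have h3 : (E : ZMod n) * v = ((E * v.val : ℕ) : ZMod n) := by
    push_cast
    rw [ZMod.natCast_zmod_val]
  have h4 : ((E : ZMod n) * v).val ≡ E * v.val [MOD n] := by
    rw [h3, ZMod.val_natCast]
    exact Nat.mod_modEq _ _
  constructor
  · have h5 : ((E : ZMod n) * v).val ≡ E * v.val [MOD M] := h4.of_dvd ⟨M', h⟩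
    have h6 : E * v.val ≡ 1 * v.val [MOD M] := h1.mul_right _
    rw [one_mul] at h6
    exact (h5.trans h6).symm
  · have h5 : ((E : ZMod n) * v).val ≡ E * v.val [MOD M'] := h4.of_dvd ⟨M, by rw [h, mul_comm]⟩
    have h6 : E * v.val ≡ 0 * v.val [MOD M'] := h2.mul_right _
    rw [zero_mul] at h6
    exact (Nat.modEq_zero_iff_dvd).mp (h5.trans h6)

theorem asm_EW_cons {n r f : ℕ} (a : ZMod n) (S : Multiset (ZMod n)) (u : ZMod n) :
    EW n r f (asmW (a ::ₘ S)) u =
      ∑ j ∈ range f, (r : ℤ) ^ (f - j) * (((-(a * (u * (r : ZMod n) ^ j))).val : ℕ) : ℤ) +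
        EW n r f (asmW S) u := by
  unfold EW
  rw [← sum_add_distrib]
  refine sum_congr rfl fun j _ => ?_
  have : asmW (a ::ₘ S) (u * (r : ZMod n) ^ j) =
      (-(a * (u * (r : ZMod n) ^ j))).val + asmW S (u * (r : ZMod n) ^ j) := by simp [asmW]
  rw [this]
  push_cast
  ring

theorem asm_DD {r n f m : ℕ} [NeZero m] (s : Multiset (ZMod m)) (t t' : (ZMod n)ˣ) :
    ∑ z : ZMod m, ((s.count z : ℕ) : ℤ) • DD r n f t t' z =
      ((EW n r f (asmW (s.map fun z => ((z.val : ℕ) : ZMod n))) ((-t : (ZMod n)ˣ) : ZMod n) -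
        EW n r f (asmW (s.map fun z => ((z.val : ℕ) : ZMod n))) ((-t' : (ZMod n)ˣ) : ZMod n) : ℤ) :
        ZMod (r ^ f - 1)) := by
  have h1 : ∑ z : ZMod m, ((s.count z : ℕ) : ℤ) • DD r n f t t' z =
      (s.map fun z => DD r n f t t' z).sum := by
    rw [Finset.sum_multiset_map_count]
    symm
    apply Finset.sum_subset_zero_on_sdiff (subset_univ _)
    · intro x hx
      rw [mem_sdiff, Multiset.mem_toFinset] at hx
      rw [Multiset.count_eq_zero_of_notMem hx.2]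
      simp
    · intro x _
      rw [natCast_zsmul]
  rw [h1]
  induction s using Multiset.induction_on with
  | empty => simp [asmW, EW]
  | cons a S ih =>
    have ih' := ih (by
      rw [Finset.sum_multiset_map_count]
      symm
      apply Finset.sum_subset_zero_on_sdiff (subset_univ _)
      · intro x hx
        rw [mem_sdiff, Multiset.mem_toFinset] at hx
        rw [Multiset.count_eq_zero_of_notMem hx.2]
        simp
      · intro x _
        rw [natCast_zsmul])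
    rw [Multiset.map_cons, Multiset.sum_cons, ih', Multiset.map_cons, asm_EW_cons, asm_EW_cons]
    have key : DD r n f t t' a =
        ((∑ j ∈ range f, (r : ℤ) ^ (f - j) *
          (((-(((a.val : ℕ) : ZMod n) * (((-t : (ZMod n)ˣ) : ZMod n) * (r : ZMod n) ^ j))).val : ℕ) : ℤ) -
        ∑ j ∈ range f, (r : ℤ) ^ (f - j) *
          (((-(((a.val : ℕ) : ZMod n) * (((-t' : (ZMod n)ˣ) : ZMod n) * (r : ZMod n) ^ j))).val : ℕ) : ℤ) : ℤ) :
          ZMod (r ^ f - 1)) := by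
      unfold DD
      push_cast
      rw [← sum_sub_distrib]
      refine sum_congr rfl fun j _ => ?_
      rw [← mul_sub]
      congr 1
      congr 3
      · ring
      · ring
    rw [key]
    push_cast
    ring


section
variable {n : ℕ} [NeZero n] {K : Type} [Field K] [NumberField K] [IsCyclotomicExtension {n} ℚ K]

/-- the relation for the principal ideal of an element congruent to one -/
theorem asm_rc_prin {k k' : Type} [Field k] [Field k'] (ρ : 𝓞 K →+* k) (ρ' : 𝓞 K →+* k')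
    (hk : (n : k) = 0) (hk' : (n : k') = 0) {W W' : (ZMod n)ˣ → ℕ} {c c' : ℕ}
    (hW : ∀ t, W t + W (-t) = c) (hW' : ∀ t, W' t + W' (-t) = c') {β : 𝓞 K}
    (hβ : 0 ≤ Algebra.norm ℤ β) (h1 : ((n : ℕ) : 𝓞 K) ∣ β - 1) :
    RC ρ ρ' W W' c c' (span {β}) (xw n K W β) (xw n K W' β) := by
  have hnorm : ((absNorm (span {β}) : ℕ) : 𝓞 K) = ((Algebra.norm ℤ β : ℤ) : 𝓞 K) := by
    rw [Ideal.absNorm_span_singleton]
    have h7 : (((Algebra.norm ℤ β).natAbs : ℕ) : 𝓞 K) =
        ((((Algebra.norm ℤ β).natAbs : ℕ) : ℤ) : 𝓞 K) := by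
      simp
    rw [h7, Int.natAbs_of_nonneg hβ]
  have h2 : ∀ (V : (ZMod n)ˣ → ℕ) (κ : Type) [Field κ] (θ : 𝓞 K →+* κ), (n : κ) = 0 →
      θ (xw n K V β) = 1 := by
    intro V κ _ θ hκ
    obtain ⟨y, hy⟩ := HD.xw_cong (W := V) (N := ((n : ℕ) : 𝓞 K)) (fun u => map_natCast _ _) h1
    have h3 := congrArg θ hy
    rw [map_mul, map_natCast, hκ, zero_mul, map_sub, map_one] at h3
    exact sub_eq_zero.mp h3
  exact
    { spx := (HD.iw_span β).symm
      nx := by rw [HD.xw_norm hW, hnorm]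
      spy := (HD.iw_span β).symm
      ny := by rw [HD.xw_norm hW', hnorm]
      cx := by rw [h2 W k ρ hk, h2 W' k ρ hk]
      cy := by rw [h2 W' k' ρ' hk', one_pow] }

end

theorem asm_int_dvd (n : ℕ) [NeZero n] {K : Type} [Field K] [NumberField K]
    [IsCyclotomicExtension {n} ℚ K] {a b : ℤ} (h : ((a : ℤ) : 𝓞 K) ∣ ((b : ℤ) : 𝓞 K)) : a ∣ b := by
  have h1 := map_dvd (Algebra.norm ℤ) h
  have e : ∀ z : ℤ, Algebra.norm ℤ ((z : ℤ) : 𝓞 K) = z ^ Fintype.card (ZMod n)ˣ := by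
    intro z
    have h2 := HD.norm_prod n K ((z : ℤ) : 𝓞 K)
    simp only [map_intCast, Finset.prod_const, Finset.card_univ] at h2
    exact_mod_cast h2
  rw [e, e] at h1
  exact (Int.pow_dvd_pow_iff (Fintype.card_pos (α := (ZMod n)ˣ)).ne').mp h1

theorem asm_circle {G : Type} [CommGroup G] [Finite G] {a : G} (ha : a ≠ 1) :
    ∃ ω : G →* Circle, ω a ≠ 1 := by
  obtain ⟨ψ, hψ⟩ := (AddChar.exists_apply_ne_zero (a := Additive.ofMul a)).mpr (by
    intro h
    apply ha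
    exact h)
  let ψ' : AddChar (Additive G) Circle := AddChar.circleEquivComplex.symm ψ
  have h1 : AddChar.circleEquivComplex ψ' = ψ := AddEquiv.apply_symm_apply _ _
  have h2 : ∀ x, ((ψ' x : Circle) : ℂ) = ψ x := by
    intro x
    rw [← h1]
    rfl
  refine ⟨{ toFun := fun x => ψ' (Additive.ofMul x), map_one' := ?_, map_mul' := ?_ }, ?_⟩
  · exact AddChar.map_zero_eq_one ψ'
  · intro x y
    exact AddChar.map_add_eq_mul ψ' _ _
  · intro h
    apply hψ
    have h3 : ψ' (Additive.ofMul a) = 1 := h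
    rw [← h2, h3]
    rfl

theorem asm_field (n : ℕ) [NeZero n] : ∃ (K : Type) (_ : Field K) (_ : NumberField K),
    IsCyclotomicExtension {n} ℚ K := by
  refine ⟨CyclotomicField n ℚ, inferInstance, inferInstance, ?_⟩
  have h : @IsCyclotomicExtension {n} ℚ (CyclotomicField n ℚ) _ _ (CyclotomicField.algebra n ℚ) :=
    inferInstance
  convert h
  exact Subsingleton.elim _ _

theorem thmA_of (h1 : S_dn) (h2 : S_gs) (h3 : S_e) (h4 : S_h) (h5 : S_f) : S_thmA := by
  intro m _ hodd hcard s hW r a n hr ha hrn hm hn1 t t'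
  have hnodd : Odd n := (Nat.odd_mul.mp (hm ▸ hodd)).2
  have hn0 : NeZero n := ⟨by omega⟩
  refine ⟨n, by exact_mod_cast hnodd, ?_⟩
  set f := orderOf (r : ZMod n) with hf
  rw [asm_DD]
  obtain ⟨S, hS⟩ : ∃ S : Multiset (ZMod n), S = s.map fun z => ((z.val : ℕ) : ZMod n) := ⟨_, rfl⟩
  rw [← hS]
  by_contra hne
  -- the exponents
  have hdvd : ¬ ((r : ℤ) ^ f - 1) ∣ n * (EW n r f (asmW S) ((-t : (ZMod n)ˣ) : ZMod n) -
      EW n r f (asmW S) ((-t' : (ZMod n)ˣ) : ZMod n)) := by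
    intro hd
    apply hne
    rw [zsmul_eq_mul, ← Int.cast_mul, ZMod.intCast_zmod_eq_zero_iff_dvd,
      Nat.cast_sub (Nat.one_le_pow _ _ hr.pos)]
    push_cast
    exact hd
  -- factorisation
  have hcard2 : n.primeFactors.card ≤ 2 := by
    have e1 : m.primeFactors = insert r n.primeFactors := by
      rw [← hm, Nat.primeFactors_mul (pow_ne_zero _ hr.ne_zero) (by omega),
        Nat.primeFactors_prime_pow ha.ne' hr]
      rfl
    rw [e1, card_insert_of_notMem fun h6 => hrn (Nat.dvd_of_mem_primeFactors h6)] at hcard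
    omega
  obtain ⟨p, b, q, d, hp, hq, hb, hnpq, hcop, hpn, hqn⟩ := asm_factor hn1 hcard2
  obtain ⟨e, he⟩ := asm_crt hnpq hcop
  obtain ⟨S', hS'⟩ : ∃ S' : Multiset (ZMod n), S' = S.map fun v => e * v := ⟨_, rfl⟩
  -- the field
  obtain ⟨K, _, _, _⟩ := asm_field n
  have hnn : ∀ α : 𝓞 K, 0 ≤ Algebra.norm ℤ α := asm_norm_nonneg hnodd hn1
  obtain ⟨τ, hτ⟩ := asm_tau K
  obtain ⟨kp, _, _, ⟨φp⟩⟩ := exists_red hp
  obtain ⟨kq, _, _, ⟨φq⟩⟩ := exists_red hq
  obtain ⟨kr, _, _, ⟨φr⟩⟩ := exists_red hr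
  have : Fact p.Prime := ⟨hp⟩
  have : Fact q.Prime := ⟨hq⟩
  have : Fact r.Prime := ⟨hr⟩
  have hodd2 : ∀ l : ℕ, l.Prime → l ∣ n → l ≠ 2 := by
    rintro l - hl rfl
    exact (Nat.not_even_iff_odd.mpr hnodd) (even_iff_two_dvd.mpr hl)
  have h2ne : ∀ (κ : Type) [Field κ] (l : ℕ) [CharP κ l], l.Prime → l ∣ n → (2 : κ) ≠ 0 := by
    intro κ _ l _ hl hln h0
    have h6 : ((2 : ℕ) : κ) = 0 := by exact_mod_cast h0
    rw [CharP.cast_eq_zero_iff κ l] at h6
    exact hodd2 l hl hln ((Nat.prime_dvd_prime_iff_eq hl Nat.prime_two).mp h6)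
  have h2p : (2 : kp) ≠ 0 := h2ne kp p hp hpn
  have h2q : (2 : kq) ≠ 0 := h2ne kq q hq hqn
  have hnp : (n : kp) = 0 := (CharP.cast_eq_zero_iff kp p n).mpr hpn
  have hnq : (n : kq) = 0 := (CharP.cast_eq_zero_iff kq q n).mpr hqn
  set R : Ideal (𝓞 K) := RingHom.ker (φr.comp τ) with hR
  have hRp : R.IsPrime := RingHom.ker_isPrime _
  have hrR : (r : 𝓞 K) ∈ R := by
    rw [hR, RingHom.mem_ker, map_natCast]
    exact CharP.cast_eq_zero kr r
  have hR0 : R ≠ ⊥ := by
    intro h6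
    rw [h6, Ideal.mem_bot] at hrR
    exact hr.ne_zero (by exact_mod_cast hrR)
  obtain ⟨M1, B, hM1, hE⟩ := h3 r a n m hr ha hrn hm hodd hn1 s hW kr φr
  obtain ⟨v, w, hrw, hM1w⟩ := Nat.exists_eq_pow_mul_and_not_dvd hM1.ne' r hr.ne_one
  have hw0 : 0 < w := Nat.pos_of_ne_zero (by rintro rfl; exact hrw (dvd_zero _))
  have hrnw : ¬ r ∣ n * w := fun h6 => (hr.dvd_mul.mp h6).elim hrn hrw
  obtain ⟨β, hβ0, hβ1, hβN, hβr, hβx⟩ := h5 n K hnodd hn1 r f hr hrn rfl R hRp hrR (asmW S)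
    (-t) (-t') hdvd (n * w) (v + 1) (Nat.mul_pos (by omega) hw0) hrnw (Nat.succ_pos v)
  have hWc : ∀ t : (ZMod n)ˣ, asmW S (t : ZMod n) + asmW S ((-t : (ZMod n)ˣ) : ZMod n) = asmC S :=
    asmW_add S
  have hWc' : ∀ t : (ZMod n)ˣ, asmW S' (t : ZMod n) + asmW S' ((-t : (ZMod n)ˣ) : ZMod n) =
    asmC S' := asmW_add S'
  have hnβ : ((n : ℕ) : 𝓞 K) ∣ β - 1 := by
    have h6 := Ideal.mem_span_singleton.mp hβ1
    push_cast at h6
    exact (Dvd.intro _ rfl).trans h6
  have hRCβ := asm_rc_prin (φp.comp τ) (φq.comp τ) hnp hnq (W := fun u => asmW S (u : ZMod n))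
    (W' := fun u => asmW S' (u : ZMod n)) hWc hWc' (hnn β) hnβ
  have hcopnw : IsCoprime (span {β}) (span {((n * w : ℕ) : 𝓞 K)}) := HC.coprime_span hβ1
  have hmk : ∀ x y : ℕ, span {((x * y : ℕ) : 𝓞 K)} = span {(x : 𝓞 K)} * span {(y : 𝓞 K)} := by
    intro x y
    rw [Ideal.span_singleton_mul_span_singleton, Nat.cast_mul]
  have hcopn : IsCoprime (span {β}) (span {((n : ℕ) : 𝓞 K)}) := by
    rw [hmk] at hcopnw
    exact (IsCoprime.mul_right_iff.mp hcopnw).1
  have hcopnr : IsCoprime (span {β}) (span {((n * r : ℕ) : 𝓞 K)}) := by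
    rw [hmk]
    exact IsCoprime.mul_right hcopn hβr
  set M : ℕ := n * w * r ^ (v + 1) with hM
  have hM0 : 0 < M := Nat.mul_pos (Nat.mul_pos (by omega) hw0) (pow_pos hr.pos _)
  have hcopM : IsCoprime (span {β}) (span {((M : ℕ) : 𝓞 K)}) := by
    rw [hM, hmk]
    refine IsCoprime.mul_right hcopnw ?_
    rw [Nat.cast_pow, ← Ideal.span_singleton_pow]
    exact IsCoprime.pow_right hβr
  have hnM : n ∣ M := by rw [hM, mul_assoc]; exact Dvd.intro _ rfl
  have hM1M : M1 ∣ M := by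
    rw [hM1w, hM]
    exact ⟨n * r, by ring⟩
  have hPM0 : absNorm (span {β}) = (Algebra.norm ℤ β).natAbs := Ideal.absNorm_span_singleton β
  have hnormM : ((absNorm (span {β}) : ℕ) : ZMod M) = 1 := by
    have e1 : ((absNorm (span {β}) : ℕ) : ZMod M) = ((Algebra.norm ℤ β : ℤ) : ZMod M) := by
      rw [hPM0, ← Int.cast_natCast, Int.natAbs_of_nonneg (hnn β)]
    have e2 : ((n * w : ℕ) : ℤ) ∣ Algebra.norm ℤ β - 1 := by
      apply asm_int_dvd n (K := K)
      have h6 := HD.xw_cong (m := n) (W := fun _ => 1) (N := ((n * w : ℕ) : 𝓞 K))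
        (fun u => map_natCast _ _) (Ideal.mem_span_singleton.mp hβ1)
      have h7 : xw n K (fun _ => 1) β = ((Algebra.norm ℤ β : ℤ) : 𝓞 K) := by
        rw [HD.norm_prod n K β]
        unfold xw
        exact Fintype.prod_equiv (Equiv.inv _) _ _ fun u => pow_one _
      rw [h7] at h6
      push_cast at h6 ⊢
      exact h6
    have e3 : ((r ^ (v + 1) : ℕ) : ℤ) ∣ Algebra.norm ℤ β - 1 := by
      rw [← ZMod.intCast_zmod_eq_zero_iff_dvd]
      push_cast
      rw [hβN, sub_self]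
    have e4 : ((M : ℕ) : ℤ) ∣ Algebra.norm ℤ β - 1 := by
      rw [hM, Nat.cast_mul]
      refine IsCoprime.mul_dvd ?_ e2 e3
      rw [Nat.isCoprime_iff_coprime]
      exact (((Nat.Prime.coprime_iff_not_dvd hr).mpr hrnw).symm).pow_right _
    rw [e1]
    rw [← ZMod.intCast_zmod_eq_zero_iff_dvd] at e4
    push_cast at e4
    exact sub_eq_zero.mp e4
  -- the character
  obtain ⟨χ0, -, hχ0⟩ := h4 n K hnodd hn1 kp kq (φp.comp τ) (φq.comp τ) h2p h2q hnp hnq
    (fun u => asmW S (u : ZMod n)) (fun u => asmW S' (u : ZMod n)) (asmC S) (asmC S') hWc hWc'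
    r hr hrn R hRp hrR 1
  obtain ⟨hu, -⟩ := hχ0 (span {β}) _ _ hcopnr hRCβ
  have hu1 : hu.unit ≠ 1 := by
    intro h6
    apply hβx
    have h7 := congrArg Units.val h6
    rw [IsUnit.unit_spec, Units.val_one] at h7
    exact h7
  have hfin : Finite (𝓞 K ⧸ R) := Ideal.finiteQuotientOfFreeOfNeBot R hR0
  obtain ⟨ω, hω⟩ := asm_circle hu1
  obtain ⟨χ, hχ, hχ1⟩ := h4 n K hnodd hn1 kp kq (φp.comp τ) (φq.comp τ) h2p h2q hnp hnq
    (fun u => asmW S (u : ZMod n)) (fun u => asmW S' (u : ZMod n)) (asmC S) (asmC S') hWc hWc'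
    r hr hrn R hRp hrR ω
  obtain ⟨hu', hχβ⟩ := hχ1 (span {β}) _ _ hcopnr hRCβ
  have hχβ1 : χ (span {β}) ≠ 1 := by
    rw [hχβ]
    intro h6
    apply hω
    exact Circle.ext h6
  obtain ⟨P, hP, hPprime, hPB, hPM, hPcop, hχP⟩ := h1 n K hnn χ _ hχ M hM0 hnM β hβ0 hcopnr hcopM
    hnormM hχβ1 B
  apply hχP
  -- the residue field
  have hP0 : P ≠ ⊥ := by
    rintro rfl
    rw [Ideal.absNorm_bot] at hPprime
    exact Nat.not_prime_zero hPprime
  have hPmax : P.IsMaximal := hP.isMaximal hP0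
  let _ : Field (𝓞 K ⧸ P) := Ideal.Quotient.field P
  have hfinP : Finite (𝓞 K ⧸ P) := Ideal.finiteQuotientOfFreeOfNeBot P hP0
  let _ : Fintype (𝓞 K ⧸ P) := Fintype.ofFinite _
  have hcardF : Fintype.card (𝓞 K ⧸ P) = absNorm P := by
    rw [Ideal.absNorm_apply, Submodule.cardQuot_apply, Nat.card_eq_fintype_card]
  have hPn : ((n : ℕ) : 𝓞 K ⧸ P) ≠ 0 := by
    intro h6
    have h7 : ((n : ℕ) : 𝓞 K) ∈ P := by
      rw [← Ideal.Quotient.eq_zero_iff_mem, map_natCast]
      exact h6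
    have h8 : P ⊔ span {((n * r : ℕ) : 𝓞 K)} = ⊤ := Ideal.isCoprime_iff_sup_eq.mp hPcop
    have h9 : span {((n * r : ℕ) : 𝓞 K)} ≤ P := by
      rw [Ideal.span_singleton_le_iff_mem, Nat.cast_mul]
      exact Ideal.mul_mem_right _ _ h7
    rw [sup_eq_left.mpr h9] at h8
    exact hP.ne_top h8
  obtain ⟨χP, G, hord, hG1, hG2, hG3⟩ := h2 n K hnodd hn1 (𝓞 K ⧸ P) (Ideal.Quotient.mk P)
    Ideal.Quotient.mk_surjective (by rw [hcardF]; exact hPprime) hPn
  rw [Ideal.mk_ker] at hG1 hG2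
  obtain ⟨ψ, hψ⟩ := asm_psi (F := 𝓞 K ⧸ P) (by rw [hcardF]; exact hPprime)
  set χ' : MulChar (𝓞 K ⧸ P) AI := χP.ringHomComp τ with hχ'
  have hordχ' : orderOf χ' = n := by
    rw [← hord]
    exact orderOf_injective (MulChar.ringHomCompHom τ) (MulChar.injective_ringHomComp hτ) χP
  have hRC : RC (φp.comp τ) (φq.comp τ) (fun u : (ZMod n)ˣ => asmW S (u : ZMod n))
      (fun u : (ZMod n)ˣ => asmW S' (u : ZMod n)) (asmC S) (asmC S') P (S.map G).prod
      (S'.map G).prod := by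
    have hGτ : ∀ v, τ (G v) = (-gaussSum (χ' ^ v.val) ψ) ^ n := fun v => hG3 τ ψ hψ v
    refine ⟨asm_spx G hG1 S, asm_nx G hG2 S, asm_spx G hG1 S', asm_nx G hG2 S', ?_, ?_⟩
    · congr 1
      rw [map_multiset_prod, map_multiset_prod, Multiset.map_map, Multiset.map_map, hS',
        Multiset.map_map]
      congr 1
      refine Multiset.map_congr rfl fun v _ => ?_
      simp only [Function.comp_apply, RingHom.comp_apply, hGτ]
      rw [map_pow, map_pow, map_neg, map_neg, asm_red_congr φp (hordχ'.trans hnpq) ψ (he v).1]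
    · have h6 : (φq.comp τ) (S'.map G).prod = 1 := by
        rw [map_multiset_prod, Multiset.map_map, hS', Multiset.map_map]
        apply Multiset.prod_eq_one
        intro y hy
        obtain ⟨v, -, rfl⟩ := Multiset.mem_map.mp hy
        simp only [Function.comp_apply, RingHom.comp_apply, hGτ]
        rw [map_pow, asm_red_one φq (M := p ^ b) (b := d) (by rw [hordχ', hnpq, mul_comm]) hψ
          (he v).2, one_pow]
      rw [h6, one_pow]
  obtain ⟨hu2, hχP2⟩ := hχ1 P _ _ hPcop hRC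
  have hone : φr (τ (S.map G).prod) = 1 := by
    have h6 := hE (absNorm P) hPB hPprime (hPM.of_dvd hM1M) (𝓞 K ⧸ P) hcardF χ' ψ hordχ' hψ
    rw [← h6, map_multiset_prod, Multiset.map_map]
    congr 1
    rw [← Multiset.prod_map_pow, hS, Multiset.map_map]
    congr 1
    exact Multiset.map_congr rfl fun z _ => hG3 τ ψ hψ _
  have hmkone : Ideal.Quotient.mk R ((S.map G).prod ^ n) = 1 := by
    rw [map_pow]
    have h6 : Ideal.Quotient.mk R (S.map G).prod = 1 := by
      rw [← map_one (Ideal.Quotient.mk R), Ideal.Quotient.eq, hR, RingHom.mem_ker, map_sub, map_one,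
        RingHom.comp_apply, hone, sub_self]
    rw [h6, one_pow]
  have hu21 : hu2.unit = 1 := by
    apply Units.ext
    rw [IsUnit.unit_spec, Units.val_one]
    exact hmkone
  rw [hχP2, hu21, map_one]
  rfl

end Pool.Agent.NH35.HG
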