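import Pool.Agent.NH35.HG.StmN

/-! The choice of the element `β` (S_f). -/

set_option autoImplicit false
set_option linter.unusedSectionVars false

namespace Pool.Agent.NH35.HG

open Finset NumberField Ideal IsCyclotomicExtension
open Pool.Agent.NH35.HD (sa xw iw zt sa_mul sa_one sa_zt sa_inv sa_inv' mem_map_sa map_map_sa
  map_sa_one norm_prod xw_mul xw_one zt_prim)

namespace Fb

section
variable {n : ℕ} [NeZero n] {K : Type} [Field K] [NumberField K] [IsCyclotomicExtension {n} ℚ K]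

theorem hom_ext' {k : Type} [CommRing k] (f g : 𝓞 K →+* k) (h : f (zt n K) = g (zt n K)) :
    f = g := by
  have h1 : f.toIntAlgHom = g.toIntAlgHom :=
    AlgHom.ext_of_adjoin_eq_top (IsCyclotomicExtension.Rat.adjoin_singleton_eq_top
      (zeta_spec n ℚ K)) (by
        intro x hx
        rw [Set.mem_singleton_iff] at hx
        subst hx
        exact h)
  ext x
  exact DFunLike.congr_fun h1 x

variable {r : ℕ} (hr : r.Prime) (R : Ideal (𝓞 K)) [hRp : R.IsPrime] (hrR : (r : 𝓞 K) ∈ R)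

include hr hrR in
theorem charR : CharP (𝓞 K ⧸ R) r := by
  have h0 : ((r : ℕ) : 𝓞 K ⧸ R) = 0 := by
    have := Ideal.Quotient.eq_zero_iff_mem.mpr hrR
    simpa using this
  have : IsDomain (𝓞 K ⧸ R) := inferInstance
  exact (CharP.charP_iff_prime_eq_zero hr).mpr h0

include hr hrR in
theorem frob (ru : (ZMod n)ˣ) (hru : (ru : ZMod n) = (r : ZMod n)) (x : 𝓞 K) :
    Ideal.Quotient.mk R (sa n K ru x) = Ideal.Quotient.mk R x ^ r := by
  have := charR hr R hrR
  have : Fact r.Prime := ⟨hr⟩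
  have h : (Ideal.Quotient.mk R).comp ((sa n K ru : 𝓞 K ≃+* 𝓞 K) : 𝓞 K →+* 𝓞 K) =
      (frobenius (𝓞 K ⧸ R) r).comp (Ideal.Quotient.mk R) := by
    apply hom_ext' (n := n)
    rw [RingHom.comp_apply, RingHom.comp_apply, frobenius_def]
    change Ideal.Quotient.mk R (sa n K ru (zt n K)) = _
    rw [sa_zt, ← map_pow, hru, ZMod.val_natCast]
    congr 1
    have h1 := (zt_prim n K).pow_eq_one
    conv_rhs => rw [← Nat.mod_add_div r n, pow_add, pow_mul, h1, one_pow, mul_one]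
  exact DFunLike.congr_fun h x

include hr hrR in
theorem frob_pow (ru : (ZMod n)ˣ) (hru : (ru : ZMod n) = (r : ZMod n)) (j : ℕ) (x : 𝓞 K) :
    Ideal.Quotient.mk R (sa n K (ru ^ j) x) = Ideal.Quotient.mk R x ^ (r ^ j) := by
  induction j generalizing x with
  | zero => rw [pow_zero, sa_one, pow_zero, pow_one]
  | succ j ih => rw [pow_succ, sa_mul, ih, frob hr R hrR ru hru, ← pow_mul, pow_succ' r j]

include hr hrR in
theorem liesOver : R.LiesOver (Ideal.span {(r : ℤ)}) := by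
  constructor
  have hmax : (Ideal.span {(r : ℤ)}).IsMaximal :=
    PrincipalIdealRing.isMaximal_of_irreducible (Nat.prime_iff_prime_int.mp hr).irreducible
  have hle : Ideal.span {(r : ℤ)} ≤ R.under ℤ := by
    rw [Ideal.span_singleton_le_iff_mem, Ideal.mem_comap]
    simpa using hrR
  refine hmax.eq_of_le ?_ hle
  exact (Ideal.comap_ne_top _ hRp.ne_top)

include hr hrR in
theorem Rne : R ≠ ⊥ := by
  rintro rfl
  rw [Ideal.mem_bot] at hrR
  exact hr.ne_zero (by exact_mod_cast hrR)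

open scoped Pointwise in
include hr hrR in
theorem stabR (hn : ¬ r ∣ n) (ru : (ZMod n)ˣ) (hru : (ru : ZMod n) = (r : ZMod n)) {v : (ZMod n)ˣ}
    (hv : R.map (sa n K v) = R) : v ∈ Subgroup.zpowers ru := by
  have : Fact r.Prime := ⟨hr⟩
  have : R.IsMaximal := hRp.isMaximal (Rne hr R hrR)
  have := liesOver hr R hrR
  have hcop : r.Coprime n := (Nat.Prime.coprime_iff_not_dvd hr).2 hn
  have h1 := IsCyclotomicExtension.Rat.mem_zpowers_galEquivZMod_of_mem_stabilizer n K r R hcop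
    (σ := (IsCyclotomicExtension.Rat.galEquivZMod n K).symm v) (by
      rw [MulAction.mem_stabilizer_iff]
      ext x
      rw [Ideal.mem_pointwise_smul_iff_inv_smul_mem]
      have h2 : x ∈ R.map (sa n K v) ↔ x ∈ R := by rw [hv]
      rw [mem_map_sa] at h2
      rw [← h2]
      have h3 : ((IsCyclotomicExtension.Rat.galEquivZMod n K).symm v)⁻¹ • x = sa n K v⁻¹ x := by
        apply RingOfIntegers.ext
        rw [HD.coe_sa]
        unfold HD.gal
        rw [map_inv]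
        rfl
      rw [h3])
  rw [MulEquiv.apply_symm_apply] at h1
  have h2 : ZMod.unitOfCoprime r hcop = ru := Units.ext (by rw [ZMod.coe_unitOfCoprime, hru])
  rwa [h2] at h1

include hr hrR in
theorem cardR (hn : ¬ r ∣ n) : Nat.card (𝓞 K ⧸ R) = r ^ orderOf (r : ZMod n) := by
  have : Fact r.Prime := ⟨hr⟩
  have : R.IsMaximal := hRp.isMaximal (Rne hr R hrR)
  have := liesOver hr R hrR
  rw [← IsCyclotomicExtension.Rat.inertiaDeg_eq_of_not_dvd r K R hn, pow_inertiaDeg]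
  rw [Ideal.absNorm_apply, Submodule.cardQuot_apply]

/-- the Chinese remainder theorem -/
theorem crt (hRm : R.IsMaximal) (S : Finset (ZMod n)ˣ) (t : (ZMod n)ˣ)
    (hS : ∀ u ∈ S, R.map (sa n K u) ≠ R.map (sa n K t)) {M : Ideal (𝓞 K)}
    (hM : IsCoprime (R.map (sa n K t)) M) (g : 𝓞 K) :
    ∃ β : 𝓞 K, β - 1 ∈ M ∧ Ideal.Quotient.mk R (sa n K t⁻¹ β) = Ideal.Quotient.mk R g ∧
      ∀ u ∈ S, Ideal.Quotient.mk R (sa n K u⁻¹ β) = 1 := by
  have hmax : ∀ u : (ZMod n)ˣ, (R.map (sa n K u)).IsMaximal := fun u =>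
    Ideal.map_isMaximal_of_equiv (sa n K u)
  have hc1 : ∀ u ∈ S, IsCoprime (R.map (sa n K t)) (R.map (sa n K u)) := fun u hu =>
    Ideal.isCoprime_iff_sup_eq.2
      (Ideal.IsMaximal.coprime_of_ne (hmax t) (hmax u) (hS u hu).symm)
  have hc2 : IsCoprime (R.map (sa n K t)) (∏ u ∈ S, R.map (sa n K u)) :=
    IsCoprime.prod_right hc1
  have hcop : IsCoprime (R.map (sa n K t)) (M * ∏ u ∈ S, R.map (sa n K u)) := hM.mul_right hc2
  obtain ⟨a, ha, b, hb, hab⟩ := Ideal.isCoprime_iff_exists.1 hcop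
  have hle1 : M * ∏ u ∈ S, R.map (sa n K u) ≤ M := Ideal.mul_le_inf.trans inf_le_left
  have hle2 : M * ∏ u ∈ S, R.map (sa n K u) ≤ ∏ u ∈ S, R.map (sa n K u) :=
    Ideal.mul_le_inf.trans inf_le_right
  have hbM : b ∈ M := hle1 hb
  have hbS : b ∈ ∏ u ∈ S, R.map (sa n K u) := hle2 hb
  refine ⟨1 + b * (sa n K t g - 1), ?_, ?_, fun u hu => ?_⟩
  · rw [add_sub_cancel_left]
    exact Ideal.mul_mem_right _ _ hbM
  · rw [map_add, map_one, map_mul, map_sub, sa_inv, map_one, Ideal.Quotient.eq]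
    have h1 : sa n K t⁻¹ a ∈ R := (mem_map_sa t R a).1 ha
    have h2 : sa n K t⁻¹ b = 1 - sa n K t⁻¹ a := by
      rw [eq_sub_iff_add_eq, ← map_add, add_comm b a, hab, map_one]
    rw [h2]
    have h3 : 1 + (1 - sa n K t⁻¹ a) * (g - 1) - g = - (g - 1) * sa n K t⁻¹ a := by ring
    rw [h3]
    exact Ideal.mul_mem_left _ _ h1
  · have h0 : ∏ u ∈ S, R.map (sa n K u) ≤ R.map (sa n K u) :=
      Ideal.prod_le_inf.trans (Finset.inf_le hu)
    have h1 : b ∈ R.map (sa n K u) := h0 hbS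
    have h2 : sa n K u⁻¹ b ∈ R := (mem_map_sa u R b).1 h1
    rw [← map_one (Ideal.Quotient.mk R), Ideal.Quotient.eq, map_add, map_one, add_sub_cancel_left,
      map_mul]
    exact Ideal.mul_mem_right _ _ h2

/-- the exponents for a weight on the units -/
def ex (r f : ℕ) (ru : (ZMod n)ˣ) (W : (ZMod n)ˣ → ℕ) (t : (ZMod n)ˣ) : ℕ :=
  ∑ j ∈ range f, r ^ (f - j) * W (t * ru ^ j)

include hr hrR in
/-- the value modulo `R` -/
theorem val (ru : (ZMod n)ˣ) (hru : (ru : ZMod n) = (r : ZMod n)) {f : ℕ} (hf : f = orderOf ru)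
    (t : (ZMod n)ˣ) {β : 𝓞 K} {γ : 𝓞 K ⧸ R} (h1 : Ideal.Quotient.mk R (sa n K t⁻¹ β) = γ)
    (h2 : ∀ u : (ZMod n)ˣ, t⁻¹ * u ∉ Subgroup.zpowers ru →
      Ideal.Quotient.mk R (sa n K u⁻¹ β) = 1) (W : (ZMod n)ˣ → ℕ) :
    Ideal.Quotient.mk R (xw n K W β) = γ ^ ex r f ru W t := by
  classical
  have hinj : Set.InjOn (fun j : ℕ => t * ru ^ j) (range f : Set ℕ) := by
    intro i hi j hj hij
    have h3 : ru ^ i = ru ^ j := mul_left_cancel hij
    rw [Finset.mem_coe, Finset.mem_range, hf] at hi hj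
    exact pow_injOn_Iio_orderOf hi hj h3
  unfold xw
  rw [map_prod]
  rw [← Finset.prod_subset (Finset.subset_univ ((range f).image fun j : ℕ => t * ru ^ j))]
  · rw [Finset.prod_image hinj]
    unfold ex
    rw [← Finset.prod_pow_eq_pow_sum]
    refine Finset.prod_congr rfl fun j hj => ?_
    have hj' := Finset.mem_range.1 hj
    have h3 : (t * ru ^ j)⁻¹ = ru ^ (f - j) * t⁻¹ := by
      rw [mul_inv_rev, inv_eq_of_mul_eq_one_left]
      rw [← pow_add, Nat.sub_add_cancel hj'.le, hf, pow_orderOf_eq_one]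
    rw [map_pow, h3, sa_mul, frob_pow hr R hrR ru hru, h1, ← pow_mul]
  · intro u _ hu
    rw [map_pow, h2 u ?_, one_pow]
    intro h3
    apply hu
    rw [Finset.mem_image]
    rw [mem_zpowers_iff_mem_range_orderOf, Finset.mem_image] at h3
    obtain ⟨j, hj, hj'⟩ := h3
    refine ⟨j, by rwa [hf], ?_⟩
    rw [hj', mul_inv_cancel_left]

theorem xw_pow' (V : (ZMod n)ˣ → ℕ) (x : 𝓞 K) (k : ℕ) : xw n K V (x ^ k) = xw n K V x ^ k := by
  induction k with
  | zero => rw [pow_zero, pow_zero, xw_one]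
  | succ k ih => rw [pow_succ, xw_mul, ih, pow_succ]

theorem norm_xw (x : 𝓞 K) : ((Algebra.norm ℤ x : ℤ) : 𝓞 K) = xw n K (fun _ => 1) x := by
  rw [norm_prod n K x]
  unfold xw
  refine Fintype.prod_equiv (Equiv.inv _) _ _ fun u => ?_
  rw [Equiv.inv_apply, inv_inv, pow_one]

end

end Fb

/-- **(F)** the choice of the element `β`. -/
theorem fbeta : S_f := by
  intro n _ K _ _ _ hn hn1 r f hr hrn hf R hRp hrR W t t' hW M A hM hrM hA
  classical
  have hR0 := Fb.Rne hr R hrR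
  have hRm : R.IsMaximal := hRp.isMaximal hR0
  have hcop : r.Coprime n := (Nat.Prime.coprime_iff_not_dvd hr).2 hrn
  obtain ⟨ru, hru⟩ : ∃ ru : (ZMod n)ˣ, (ru : ZMod n) = (r : ZMod n) :=
    ⟨ZMod.unitOfCoprime r hcop, ZMod.coe_unitOfCoprime r hcop⟩
  have hfo : f = orderOf ru := by rw [hf, ← hru, orderOf_units]
  have hchar := Fb.charR hr R hrR
  let _ : Field (𝓞 K ⧸ R) := Ideal.Quotient.field R
  have hfin : Finite (𝓞 K ⧸ R) := Ring.HasFiniteQuotients.finiteQuotient hR0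
  obtain ⟨g, hg⟩ := IsCyclic.exists_generator (α := (𝓞 K ⧸ R)ˣ)
  have hog : orderOf g = r ^ f - 1 := by
    rw [orderOf_eq_card_of_forall_mem_zpowers hg, Nat.card_units, Fb.cardR hr R hrR hrn, ← hf]
  have key : ∀ (s : (ZMod n)ˣ) (c : 𝓞 K), ∃ β : 𝓞 K, β - 1 ∈ span {(M : 𝓞 K)} ∧
      ∀ V : (ZMod n)ˣ → ℕ, Ideal.Quotient.mk R (xw n K V β) =
        Ideal.Quotient.mk R c ^ Fb.ex r f ru V s := by
    intro s c
    obtain ⟨β, h1, h2, h3⟩ := Fb.crt R hRm (univ.filter fun u => s⁻¹ * u ∉ Subgroup.zpowers ru) s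
      (M := span {(M : 𝓞 K)}) (by
        intro u hu h
        rw [Finset.mem_filter] at hu
        apply hu.2
        apply Fb.stabR hr R hrR hrn ru hru
        rw [← map_map_sa, h, map_map_sa, inv_mul_cancel, map_sa_one]) (by
        have h4 : (R.map (sa n K s)).IsMaximal := Ideal.map_isMaximal_of_equiv (sa n K s)
        rw [Ideal.isCoprime_iff_sup_eq]
        by_contra hne
        have h5 := h4.eq_of_le hne le_sup_left
        have h6 : (M : 𝓞 K) ∈ R.map (sa n K s) := by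
          rw [h5]
          exact Ideal.mem_sup_right (Ideal.mem_span_singleton_self _)
        rw [mem_map_sa, map_natCast] at h6
        have h7 := (Nat.isCoprime_iff_coprime.2 ((Nat.Prime.coprime_iff_not_dvd hr).2 hrM))
        obtain ⟨x, y, hxy⟩ := h7
        apply hRp.ne_top
        rw [Ideal.eq_top_iff_one]
        have h8 := congrArg (Int.cast : ℤ → 𝓞 K) hxy
        push_cast at h8
        rw [← h8]
        exact Ideal.add_mem _ (Ideal.mul_mem_left _ _ hrR) (Ideal.mul_mem_left _ _ h6)) c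
    refine ⟨β, h1, fun V => ?_⟩
    exact Fb.val hr R hrR ru hru hfo s h2 (fun u hu => h3 u (by
      rw [Finset.mem_filter]; exact ⟨Finset.mem_univ _, hu⟩)) V
  obtain ⟨a, ha⟩ := Ideal.Quotient.mk_surjective (g : 𝓞 K ⧸ R)
  obtain ⟨b, hb⟩ := Ideal.Quotient.mk_surjective ((g⁻¹ : (𝓞 K ⧸ R)ˣ) : 𝓞 K ⧸ R)
  obtain ⟨β1, h11, h12⟩ := key t a
  obtain ⟨β2, h21, h22⟩ := key t' b
  set β0 : 𝓞 K := β1 * β2 with hβ0
  have hval : ∀ V : (ZMod n)ˣ → ℕ, Ideal.Quotient.mk R (xw n K V β0) =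
      ((g ^ ((Fb.ex r f ru V t : ℤ) - (Fb.ex r f ru V t' : ℤ)) : (𝓞 K ⧸ R)ˣ) : 𝓞 K ⧸ R) := by
    intro V
    rw [hβ0, xw_mul, map_mul, h12, h22, ha, hb, zpow_sub, zpow_natCast, zpow_natCast,
      Units.val_mul, Units.val_pow_eq_pow_val, ← inv_pow, Units.val_pow_eq_pow_val]
  have hnorm : (r : ℤ) ∣ Algebra.norm ℤ β0 - 1 := by
    have h1 := congrArg (Ideal.Quotient.mk R) (Fb.norm_xw (n := n) β0)
    rw [hval] at h1
    have h2 : Fb.ex r f ru (fun _ => 1) t = Fb.ex r f ru (fun _ => 1) t' := rfl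
    rw [h2, sub_self, zpow_zero, Units.val_one, map_intCast] at h1
    rw [← CharP.intCast_eq_zero_iff (𝓞 K ⧸ R) r]
    push_cast
    rw [h1, sub_self]
  have hM0 : β0 - 1 ∈ span {(M : 𝓞 K)} := by
    have e : β0 - 1 = (β1 - 1) * β2 + (β2 - 1) := by rw [hβ0]; ring
    rw [e]
    exact Ideal.add_mem _ (Ideal.mul_mem_right _ _ h11) h21
  have hnA : (r : ℤ) ^ A ∣ Algebra.norm ℤ (β0 ^ (r ^ (A - 1))) - 1 := by
    have h1 := dvd_sub_pow_of_dvd_sub hnorm (A - 1)
    rw [Nat.sub_add_cancel hA, one_pow, ← map_pow] at h1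
    exact h1
  have hr1 : (r : ℤ) ∣ Algebra.norm ℤ (β0 ^ (r ^ (A - 1))) - 1 :=
    (dvd_pow_self _ hA.ne').trans hnA
  set β : 𝓞 K := β0 ^ (r ^ (A - 1)) with hβ
  refine ⟨β, ?_, ?_, ?_, ?_, ?_⟩
  · intro h0
    rw [h0, Algebra.norm_zero, zero_sub, Int.dvd_neg] at hr1
    exact hr.one_lt.ne' (by
      have := Int.natAbs_dvd_natAbs.2 hr1
      simpa using this)
  · have h1 : β0 - 1 ∣ β - 1 := by simpa using sub_dvd_pow_sub_pow β0 1 (r ^ (A - 1))
    obtain ⟨z, hz⟩ := h1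
    rw [hz]
    exact Ideal.mul_mem_right _ _ hM0
  · have h1 : ((Algebra.norm ℤ β - 1 : ℤ) : ZMod (r ^ A)) = 0 := by
      rw [ZMod.intCast_zmod_eq_zero_iff_dvd]
      push_cast
      exact hnA
    push_cast at h1
    exact sub_eq_zero.1 h1
  · rw [Ideal.isCoprime_iff_exists]
    obtain ⟨z, hz⟩ := hr1
    refine ⟨((Algebra.norm ℤ β : ℤ) : 𝓞 K), ?_, -((r : 𝓞 K) * (z : 𝓞 K)), ?_, ?_⟩
    · rw [Ideal.mem_span_singleton, norm_prod n K β]
      have h1 : sa n K 1 β ∣ ∏ u : (ZMod n)ˣ, sa n K u β := Finset.dvd_prod_of_mem _ (mem_univ _)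
      rwa [sa_one] at h1
    · exact neg_mem (Ideal.mul_mem_right _ _ (Ideal.mem_span_singleton_self _))
    · have h1 := congrArg (Int.cast : ℤ → 𝓞 K) hz
      push_cast at h1
      rw [← h1]
      ring
  · rw [hβ, Fb.xw_pow', ← pow_mul, mul_comm, pow_mul, map_pow, map_pow, hval]
    intro h
    have : Fact r.Prime := ⟨hr⟩
    have h1 := Pool.Agent.H916K.pow_one_of_char (q := r) h
    rw [← Units.val_pow_eq_pow_val, ← Units.val_one, Units.val_inj, ← zpow_natCast, ← zpow_mul] at h1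
    have h2 := orderOf_dvd_iff_zpow_eq_one.2 h1
    rw [hog] at h2
    apply hW
    have e1 : ((r ^ f - 1 : ℕ) : ℤ) = (r : ℤ) ^ f - 1 := by
      rw [Nat.cast_sub (Nat.one_le_pow _ _ hr.pos)]
      push_cast
      rfl
    have e2 : ∀ s : (ZMod n)ˣ, EW n r f W s = (Fb.ex r f ru (fun u => W u) s : ℤ) := by
      intro s
      unfold EW Fb.ex
      push_cast
      refine Finset.sum_congr rfl fun j _ => ?_
      rw [hru]
    rw [e1] at h2
    rw [e2, e2, mul_comm]
    exact h2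

end Pool.Agent.NH35.HG
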