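import Pool.Agent.NH35.HG.Odd

/-! The main theorem for classes which are rational over number fields of odd degree over an
abelian number field. -/

set_option autoImplicit false
set_option linter.unusedSectionVars false

namespace Pool.Agent.NH35.HG

open Finset Pool.Agent.H916R2 Pool.Agent.H916K

/-- degree two -/
theorem gen_two {s : Multiset (ZMod 2 × ℤ)} (hs : s ≠ 0) (heven : Even (Multiset.card s))
    (h0 : ∀ z ∈ s, z.1 ≠ 0 ∧ z.2 ≠ 0) (hsum : (s.map Prod.fst).sum = 0) :
    Generated 2 (fun _ => False) (s.map Prod.fst) := by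
  classical
  have hne : s.map Prod.fst ≠ 0 := fun h => hs (Multiset.map_eq_zero.mp h)
  have h01 : (0 : ZMod 2) ∉ s.map Prod.fst := by
    intro h
    obtain ⟨z, hz, hz0⟩ := Multiset.mem_map.mp h
    exact (h0 z hz).1 hz0
  have hcQ := cQ_oddDist (m := 2) (base := fun _ => False)
  have key : ∑ z : ZMod 2, ((s.map Prod.fst).count z : ℤ) • cQ 2 (fun _ => False) z = 0 := by
    refine sum_eq_zero fun z _ => ?_
    have e : z + z = 0 := by revert z; decide
    rw [hcQ.half z e, smul_zero]
  rw [sum_count, cQ_sum, QuotientAddGroup.eq_zero_iff] at key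
  exact generated_of_mem_LL (fun _ h => h.elim) (fun _ h => h.elim) h01
    (by rwa [Multiset.card_map]) hne key

/-- **The main theorem.** -/
theorem main_odd (ho : S_odd) (h1 : S_weak1w) (h2 : S_weak2w) (hA : S_thmA) (hC : S_core) {m : ℕ}
    (hm2 : 2 ≤ m) (h4 : ¬ 4 ∣ m) (hc : (m.primeFactors.erase 2).card ≤ 3)
    {s : Multiset (ZMod m × ℤ)} (hs : s ≠ 0) (heven : Even (Multiset.card s))
    (h0 : ∀ z ∈ s, z.1 ≠ 0 ∧ z.2 ≠ 0) (hsum : (s.map Prod.fst).sum = 0)
    (hR : OddClass m s) : Generated m (fun _ => False) (s.map Prod.fst) := by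
  rcases Nat.eq_or_lt_of_le hm2 with h | h
  · subst h
    exact gen_two hs heven h0 hsum
  · exact main_w h1 h2 hA hC hm2 h4 hc hs heven h0 hsum (ho m h s heven h0 hsum hR)

end Pool.Agent.NH35.HG
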