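import Pool.Agent.H916K.Half

/-! Gauss's lemma for the sum over half of the residues. -/

set_option autoImplicit false

namespace Pool.Agent.NH35.HG

open Finset Pool.Agent.H916K

/-- For a nonsquare `a` the sum of `⟨a u⟩ - ⟨u⟩` over half of the residues is odd. -/
theorem gauss_odd {p : ℕ} [Fact p.Prime] (hp2 : p ≠ 2) {a : ZMod p} (ha : ¬ IsSquare a) :
    ¬ (2 : ℤ) ∣ ∑ u ∈ HS p, (((a * u).val : ℤ) - (u.val : ℤ)) := by
  classical
  have hpp : p.Prime := Fact.out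
  have ha0 : a ≠ 0 := by
    rintro rfl
    exact ha (IsSquare.zero)
  have hai : ¬ IsSquare a⁻¹ := by
    intro h
    exact ha (by simpa using h.inv)
  have hodd2 : p % 2 = 1 := hpp.eq_two_or_odd.resolve_left hp2
  have hq : ((a⁻¹.val : ℕ) : ZMod p) = a⁻¹ := ZMod.natCast_zmod_val _
  have hq0 : ((a⁻¹.val : ℕ) : ZMod p) ≠ 0 := by
    rw [hq]; exact inv_ne_zero ha0
  have hleg : legendreSym p ((a⁻¹.val : ℕ) : ℤ) = -1 := by
    rw [legendreSym.eq_neg_one_iff]
    simpa [hq] using hai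
  let A : ZMod p → ℤ := fun u => if u = 0 then 0 else 2 * (u.val : ℤ) - p
  have hA0 : A 0 = 0 := if_pos rfl
  have hAn : ∀ u, u ≠ 0 → A u = 2 * (u.val : ℤ) - p := fun u hu => if_neg hu
  have hval : ∀ u : ZMod p, u ≠ 0 → ((-u).val : ℤ) = p - u.val := by
    intro u hu
    rw [ZMod.neg_val, if_neg hu, Nat.cast_sub (ZMod.val_lt u).le]
  have hA : ∀ u, A (-u) = - A u := by
    intro u
    by_cases hu : u = 0
    · rw [hu, neg_zero, hA0, neg_zero]
    · rw [hAn u hu, hAn (-u) (neg_ne_zero.mpr hu), hval u hu]; ring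
  have hAodd : ∀ u, u ≠ 0 → ¬ 2 ∣ A u := by
    intro u hu
    rw [hAn u hu]
    omega
  have key := gauss_parity hp2 hq0 hleg hA hAodd
    (y := fun u => (u.val : ℤ) - ((a * u).val : ℤ)) (by
      intro u hu
      rw [hq, inv_inv, hAn u hu, hAn (a * u) (mul_ne_zero ha0 hu)]
      ring)
  intro h
  apply key
  have h1 : ∑ u ∈ HS p, ((u.val : ℤ) - ((a * u).val : ℤ)) =
      - ∑ u ∈ HS p, (((a * u).val : ℤ) - (u.val : ℤ)) := by
    rw [← sum_neg_distrib]
    exact sum_congr rfl fun u _ => by ring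
  rw [h1]
  exact (dvd_neg).mpr h

end Pool.Agent.NH35.HG
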