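import Pool.Agent.NH35.HG.StmG
import Pool.Agent.H916K.LevelThree
import Pool.Agent.NH35.HG.Gs

/-! Relations at level `p * q * r` from the digit criteria. -/

set_option autoImplicit false
set_option linter.unusedSectionVars false

namespace Pool.Agent.NH35.HG

open Finset Pool.Agent.H916R2 Pool.Agent.H916K

section coord
variable {p q r : ℕ} [hp : Fact p.Prime] [hq : Fact q.Prime] [hr : Fact r.Prime]

/-- the criterion in coordinates makes the first face even -/
theorem lev3_coord (hp2 : p ≠ 2) (hq2 : q ≠ 2) (hr2 : r ≠ 2) (hpq : p ≠ q) (hpr : p ≠ r)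
    {x : ZMod p → ZMod q → ZMod r → ℤ} (h : Thin x) {a : ZMod q} (ha0 : a ≠ 0)
    (ha : ¬ (2 : ℤ) ∣ ∑ u ∈ HS q, (((a * u).val : ℤ) - (u.val : ℤ)))
    {g : ZMod p → ZMod q → ZMod r → ℤ} (g1 : ∀ u v w, g (-u) (-v) (-w) = - g u v w)
    (g2 : ∀ u w, g u 0 w = 0)
    (g3 : ∀ v w, g 0 v w = (p : ℤ) * (((a * v).val : ℤ) - (v.val : ℤ)))
    {k : ℤ} (hk : Odd k)
    (hdvd : ((r : ℤ) - 1) ∣ k * r * ∑ u, ∑ v, ∑ w, if w = 0 then 0 else x u v w * g u v w) :
    EvF (FF x) := by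
  classical
  by_contra hE
  have hf := h.face hpq hpr
  set G : ZMod p → ZMod q → ZMod r → ℤ := fun u v w => if w = 0 then 0 else g u v w with hG
  have hGn : ∀ u v w, G (-u) (-v) (-w) = - G u v w := by
    intro u v w
    simp only [hG, neg_eq_zero, g1]
    split_ifs <;> ring
  set S : ℤ := ∑ u, ∑ v, ∑ w, if w = 0 then 0 else x u v w * g u v w with hS
  have hS1 : S = ∑ u, ∑ v, ∑ w, x u v w * G u v w := by
    rw [hS]
    refine sum_congr rfl fun u _ => sum_congr rfl fun v _ => sum_congr rfl fun w _ => ?_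
    simp only [hG]
    split_ifs <;> ring
  have hS2 : 2 * S = ∑ u, ∑ v, ∑ w, Y3 x u v w * G u v w := by
    have e1 : ∑ u, ∑ v, ∑ w, x (-u) (-v) (-w) * G u v w = - S := by
      rw [hS1, ← sum_neg3 (fun u v w => x (-u) (-v) (-w) * G u v w)]
      simp only [neg_neg, hGn, mul_neg, sum_neg_distrib]
    unfold Y3
    simp only [sub_mul, sum_sub_distrib]
    rw [e1, ← hS1]; ring
  set hh : ZMod q → ℤ := fun v => ((a * v).val : ℤ) - (v.val : ℤ) with hhh
  have hhn : ∀ v, v ≠ 0 → hh (-v) = - hh v := by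
    intro v hv
    simp only [hhh]
    have hav : a * v ≠ 0 := mul_ne_zero ha0 hv
    have e1 : (-v).val = q - v.val := by rw [ZMod.neg_val, if_neg hv]
    have e2 : (a * -v).val = q - (a * v).val := by
      rw [mul_neg, ZMod.neg_val, if_neg hav]
    have e3 := (ZMod.val_lt v).le
    have e4 := (ZMod.val_lt (a * v)).le
    rw [e1, e2]
    push_cast [e3, e4]
    ring
  have hS3 : 2 * S = ∑ v ∈ univ.erase (0 : ZMod q), ∑ w ∈ univ.erase (0 : ZMod r),
      FF x v w * ((p : ℤ) * hh v) := by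
    rw [hS2, ← add_sum_erase _ _ (mem_univ (0 : ZMod p))]
    have e1 : ∑ u ∈ univ.erase (0 : ZMod p), ∑ v, ∑ w, Y3 x u v w * G u v w = 0 := by
      refine sum_eq_zero fun u hu => sum_eq_zero fun v _ => sum_eq_zero fun w _ => ?_
      by_cases hw : w = 0
      · simp [hG, hw]
      · by_cases hv : v = 0
        · simp [hG, hv, g2]
        · rw [h.top u v w (ne_of_mem_erase hu) hv hw, zero_mul]
    rw [e1, add_zero, ← add_sum_erase _ _ (mem_univ (0 : ZMod q))]
    have e2 : ∑ w, Y3 x 0 0 w * G 0 0 w = 0 := by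
      refine sum_eq_zero fun w _ => ?_
      simp [hG, g2]
    rw [e2, zero_add]
    refine sum_congr rfl fun v _ => ?_
    rw [← add_sum_erase _ _ (mem_univ (0 : ZMod r))]
    have e3 : Y3 x 0 v 0 * G 0 v 0 = 0 := by simp [hG]
    rw [e3, zero_add]
    refine sum_congr rfl fun w hw => ?_
    simp only [hG, ne_of_mem_erase hw, if_false, g3]
    rfl
  have hS4 : 2 * (2 * S) = ((r : ℤ) - 1) * ((p : ℤ) * ∑ v ∈ univ.erase (0 : ZMod q),
      hh v * fa (FF x) v) := by
    rw [hS3, mul_sum, mul_sum, mul_sum]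
    refine sum_congr rfl fun v hv => ?_
    rw [← sum_mul, ← mul_assoc, hf.sum_second (ne_of_mem_erase hv)]
    ring
  set T : ℤ := ∑ v ∈ HS q, hh v * fa (FF x) v with hT
  have hS5 : 2 * S = ((r : ℤ) - 1) * ((p : ℤ) * T) := by
    have e1 : ∑ v ∈ univ.erase (0 : ZMod q), hh v * fa (FF x) v = 2 * T := by
      rw [(half_HS hq2).sum_all, hT, mul_sum]
      refine sum_congr rfl fun v hv => ?_
      rw [hhn v ((half_HS hq2).ne v hv), hf.fa_neg]
      ring
    rw [e1] at hS4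
    have : 2 * (2 * S) = 2 * (((r : ℤ) - 1) * ((p : ℤ) * T)) := by rw [hS4]; ring
    linarith
  have hTodd : Odd T := by
    rw [← Int.not_even_iff_odd, even_iff_two_dvd]
    intro h2
    apply ha
    have e1 : (2 : ℤ) ∣ ∑ v ∈ HS q, (hh v * fa (FF x) v - hh v) := by
      refine dvd_sum fun v hv => ?_
      have h3 : ¬ 2 ∣ fa (FF x) v := fun h4 => hE ((hf.fa_even ((half_HS hq2).ne v hv)).mp h4)
      have h4 : (2 : ℤ) ∣ fa (FF x) v - 1 := by omega
      have h5 : hh v * fa (FF x) v - hh v = hh v * (fa (FF x) v - 1) := by ring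
      rw [h5]
      exact Dvd.dvd.mul_left h4 _
    rw [sum_sub_distrib] at e1
    exact (dvd_sub_right h2).mp e1
  obtain ⟨j, hj⟩ := hdvd
  have hr1 : ((r : ℤ) - 1) ≠ 0 := by
    have := hr.out.two_le
    omega
  have e1 : ((r : ℤ) - 1) * (k * r * (p * T)) = ((r : ℤ) - 1) * (2 * j) := by
    calc ((r : ℤ) - 1) * (k * r * (p * T)) = k * r * (((r : ℤ) - 1) * (p * T)) := by ring
      _ = k * r * (2 * S) := by rw [hS5]
      _ = 2 * (k * r * S) := by ring
      _ = _ := by rw [hj]; ring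
  have e2 := mul_left_cancel₀ hr1 e1
  have op : Odd (p : ℤ) := by exact_mod_cast hp.out.odd_of_ne_two hp2
  have or' : Odd (r : ℤ) := by exact_mod_cast hr.out.odd_of_ne_two hr2
  have e3 : Odd (k * r * (p * T)) := (hk.mul or').mul (op.mul hTodd)
  rw [e2] at e3
  exact (Int.not_even_iff_odd.mpr e3) (even_two_mul j)

end coord

section units

/-- two units which agree at `P` and differ by `a` at `Q` -/
theorem lev3_units {P Q n : ℕ} [hP : Fact P.Prime] [hQ : Fact Q.Prime] (hPQ : P ≠ Q)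
    (hn : P * Q = n) {a : ZMod Q} (ha0 : a ≠ 0) : ∃ t t' : (ZMod n)ˣ,
    (∀ z : ℕ, (z : ZMod Q) = 0 → ((((t : ZMod n) * (z : ZMod n)).val : ℤ) -
      (((t' : ZMod n) * (z : ZMod n)).val : ℤ)) = 0) ∧
    (∀ z : ℕ, (z : ZMod P) = 0 → ((((t : ZMod n) * (z : ZMod n)).val : ℤ) -
      (((t' : ZMod n) * (z : ZMod n)).val : ℤ)) =
        (P : ℤ) * (((a * (z : ZMod Q)).val : ℤ) - ((z : ZMod Q).val : ℤ))) := by
  subst hn
  have hPQ' : (P : ZMod Q) ≠ 0 := pq_ne (p := Q) (q := P) (fun h => hPQ h.symm)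
  set e := ee hPQ with he
  have hunit : ∀ b : ZMod Q, b ≠ 0 → ∃ t : (ZMod (P * Q))ˣ, e (t : ZMod (P * Q)) = (1, b) := by
    intro b hb
    refine ⟨Units.map (e.symm : ZMod P × ZMod Q →* ZMod (P * Q))
      (MulEquiv.prodUnits.symm (1, Units.mk0 b hb)), ?_⟩
    rw [Units.coe_map]
    exact e.apply_symm_apply _
  obtain ⟨t, ht⟩ := hunit ((P : ZMod Q) * a) (mul_ne_zero hPQ' ha0)
  obtain ⟨t', ht'⟩ := hunit (P : ZMod Q) hPQ'
  have hval : ∀ (b : ZMod Q) (y : ZMod (P * Q)), e y = (0, (P : ZMod Q) * b) →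
      (y.val : ℤ) = (P : ℤ) * (b.val : ℤ) := by
    intro b y hy
    have h1 : y = ((P * b.val : ℕ) : ZMod (P * Q)) := by
      apply e.injective
      rw [hy, he, ee_natCast]
      push_cast
      rw [ZMod.natCast_zmod_val]
      simp
    have h2 : P * b.val < P * Q := Nat.mul_lt_mul_of_pos_left (ZMod.val_lt b) hP.out.pos
    rw [h1, ZMod.val_natCast, Nat.mod_eq_of_lt h2]
    push_cast
    rfl
  refine ⟨t, t', fun z hz => ?_, fun z hz => ?_⟩
  · have h1 : (t : ZMod (P * Q)) * (z : ZMod (P * Q)) = (t' : ZMod (P * Q)) * (z : ZMod (P * Q)) := by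
      apply e.injective
      rw [map_mul, map_mul, ht, ht', he, ee_natCast, hz]
      simp
    rw [h1, sub_self]
  · have h1 : e ((t : ZMod (P * Q)) * (z : ZMod (P * Q))) = (0, (P : ZMod Q) * (a * (z : ZMod Q))) := by
      rw [map_mul, ht, he, ee_natCast, hz]
      simp [mul_assoc]
    have h2 : e ((t' : ZMod (P * Q)) * (z : ZMod (P * Q))) = (0, (P : ZMod Q) * (z : ZMod Q)) := by
      rw [map_mul, ht', he, ee_natCast, hz]
      simp
    rw [hval _ _ h1, hval _ _ h2]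
    ring

/-- the difference is odd -/
theorem lev3_neg {n m : ℕ} [NeZero n] [NeZero m] (hnm : n ∣ m) (t t' : (ZMod n)ˣ) (b : ZMod m) :
    ((((t : ZMod n) * (((-b).val : ℕ) : ZMod n)).val : ℤ) -
      (((t' : ZMod n) * (((-b).val : ℕ) : ZMod n)).val : ℤ)) =
    - ((((t : ZMod n) * ((b.val : ℕ) : ZMod n)).val : ℤ) -
      (((t' : ZMod n) * ((b.val : ℕ) : ZMod n)).val : ℤ)) := by
  have h1 : (((-b).val : ℕ) : ZMod n) = - ((b.val : ℕ) : ZMod n) := by
    rw [ZMod.natCast_val, ZMod.natCast_val, ZMod.cast_neg hnm]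
  rw [h1]
  set y := ((b.val : ℕ) : ZMod n)
  by_cases hy : y = 0
  · simp [hy]
  · have e1 : ∀ s : (ZMod n)ˣ, (((s : ZMod n) * -y).val : ℤ) = (n : ℤ) - (((s : ZMod n) * y).val : ℤ) := by
      intro s
      have h2 : (s : ZMod n) * y ≠ 0 := by
        intro h3
        exact hy ((Units.mul_right_eq_zero s).mp h3)
      have h3 := (ZMod.val_lt ((s : ZMod n) * y)).le
      rw [mul_neg, ZMod.neg_val, if_neg h2]
      push_cast [h3]
      ring
    rw [e1, e1]
    ring

end units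

section main
variable {p q r : ℕ} [hp : Fact p.Prime] [hq : Fact q.Prime] [hr : Fact r.Prime]
variable (hpq : p ≠ q) (hpr : p ≠ r) (hqr : q ≠ r)

theorem lev3_val (b : ZMod (p * q * r)) : ((b.val : ℕ) : ZMod p) = (e3 hpq hpr hqr b).1.1 ∧
    ((b.val : ℕ) : ZMod q) = (e3 hpq hpr hqr b).1.2 ∧
    ((b.val : ℕ) : ZMod r) = (e3 hpq hpr hqr b).2 := by
  have h1 := e3_natCast hpq hpr hqr b.val
  rw [ZMod.natCast_zmod_val] at h1
  rw [h1]
  exact ⟨rfl, rfl, rfl⟩

/-- the function with given coordinates -/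
noncomputable def l3x (x' : ZMod p → ZMod q → ZMod r → ℤ) (b : ZMod (p * q * r)) : ℤ :=
  x' (e3 hpq hpr hqr b).1.1 (e3 hpq hpr hqr b).1.2 (e3 hpq hpr hqr b).2

theorem l3x_symm (x' : ZMod p → ZMod q → ZMod r → ℤ) (u : ZMod p) (v : ZMod q) (w : ZMod r) :
    l3x hpq hpr hqr x' ((e3 hpq hpr hqr).symm ((u, v), w)) = x' u v w := by
  unfold l3x
  rw [RingEquiv.apply_symm_apply]

theorem l3x_sum {x : ZMod (p * q * r) → ℤ} {x' : ZMod p → ZMod q → ZMod r → ℤ}
    (key : ∀ {Q : Type} [AddCommGroup Q] {c : ZMod p → ZMod q → ZMod r → Q}, D3 c →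
      ∑ u, ∑ v, ∑ w, th hpq hpr hqr x u v w • c u v w = ∑ u, ∑ v, ∑ w, x' u v w • c u v w)
    {Q : Type} [AddCommGroup Q] {c : ZMod (p * q * r) → Q} (hc : OddDist c) :
    ∑ b, x b • c b = ∑ b, l3x hpq hpr hqr x' b • c b := by
  rw [sum_th hpq hpr hqr (fun b => x b • c b), sum_th hpq hpr hqr
    (fun b => l3x hpq hpr hqr x' b • c b)]
  have h1 := key (th_d3 hpq hpr hqr hc)
  refine Eq.trans ?_ (h1.trans ?_)
  · rfl
  · refine sum_congr rfl fun u _ => sum_congr rfl fun v _ => sum_congr rfl fun w _ => ?_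
    unfold th
    beta_reduce
    rw [l3x_symm]

theorem lev3_saw {m : ℕ} [NeZero m] (t : (ZMod m)ˣ) :
    OddDist (fun a : ZMod m => saw ((t : ZMod m) * a)) := by
  refine ⟨?_, ?_, ?_⟩
  · intro a; simp only [mul_neg, saw_neg]
  · intro a ha
    apply saw_half
    rw [← mul_add, ha, mul_zero]
  · intro p d _ hpd a
    exact saw_dist_unit hpd t a

theorem l3x_rel {x : ZMod (p * q * r) → ℤ} (hx : Rel x) {x' : ZMod p → ZMod q → ZMod r → ℤ}
    (key : ∀ {Q : Type} [AddCommGroup Q] {c : ZMod p → ZMod q → ZMod r → Q}, D3 c →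
      ∑ u, ∑ v, ∑ w, th hpq hpr hqr x u v w • c u v w = ∑ u, ∑ v, ∑ w, x' u v w • c u v w) :
    Rel (l3x hpq hpr hqr x') := by
  intro t
  have h1 := l3x_sum hpq hpr hqr key (lev3_saw t)
  simp only [smul_eq_mul] at h1
  rw [← h1]
  exact hx t

/-- the criterion for the reduced relation -/
theorem l3x_crit (hd : S_dd) (hf : S_fh) {x : ZMod (p * q * r) → ℤ} (hx : Rel x)
    {x' : ZMod p → ZMod q → ZMod r → ℤ}
    (key : ∀ {Q : Type} [AddCommGroup Q] {c : ZMod p → ZMod q → ZMod r → Q}, D3 c →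
      ∑ u, ∑ v, ∑ w, th hpq hpr hqr x u v w • c u v w = ∑ u, ∑ v, ∑ w, x' u v w • c u v w)
    (hodd : Odd (p * q * r)) {l n : ℕ} (hl : l.Prime) (hl2 : l ≠ 2) (hln : ¬ l ∣ n) (hno : Odd n)
    (hn1 : 1 < n) (hm : l * n = p * q * r) (hc : CDs l n x) (t t' : (ZMod n)ˣ) :
    ∃ k : ℤ, Odd k ∧ ((l : ℤ) - 1) ∣ k * l * FH l n (l3x hpq hpr hqr x') t t' := by
  obtain ⟨f, hf0, hf1, hc⟩ := hc
  obtain ⟨k, hk, hsum⟩ := hc t t'
  refine ⟨k, hk, ?_⟩
  refine hf l n f (p * q * r) hl hln hl2 hno hn1 hf0 hf1 hm _ (l3x_rel hpq hpr hqr hx key) t t' k ?_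
  rw [← l3x_sum hpq hpr hqr key (hd l 1 n f (p * q * r) hl one_pos hln (by rw [pow_one, hm]) hodd
    hf0 hf1 t t')]
  exact hsum

end main

/-- **Relations at level `p * q * r`.** -/
theorem three (hd : S_dd) (hf : S_fh) : S_three := by
  intro p q r hp hq hr hm0 hp2 hq2 hr2 hpq hpr hqr x hx cr cp cq Q _ c hc
  classical
  have hqp : q ≠ p := fun h => hpq h.symm
  have hrp : r ≠ p := fun h => hpr h.symm
  have hrq : r ≠ q := fun h => hqr h.symm
  have op : Odd p := hp.out.odd_of_ne_two hp2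
  have oq : Odd q := hq.out.odd_of_ne_two hq2
  have or' : Odd r := hr.out.odd_of_ne_two hr2
  have hodd : Odd (p * q * r) := (op.mul oq).mul or'
  obtain ⟨x', hx', htop, key⟩ := reduce3 hp2 hq2 hr2 hpq hpr hqr (rel_three hpq hpr hqr hx)
  have hT : Thin x' := ⟨hx', htop⟩
  have hns : ∀ (l : ℕ) [Fact l.Prime], l ≠ 2 → ∃ a : ZMod l, a ≠ 0 ∧
      ¬ (2 : ℤ) ∣ ∑ u ∈ HS l, (((a * u).val : ℤ) - (u.val : ℤ)) := by
    intro l _ hl2
    obtain ⟨a, ha⟩ := FiniteField.exists_nonsquare (F := ZMod l) (by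
      rw [ZMod.ringChar_zmod_n]; exact hl2)
    exact ⟨a, fun h => ha (h ▸ IsSquare.zero), gauss_odd hl2 ha⟩
  have hone : ∀ {a b : ℕ}, a.Prime → b.Prime → 1 < a * b := fun ha hb =>
    Nat.one_lt_mul_iff.mpr ⟨ha.pos, hb.pos, Or.inl ha.one_lt⟩
  have hnd : ∀ {l a b : ℕ}, l.Prime → a.Prime → b.Prime → l ≠ a → l ≠ b → ¬ l ∣ a * b := by
    intro l a b hl ha hb h1 h2 h3
    rcases (Nat.Prime.dvd_mul hl).mp h3 with h | h
    · exact h1 ((Nat.prime_dvd_prime_iff_eq hl ha).mp h)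
    · exact h2 ((Nat.prime_dvd_prime_iff_eq hl hb).mp h)
  -- the first face
  have E0 : EvF (FF x') := by
    obtain ⟨a, ha0, ha⟩ := hns q hq2
    obtain ⟨t, t', h1, h2⟩ := lev3_units (P := p) (Q := q) hpq rfl ha0
    obtain ⟨k, hk, hdvd⟩ := l3x_crit hpq hpr hqr hd hf hx key hodd hr.out hr2
      (hnd hr.out hp.out hq.out hrp hrq) (op.mul oq) (hone hp.out hq.out) (by ring) cr t t'
    refine lev3_coord hp2 hq2 hr2 hpq hpr hT ha0 ha
      (g := fun u v w => ((((t : ZMod (p * q)) *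
        ((((e3 hpq hpr hqr).symm ((u, v), w)).val : ℕ) : ZMod (p * q))).val : ℤ) -
          (((t' : ZMod (p * q)) *
        ((((e3 hpq hpr hqr).symm ((u, v), w)).val : ℕ) : ZMod (p * q))).val : ℤ)))
      ?_ ?_ ?_ hk ?_
    · intro u v w
      have h3 : (e3 hpq hpr hqr).symm ((-u, -v), -w) = - (e3 hpq hpr hqr).symm ((u, v), w) := by
        rw [← map_neg]; rfl
      simp only [h3]
      exact lev3_neg (Dvd.intro r rfl) t t' _
    · intro u w
      refine h1 _ ?_
      rw [(lev3_val hpq hpr hqr _).2.1, RingEquiv.apply_symm_apply]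
    · intro v w
      have h3 := h2 ((e3 hpq hpr hqr).symm ((0, v), w)).val (by
        rw [(lev3_val hpq hpr hqr _).1, RingEquiv.apply_symm_apply])
      rw [(lev3_val hpq hpr hqr _).2.1, RingEquiv.apply_symm_apply] at h3
      exact h3
    · have h3 : FH r (p * q) (l3x hpq hpr hqr x') t t' = ∑ u, ∑ v, ∑ w, if w = 0 then 0 else
          x' u v w * ((((t : ZMod (p * q)) *
            ((((e3 hpq hpr hqr).symm ((u, v), w)).val : ℕ) : ZMod (p * q))).val : ℤ) -
              (((t' : ZMod (p * q)) *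
            ((((e3 hpq hpr hqr).symm ((u, v), w)).val : ℕ) : ZMod (p * q))).val : ℤ)) := by
        unfold FH
        rw [sum_th hpq hpr hqr]
        refine sum_congr rfl fun u _ => sum_congr rfl fun v _ => sum_congr rfl fun w _ => ?_
        unfold th
        beta_reduce
        rw [l3x_symm, (lev3_val hpq hpr hqr _).2.2, RingEquiv.apply_symm_apply]
      rw [← h3]
      exact hdvd
  -- the second face
  have E1 : EvF (FF (rt x')) := by
    obtain ⟨a, ha0, ha⟩ := hns r hr2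
    obtain ⟨t, t', h1, h2⟩ := lev3_units (P := q) (Q := r) hqr rfl ha0
    obtain ⟨k, hk, hdvd⟩ := l3x_crit hpq hpr hqr hd hf hx key hodd hp.out hp2
      (hnd hp.out hq.out hr.out hpq hpr) (oq.mul or') (hone hq.out hr.out) (by ring) cp t t'
    refine lev3_coord hq2 hr2 hp2 hqr hqp hT.rot ha0 ha
      (g := fun v w u => ((((t : ZMod (q * r)) *
        ((((e3 hpq hpr hqr).symm ((u, v), w)).val : ℕ) : ZMod (q * r))).val : ℤ) -
          (((t' : ZMod (q * r)) *
        ((((e3 hpq hpr hqr).symm ((u, v), w)).val : ℕ) : ZMod (q * r))).val : ℤ)))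
      ?_ ?_ ?_ hk ?_
    · intro v w u
      have h3 : (e3 hpq hpr hqr).symm ((-u, -v), -w) = - (e3 hpq hpr hqr).symm ((u, v), w) := by
        rw [← map_neg]; rfl
      simp only [h3]
      exact lev3_neg (Dvd.intro_left p (by ring)) t t' _
    · intro v u
      refine h1 _ ?_
      rw [(lev3_val hpq hpr hqr _).2.2, RingEquiv.apply_symm_apply]
    · intro w u
      have h3 := h2 ((e3 hpq hpr hqr).symm ((u, 0), w)).val (by
        rw [(lev3_val hpq hpr hqr _).2.1, RingEquiv.apply_symm_apply])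
      rw [(lev3_val hpq hpr hqr _).2.2, RingEquiv.apply_symm_apply] at h3
      exact h3
    · have h3 : FH p (q * r) (l3x hpq hpr hqr x') t t' = ∑ v, ∑ w, ∑ u, if u = 0 then 0 else
          (rt x') v w u * ((((t : ZMod (q * r)) *
            ((((e3 hpq hpr hqr).symm ((u, v), w)).val : ℕ) : ZMod (q * r))).val : ℤ) -
              (((t' : ZMod (q * r)) *
            ((((e3 hpq hpr hqr).symm ((u, v), w)).val : ℕ) : ZMod (q * r))).val : ℤ)) := by
        unfold FH
        rw [sum_th hpq hpr hqr, ← sum_rot]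
        refine sum_congr rfl fun v _ => sum_congr rfl fun w _ => sum_congr rfl fun u _ => ?_
        unfold th
        beta_reduce
        rw [l3x_symm, (lev3_val hpq hpr hqr _).1, RingEquiv.apply_symm_apply]
        rfl
      rw [← h3]
      exact hdvd
  -- the third face
  have E2 : EvF (FF (rt (rt x'))) := by
    obtain ⟨a, ha0, ha⟩ := hns p hp2
    obtain ⟨t, t', h1, h2⟩ := lev3_units (P := r) (Q := p) (n := p * r) hrp (mul_comm r p) ha0
    obtain ⟨k, hk, hdvd⟩ := l3x_crit hpq hpr hqr hd hf hx key hodd hq.out hq2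
      (hnd hq.out hp.out hr.out hqp hqr) (op.mul or') (hone hp.out hr.out) (by ring) cq t t'
    refine lev3_coord hr2 hp2 hq2 hrp hrq hT.rot.rot ha0 ha
      (g := fun w u v => ((((t : ZMod (p * r)) *
        ((((e3 hpq hpr hqr).symm ((u, v), w)).val : ℕ) : ZMod (p * r))).val : ℤ) -
          (((t' : ZMod (p * r)) *
        ((((e3 hpq hpr hqr).symm ((u, v), w)).val : ℕ) : ZMod (p * r))).val : ℤ)))
      ?_ ?_ ?_ hk ?_
    · intro w u v
      have h3 : (e3 hpq hpr hqr).symm ((-u, -v), -w) = - (e3 hpq hpr hqr).symm ((u, v), w) := by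
        rw [← map_neg]; rfl
      simp only [h3]
      exact lev3_neg (Dvd.intro_left q (by ring)) t t' _
    · intro w v
      refine h1 _ ?_
      rw [(lev3_val hpq hpr hqr _).1, RingEquiv.apply_symm_apply]
    · intro u v
      have h3 := h2 ((e3 hpq hpr hqr).symm ((u, v), 0)).val (by
        rw [(lev3_val hpq hpr hqr _).2.2, RingEquiv.apply_symm_apply])
      rw [(lev3_val hpq hpr hqr _).1, RingEquiv.apply_symm_apply] at h3
      exact h3
    · have h3 : FH q (p * r) (l3x hpq hpr hqr x') t t' = ∑ w, ∑ u, ∑ v, if v = 0 then 0 else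
          (rt (rt x')) w u v * ((((t : ZMod (p * r)) *
            ((((e3 hpq hpr hqr).symm ((u, v), w)).val : ℕ) : ZMod (p * r))).val : ℤ) -
              (((t' : ZMod (p * r)) *
            ((((e3 hpq hpr hqr).symm ((u, v), w)).val : ℕ) : ZMod (p * r))).val : ℤ)) := by
        unfold FH
        rw [sum_th hpq hpr hqr, ← sum_rot, ← sum_rot]
        refine sum_congr rfl fun w _ => sum_congr rfl fun u _ => sum_congr rfl fun v _ => ?_
        unfold th
        beta_reduce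
        rw [l3x_symm, (lev3_val hpq hpr hqr _).2.1, RingEquiv.apply_symm_apply]
        rfl
      rw [← h3]
      exact hdvd
  have h1 := hT.zero_sum hp2 hq2 hr2 hpq hpr hqr E0 E1 E2 (th_d3 hpq hpr hqr hc)
  rw [← key (th_d3 hpq hpr hqr hc)] at h1
  rw [sum_th hpq hpr hqr]
  exact h1

end Pool.Agent.NH35.HG
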