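import Pool.Agent.NH35.HG.Jac

/-! Gauss sums over prime fields as elements of a cyclotomic field. -/

set_option autoImplicit false
set_option linter.unusedSectionVars false
open NumberField NumberField.InfinitePlace IsDedekindDomain
open Module nonZeroDivisors Ideal IsCyclotomicExtension

namespace Pool.Agent.NH35.HG
open Pool.Agent.NH35.HD (sa xw iw zt zt_prim map_ztm sa_root distinct mem_map_sa absNorm_map_sa
  absNorm_nat map_sa_inj sa_one sa_mul norm_prod map_map_sa)
open Pool.Agent.H916K (AI)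

section
variable {n : ℕ} [NeZero n] {K : Type} [Field K] [NumberField K] [IsCyclotomicExtension {n} ℚ K]

theorem iw_add (W W' : (ZMod n)ˣ → ℕ) (I : Ideal (𝓞 K)) :
    iw n K W I * iw n K W' I = iw n K (fun t => W t + W' t) I := by
  unfold iw
  rw [← Finset.prod_mul_distrib]
  exact Finset.prod_congr rfl fun t _ => (pow_add _ _ _).symm

theorem iw_zero (I : Ideal (𝓞 K)) : iw n K (fun _ => 0) I = ⊤ := by
  unfold iw
  simp

theorem iw_smul (W : (ZMod n)ˣ → ℕ) (I : Ideal (𝓞 K)) (k : ℕ) :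
    iw n K W I ^ k = iw n K (fun t => k * W t) I := by
  unfold iw
  rw [← Finset.prod_pow]
  refine Finset.prod_congr rfl fun t _ => ?_
  rw [← pow_mul, mul_comm]

theorem iw_sum {ι : Type} (S : Finset ι) (W : ι → (ZMod n)ˣ → ℕ) (I : Ideal (𝓞 K)) :
    ∏ i ∈ S, iw n K (W i) I = iw n K (fun t => ∑ i ∈ S, W i t) I := by
  unfold iw
  rw [Finset.prod_comm]
  refine Finset.prod_congr rfl fun t _ => ?_
  rw [Finset.prod_pow_eq_pow_sum]

theorem iw_map (W : (ZMod n)ˣ → ℕ) (I : Ideal (𝓞 K)) :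
    (iw n K W I).map (sa n K (-1)) = iw n K (fun t => W (-t)) I := by
  unfold iw
  rw [show (∏ t : (ZMod n)ˣ, I.map (sa n K t⁻¹) ^ W t).map (sa n K (-1)) =
    Ideal.mapHom (sa n K (-1)) (∏ t : (ZMod n)ˣ, I.map (sa n K t⁻¹) ^ W t) from rfl, map_prod]
  refine Fintype.prod_equiv (Equiv.neg _) _ _ fun t => ?_
  rw [map_pow]
  change (I.map (sa n K t⁻¹)).map (sa n K (-1)) ^ W t = _
  have e : (-1 : (ZMod n)ˣ) * t⁻¹ = (-t)⁻¹ := by rw [inv_neg, neg_one_mul]
  rw [map_map_sa, e]
  simp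

variable (n) in
include n in
theorem tau_inj (τ : 𝓞 K →+* AI) : Function.Injective τ := by
  rw [injective_iff_map_eq_zero]
  intro x hx
  have h2 := congrArg τ (norm_prod n K x)
  rw [map_intCast, map_prod, Finset.prod_eq_zero (i := 1) (Finset.mem_univ _)
    (by rw [sa_one, hx])] at h2
  have h3 : ((Algebra.norm ℤ x : ℤ) : ℂ) = 0 := by
    have := congrArg (algebraMap AI ℂ) h2
    rwa [map_intCast, map_zero] at this
  exact Algebra.norm_eq_zero_iff.1 (by exact_mod_cast h3)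

variable {F : Type} [Field F] [Fintype F] {χ : MulChar F (𝓞 K)}

theorem weight_sum (a : ZMod n) : ∀ N : ℕ, 1 ≤ N →
    (n : ℤ) * ∑ j ∈ Finset.Ico 1 N, (if a.val + ((j : ZMod n) * a).val < n then (1 : ℤ) else 0) =
      (((N : ZMod n) * a).val : ℤ) - N * a.val + n * (N - 1) := by
  intro N hN
  induction N, hN using Nat.le_induction with
  | base => simp
  | succ N hN ih =>
      rw [Finset.sum_Ico_succ_top hN, mul_add, ih]
      have h1 : (((N + 1 : ℕ) : ZMod n) * a) = (N : ZMod n) * a + a := by push_cast; ring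
      rw [h1, ZMod.val_add]
      have h2 := ZMod.val_lt a
      have h3 := ZMod.val_lt ((N : ZMod n) * a)
      split_ifs with h
      · rw [Nat.mod_eq_of_lt (by omega)]
        push_cast; ring
      · have h4 : (((N : ZMod n) * a).val + a.val) % n = ((N : ZMod n) * a).val + a.val - n := by
          rw [Nat.mod_eq_sub_mod (by omega), Nat.mod_eq_of_lt (by omega)]
        rw [h4, Nat.cast_sub (by omega)]
        push_cast; ring

theorem weight_id {a : ZMod n} (ha : a ≠ 0) {d k : ℕ} (hd : 2 ≤ d) (hda : (d : ZMod n) * a = 0)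
    (hk : k * d = n) :
    k * (1 + ∑ j ∈ Finset.Ico 1 (d - 1), (if a.val + ((j : ZMod n) * a).val < n then 1 else 0)) =
      (-a).val := by
  have h1 := weight_sum a (d - 1) (by omega)
  have h2 : (((d - 1 : ℕ) : ZMod n) * a) = -a := by
    rw [Nat.cast_sub (by omega), Nat.cast_one, sub_mul, hda]; ring
  have : NeZero a := ⟨ha⟩
  have h3 : (-a).val = n - a.val := ZMod.val_neg_of_ne_zero a
  have h4 := ZMod.val_lt a
  rw [h2, h3, Nat.cast_sub h4.le, Nat.cast_sub (by omega)] at h1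
  rw [h3]
  have h5 : ((k : ℤ) * d) = n := by exact_mod_cast hk
  have h8 : (((∑ j ∈ Finset.Ico 1 (d - 1),
      (if a.val + ((j : ZMod n) * a).val < n then 1 else 0) : ℕ)) : ℤ) =
      ∑ j ∈ Finset.Ico 1 (d - 1), (if a.val + ((j : ZMod n) * a).val < n then (1 : ℤ) else 0) := by
    rw [Nat.cast_sum]
    refine Finset.sum_congr rfl fun j _ => ?_
    split_ifs <;> simp
  generalize (∑ j ∈ Finset.Ico 1 (d - 1),
      (if a.val + ((j : ZMod n) * a).val < n then 1 else 0) : ℕ) = T at h8 ⊢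
  rw [← h8] at h1
  have hd0 : (d : ℤ) ≠ 0 := by omega
  zify [h4.le]
  apply mul_left_cancel₀ hd0
  push_cast at h1 ⊢
  linear_combination h1 + (1 + (T : ℤ)) * h5

open Classical in
/-- the `n`-th power of the negative of the Gauss sum -/
noncomputable def gG (n : ℕ) [NeZero n] {K : Type} [Field K] [NumberField K]
    [IsCyclotomicExtension {n} ℚ K] {F : Type} [Field F] [Fintype F] (χ : MulChar F (𝓞 K))
    (v : ZMod n) : 𝓞 K :=
  if v = 0 then 1 else
    -(((Fintype.card F : ℕ) : 𝓞 K) * ∏ j ∈ Finset.Ico 1 (orderOf (χ ^ v.val) - 1),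
      jacobiSum (χ ^ v.val) ((χ ^ v.val) ^ j)) ^ (n / orderOf (χ ^ v.val))

theorem neg_one_val (hn : Odd n) (hχ : χ ^ n = 1) (k : ℕ) : (χ ^ k) (-1) = 1 := by
  have h0 : (-1 : F) ≠ 0 := neg_ne_zero.2 one_ne_zero
  have h1 : χ (-1) = 1 := by
    have h2 : χ (-1) ^ 2 = 1 := by
      rw [← map_pow, neg_one_sq, map_one]
    have h3 := jchi_pow hχ h0
    obtain ⟨j, hj⟩ := hn
    rw [hj, pow_add, pow_mul, h2, one_pow, one_mul, pow_one] at h3
    exact h3
  rw [show (-1 : F) = ((-1 : Fˣ) : F) by simp, MulChar.pow_apply_coe]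
  simp only [Units.val_neg, Units.val_one]
  rw [h1, one_pow]

theorem ord_facts (ho : orderOf χ = n) {v : ZMod n} (hv : v ≠ 0) :
    2 ≤ orderOf (χ ^ v.val) ∧ orderOf (χ ^ v.val) ∣ n ∧
      (∀ j : ℕ, 0 < j → j < orderOf (χ ^ v.val) → (j : ZMod n) * v ≠ 0) ∧
      ((orderOf (χ ^ v.val) : ℕ) : ZMod n) * v = 0 := by
  have hχ : χ ^ n = 1 := by rw [← ho]; exact pow_orderOf_eq_one χ
  have h1 : orderOf (χ ^ v.val) ∣ n := by
    have := orderOf_pow_dvd (x := χ) v.val
    rwa [ho] at this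
  have h0 : 0 < orderOf (χ ^ v.val) := Nat.pos_of_dvd_of_pos h1 (NeZero.pos n)
  have hmul : ∀ j : ℕ, (j : ZMod n) * v = 0 ↔ (χ ^ v.val) ^ j = 1 := by
    intro j
    rw [← pow_mul, ← orderOf_dvd_iff_pow_eq_one, ho]
    have : (j : ZMod n) * v = ((v.val * j : ℕ) : ZMod n) := by
      push_cast; rw [ZMod.natCast_zmod_val]; ring
    rw [this, ZMod.natCast_eq_zero_iff]
  refine ⟨?_, h1, ?_, (hmul _).2 (pow_orderOf_eq_one _)⟩
  · have h2 : orderOf (χ ^ v.val) ≠ 1 := fun h => jpow_ne ho hv (orderOf_eq_one_iff.1 h)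
    omega
  · intro j hj hjd h
    exact Nat.not_dvd_of_pos_of_lt hj hjd (orderOf_dvd_of_pow_eq_one ((hmul j).1 h))

theorem jac_jq (ho : orderOf χ = n) (v : ZMod n) (j : ℕ) :
    jacobiSum (χ ^ v.val) ((χ ^ v.val) ^ j) = jq v ((j : ZMod n) * v) χ := by
  have hχ : χ ^ n = 1 := by rw [← ho]; exact pow_orderOf_eq_one χ
  unfold jq
  congr 1
  rw [← pow_mul, ZMod.val_mul, ZMod.val_natCast, Nat.mod_mul_mod, mul_comm, pow_eq_pow_mod _ hχ]

theorem gG_map (hn : Odd n) (ho : orderOf χ = n) (τ : 𝓞 K →+* AI) {ψ : AddChar F AI}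
    (hψ : ψ ≠ 1) (v : ZMod n) :
    τ (gG n χ v) = (-gaussSum ((χ.ringHomComp τ) ^ v.val) ψ) ^ n := by
  have hχ : χ ^ n = 1 := by rw [← ho]; exact pow_orderOf_eq_one χ
  by_cases hv : v = 0
  · subst hv
    unfold gG
    rw [if_pos rfl, map_one, ZMod.val_zero, pow_zero, gaussSum_one_left hψ, neg_neg, one_pow]
  · obtain ⟨h2, hdvd, -, -⟩ := ord_facts ho hv
    have hord : orderOf ((χ.ringHomComp τ) ^ v.val) = orderOf (χ ^ v.val) := by
      rw [MulChar.ringHomComp_pow]
      exact orderOf_injective (MulChar.ringHomCompHom τ)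
        (MulChar.injective_ringHomComp (tau_inj n τ)) (χ ^ v.val)
    have h3 := gaussSum_pow_eq_prod_jacobiSum (χ := (χ.ringHomComp τ) ^ v.val) (ψ := ψ)
      (by rw [hord]; exact h2) (AddChar.IsPrimitive.of_ne_one hψ)
    rw [hord] at h3
    have h4 : ((χ.ringHomComp τ) ^ v.val) (-1) = 1 := by
      rw [MulChar.ringHomComp_pow, MulChar.ringHomComp_apply, neg_one_val hn hχ, map_one]
    rw [h4, one_mul] at h3
    obtain ⟨k, hk⟩ := hdvd
    have hk2 : n / orderOf (χ ^ v.val) = k := Nat.div_eq_of_eq_mul_right (by omega) hk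
    unfold gG
    rw [if_neg hv, hk2, map_neg, map_pow, map_mul, map_natCast, map_prod, neg_pow,
      hn.neg_one_pow, neg_one_mul]
    have h5 : gaussSum ((χ.ringHomComp τ) ^ v.val) ψ ^ n =
        (gaussSum ((χ.ringHomComp τ) ^ v.val) ψ ^ orderOf (χ ^ v.val)) ^ k := by
      rw [← pow_mul, ← hk]
    rw [h5, h3]
    congr 3
    refine Finset.prod_congr rfl fun j _ => ?_
    rw [MulChar.ringHomComp_pow, MulChar.ringHomComp_pow, jacobiSum_ringHomComp]

theorem gG_norm (ho : orderOf χ = n) {I : Ideal (𝓞 K)}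
    (hIn : absNorm I = Fintype.card F) (v : ZMod n) :
    gG n χ v * sa n K (-1) (gG n χ v) = ((absNorm I : ℕ) : 𝓞 K) ^ (if v = 0 then 0 else n) := by
  by_cases hv : v = 0
  · unfold gG
    rw [if_pos hv, if_pos hv, map_one, mul_one, pow_zero]
  · obtain ⟨h2, hdvd, h3, -⟩ := ord_facts ho hv
    obtain ⟨k, hk⟩ := hdvd
    have hk2 : n / orderOf (χ ^ v.val) = k := Nat.div_eq_of_eq_mul_right (by omega) hk
    unfold gG
    rw [if_neg hv, if_neg hv, hk2, map_neg, neg_mul_neg, map_pow, ← mul_pow, map_mul, map_natCast,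
      map_prod]
    have e : ((Fintype.card F : ℕ) : 𝓞 K) * (∏ j ∈ Finset.Ico 1 (orderOf (χ ^ v.val) - 1),
          jacobiSum (χ ^ v.val) ((χ ^ v.val) ^ j)) *
        (((Fintype.card F : ℕ) : 𝓞 K) * ∏ j ∈ Finset.Ico 1 (orderOf (χ ^ v.val) - 1),
          sa n K (-1) (jacobiSum (χ ^ v.val) ((χ ^ v.val) ^ j))) =
        ((Fintype.card F : ℕ) : 𝓞 K) ^ orderOf (χ ^ v.val) := by
      rw [mul_mul_mul_comm, ← Finset.prod_mul_distrib]
      rw [Finset.prod_congr rfl fun j hj => by
        have hj' := Finset.mem_Ico.1 hj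
        rw [jac_jq ho, jnorm ho hv (h3 j (by omega) (by omega)) (by
          have := h3 (j + 1) (by omega) (by omega)
          intro h
          apply this
          push_cast
          linear_combination h)]]
      rw [Finset.prod_const, Nat.card_Ico, ← pow_two, ← pow_add]
      congr 1
      omega
    rw [e, ← pow_mul, ← hk, hIn]

theorem gG_span (hn : Odd n) (hn1 : 1 < n) (π : 𝓞 K →+* F) (hF : ((n : ℕ) : F) ≠ 0)
    (hFp : (Fintype.card F).Prime) {I : Ideal (𝓞 K)} (hI : ∀ x, x ∈ I ↔ π x = 0)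
    (hI0 : I ≠ ⊥) (hIp : I.IsPrime) (hIn : absNorm I = Fintype.card F)
    (hχ : χ ^ n = 1) (hχ2 : ∀ y : F, π (χ y) = y ^ ((Fintype.card F - 1) / n)) (v : ZMod n) :
    span {gG n χ v} = iw n K (fun t => (-(v * (t : ZMod n))).val) I := by
  have ho := jorder π hF hχ hχ2
  by_cases hv : v = 0
  · subst hv
    unfold gG
    rw [if_pos rfl]
    simp only [zero_mul, neg_zero, ZMod.val_zero]
    rw [iw_zero, Ideal.span_singleton_one]
  · have h1n : (1 : ZMod n) ≠ 0 := by
      have : Fact (1 < n) := ⟨hn1⟩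
      exact one_ne_zero
    have h2n : (1 : ZMod n) + 1 ≠ 0 := by
      intro h
      have h3 : ((2 : ℕ) : ZMod n) = 0 := by push_cast; rw [← h]; ring
      rw [ZMod.natCast_eq_zero_iff] at h3
      have := Nat.le_of_dvd (by norm_num) h3
      obtain ⟨j, hj⟩ := hn
      omega
    have hell : span {((Fintype.card F : ℕ) : 𝓞 K)} = iw n K (fun _ => 1) I := by
      rw [← jnorm (K := K) ho h1n h1n h2n, ← Ideal.span_singleton_mul_span_singleton]
      have e : span {sa n K (-1) (jq (1 : ZMod n) 1 χ)} = (span {jq (1 : ZMod n) 1 χ}).map (sa n K (-1)) := by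
        rw [Ideal.map_span, Set.image_singleton]
      rw [e, jfac π hF hFp hI hI0 hIp hIn hχ hχ2 h1n h1n h2n, iw_map, iw_add]
      congr 1
      funext t
      exact jw_add h1n h1n h2n t
    obtain ⟨h2, hdvd, h3, h4⟩ := ord_facts ho hv
    obtain ⟨k, hk⟩ := hdvd
    have hk2 : n / orderOf (χ ^ v.val) = k := Nat.div_eq_of_eq_mul_right (by omega) hk
    unfold gG
    rw [if_neg hv, hk2, Ideal.span_singleton_neg, ← Ideal.span_singleton_pow,
      ← Ideal.span_singleton_mul_span_singleton, ← Ideal.prod_span_singleton, hell]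
    rw [Finset.prod_congr rfl fun j hj => by
        have hj' := Finset.mem_Ico.1 hj
        rw [jac_jq ho, jfac π hF hFp hI hI0 hIp hIn hχ hχ2 hv (h3 j (by omega) (by omega)) (by
          have := h3 (j + 1) (by omega) (by omega)
          intro h
          apply this
          push_cast
          linear_combination h)]]
    rw [iw_sum, iw_add, iw_smul]
    congr 1
    funext t
    have h5 := weight_id (jmul_ne hv t) h2 (by rw [← mul_assoc, h4, zero_mul])
      (k := k) (by rw [mul_comm]; exact hk.symm)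
    rw [← h5]
    congr 2
    refine Finset.sum_congr rfl fun j _ => ?_
    unfold jw
    rw [mul_assoc]

end

theorem gs : S_gs := by
  intro n _ K _ _ _ hn hn1 F _ _ π hπ hFp hF
  obtain ⟨χ, hχ, hχ2⟩ := jexists_res (n := n) π hF
  have ho := jorder π hF hχ hχ2
  have hI : ∀ x, x ∈ RingHom.ker π ↔ π x = 0 := fun x => RingHom.mem_ker
  have hIp : (RingHom.ker π).IsPrime := RingHom.ker_isPrime π
  have hIn : absNorm (RingHom.ker π) = Fintype.card F := by
    rw [Ideal.absNorm_apply, Submodule.cardQuot_apply, ← Nat.card_eq_fintype_card]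
    exact Nat.card_congr (RingHom.quotientKerEquivOfSurjective hπ).toEquiv
  have hI0 : RingHom.ker π ≠ ⊥ := by
    intro h
    rw [h, Ideal.absNorm_bot] at hIn
    exact hFp.ne_zero hIn.symm
  exact ⟨χ, gG n χ, ho, fun v => gG_span hn hn1 π hF hFp hI hI0 hIp hIn hχ hχ2 v,
    fun v => gG_norm ho hIn v, fun τ ψ hψ v => gG_map hn ho τ hψ v⟩

end Pool.Agent.NH35.HG
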