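import Pool.Agent.NH35.HG.StmN

/-! The finite order Hecke characters attached to products of conjugates. -/

set_option autoImplicit false
set_option linter.unusedSectionVars false
open NumberField NumberField.InfinitePlace IsDedekindDomain
open Module nonZeroDivisors Ideal IsCyclotomicExtension

namespace Pool.Agent.NH35.HG
open Pool.Agent.NH35.HD (sa xw iw zt zt_prim sa_one sa_mul xw_mul xw_one iw_mul iw_span xw_ne
  xw_norm xw_cong mem_map_sa absNorm_map_sa MRel exists_hecke norm_sq)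
open Pool.Agent.NH35.HC (Hk)

section
variable {n : ℕ} [NeZero n] {K : Type} [Field K] [NumberField K] [IsCyclotomicExtension {n} ℚ K]

/-- norms are nonnegative -/
theorem he_norm_nonneg (hn1 : 1 < n) (hn : Odd n) (α : 𝓞 K) : 0 ≤ Algebra.norm ℤ α := by
  have hW : ∀ t : (ZMod n)ˣ, (fun t : (ZMod n)ˣ => if 2 * (t : ZMod n).val < n then 1 else 0) t +
      (fun t : (ZMod n)ˣ => if 2 * (t : ZMod n).val < n then 1 else 0) (-t) = 1 := by
    intro t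
    have : Fact (1 < n) := ⟨hn1⟩
    have h0 : (t : ZMod n) ≠ 0 := t.ne_zero
    have h1 : ((-t : (ZMod n)ˣ) : ZMod n).val = n - (t : ZMod n).val := by
      have : NeZero (t : ZMod n) := ⟨h0⟩
      rw [Units.val_neg, ZMod.val_neg_of_ne_zero]
    have h2 := ZMod.val_lt (t : ZMod n)
    simp only [h1]
    obtain ⟨j, hj⟩ := hn
    split_ifs <;> omega
  exact HD.norm_nonneg hW α

/-- roots of unity -/
theorem he_unit (hn : Odd n) {u : 𝓞 K} (h1 : ∀ τ : K →+* ℂ, ‖τ (u : K)‖ = 1) :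
    u ^ n = 1 ∨ u ^ n = -1 := by
  obtain ⟨k, hk, hu⟩ := NumberField.Embeddings.pow_eq_one_of_norm_eq_one K ℂ u.isIntegral_coe h1
  have hfin : IsOfFinOrder (u : K) := isOfFinOrder_iff_pow_eq_one.2 ⟨k, hk, hu⟩
  obtain ⟨r, -, hr⟩ := (zeta_spec n ℚ K).exists_pow_or_neg_mul_pow_of_isOfFinOrder hn hfin
  have hz : (zeta n ℚ K) ^ n = 1 := (zeta_spec n ℚ K).pow_eq_one
  rcases hr with hr | hr
  · left
    apply RingOfIntegers.ext
    have : (u : K) ^ n = 1 := by rw [hr, ← pow_mul, mul_comm, pow_mul, hz, one_pow]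
    exact (map_pow (algebraMap (𝓞 K) K) u n).trans (this.trans (map_one _).symm)
  · right
    apply RingOfIntegers.ext
    have : (u : K) ^ n = -1 := by
      rw [hr, neg_pow, hn.neg_one_pow, ← pow_mul, mul_comm r n, pow_mul, hz, one_pow, mul_one]
    exact (map_pow (algebraMap (𝓞 K) K) u n).trans (this.trans (by simp))

theorem he_abs {c : ℕ} {I : Ideal (𝓞 K)} {x : 𝓞 K}
    (h : x * sa n K (-1) x = ((absNorm I : ℕ) : 𝓞 K) ^ c) (τ : K →+* ℂ) :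
    ‖τ (x : K)‖ ^ 2 = (absNorm I : ℝ) ^ c := by
  have h1 := HD.norm_sq n K τ x
  rw [h] at h1
  have h2 : τ ((((absNorm I : ℕ) : 𝓞 K) ^ c : 𝓞 K) : K) = (((absNorm I : ℝ) ^ c : ℝ) : ℂ) := by
    have : ((((absNorm I : ℕ) : 𝓞 K) ^ c : 𝓞 K) : K) = ((absNorm I : ℕ) : K) ^ c := by simp
    rw [this, map_pow, map_natCast]
    simp
  rw [h2] at h1
  exact_mod_cast h1.symm

/-- two normalised generators differ by a sign after taking the `n`-th power -/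
theorem he_two (hn : Odd n) {W : (ZMod n)ˣ → ℕ} {c : ℕ} {I : Ideal (𝓞 K)} (hI : I ≠ ⊥)
    {x y : 𝓞 K} (hx : span {x} = iw n K W I) (hy : span {y} = iw n K W I)
    (nx : x * sa n K (-1) x = ((absNorm I : ℕ) : 𝓞 K) ^ c)
    (ny : y * sa n K (-1) y = ((absNorm I : ℕ) : 𝓞 K) ^ c) : y ^ n = x ^ n ∨ y ^ n = -x ^ n := by
  obtain ⟨u, hu⟩ : Associated x y := Ideal.span_singleton_eq_span_singleton.1 (hx.trans hy.symm)
  have h1 : ∀ τ : K →+* ℂ, ‖τ ((u : 𝓞 K) : K)‖ = 1 := by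
    intro τ
    have e1 := he_abs nx τ
    have e2 := he_abs ny τ
    have e3 : ((y : 𝓞 K) : K) = (x : K) * ((u : 𝓞 K) : K) := by rw [← hu]; simp
    rw [e3, map_mul, norm_mul, mul_pow, e1] at e2
    have h0 : (absNorm I : ℝ) ^ c ≠ 0 := by
      have : absNorm I ≠ 0 := fun h => hI (absNorm_eq_zero_iff.1 h)
      exact pow_ne_zero _ (by exact_mod_cast this)
    have e4 : ‖τ ((u : 𝓞 K) : K)‖ ^ 2 = 1 := by
      have : (absNorm I : ℝ) ^ c * ‖τ ((u : 𝓞 K) : K)‖ ^ 2 = (absNorm I : ℝ) ^ c * 1 := by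
        rw [e2, mul_one]
      exact mul_left_cancel₀ h0 this
    exact (pow_eq_one_iff_of_nonneg (norm_nonneg _) two_ne_zero).1 e4
  rcases he_unit hn h1 with h | h
  · left; rw [← hu, mul_pow, h, mul_one]
  · right; rw [← hu, mul_pow, h, mul_neg, mul_one]

theorem he_map_coprime {N : ℕ} {I : Ideal (𝓞 K)} (h : IsCoprime I (span {(N : 𝓞 K)}))
    (u : (ZMod n)ˣ) : IsCoprime (I.map (sa n K u)) (span {(N : 𝓞 K)}) := by
  rw [Ideal.isCoprime_iff_exists] at h ⊢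
  obtain ⟨a, ha, b, hb, hab⟩ := h
  refine ⟨sa n K u a, Ideal.mem_map_of_mem _ ha, sa n K u b, ?_, by rw [← map_add, hab, map_one]⟩
  obtain ⟨z, hz⟩ := Ideal.mem_span_singleton'.1 hb
  rw [← hz, map_mul, map_natCast]
  exact Ideal.mul_mem_left _ _ (Ideal.mem_span_singleton_self _)

theorem he_iw_coprime {N : ℕ} {I : Ideal (𝓞 K)} (h : IsCoprime I (span {(N : 𝓞 K)}))
    (W : (ZMod n)ˣ → ℕ) : IsCoprime (iw n K W I) (span {(N : 𝓞 K)}) := by
  unfold iw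
  exact IsCoprime.prod_left fun t _ => (he_map_coprime h _).pow_left

/-- an element coprime to `N` is nonzero under a ring hom killing `N` -/
theorem he_ne {N : ℕ} {x : 𝓞 K} (h : IsCoprime (span {x}) (span {(N : 𝓞 K)})) {k : Type}
    [CommRing k] [Nontrivial k] (ρ : 𝓞 K →+* k) (hN : (N : k) = 0) : IsUnit (ρ x) := by
  rw [Ideal.isCoprime_iff_exists] at h
  obtain ⟨a, ha, b, hb, hab⟩ := h
  obtain ⟨z, hz⟩ := Ideal.mem_span_singleton'.1 ha
  obtain ⟨w, hw⟩ := Ideal.mem_span_singleton'.1 hb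
  have h1 := congrArg ρ hab
  rw [← hz, ← hw, map_add, map_mul, map_mul, map_natCast, hN, mul_zero, add_zero, map_one] at h1
  exact IsUnit.of_mul_eq_one (ρ z) (by rw [mul_comm]; exact h1)

section rc
variable {k k' : Type} [Field k] [Field k'] {ρ : 𝓞 K →+* k} {ρ' : 𝓞 K →+* k'}
  {W W' : (ZMod n)ˣ → ℕ} {c c' : ℕ}

theorem RC.mul {I I' : Ideal (𝓞 K)} {x x' y y' : 𝓞 K} (h : RC ρ ρ' W W' c c' I x y)
    (h' : RC ρ ρ' W W' c c' I' x' y') : RC ρ ρ' W W' c c' (I * I') (x * x') (y * y') := by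
  refine ⟨?_, ?_, ?_, ?_, ?_, ?_⟩
  · rw [iw_mul, ← h.spx, ← h'.spx, Ideal.span_singleton_mul_span_singleton]
  · rw [map_mul, map_mul]
    push_cast
    rw [mul_pow, ← h.nx, ← h'.nx]
    ring
  · rw [iw_mul, ← h.spy, ← h'.spy, Ideal.span_singleton_mul_span_singleton]
  · rw [map_mul, map_mul]
    push_cast
    rw [mul_pow, ← h.ny, ← h'.ny]
    ring
  · rw [map_mul, map_mul, mul_pow, mul_pow, h.cx, h'.cx]
  · rw [map_mul, mul_pow, h.cy, h'.cy, one_mul]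

theorem RC.top : RC ρ ρ' W W' c c' (⊤ : Ideal (𝓞 K)) 1 1 := by
  have e : ∀ V : (ZMod n)ˣ → ℕ, span {(1 : 𝓞 K)} = iw n K V ⊤ := by
    intro V
    rw [← Ideal.span_singleton_one, iw_span, xw_one]
  have e2 : ∀ c : ℕ, (1 : 𝓞 K) * sa n K (-1) 1 = ((absNorm (⊤ : Ideal (𝓞 K)) : ℕ) : 𝓞 K) ^ c := by
    intro c
    rw [map_one, Ideal.absNorm_top]
    simp
  exact ⟨e W, e2 c, e W', e2 c', by rw [map_one], by rw [map_one, one_pow]⟩

theorem RC.uniq (hn : Odd n) {r : ℕ} (h2 : (2 : k) ≠ 0) (h2' : (2 : k') ≠ 0) (hnk : (n : k) = 0)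
    {I : Ideal (𝓞 K)} (hI0 : I ≠ ⊥)
    (hI : IsCoprime I (span {((n * r : ℕ) : 𝓞 K)})) {x x' y y' : 𝓞 K}
    (h : RC ρ ρ' W W' c c' I x y) (h' : RC ρ ρ' W W' c c' I x' y') : x' ^ n = x ^ n := by
  have hy : y' ^ n = y ^ n := by
    rcases he_two hn hI0 h.spy h'.spy h.ny h'.ny with e | e
    · exact e
    · exfalso
      have h3 := congrArg ρ' e
      rw [map_neg, map_pow, map_pow, h'.cy, h.cy] at h3
      apply h2'
      linear_combination h3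
  rcases he_two hn hI0 h.spx h'.spx h.nx h'.nx with e | e
  · exact e
  · exfalso
    have h3 := congrArg ρ e
    rw [map_neg, map_pow, map_pow, h'.cx, h.cx, ← map_pow, ← map_pow, hy] at h3
    have h4 : IsUnit (ρ y) := by
      refine he_ne (N := n * r) ?_ ρ (by push_cast; rw [hnk, zero_mul])
      rw [h.spy]
      exact he_iw_coprime hI W'
    have h5 : ρ (y ^ n) ≠ 0 := by
      rw [map_pow]
      exact pow_ne_zero _ h4.ne_zero
    have h6 : 2 * ρ (y ^ n) = 0 := by linear_combination h3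
    rcases mul_eq_zero.1 h6 with h7 | h7
    · exact h2 h7
    · exact h5 h7

theorem he_xw_one {N : ℕ} {V : (ZMod n)ˣ → ℕ} {α : 𝓞 K} (hα : α - 1 ∈ span {(N : 𝓞 K)}) {A : Type}
    [CommRing A] (φ : 𝓞 K →+* A) (hN : (N : A) = 0) : φ (xw n K V α) = 1 := by
  have h1 : (N : 𝓞 K) ∣ xw n K V α - 1 :=
    xw_cong (fun u => map_natCast _ _) (Ideal.mem_span_singleton.1 hα)
  obtain ⟨z, hz⟩ := h1
  have h2 := congrArg φ hz
  rw [map_sub, map_one, map_mul, map_natCast, hN, zero_mul] at h2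
  exact sub_eq_zero.1 h2

/-- the relation for principal ideals -/
theorem RC.prin (hn1 : 1 < n) (hn : Odd n) (hW : ∀ t, W t + W (-t) = c)
    (hW' : ∀ t, W' t + W' (-t) = c') (hnk : (n : k) = 0) (hnk' : (n : k') = 0) {α : 𝓞 K}
    (hα : α - 1 ∈ span {(n : 𝓞 K)}) :
    RC ρ ρ' W W' c c' (span {α}) (xw n K W α) (xw n K W' α) := by
  have e : ∀ {V : (ZMod n)ˣ → ℕ} {d : ℕ}, (∀ t, V t + V (-t) = d) →
      xw n K V α * sa n K (-1) (xw n K V α) = ((absNorm (span {α}) : ℕ) : 𝓞 K) ^ d := by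
    intro V d hV
    rw [xw_norm hV, Ideal.absNorm_span_singleton]
    have h7 : (((Algebra.norm ℤ α).natAbs : ℕ) : 𝓞 K) =
        ((((Algebra.norm ℤ α).natAbs : ℕ) : ℤ) : 𝓞 K) := by
      simp
    rw [h7, Int.natAbs_of_nonneg (he_norm_nonneg hn1 hn α)]
  refine ⟨(iw_span α).symm, e hW, (iw_span α).symm, e hW', ?_, ?_⟩
  · rw [he_xw_one hα ρ hnk, he_xw_one hα ρ hnk]
  · rw [he_xw_one hα ρ' hnk', one_pow]

end rc

end

/-- the relation defining the characters -/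
def hRl {n : ℕ} [NeZero n] {K : Type} [Field K] [NumberField K]
    [IsCyclotomicExtension {n} ℚ K] {k k' : Type} [Field k] [Field k'] (ρ : 𝓞 K →+* k)
    (ρ' : 𝓞 K →+* k') (W W' : (ZMod n)ˣ → ℕ) (c c' : ℕ) (N R : Ideal (𝓞 K))
    (ω : (𝓞 K ⧸ R)ˣ →* Circle) (I : Ideal (𝓞 K)) (z : Circle) : Prop :=
  IsCoprime I N ∧ ∃ x y, RC ρ ρ' W W' c c' I x y ∧ ∃ u : (𝓞 K ⧸ R)ˣ,
    (u : 𝓞 K ⧸ R) = Ideal.Quotient.mk R (x ^ n) ∧ z = ω u

section
variable {n : ℕ} [NeZero n] {K : Type} [Field K] [NumberField K] [IsCyclotomicExtension {n} ℚ K]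
  {k k' : Type} [Field k] [Field k'] {ρ : 𝓞 K →+* k} {ρ' : 𝓞 K →+* k'}
  {W W' : (ZMod n)ˣ → ℕ} {c c' : ℕ} {R : Ideal (𝓞 K)} {ω : (𝓞 K ⧸ R)ˣ →* Circle}

theorem he_top {N : Ideal (𝓞 K)} : hRl ρ ρ' W W' c c' N R ω ⊤ 1 := by
  refine ⟨Ideal.isCoprime_iff_sup_eq.2 (top_sup_eq _), 1, 1, RC.top, 1, ?_,
    (MonoidHom.map_one ω).symm⟩
  rw [one_pow, map_one, Units.val_one]

theorem he_mul {N : Ideal (𝓞 K)} (I I' : Ideal (𝓞 K)) (z z' : Circle)
    (h1 : hRl ρ ρ' W W' c c' N R ω I z) (h2 : hRl ρ ρ' W W' c c' N R ω I' z') :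
    hRl ρ ρ' W W' c c' N R ω (I * I') (z * z') := by
  obtain ⟨hI, x, y, h, u, hu, hz⟩ := h1
  obtain ⟨hI', x', y', h', u', hu', hz'⟩ := h2
  refine ⟨IsCoprime.mul_left hI hI', x * x', y * y', h.mul h', u * u', ?_, ?_⟩
  · have e : (x * x') ^ n = x ^ n * x' ^ n := mul_pow x x' n
    rw [Units.val_mul, hu, hu', e]
    exact (RingHom.map_mul (Ideal.Quotient.mk R) (x ^ n) (x' ^ n)).symm
  · rw [hz, hz']
    exact (MonoidHom.map_mul ω u u').symm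

theorem he_uniq (hn : Odd n) {r : ℕ} (h2 : (2 : k) ≠ 0) (h2' : (2 : k') ≠ 0) (hnk : (n : k) = 0)
    (I : Ideal (𝓞 K)) (z z' : Circle) (hI0 : I ≠ ⊥)
    (h1 : hRl ρ ρ' W W' c c' (span {((n * r : ℕ) : 𝓞 K)}) R ω I z)
    (h3 : hRl ρ ρ' W W' c c' (span {((n * r : ℕ) : 𝓞 K)}) R ω I z') : z = z' := by
  obtain ⟨hI, x, y, h, u, hu, hz⟩ := h1
  obtain ⟨-, x', y', h', u', hu', hz'⟩ := h3
  have e : u = u' := Units.ext (by rw [hu, hu', RC.uniq hn h2 h2' hnk hI0 hI h h'])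
  rw [hz, hz', e]

theorem he_isUnit {r : ℕ} (hR : R ≠ ⊤)
    (hquot : (((n * r : ℕ) : 𝓞 K ⧸ R)) = 0) {I : Ideal (𝓞 K)} {x y : 𝓞 K}
    (hI : IsCoprime I (span {((n * r : ℕ) : 𝓞 K)})) (h : RC ρ ρ' W W' c c' I x y) :
    IsUnit (Ideal.Quotient.mk R (x ^ n)) := by
  have : Nontrivial (𝓞 K ⧸ R) := Ideal.Quotient.nontrivial_iff.2 hR
  have h1 : IsUnit (Ideal.Quotient.mk R x) := by
    refine he_ne (N := n * r) ?_ _ hquot
    rw [h.spx]
    exact he_iw_coprime hI W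
  rw [map_pow]
  exact h1.pow n

theorem he_prin (hn1 : 1 < n) (hn : Odd n) {r : ℕ} (hW : ∀ t, W t + W (-t) = c)
    (hW' : ∀ t, W' t + W' (-t) = c') (hnk : (n : k) = 0) (hnk' : (n : k') = 0)
    (hquot : (((n * r : ℕ) : 𝓞 K ⧸ R)) = 0) {α : 𝓞 K}
    (hα : α - 1 ∈ span {((n * r : ℕ) : 𝓞 K)}) :
    hRl ρ ρ' W W' c c' (span {((n * r : ℕ) : 𝓞 K)}) R ω (span {α}) 1 := by
  have hcop : IsCoprime (span {α}) (span {((n * r : ℕ) : 𝓞 K)}) := HC.coprime_span hα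
  have hα' : α - 1 ∈ span {(n : 𝓞 K)} := by
    refine (Ideal.span_singleton_le_span_singleton.2 ?_) hα
    push_cast
    exact dvd_mul_right _ _
  refine ⟨hcop, _, _, RC.prin hn1 hn hW hW' hnk hnk' hα', 1, ?_,
    (MonoidHom.map_one ω).symm⟩
  rw [map_pow, he_xw_one hα (Ideal.Quotient.mk R) hquot, one_pow, Units.val_one]

end

theorem hecke : S_h := by
  intro n _ K _ _ _ hn hn1 k k' _ _ ρ ρ' h2 h2' hnk hnk' W W' c c' hW hW' r hr hrn R hR hrR ω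
  have hnr : n * r ≠ 0 := Nat.mul_ne_zero (NeZero.ne n) hr.ne_zero
  have hN0 : span {((n * r : ℕ) : 𝓞 K)} ≠ ⊥ := by
    rw [Ne, Ideal.span_singleton_eq_bot]
    exact_mod_cast hnr
  have hNR : span {((n * r : ℕ) : 𝓞 K)} ≤ R := by
    rw [Ideal.span_singleton_le_iff_mem]
    push_cast
    exact R.mul_mem_left _ hrR
  have hN1 : span {((n * r : ℕ) : 𝓞 K)} ≠ ⊤ := fun h => hR.ne_top (top_le_iff.1 (h ▸ hNR))
  have hquot : (((n * r : ℕ) : 𝓞 K ⧸ R)) = 0 := by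
    rw [← map_natCast (Ideal.Quotient.mk R), Ideal.Quotient.eq_zero_iff_mem]
    exact hNR (Ideal.mem_span_singleton_self _)
  have hRl' : MRel (hRl ρ ρ' W W' c c' (span {((n * r : ℕ) : 𝓞 K)}) R ω) :=
    ⟨he_top, he_mul, he_uniq hn h2 h2' hnk⟩
  obtain ⟨χ, hχ, hχ2⟩ := exists_hecke (K := K) hRl' hN0 hN1 (ci := fun _ => 1)
    (fun _ _ _ _ => (one_mul _).symm) ⟨0, le_rfl, fun _ _ _ _ δ _ _ => by simp⟩
    (fun α _ hα => he_prin hn1 hn hW hW' hnk hnk' hquot hα)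
  have hχ' : Hk χ (span {((n * r : ℕ) : 𝓞 K)}) (fun _ => 1) := by
    have e : (fun _ : 𝓞 K => ((1 : Circle) : ℂ)) = fun _ => 1 := funext fun _ => Circle.coe_one
    rwa [e] at hχ
  refine ⟨χ, hχ', fun I x y hI h => ?_⟩
  have hu := he_isUnit hR.ne_top hquot hI h
  exact ⟨hu, hχ2 I _ hI ⟨hI, x, y, h, hu.unit, hu.unit_spec, rfl⟩⟩

end Pool.Agent.NH35.HG
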