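import Pool.Agent.NH35.HG.StmN
import Pool.Agent.NH35.HD.Stick

/-! Jacobi sums of characters of composite order over prime fields. -/

set_option autoImplicit false
set_option linter.unusedSectionVars false
open NumberField NumberField.InfinitePlace IsDedekindDomain
open Module nonZeroDivisors Ideal IsCyclotomicExtension

namespace Pool.Agent.NH35.HG
open Pool.Agent.NH35.HD (sa xw iw zt zt_prim map_ztm sa_root distinct mem_map_sa absNorm_map_sa
  absNorm_nat map_sa_inj)

section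
variable {n : ℕ} [NeZero n] {K : Type} [Field K] [NumberField K] [IsCyclotomicExtension {n} ℚ K]
  {F : Type} [Field F] [Fintype F]

theorem jn_dvd (π : 𝓞 K →+* F) (hF : ((n : ℕ) : F) ≠ 0) : n ∣ Fintype.card F - 1 := by
  classical
  have h1 := map_ztm (m := n) π hF
  have h2 : π (zt n K) ^ (Fintype.card F - 1) = 1 := by
    apply FiniteField.pow_card_sub_one_eq_one
    exact h1.ne_zero (NeZero.ne n)
  exact h1.dvd_of_pow_eq_one _ h2

theorem jroot_inj (π : 𝓞 K →+* F) (hF : ((n : ℕ) : F) ≠ 0) {a b : 𝓞 K} (ha : a ^ n = 1)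
    (hb : b ^ n = 1) (h : π a = π b) : a = b := by
  obtain ⟨i, hi, rfl⟩ := (zt_prim n K).eq_pow_of_pow_eq_one ha
  obtain ⟨j, hj, rfl⟩ := (zt_prim n K).eq_pow_of_pow_eq_one hb
  rw [map_pow, map_pow] at h
  rw [(map_ztm (m := n) π hF).pow_inj hi hj h]

theorem jroot_lift (π : 𝓞 K →+* F) (hF : ((n : ℕ) : F) ≠ 0) {y : F} (hy : y ^ n = 1) :
    ∃ a : 𝓞 K, a ^ n = 1 ∧ π a = y := by
  obtain ⟨i, hi, rfl⟩ := (map_ztm (m := n) π hF).eq_pow_of_pow_eq_one hy
  refine ⟨zt n K ^ i, ?_, map_pow _ _ _⟩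
  rw [← pow_mul, mul_comm, pow_mul, (zt_prim n K).pow_eq_one, one_pow]

/-- the residue character of order `n` -/
theorem jexists_res (π : 𝓞 K →+* F) (hF : ((n : ℕ) : F) ≠ 0) :
    ∃ χ : MulChar F (𝓞 K), χ ^ n = 1 ∧ ∀ y : F, π (χ y) = y ^ ((Fintype.card F - 1) / n) := by
  classical
  set k := (Fintype.card F - 1) / n with hk
  have hkp : k * n = Fintype.card F - 1 := Nat.div_mul_cancel (jn_dvd π hF)
  have hcard : 1 < Fintype.card F := Fintype.one_lt_card
  have hk0 : k ≠ 0 := by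
    intro h
    rw [h, zero_mul] at hkp
    omega
  have h1 : ∀ y : Fˣ, ∃ a : 𝓞 K, a ^ n = 1 ∧ π a = (y : F) ^ k := by
    intro y
    apply jroot_lift π hF
    rw [← pow_mul, hkp]
    exact FiniteField.pow_card_sub_one_eq_one _ y.ne_zero
  choose f hf1 hf2 using h1
  have hfm : ∀ y z, f (y * z) = f y * f z := by
    intro y z
    apply jroot_inj π hF (hf1 _)
    · rw [mul_pow, hf1, hf1, one_mul]
    · rw [hf2, map_mul, hf2, hf2, Units.val_mul, mul_pow]
  have hf0 : f 1 = 1 := by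
    apply jroot_inj π hF (hf1 _) (one_pow _)
    rw [hf2, map_one, Units.val_one, one_pow]
  let g : Fˣ →* (𝓞 K)ˣ :=
    { toFun := fun y => ⟨f y, f y⁻¹, by rw [← hfm, mul_inv_cancel, hf0],
        by rw [← hfm, inv_mul_cancel, hf0]⟩
      map_one' := Units.ext hf0
      map_mul' := fun y z => Units.ext (hfm y z) }
  refine ⟨MulChar.ofUnitHom g, ?_, fun y => ?_⟩
  · refine MulChar.ext fun y => ?_
    rw [MulChar.pow_apply_coe, MulChar.ofUnitHom_coe, MulChar.one_apply_coe]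
    exact hf1 y
  · by_cases hy : y = 0
    · rw [hy, MulChar.map_zero, map_zero, zero_pow hk0]
    · have e := MulChar.ofUnitHom_coe g (Units.mk0 y hy)
      rw [Units.val_mk0] at e
      rw [e]
      exact hf2 (Units.mk0 y hy)

variable {χ : MulChar F (𝓞 K)}

theorem jorder (π : 𝓞 K →+* F) (hF : ((n : ℕ) : F) ≠ 0) (hχ : χ ^ n = 1)
    (hχ2 : ∀ y : F, π (χ y) = y ^ ((Fintype.card F - 1) / n)) : orderOf χ = n := by
  classical
  have hkp : (Fintype.card F - 1) / n * n = Fintype.card F - 1 := Nat.div_mul_cancel (jn_dvd π hF)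
  have hcard : 1 < Fintype.card F := Fintype.one_lt_card
  refine Nat.dvd_antisymm (orderOf_dvd_of_pow_eq_one hχ) ?_
  obtain ⟨g, hg⟩ := IsCyclic.exists_generator (α := Fˣ)
  have h1 : g ^ ((Fintype.card F - 1) / n * orderOf χ) = 1 := by
    apply Units.ext
    rw [Units.val_pow_eq_pow_val, Units.val_one, pow_mul, ← hχ2, ← map_pow,
      ← MulChar.pow_apply_coe, pow_orderOf_eq_one, MulChar.one_apply_coe, map_one]
  have h3 := orderOf_dvd_of_pow_eq_one h1
  rw [orderOf_eq_card_of_forall_mem_zpowers hg, Nat.card_eq_fintype_card, Fintype.card_units,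
    ← hkp] at h3
  have h4 : 0 < (Fintype.card F - 1) / n := by
    rcases Nat.eq_zero_or_pos ((Fintype.card F - 1) / n) with h | h
    · rw [h, zero_mul] at hkp
      omega
    · exact h
  rw [hkp] at h3
  have h5 : (Fintype.card F - 1) / n * n ∣ (Fintype.card F - 1) / n * orderOf χ := by
    rw [hkp]; exact h3
  exact (Nat.mul_dvd_mul_iff_left h4).1 h5

theorem jchi_pow (hχ : χ ^ n = 1) {y : F} (hy : y ≠ 0) : χ y ^ n = 1 := by
  have h1 : (χ ^ n) y = (1 : MulChar F (𝓞 K)) y := by rw [hχ]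
  rw [MulChar.pow_apply' _ (NeZero.ne n), MulChar.one_apply (isUnit_iff_ne_zero.2 hy)] at h1
  exact h1

theorem jchi_mod (hχ : χ ^ n = 1) {y : F} (hy : y ≠ 0) (k : ℕ) : χ y ^ k = χ y ^ (k % n) := by
  conv_lhs => rw [← Nat.mod_add_div k n, pow_add, pow_mul, jchi_pow hχ hy, one_pow, mul_one]

theorem jsa_chi (hχ : χ ^ n = 1) (u : (ZMod n)ˣ) {y : F} (hy : y ≠ 0) :
    sa n K u (χ y) = χ y ^ (u : ZMod n).val := sa_root n K u (jchi_pow hχ hy)

theorem jmul_ne {a : ZMod n} (ha : a ≠ 0) (t : (ZMod n)ˣ) : a * (t : ZMod n) ≠ 0 := by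
  rw [Ne, Units.mul_left_eq_zero]
  exact ha

theorem jval_ne {a : ZMod n} (ha : a ≠ 0) : a.val ≠ 0 := by
  rwa [Ne, ZMod.val_eq_zero]

theorem jkey (hχ : χ ^ n = 1) {a : ZMod n} (ha : a ≠ 0) (u : (ZMod n)ˣ) (y : F) :
    sa n K u ((χ ^ a.val) y) = χ y ^ (a * (u : ZMod n)).val := by
  rw [MulChar.pow_apply' _ (jval_ne ha), map_pow]
  by_cases hy : y = 0
  · rw [hy, MulChar.map_zero, map_zero, zero_pow (jval_ne ha), zero_pow (jval_ne (jmul_ne ha u))]
  · rw [jsa_chi hχ u hy, ← pow_mul, jchi_mod hχ hy, ZMod.val_mul, mul_comm]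

/-- the normalised Jacobi sums -/
noncomputable def jq (a b : ZMod n) (χ : MulChar F (𝓞 K)) : 𝓞 K :=
  jacobiSum (χ ^ a.val) (χ ^ b.val)

theorem jsa (hχ : χ ^ n = 1) {a b : ZMod n} (ha : a ≠ 0) (hb : b ≠ 0) (u : (ZMod n)ˣ) :
    sa n K u (jq a b χ) =
      ∑ x : F, χ x ^ (a * (u : ZMod n)).val * χ (1 - x) ^ (b * (u : ZMod n)).val := by
  unfold jq jacobiSum
  rw [map_sum]
  refine Finset.sum_congr rfl fun x _ => ?_
  rw [map_mul, jkey hχ ha, jkey hχ hb]

theorem jpow_ne (ho : orderOf χ = n) {a : ZMod n} (ha : a ≠ 0) : χ ^ a.val ≠ 1 := by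
  intro h
  have h1 := orderOf_dvd_of_pow_eq_one h
  rw [ho] at h1
  have h2 := Nat.eq_zero_of_dvd_of_lt h1 (ZMod.val_lt a)
  exact jval_ne ha h2

theorem jpow_add (hχ : χ ^ n = 1) (a b : ZMod n) : χ ^ a.val * χ ^ b.val = χ ^ (a + b).val := by
  rw [← pow_add, ZMod.val_add, pow_eq_pow_mod _ hχ]

theorem jnorm (ho : orderOf χ = n) {a b : ZMod n} (ha : a ≠ 0) (hb : b ≠ 0) (hab : a + b ≠ 0) :
    jq a b χ * sa n K (-1) (jq a b χ) = ((Fintype.card F : ℕ) : 𝓞 K) := by
  classical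
  have hχ : χ ^ n = 1 := by rw [← ho]; exact pow_orderOf_eq_one χ
  have hinvp : ∀ {c : ZMod n} (hc : c ≠ 0) (y : F),
      sa n K (-1) ((χ ^ c.val) y) = (χ ^ c.val)⁻¹ y := by
    intro c hc y
    by_cases hy : y = 0
    · rw [hy, MulChar.map_zero, MulChar.map_zero, map_zero]
    · rw [jkey hχ hc, MulChar.inv_apply', MulChar.pow_apply' _ (jval_ne hc)]
      have e1 : χ y * χ y⁻¹ = 1 := by rw [← map_mul, mul_inv_cancel₀ hy, map_one]
      have e2 : χ y ^ c.val * χ y⁻¹ ^ c.val = 1 := by rw [← mul_pow, e1, one_pow]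
      have e3 : χ y ^ c.val * χ y ^ (c * ((-1 : (ZMod n)ˣ) : ZMod n)).val = 1 := by
        rw [← pow_add, jchi_mod hχ hy, ← ZMod.val_add]
        simp
      exact mul_left_cancel₀ (left_ne_zero_of_mul_eq_one e2) (e3.trans e2.symm)
  have e3 : sa n K (-1) (jq a b χ) = jacobiSum (χ ^ a.val)⁻¹ (χ ^ b.val)⁻¹ := by
    unfold jq jacobiSum
    rw [map_sum]
    refine Finset.sum_congr rfl fun x _ => ?_
    rw [map_mul, hinvp ha, hinvp hb]
  rw [e3]
  unfold jq
  have hinj : Function.Injective (algebraMap (𝓞 K) K) := RingOfIntegers.coe_injective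
  have h1 := jpow_ne ho ha
  have h2 := jpow_ne ho hb
  have h12 : χ ^ a.val * χ ^ b.val ≠ 1 := by
    rw [jpow_add hχ]
    exact jpow_ne ho hab
  have hchar : ringChar K ≠ ringChar F := by
    rw [ringChar.eq_zero]
    intro h
    have h3 : CharP F 0 := by
      have := ringChar.charP F
      rwa [← h] at this
    have : CharZero F := CharP.charP_to_charZero F
    exact (Infinite.of_injective (Nat.cast : ℕ → F) Nat.cast_injective).not_finite inferInstance
  have h5 := jacobiSum_mul_jacobiSum_inv hchar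
    ((MulChar.ringHomComp_ne_one_iff hinj).mpr h1) ((MulChar.ringHomComp_ne_one_iff hinj).mpr h2)
    (χ := (χ ^ a.val).ringHomComp (algebraMap (𝓞 K) K))
    (φ := (χ ^ b.val).ringHomComp (algebraMap (𝓞 K) K))
    (by rw [← MulChar.ringHomComp_mul]; exact (MulChar.ringHomComp_ne_one_iff hinj).mpr h12)
  rw [MulChar.ringHomComp_inv, MulChar.ringHomComp_inv, jacobiSum_ringHomComp,
    jacobiSum_ringHomComp, ← map_mul] at h5
  apply hinj
  rw [h5, map_natCast]

theorem jmem (π : 𝓞 K →+* F) (hF : ((n : ℕ) : F) ≠ 0) (hχ : χ ^ n = 1)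
    (hχ2 : ∀ y : F, π (χ y) = y ^ ((Fintype.card F - 1) / n)) {a b : ZMod n} (ha : a ≠ 0)
    (hb : b ≠ 0) {t : (ZMod n)ˣ} (ht : (a * (t : ZMod n)).val + (b * (t : ZMod n)).val < n) :
    π (sa n K t (jq a b χ)) = 0 := by
  have hkp : (Fintype.card F - 1) / n * n = Fintype.card F - 1 := Nat.div_mul_cancel (jn_dvd π hF)
  have hcard : 1 < Fintype.card F := Fintype.one_lt_card
  rw [jsa hχ ha hb, map_sum]
  set k := (Fintype.card F - 1) / n with hk
  set a' := (a * (t : ZMod n)).val with ha'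
  set b' := (b * (t : ZMod n)).val with hb'
  have h1 : ∀ x : F, π (χ x ^ a' * χ (1 - x) ^ b') =
      (Polynomial.X ^ (k * a') * (1 - Polynomial.X) ^ (k * b') : Polynomial F).eval x := by
    intro x
    rw [map_mul, map_pow, map_pow, hχ2, hχ2, ← pow_mul, ← pow_mul]
    simp
  simp only [h1]
  apply HD.sum_poly
  have hk0 : 0 < k := by
    rcases Nat.eq_zero_or_pos k with h | h
    · rw [h, zero_mul] at hkp
      omega
    · exact h
  have h2 : (Polynomial.X ^ (k * a') * (1 - Polynomial.X) ^ (k * b') : Polynomial F).natDegree ≤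
      k * a' + k * b' := by
    refine Polynomial.natDegree_mul_le.trans (add_le_add ?_ ?_)
    · exact Polynomial.natDegree_X_pow_le _
    · have h3 : (1 - Polynomial.X : Polynomial F).natDegree ≤ 1 := by compute_degree
      have h4 := Polynomial.natDegree_pow_le_of_le (k * b') h3
      rwa [mul_one] at h4
  refine lt_of_le_of_lt h2 ?_
  calc k * a' + k * b' = k * (a' + b') := by ring
    _ < k * n := Nat.mul_lt_mul_of_pos_left ht hk0
    _ = _ := hkp

/-- the weight of a Jacobi sum -/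
def jw (a b : ZMod n) (t : (ZMod n)ˣ) : ℕ :=
  if (a * (t : ZMod n)).val + (b * (t : ZMod n)).val < n then 1 else 0

theorem jw_add {a b : ZMod n} (ha : a ≠ 0) (hb : b ≠ 0) (hab : a + b ≠ 0) (t : (ZMod n)ˣ) :
    jw a b t + jw a b (-t) = 1 := by
  have key : ∀ c : ZMod n, c ≠ 0 → (c * ((-t : (ZMod n)ˣ) : ZMod n)).val =
      n - (c * (t : ZMod n)).val := by
    intro c hc
    have h0 := jmul_ne hc t
    have : NeZero (c * (t : ZMod n)) := ⟨h0⟩
    rw [Units.val_neg, mul_neg, ZMod.val_neg_of_ne_zero]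
  unfold jw
  rw [key a ha, key b hb]
  have h1 := ZMod.val_lt (a * (t : ZMod n))
  have h2 := ZMod.val_lt (b * (t : ZMod n))
  have h3 : (a * (t : ZMod n)).val + (b * (t : ZMod n)).val ≠ n := by
    intro h
    apply jmul_ne hab t
    have h4 : (((a * (t : ZMod n)).val + (b * (t : ZMod n)).val : ℕ) : ZMod n) = 0 := by
      rw [h]; simp
    push_cast at h4
    rw [ZMod.natCast_zmod_val, ZMod.natCast_zmod_val] at h4
    rw [add_mul]; exact h4
  split_ifs <;> omega

theorem jsum_w {a b : ZMod n} (ha : a ≠ 0) (hb : b ≠ 0) (hab : a + b ≠ 0) :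
    2 * ∑ t : (ZMod n)ˣ, jw a b t = Fintype.card (ZMod n)ˣ := by
  have h1 : ∑ t : (ZMod n)ˣ, jw a b (-t) = ∑ t : (ZMod n)ˣ, jw a b t :=
    Fintype.sum_equiv (Equiv.neg _) _ _ fun t => rfl
  rw [two_mul]
  nth_rewrite 2 [← h1]
  rw [← Finset.sum_add_distrib, Finset.sum_congr rfl fun t _ => jw_add ha hb hab t]
  simp

/-- **The factorisation of the Jacobi sums of a prime of degree one.** -/
theorem jfac (π : 𝓞 K →+* F) (hF : ((n : ℕ) : F) ≠ 0)
    (hFp : (Fintype.card F).Prime) {I : Ideal (𝓞 K)} (hI : ∀ x, x ∈ I ↔ π x = 0)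
    (hI0 : I ≠ ⊥) (hIp : I.IsPrime) (hIn : absNorm I = Fintype.card F)
    (hχ : χ ^ n = 1) (hχ2 : ∀ y : F, π (χ y) = y ^ ((Fintype.card F - 1) / n)) {a b : ZMod n}
    (ha : a ≠ 0) (hb : b ≠ 0) (hab : a + b ≠ 0) :
    span {jq a b χ} = iw n K (jw a b) I := by
  classical
  have hnrm := jnorm (K := K) (jorder π hF hχ hχ2) ha hb hab
  have hprime : Prime I := Ideal.prime_of_isPrime hI0 hIp
  let f : (ZMod n)ˣ → Ideal (𝓞 K) := fun t => I.map (sa n K t⁻¹)
  have hf : Function.Injective f := fun u v h => inv_injective (distinct π hF hFp hI h)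
  have e0 : iw n K (jw a b) I =
      ∏ t ∈ Finset.univ.filter
        (fun t : (ZMod n)ˣ => (a * (t : ZMod n)).val + (b * (t : ZMod n)).val < n), f t := by
    rw [Finset.prod_filter]
    unfold iw jw
    refine Finset.prod_congr rfl fun t _ => ?_
    split_ifs
    · rw [pow_one]
    · rw [pow_zero]
  have hdvd : iw n K (jw a b) I ∣ span {jq a b χ} := by
    have e1 : iw n K (jw a b) I =
        ∏ J ∈ (Finset.univ.filter
          (fun t : (ZMod n)ˣ => (a * (t : ZMod n)).val + (b * (t : ZMod n)).val < n)).image f, J := by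
      rw [Finset.prod_image fun a _ b _ h => hf h, e0]
    rw [e1]
    refine Finset.prod_primes_dvd _ ?_ ?_
    · intro J hJ
      obtain ⟨t, -, rfl⟩ := Finset.mem_image.1 hJ
      refine Ideal.prime_of_isPrime ?_ (Ideal.map_isPrime_of_equiv (sa n K t⁻¹))
      intro h
      apply hI0
      apply map_sa_inj (m := n) t⁻¹
      rw [show I.map (sa n K t⁻¹) = ⊥ from h, Ideal.map_bot]
    · intro J hJ
      obtain ⟨t, ht, rfl⟩ := Finset.mem_image.1 hJ
      rw [Finset.mem_filter] at ht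
      rw [Ideal.dvd_span_singleton, mem_map_sa, inv_inv, hI]
      exact jmem π hF hχ hχ2 ha hb ht.2
  obtain ⟨B, hB⟩ := hdvd
  have hn1 : absNorm (iw n K (jw a b) I) = Fintype.card F ^ ∑ t : (ZMod n)ˣ, jw a b t := by
    unfold iw
    rw [map_prod, ← Finset.prod_pow_eq_pow_sum]
    refine Finset.prod_congr rfl fun t _ => ?_
    rw [map_pow, absNorm_map_sa, hIn]
  have hn2 : absNorm (span {jq a b χ}) = Fintype.card F ^ ∑ t : (ZMod n)ˣ, jw a b t := by
    have h1 : absNorm (span {jq a b χ}) * absNorm (span {jq a b χ}) =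
        Fintype.card F ^ (∑ t : (ZMod n)ˣ, jw a b t) *
          Fintype.card F ^ (∑ t : (ZMod n)ˣ, jw a b t) := by
      have h2 : absNorm (span {jq a b χ * sa n K (-1) (jq a b χ)}) =
          absNorm (span {((Fintype.card F : ℕ) : 𝓞 K)}) := by rw [hnrm]
      rw [← Ideal.span_singleton_mul_span_singleton, map_mul, absNorm_nat (m := n)] at h2
      have h3 : span {sa n K (-1) (jq a b χ)} = (span {jq a b χ}).map (sa n K (-1)) := by
        rw [Ideal.map_span, Set.image_singleton]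
      rw [h3, absNorm_map_sa] at h2
      rw [h2, ← pow_add, ← two_mul, jsum_w ha hb hab]
    exact Nat.mul_self_inj.1 h1
  have h4 := congrArg absNorm hB
  rw [map_mul, hn1, hn2] at h4
  have h5 : absNorm B = 1 := by
    have h6 : Fintype.card F ^ (∑ t : (ZMod n)ˣ, jw a b t) * absNorm B =
        Fintype.card F ^ (∑ t : (ZMod n)ˣ, jw a b t) * 1 := by
      rw [← h4, mul_one]
    exact Nat.eq_of_mul_eq_mul_left (pow_pos hFp.pos _) h6
  rw [hB, Ideal.absNorm_eq_one_iff.1 h5, Ideal.mul_top]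

end

end Pool.Agent.NH35.HG
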