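import Pool.Agent.NH35.HG.StmG
import Pool.Agent.H916K.Sign
import Pool.Agent.NH35.HD.Cz

/-! Statements of the project on diagonal hypersurfaces: number theoretic part. -/

set_option autoImplicit false

namespace Pool.Agent.NH35.HG

open Finset Pool.Agent.H916R2 Pool.Agent.H916K NumberField Ideal
open Pool.Agent.NH35.HD (sa xw iw)
open Pool.Agent.NH35.HC (Hk)

/-- relations between Gauss sums over the prime fields with `ℓ` elements, `ℓ` congruent to one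
modulo a fixed number -/
def Weak (m : ℕ) (s : Multiset (ZMod m)) : Prop :=
  ∃ M e N : ℕ, 0 < M ∧ ∀ ℓ : ℕ, N < ℓ → ℓ.Prime → ℓ ≡ 1 [MOD M] →
    ∀ (F : Type) [Field F] [Fintype F], Fintype.card F = ℓ → ∀ (χ : MulChar F ℂ) (ψ : AddChar F ℂ),
    orderOf χ = m → ψ ≠ 1 →
    (s.map fun z => -gaussSum (χ ^ z.val) ψ).prod ^ m = (ℓ : ℂ) ^ e

/-- the entries of level `m` attached to an entry of level `2 * m`, `m` odd, by the duplication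
formula -/
def dbl {m : ℕ} (z : ZMod (2 * m)) : Multiset (ZMod m) :=
  if Even z.val then {((z.val / 2 : ℕ) : ZMod m)}
  else {((z.val : ℕ) : ZMod m), -(((z.val + m) / 2 : ℕ) : ZMod m)}

/-- (W1) -/
def S_weak1 : Prop := ∀ (m : ℕ), Odd m → 1 < m → ∀ s : Multiset (ZMod m × ℤ),
  Even (Multiset.card s) → (∀ z ∈ s, z.1 ≠ 0 ∧ z.2 ≠ 0) → RationalClass m s →
  Weak m (s.map Prod.fst)

/-- (W2) -/
def S_weak2 : Prop := ∀ (m : ℕ), Odd m → 1 < m → ∀ s : Multiset (ZMod (2 * m) × ℤ),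
  Even (Multiset.card s) → (∀ z ∈ s, z.1 ≠ 0 ∧ z.2 ≠ 0) → (s.map Prod.fst).sum = 0 →
  RationalClass (2 * m) s → Weak m ((s.map Prod.fst).bind dbl)

/-- (A) the number theoretic core -/
def S_thmA : Prop := ∀ (m : ℕ) [NeZero m], Odd m → m.primeFactors.card ≤ 3 →
  ∀ s : Multiset (ZMod m), Weak m s → CD m (fun z => (s.count z : ℤ))

/-- (DN) density: a Hecke character of trivial type at infinity which does not vanish to be
one on some principal ideal of norm one modulo `M` is different from one at large primes of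
degree one whose norm is one modulo `M` -/
def S_dn : Prop := ∀ (n : ℕ) [NeZero n] (K : Type) [Field K] [NumberField K]
  [IsCyclotomicExtension {n} ℚ K], (∀ α : 𝓞 K, 0 ≤ Algebra.norm ℤ α) →
  ∀ (χ : Ideal (𝓞 K) → ℂ) (N : Ideal (𝓞 K)), Hk χ N (fun _ => 1) →
  ∀ (M : ℕ), 0 < M → n ∣ M → ∀ β : 𝓞 K, β ≠ 0 → IsCoprime (span {β}) N →
  IsCoprime (span {β}) (span {(M : 𝓞 K)}) → ((absNorm (span {β}) : ℕ) : ZMod M) = 1 →
  χ (span {β}) ≠ 1 → ∀ B : ℕ, ∃ P : Ideal (𝓞 K), P.IsPrime ∧ (absNorm P).Prime ∧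
    B < absNorm P ∧ absNorm P ≡ 1 [MOD M] ∧ IsCoprime P N ∧ χ P ≠ 1

/-- (GS) Gauss sums over prime fields as elements of a cyclotomic field -/
def S_gs : Prop := ∀ (n : ℕ) [NeZero n] (K : Type) [Field K] [NumberField K]
  [IsCyclotomicExtension {n} ℚ K], Odd n → 1 < n → ∀ (F : Type) [Field F] [Fintype F]
  (π : 𝓞 K →+* F), Function.Surjective π → (Fintype.card F).Prime → ((n : ℕ) : F) ≠ 0 →
  ∃ (χ : MulChar F (𝓞 K)) (G : ZMod n → 𝓞 K), orderOf χ = n ∧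
    (∀ v, span {G v} = iw n K (fun t => (-(v * (t : ZMod n))).val) (RingHom.ker π)) ∧
    (∀ v, G v * sa n K (-1) (G v) =
      ((absNorm (RingHom.ker π) : ℕ) : 𝓞 K) ^ (if v = 0 then 0 else n)) ∧
    (∀ (τ : 𝓞 K →+* AI) (ψ : AddChar F AI), ψ ≠ 1 → ∀ v : ZMod n,
      τ (G v) = (-gaussSum ((χ.ringHomComp τ) ^ v.val) ψ) ^ n)

/-- (E) the relation between the Gauss sums modulo primes above `r` -/
def S_e : Prop := ∀ (r a n m : ℕ), r.Prime → 0 < a → ¬ r ∣ n → r ^ a * n = m → Odd m → 1 < n →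
  ∀ s : Multiset (ZMod m), Weak m s → ∀ (k : Type) [Field k] [CharP k r] (φ : AI →+* k),
  ∃ M B : ℕ, 0 < M ∧ ∀ ℓ : ℕ, B < ℓ → ℓ.Prime → ℓ ≡ 1 [MOD M] →
    ∀ (F : Type) [Field F] [Fintype F], Fintype.card F = ℓ → ∀ (χ : MulChar F AI) (ψ : AddChar F AI),
    orderOf χ = n → ψ ≠ 1 →
    φ ((s.map fun z => -gaussSum (χ ^ ((z.val : ℕ) : ZMod n).val) ψ).prod ^ n) = 1

/-- the relation defining the finite order characters -/
structure RC {n : ℕ} [NeZero n] {K : Type} [Field K] [NumberField K]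
    [IsCyclotomicExtension {n} ℚ K] {k k' : Type} [Field k] [Field k'] (ρ : 𝓞 K →+* k)
    (ρ' : 𝓞 K →+* k') (W W' : (ZMod n)ˣ → ℕ) (c c' : ℕ) (I : Ideal (𝓞 K)) (x y : 𝓞 K) : Prop where
  spx : span {x} = iw n K W I
  nx : x * sa n K (-1) x = ((absNorm I : ℕ) : 𝓞 K) ^ c
  spy : span {y} = iw n K W' I
  ny : y * sa n K (-1) y = ((absNorm I : ℕ) : 𝓞 K) ^ c'
  cx : ρ x ^ n = ρ y ^ n
  cy : ρ' y ^ n = 1

/-- (H) existence of the characters -/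
def S_h : Prop := ∀ (n : ℕ) [NeZero n] (K : Type) [Field K] [NumberField K]
  [IsCyclotomicExtension {n} ℚ K], Odd n → 1 < n → ∀ (k k' : Type) [Field k] [Field k']
  (ρ : 𝓞 K →+* k) (ρ' : 𝓞 K →+* k'), (2 : k) ≠ 0 → (2 : k') ≠ 0 → (n : k) = 0 → (n : k') = 0 →
  ∀ (W W' : (ZMod n)ˣ → ℕ) (c c' : ℕ), (∀ t, W t + W (-t) = c) → (∀ t, W' t + W' (-t) = c') →
  ∀ (r : ℕ), r.Prime → ¬ r ∣ n → ∀ (R : Ideal (𝓞 K)), R.IsPrime → (r : 𝓞 K) ∈ R →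
  ∀ (ω : (𝓞 K ⧸ R)ˣ →* Circle),
  ∃ χ : Ideal (𝓞 K) → ℂ, Hk χ (span {((n * r : ℕ) : 𝓞 K)}) (fun _ => 1) ∧
    ∀ (I : Ideal (𝓞 K)) (x y : 𝓞 K), IsCoprime I (span {((n * r : ℕ) : 𝓞 K)}) →
      RC ρ ρ' W W' c c' I x y →
      ∃ h : IsUnit (Ideal.Quotient.mk R (x ^ n)), χ I = (ω h.unit : ℂ)

/-- the exponents -/
def EW (n r f : ℕ) (W : ZMod n → ℕ) (t : ZMod n) : ℤ :=
  ∑ j ∈ range f, (r : ℤ) ^ (f - j) * (W (t * (r : ZMod n) ^ j) : ℤ)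

/-- (F) the choice of the element `β` -/
def S_f : Prop := ∀ (n : ℕ) [NeZero n] (K : Type) [Field K] [NumberField K]
  [IsCyclotomicExtension {n} ℚ K], Odd n → 1 < n → ∀ (r f : ℕ), r.Prime → ¬ r ∣ n →
  f = orderOf (r : ZMod n) → ∀ (R : Ideal (𝓞 K)), R.IsPrime → (r : 𝓞 K) ∈ R →
  ∀ (W : ZMod n → ℕ) (t t' : (ZMod n)ˣ),
  ¬ ((r : ℤ) ^ f - 1) ∣ n * (EW n r f W t - EW n r f W t') →
  ∀ (M A : ℕ), 0 < M → ¬ r ∣ M → 0 < A → ∃ β : 𝓞 K, β ≠ 0 ∧ β - 1 ∈ span {(M : 𝓞 K)} ∧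
    ((Algebra.norm ℤ β : ℤ) : ZMod (r ^ A)) = 1 ∧ IsCoprime (span {β}) (span {(r : 𝓞 K)}) ∧
    Ideal.Quotient.mk R (xw n K (fun u => W u) β ^ n) ≠ 1

end Pool.Agent.NH35.HG
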