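import Pool.Agent.NH35.HG.StmN

/-! The duplication formula and weak rationality at level `2 * m`. -/

set_option autoImplicit false
set_option linter.unusedSectionVars false

namespace Pool.Agent.NH35.HG

open Finset Pool.Agent.H916K

section Dup

variable {F : Type} [Field F] [Fintype F] [DecidableEq F]

/-- the quadratic character with complex values -/
noncomputable def w2rho (F : Type) [Field F] [Fintype F] [DecidableEq F] : MulChar F ℂ :=
  (quadraticChar F).ringHomComp (Int.castRingHom ℂ)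

lemma w2rho_apply (x : F) : w2rho F x = ((quadraticChar F x : ℤ) : ℂ) := rfl

lemma w2rho_quad : (w2rho F).IsQuadratic := (quadraticChar_isQuadratic F).comp _

lemma w2rho_ne_one (h2 : ringChar F ≠ 2) : w2rho F ≠ 1 := by
  intro h
  apply quadraticChar_ne_one h2
  apply MulChar.injective_ringHomComp (f := Int.castRingHom ℂ) Int.cast_injective
  show (quadraticChar F).ringHomComp (Int.castRingHom ℂ) =
    (1 : MulChar F ℤ).ringHomComp (Int.castRingHom ℂ)
  rw [MulChar.ringHomComp_one]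
  exact h

lemma w2rho_sq : w2rho F ^ 2 = 1 := w2rho_quad.sq_eq_one

/-- the number of square roots -/
lemma w2_jac (h2 : ringChar F ≠ 2) {θ : MulChar F ℂ} (hθ : θ ≠ 1) :
    jacobiSum θ (w2rho F) = θ 4 * jacobiSum θ θ := by
  have h20 : (2 : F) ≠ 0 := Ring.two_ne_zero h2
  have e1 : jacobiSum θ (w2rho F) = ∑ y : F, θ (1 - y) * w2rho F y := by
    rw [jacobiSum]
    refine Fintype.sum_equiv (Equiv.subLeft (1 : F)) _ _ fun x => ?_
    simp
  have e2 : ∑ y : F, θ (1 - y) = 0 := by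
    rw [← MulChar.sum_eq_zero_of_ne_one hθ]
    exact Fintype.sum_equiv (Equiv.subLeft (1 : F)) _ _ fun x => by simp
  have e3 : ∑ x : F, θ (1 - x ^ 2) = ∑ y : F, θ (1 - y) * (w2rho F y + 1) := by
    rw [← Finset.sum_fiberwise (s := univ) (g := fun x : F => x ^ 2)]
    refine sum_congr rfl fun y _ => ?_
    have e4 : ∑ x ∈ univ.filter (fun x : F => x ^ 2 = y), θ (1 - x ^ 2) =
        ∑ x ∈ univ.filter (fun x : F => x ^ 2 = y), θ (1 - y) := by
      refine sum_congr rfl fun x hx => ?_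
      rw [(mem_filter.mp hx).2]
    rw [e4, sum_const, nsmul_eq_mul, mul_comm]
    congr 1
    have e5 := quadraticChar_card_sqrts h2 y
    have e6 : univ.filter (fun x : F => x ^ 2 = y) = {x : F | x ^ 2 = y}.toFinset := by
      ext x; simp
    rw [e6, w2rho_apply]
    have e7 : ((({x : F | x ^ 2 = y}.toFinset.card : ℕ) : ℤ) : ℂ) =
      (((quadraticChar F y : ℤ) + 1 : ℤ) : ℂ) := congrArg _ e5
    push_cast at e7
    exact e7
  have e8 : ∑ x : F, θ (1 - x ^ 2) = θ 4 * jacobiSum θ θ := by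
    rw [jacobiSum, mul_sum]
    symm
    refine Fintype.sum_bijective (fun u : F => 1 - 2 * u) ?_ _ _ fun u => ?_
    · constructor
      · intro a b hab
        simp only at hab
        have : (2 : F) * a = 2 * b := by linear_combination -hab
        exact mul_left_cancel₀ h20 this
      · intro y
        refine ⟨(1 - y) / 2, ?_⟩
        simp only
        field_simp
        ring
    · rw [← map_mul, ← map_mul]
      congr 1
      ring
  rw [e1, ← e8, e3]
  simp only [mul_add, mul_one, sum_add_distrib, e2, add_zero]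

variable {m : ℕ} {θ : MulChar F ℂ} {ψ : AddChar F ℂ}

lemma w2_neg_one (hm : Odd m) (hθ : θ ^ m = 1) : θ (-1) = 1 := by
  have h1 : θ (-1) ^ m = 1 := by
    have h2 : (θ ^ m) (-1) = 1 := by
      rw [hθ]
      exact MulChar.one_apply (isUnit_neg_one)
    rwa [mulChar_pow_apply θ m (neg_ne_zero.mpr one_ne_zero)] at h2
  have h3 : θ (-1) ^ 2 = 1 := by
    rw [← map_pow]; simp
  obtain ⟨k, hk⟩ := hm
  rw [hk, pow_succ, pow_mul, h3, one_pow, one_mul] at h1
  exact h1

lemma w2_prim (hψ : ψ ≠ 1) : ψ.IsPrimitive := AddChar.IsPrimitive.of_ne_one hψ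

/-- product of the Gauss sums of a character of odd order and its inverse -/
lemma w2_inv (hm : Odd m) (hθ : θ ^ m = 1) (hθ1 : θ ≠ 1) (hψ : ψ ≠ 1) :
    gaussSum θ ψ * gaussSum θ⁻¹ ψ = (Fintype.card F : ℂ) := by
  have h1 := gaussSum_mul_gaussSum_eq_card hθ1 (w2_prim hψ)
  have h2 := mul_gaussSum_inv_eq_gaussSum θ⁻¹ ψ
  have h3 : (θ⁻¹ : MulChar F ℂ) (-1) = 1 := w2_neg_one hm (by rw [inv_pow, hθ, inv_one])
  rw [h3, one_mul] at h2
  rw [← h2]
  exact h1

lemma w2_ne (hm : Odd m) (hθ : θ ^ m = 1) (hψ : ψ ≠ 1) : gaussSum θ ψ ≠ 0 := by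
  by_cases h : θ = 1
  · rw [h, gaussSum_one_left hψ]
    norm_num
  · intro h0
    have := w2_inv hm hθ h hψ
    rw [h0, zero_mul] at this
    have h1 : (Fintype.card F : ℂ) ≠ 0 := by
      exact_mod_cast Fintype.card_ne_zero
    exact h1 this.symm

/-- the duplication formula -/
lemma w2_dup (h2 : ringChar F ≠ 2) (hm : Odd m) (hθ : θ ^ m = 1) (hψ : ψ ≠ 1) :
    gaussSum (w2rho F * θ) ψ * gaussSum θ ψ * θ 4 = gaussSum (w2rho F) ψ * gaussSum (θ ^ 2) ψ := by
  by_cases h : θ = 1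
  · subst h
    rw [one_pow, mul_one, MulChar.one_apply, mul_one]
    have : (4 : F) = 2 ^ 2 := by norm_num
    rw [this]
    exact (isUnit_iff_ne_zero.mpr (Ring.two_ne_zero h2)).pow 2
  · have hρθ : θ * w2rho F ≠ 1 := by
      intro h1
      have h3 : (θ * w2rho F) ^ m = w2rho F := by
        rw [mul_pow, hθ, one_mul]
        obtain ⟨k, hk⟩ := hm
        rw [hk, pow_succ, pow_mul, w2rho_sq, one_pow, one_mul]
      rw [h1, one_pow] at h3
      exact w2rho_ne_one h2 h3.symm
    have hθ2 : θ * θ ≠ 1 := by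
      intro h1
      apply h
      obtain ⟨k, hk⟩ := hm
      rw [hk, pow_succ, pow_mul, pow_two, h1, one_pow, one_mul] at hθ
      exact hθ
    have a1 := jacobiSum_mul_nontrivial hρθ ψ
    have a2 := jacobiSum_mul_nontrivial hθ2 ψ
    rw [w2_jac h2 h] at a1
    have hg := w2_ne hm hθ hψ
    apply mul_left_cancel₀ hg
    rw [pow_two, mul_comm (w2rho F) θ]
    calc gaussSum θ ψ * (gaussSum (θ * w2rho F) ψ * gaussSum θ ψ * θ 4)
        = gaussSum (θ * w2rho F) ψ * θ 4 * (gaussSum θ ψ * gaussSum θ ψ) := by ring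
      _ = gaussSum (θ * w2rho F) ψ * (θ 4 * jacobiSum θ θ) * gaussSum (θ * θ) ψ := by
          rw [← a2]; ring
      _ = gaussSum θ ψ * (gaussSum (w2rho F) ψ * gaussSum (θ * θ) ψ) := by
          rw [a1]; ring

/-- integers which divide `ℓ - 1` up to a factor `4` are squares -/
lemma w2rho_int {ℓ : ℕ} (hℓ : ℓ.Prime) (hcard : Fintype.card F = ℓ) {c : ℤ} (hc : c ≠ 0)
    (hd : 4 * c.natAbs ∣ ℓ - 1) (hℓ2 : 2 < ℓ) : w2rho F (c : F) = 1 ∧ (c : F) ≠ 0 := by
  have : Fact ℓ.Prime := ⟨hℓ⟩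
  have : CharP F ℓ := charP_of_card_eq_prime hcard
  have hpos : 0 < c.natAbs := Int.natAbs_pos.mpr hc
  have hlt : c.natAbs < ℓ := by
    have := Nat.le_of_dvd (by omega) hd
    omega
  have hcF : (c : F) ≠ 0 := int_cast_ne_zero (ℓ := ℓ) hc hlt
  have hcZ : (c : ZMod ℓ) ≠ 0 := int_cast_ne_zero (ℓ := ℓ) hc hlt
  have hodd : Odd ℓ := hℓ.odd_of_ne_two (by omega)
  have hJ : jacobiSym c ℓ = 1 := by
    rw [jacobiSym.mod_right c hodd]
    have : ℓ % (4 * c.natAbs) = 1 := by
      obtain ⟨k, hk⟩ := hd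
      have h1 : ℓ = 1 + (4 * c.natAbs) * k := by omega
      rw [h1, Nat.add_mul_mod_self_left, Nat.mod_eq_of_lt (by omega)]
    rw [this, jacobiSym.one_right]
  rw [← jacobiSym.legendreSym.to_jacobiSym, legendreSym.eq_one_iff ℓ hcZ] at hJ
  obtain ⟨d, hd⟩ := hJ
  refine ⟨?_, hcF⟩
  rw [w2rho_apply]
  have : quadraticChar F (c : F) = 1 := by
    rw [quadraticChar_one_iff_isSquare hcF]
    refine ⟨ZMod.castHom (dvd_refl ℓ) F d, ?_⟩
    rw [← map_mul, ← hd, map_intCast]
  rw [this]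
  simp

end Dup

/-- indicator of the odd entries -/
def w2o {m : ℕ} (z : ZMod (2 * m)) : ℕ := if Odd z.val then 1 else 0

/-- indicator of the odd entries different from `m` -/
def w2e {m : ℕ} (z : ZMod (2 * m)) : ℕ := if Odd z.val ∧ z.val ≠ m then 1 else 0

section Term

variable {F : Type} [Field F] [Fintype F] [DecidableEq F]
variable {m : ℕ} {ψ : AddChar F ℂ}

lemma w2_pow_val {χ : MulChar F ℂ} (hχ : χ ^ m = 1) (k : ℕ) :
    χ ^ ((k : ℕ) : ZMod m).val = χ ^ k := by
  rw [ZMod.val_natCast]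
  exact (pow_eq_pow_mod k hχ).symm

lemma w2_pow_neg [NeZero m] {χ : MulChar F ℂ} (hχ : χ ^ m = 1) (k : ℕ) :
    χ ^ (-((k : ℕ) : ZMod m)).val = (χ ^ k)⁻¹ := by
  apply eq_inv_of_mul_eq_one_left
  rw [← w2_pow_val hχ k, ← pow_add]
  have h1 : m ∣ (-((k : ℕ) : ZMod m)).val + ((k : ℕ) : ZMod m).val := by
    rw [← ZMod.natCast_eq_zero_iff]
    push_cast
    rw [ZMod.natCast_zmod_val, ZMod.natCast_zmod_val, neg_add_cancel]
  obtain ⟨j, hj⟩ := h1
  rw [hj, pow_mul, hχ, one_pow]

lemma w2_chi_sq (hm : Odd m) {χ' : MulChar F ℂ} (hχ : χ' ^ m = 1) :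
    (w2rho F * χ' ^ ((m + 1) / 2)) ^ 2 = χ' := by
  rw [mul_pow, w2rho_sq, one_mul, ← pow_mul]
  have : (m + 1) / 2 * 2 = m + 1 := by
    obtain ⟨k, hk⟩ := hm
    omega
  rw [this, pow_succ, hχ, one_mul]

lemma w2_chi_m (hm : Odd m) {χ' : MulChar F ℂ} (hχ : χ' ^ m = 1) :
    (w2rho F * χ' ^ ((m + 1) / 2)) ^ m = w2rho F := by
  rw [mul_pow, ← pow_mul, mul_comm ((m + 1) / 2) m, pow_mul, hχ, one_pow, mul_one]
  obtain ⟨k, hk⟩ := hm
  rw [hk, pow_succ, pow_mul, w2rho_sq, one_pow, one_mul]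

lemma w2_order (h2 : ringChar F ≠ 2) (hm : Odd m) {χ' : MulChar F ℂ} (hχ : orderOf χ' = m) :
    orderOf (w2rho F * χ' ^ ((m + 1) / 2)) = 2 * m := by
  have hχ1 : χ' ^ m = 1 := by rw [← hχ]; exact pow_orderOf_eq_one _
  set χ := w2rho F * χ' ^ ((m + 1) / 2) with hdef
  have h1 := w2_chi_sq hm hχ1
  have h3 := w2_chi_m hm hχ1
  rw [← hdef] at h1 h3
  have h4 : orderOf χ ∣ 2 * m := by
    apply orderOf_dvd_of_pow_eq_one
    rw [pow_mul, h1, hχ1]
  have h5 : m ∣ orderOf χ := by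
    rw [← hχ, ← h1]
    exact orderOf_pow_dvd 2
  have hmpos : 0 < m := hm.pos
  obtain ⟨a, ha⟩ := h5
  rw [ha] at h4 ⊢
  have h6 : a ∣ 2 := by
    rw [mul_comm 2 m] at h4
    exact Nat.dvd_of_mul_dvd_mul_left hmpos h4
  rcases (Nat.dvd_prime Nat.prime_two).mp h6 with h | h
  · exfalso
    rw [h, mul_one] at ha
    have : χ ^ m = 1 := by rw [← ha]; exact pow_orderOf_eq_one _
    rw [h3] at this
    exact w2rho_ne_one h2 this
  · rw [h, mul_comm]

/-- the identity for one entry -/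
lemma w2_term [NeZero m] (h2 : ringChar F ≠ 2) (hm : Odd m) {χ' : MulChar F ℂ}
    (hχ : orderOf χ' = m) (hψ : ψ ≠ 1) (z : ZMod (2 * m)) :
    ((dbl z).map fun w => -gaussSum (χ' ^ w.val) ψ).prod ^ m *
        gaussSum (w2rho F) ψ ^ (m * w2o z) =
      (-1) ^ (m * (1 - w2o z)) * (Fintype.card F : ℂ) ^ (m * w2e z) *
        gaussSum ((w2rho F * χ' ^ ((m + 1) / 2)) ^ z.val) ψ ^ m := by
  have hχ1 : χ' ^ m = 1 := by rw [← hχ]; exact pow_orderOf_eq_one _
  have hlt : z.val < 2 * m := ZMod.val_lt z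
  have hsq := w2_chi_sq hm hχ1
  have hcm := w2_chi_m hm hχ1
  set χ := w2rho F * χ' ^ ((m + 1) / 2) with hdef
  rcases Nat.even_or_odd z.val with he | ho
  · have hno : ¬ Odd z.val := Nat.not_odd_iff_even.mpr he
    have e1 : dbl z = {((z.val / 2 : ℕ) : ZMod m)} := if_pos he
    have e2 : w2o z = 0 := if_neg hno
    have e3 : w2e z = 0 := if_neg fun h => hno h.1
    obtain ⟨k, hk⟩ := he
    have e4 : χ ^ z.val = χ' ^ (z.val / 2) := by
      have : z.val = 2 * (z.val / 2) := by omega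
      conv_lhs => rw [this, pow_mul, hsq]
    rw [e1, e2, e3, e4, Multiset.map_singleton, Multiset.prod_singleton, w2_pow_val hχ1,
      mul_zero, pow_zero, mul_one, pow_zero, mul_one, Nat.sub_zero, mul_one, neg_pow]
  · have e1 : dbl z = {((z.val : ℕ) : ZMod m), -(((z.val + m) / 2 : ℕ) : ZMod m)} :=
      if_neg (Nat.not_even_iff_odd.mpr ho)
    have e2 : w2o z = 1 := if_pos ho
    set b := (z.val + m) / 2 with hb
    have hb2 : 2 * b = z.val + m := by
      obtain ⟨k, hk⟩ := ho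
      obtain ⟨j, hj⟩ := hm
      omega
    set θ := χ' ^ b with hθ
    have hθm : θ ^ m = 1 := by
      rw [hθ, ← pow_mul, mul_comm, pow_mul, hχ1, one_pow]
    have e4 : χ ^ z.val = w2rho F * θ := by
      have h1 : χ ^ z.val * w2rho F = θ := by
        rw [← hcm, ← pow_add, ← hb2, pow_mul, hsq]
      have h3 : w2rho F * w2rho F = 1 := by rw [← pow_two, w2rho_sq]
      calc χ ^ z.val = χ ^ z.val * (w2rho F * w2rho F) := by rw [h3, mul_one]
        _ = w2rho F * θ := by rw [← mul_assoc, h1, mul_comm]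
    have e5 : χ' ^ ((z.val : ℕ) : ZMod m).val = θ ^ 2 := by
      rw [w2_pow_val hχ1, hθ, ← pow_mul, mul_comm b 2, hb2, pow_add, hχ1, mul_one]
    have e6 : χ' ^ (-(b : ZMod m)).val = θ⁻¹ := w2_pow_neg hχ1 b
    have e7 : (dbl z).map (fun w => -gaussSum (χ' ^ w.val) ψ) =
        {-gaussSum (θ ^ 2) ψ, -gaussSum θ⁻¹ ψ} := by
      rw [e1, Multiset.insert_eq_cons, Multiset.map_cons, Multiset.map_singleton, e5, e6]
      rfl
    have h4 : (4 : F) ≠ 0 := by
      have : (4 : F) = 2 ^ 2 := by norm_num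
      rw [this]
      exact pow_ne_zero 2 (Ring.two_ne_zero h2)
    have e8 : θ 4 ^ m = 1 := by
      rw [← mulChar_pow_apply θ m h4, hθm]
      exact MulChar.one_apply (isUnit_iff_ne_zero.mpr h4)
    have hdup := w2_dup h2 hm hθm hψ
    have key : gaussSum (θ ^ 2) ψ * gaussSum θ⁻¹ ψ * gaussSum (w2rho F) ψ =
        θ 4 * (Fintype.card F : ℂ) ^ w2e z * gaussSum (w2rho F * θ) ψ := by
      by_cases hz : z.val = m
      · have e9 : w2e z = 0 := if_neg fun h => h.2 hz
        have hbm : b = m := by omega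
        have hθ1 : θ = 1 := by rw [hθ, hbm, hχ1]
        have h5 : (1 : MulChar F ℂ) 4 = 1 := MulChar.one_apply (isUnit_iff_ne_zero.mpr h4)
        rw [e9, hθ1, one_pow, inv_one, gaussSum_one_left hψ, mul_one, h5]
        ring
      · have e9 : w2e z = 1 := if_pos ⟨ho, hz⟩
        have hθ1 : θ ≠ 1 := by
          intro h
          rw [hθ] at h
          have h5 := orderOf_dvd_of_pow_eq_one h
          rw [hχ] at h5
          obtain ⟨j, hj⟩ := h5
          have hmpos : 0 < m := hm.pos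
          rcases j with _ | _ | j
          · omega
          · omega
          · have : m * (j + 1 + 1) = m * j + 2 * m := by ring
            omega
        rw [e9, pow_one]
        have h6 := w2_inv hm hθm hθ1 hψ
        calc gaussSum (θ ^ 2) ψ * gaussSum θ⁻¹ ψ * gaussSum (w2rho F) ψ
            = (gaussSum (w2rho F) ψ * gaussSum (θ ^ 2) ψ) * gaussSum θ⁻¹ ψ := by ring
          _ = θ 4 * (gaussSum θ ψ * gaussSum θ⁻¹ ψ) * gaussSum (w2rho F * θ) ψ := by
              rw [← hdup]; ring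
          _ = _ := by rw [h6]
    rw [e7, e2, e4, Multiset.insert_eq_cons, Multiset.prod_cons, Multiset.prod_singleton, mul_one,
      neg_mul_neg, Nat.sub_self, mul_zero, pow_zero, one_mul, ← mul_pow, key, mul_pow, mul_pow, e8,
      one_mul, ← pow_mul, mul_comm (w2e z) m]

end Term

lemma w2_ind {α : Type} (m : ℕ) (s : Multiset α) (D g : α → ℂ) (ρ c : ℂ) (o e : α → ℕ)
    (h : ∀ z ∈ s, D z ^ m * ρ ^ (m * o z) = (-1) ^ (m * (1 - o z)) * c ^ (m * e z) * g z ^ m) :
    (s.map D).prod ^ m * ρ ^ (m * (s.map o).sum) =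
      (-1) ^ (m * (s.map fun z => 1 - o z).sum) * c ^ (m * (s.map e).sum) * (s.map g).prod ^ m := by
  induction s using Multiset.induction_on with
  | empty => simp
  | cons a s ih =>
    have h1 := ih fun z hz => h z (Multiset.mem_cons_of_mem hz)
    have h2 := h a (Multiset.mem_cons_self a s)
    simp only [Multiset.map_cons, Multiset.prod_cons, Multiset.sum_cons, mul_add, pow_add, mul_pow]
    calc D a ^ m * (s.map D).prod ^ m * (ρ ^ (m * o a) * ρ ^ (m * (s.map o).sum))
        = (D a ^ m * ρ ^ (m * o a)) * ((s.map D).prod ^ m * ρ ^ (m * (s.map o).sum)) := by ring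
      _ = _ := by rw [h1, h2]; ring

/-- (W2) -/
theorem weak2 : S_weak2 := by
  classical
  intro m hm h1m s hcard hs hsum hR
  have : NeZero m := ⟨by omega⟩
  obtain ⟨N0, hN0⟩ := hR
  set A := (s.map fun z => z.2.natAbs).prod with hA
  set O := (s.map fun z => w2o z.1).sum with hO
  set E := (s.map fun z => w2e z.1).sum with hE
  have hApos : 0 < A := by
    rw [hA]
    apply Nat.pos_of_ne_zero
    intro h0
    rw [Multiset.prod_eq_zero_iff, Multiset.mem_map] at h0
    obtain ⟨z, hz, hz0⟩ := h0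
    exact (hs z hz).2 (Int.natAbs_eq_zero.mp hz0)
  -- the number of odd entries
  have hOE : Even O := by
    have h1 : (2 * m) ∣ (s.map fun z => z.1.val).sum := by
      rw [← ZMod.natCast_eq_zero_iff, Nat.cast_multiset_sum, Multiset.map_map]
      rw [← hsum]
      congr 1
      refine Multiset.map_congr rfl fun z _ => ?_
      simp
    have h2 : ∀ t : Multiset (ZMod (2 * m) × ℤ),
        (t.map fun z => w2o z.1).sum ≡ (t.map fun z => z.1.val).sum [MOD 2] := by
      intro t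
      induction t using Multiset.induction_on with
      | empty => exact Nat.ModEq.refl _
      | cons a t ih =>
        simp only [Multiset.map_cons, Multiset.sum_cons]
        refine Nat.ModEq.add ?_ ih
        unfold w2o
        rcases Nat.even_or_odd a.1.val with he | ho
        · rw [if_neg (Nat.not_odd_iff_even.mpr he)]
          exact (Nat.even_iff.mp he).symm
        · rw [if_pos ho]
          exact (Nat.odd_iff.mp ho).symm
    have h3 := (h2 s).trans ((Nat.modEq_zero_iff_dvd).mpr ((Dvd.intro m rfl : 2 ∣ 2 * m).trans h1))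
    exact even_iff_two_dvd.mpr ((Nat.modEq_zero_iff_dvd).mp h3)
  have hOsum : ∀ t : Multiset (ZMod (2 * m) × ℤ),
      (t.map fun z => 1 - w2o z.1).sum + (t.map fun z => w2o z.1).sum = Multiset.card t := by
    intro t
    induction t using Multiset.induction_on with
    | empty => simp
    | cons a t ih =>
      simp only [Multiset.map_cons, Multiset.sum_cons, Multiset.card_cons]
      have : w2o a.1 ≤ 1 := by unfold w2o; split_ifs <;> omega
      omega
  have hOs := hOsum s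
  rw [← hO] at hOs
  refine ⟨8 * m * A, m * (E + Multiset.card s / 2 - O / 2), N0 + 2, by positivity, ?_⟩
  intro ℓ hℓN hℓ hmod F _ _ hF χ' ψ hχ hψ
  have : Fact ℓ.Prime := ⟨hℓ⟩
  have : CharP F ℓ := charP_of_card_eq_prime hF
  have hring : ringChar F ≠ 2 := by
    rw [ringChar.eq F ℓ]; omega
  have hdvd : 8 * m * A ∣ ℓ - 1 := (Nat.modEq_iff_dvd' (by omega)).mp hmod.symm
  have hχ1 : χ' ^ m = 1 := by rw [← hχ]; exact pow_orderOf_eq_one _
  set χ := w2rho F * χ' ^ ((m + 1) / 2) with hdef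
  have hord := w2_order hring hm hχ
  rw [← hdef] at hord
  have hcm := w2_chi_m hm hχ1
  rw [← hdef] at hcm
  have hℓ1 : ((ℓ : ℕ) : ZMod (2 * m)) = 1 := by
    have h1 : 2 * m ∣ ℓ - 1 := by
      refine Dvd.dvd.trans ?_ hdvd
      exact ⟨4 * A, by ring⟩
    have h2 : ((ℓ - 1 : ℕ) : ZMod (2 * m)) = 0 := (ZMod.natCast_eq_zero_iff _ _).mpr h1
    rw [Nat.cast_sub (by omega), Nat.cast_one] at h2
    exact sub_eq_zero.mp h2
  have hrat := hN0 ℓ (by omega) hℓ F (by rw [hℓ1, orderOf_one, pow_one]; exact hF) χ ψ hord hψ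
  -- the m-th power
  have hrat2 : (s.map fun z => gaussSum (χ ^ z.1.val) ψ).prod ^ m =
      (Fintype.card F : ℂ) ^ (m * (Multiset.card s / 2)) := by
    rw [hrat, mul_pow, ← pow_mul, mul_comm (Multiset.card s / 2) m, ← Multiset.prod_map_pow]
    have : (s.map fun z => (χ ^ z.1.val) (z.2 : F) ^ m) = s.map fun _ => (1 : ℂ) := by
      refine Multiset.map_congr rfl fun z hz => ?_
      have hz2 := (hs z hz).2
      have hdz : 4 * z.2.natAbs ∣ ℓ - 1 := by
        have h1 : z.2.natAbs ∣ A := Multiset.dvd_prod (Multiset.mem_map_of_mem _ hz)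
        obtain ⟨k, hk⟩ := h1
        refine Dvd.dvd.trans ?_ hdvd
        exact ⟨2 * m * k, by rw [hk]; ring⟩
      obtain ⟨h1, h2⟩ := w2rho_int hℓ hF hz2 hdz (by omega)
      have h3 : χ (z.2 : F) ^ m = 1 := by
        rw [← mulChar_pow_apply χ m h2, hcm, h1]
      rw [mulChar_pow_apply χ _ h2, pow_right_comm, h3, one_pow]
    rw [this]
    simp
  have hmain := w2_ind m s (fun z => ((dbl z.1).map fun w => -gaussSum (χ' ^ w.val) ψ).prod)
    (fun z => gaussSum (χ ^ z.1.val) ψ) (gaussSum (w2rho F) ψ) (Fintype.card F : ℂ)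
    (fun z => w2o z.1) (fun z => w2e z.1) (fun z _ => w2_term hring hm hχ hψ z.1)
  rw [hrat2, ← hO, ← hE] at hmain
  have hbind : (((s.map Prod.fst).bind dbl).map fun w => -gaussSum (χ' ^ w.val) ψ).prod =
      (s.map fun z => ((dbl z.1).map fun w => -gaussSum (χ' ^ w.val) ψ).prod).prod := by
    rw [Multiset.map_bind, Multiset.prod_bind, Multiset.map_map]
    rfl
  rw [hbind]
  -- the square of the quadratic Gauss sum
  have hg2 : gaussSum (w2rho F) ψ ^ 2 = (Fintype.card F : ℂ) := by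
    rw [gaussSum_sq (w2rho_ne_one hring) w2rho_quad (w2_prim hψ)]
    have h4 : 4 * (-1 : ℤ).natAbs ∣ ℓ - 1 := by
      refine Dvd.dvd.trans ?_ hdvd
      exact ⟨2 * m * A, by simp; ring⟩
    have := (w2rho_int (F := F) hℓ hF (c := -1) (by norm_num) h4 (by omega)).1
    push_cast at this
    rw [this, one_mul]
  obtain ⟨k, hk⟩ := hOE
  obtain ⟨j, hj⟩ := hcard
  have hsign : (-1 : ℂ) ^ (m * (s.map fun z => 1 - w2o z.1).sum) = 1 := by
    have : (s.map fun z => 1 - w2o z.1).sum = 2 * (j - k) := by omega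
    rw [this, mul_comm, mul_assoc, pow_mul]
    norm_num
  have hgk : gaussSum (w2rho F) ψ ^ (m * O) = (Fintype.card F : ℂ) ^ (m * k) := by
    have : m * O = 2 * (m * k) := by rw [hk]; ring
    rw [this, pow_mul, hg2]
  rw [hsign, one_mul, hgk, ← pow_add] at hmain
  have hne : (Fintype.card F : ℂ) ^ (m * k) ≠ 0 := by
    apply pow_ne_zero
    exact_mod_cast Fintype.card_ne_zero
  apply mul_right_cancel₀ hne
  rw [hmain, ← hF, ← pow_add]
  congr 1
  have h1 : O / 2 = k := by omega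
  have h2 : Multiset.card s / 2 = j := by omega
  rw [h1, h2]
  have h3 : k ≤ j := by omega
  obtain ⟨i, rfl⟩ := Nat.exists_eq_add_of_le h3
  have h4 : E + (k + i) - k = E + i := by omega
  rw [h4]
  ring

end Pool.Agent.NH35.HG
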