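import Pool.Agent.NH35.HG.Main
import Pool.Agent.NH35.HG.W2

/-! Classes which are rational over abelian number fields. -/

set_option autoImplicit false
set_option linter.unusedSectionVars false

namespace Pool.Agent.NH35.HG

open Finset Pool.Agent.H916R2 Pool.Agent.H916K

/-- Let `X` be the diagonal hypersurface `c_0 * x_0 ^ m + ... + c_(n+1) * x_(n+1) ^ m = 0` of even
dimension `n` over the rational numbers, and `K` the field of `m`-th roots of unity. The multiset
`s` consists of the `n + 2` pairs `(a_i, c_i)` of an eigenline `V(a)` of the middle cohomology.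
The property says that for some `M > 0` and all large primes `ℓ` congruent to `1` modulo `M` the
Frobenius elements of the primes of `K` above `ℓ`, with residue field `F` of `ℓ` elements, act
trivially on `V(a)(n/2)`: the eigenvalue on `V(a)` is `ℓ⁻¹ * ∏ g(χ ^ a_i) / χ ^ a_i (c_i)`
(Weil). It holds if the Galois group of `K` acts trivially on `V(a)(n/2)` (take `M = m`), and more
generally if the Galois group of an abelian number field `L` which contains `K` acts trivially on
`V(a)(n/2)` (take the conductor of `L` for `M`). -/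
def AbelianClass (m : ℕ) (s : Multiset (ZMod m × ℤ)) : Prop :=
  ∃ M N : ℕ, 0 < M ∧ ∀ ℓ : ℕ, N < ℓ → ℓ.Prime → ℓ ≡ 1 [MOD M] →
    ∀ (F : Type) [Field F] [Fintype F], Fintype.card F = ℓ →
    ∀ (χ : MulChar F ℂ) (ψ : AddChar F ℂ), orderOf χ = m → ψ ≠ 1 →
    (s.map fun z => gaussSum (χ ^ z.1.val) ψ).prod =
      (ℓ : ℂ) ^ (Multiset.card s / 2) * (s.map fun z => (χ ^ z.1.val) (z.2 : F)).prod

theorem RationalClass.abelian {m : ℕ} (hm : 0 < m) {s : Multiset (ZMod m × ℤ)}
    (h : RationalClass m s) : AbelianClass m s := by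
  obtain ⟨N, hN⟩ := h
  refine ⟨m, N, hm, fun ℓ hℓN hℓ hmod F _ _ hF χ ψ hχ hψ => ?_⟩
  have h1 : (ℓ : ZMod m) = 1 := by
    have := (ZMod.natCast_eq_natCast_iff _ _ _).mpr hmod
    simpa using this
  have h2 := hN ℓ hℓN hℓ F (by rw [h1, orderOf_one, pow_one]; exact hF) χ ψ hχ hψ
  rw [h2, hF]

/-- **Hodge type.** -/
theorem hodge_of_abelian {m : ℕ} (hm : 2 ≤ m) {s : Multiset (ZMod m × ℤ)}
    (h0 : ∀ z ∈ s, z.1 ≠ 0) (heven : Even (Multiset.card s)) (hsum : (s.map Prod.fst).sum = 0)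
    (hc : ∀ z ∈ s, z.2 ≠ 0) (hR : AbelianClass m s) :
    IsHodge m (s.map Prod.fst) := by
  classical
  have hmz : NeZero m := ⟨by omega⟩
  refine ⟨?_, by rwa [Multiset.card_map], hsum, ?_⟩
  · intro h
    obtain ⟨z, hz, hz0⟩ := Multiset.mem_map.mp h
    exact h0 z hz hz0
  intro t
  obtain ⟨M0, N, hM0, hN⟩ := hR
  have hMm : NeZero (M0 * m) := ⟨by have := NeZero.pos m; positivity⟩
  obtain ⟨ℓ, hℓN, hℓ, hℓM⟩ := Nat.forall_exists_prime_gt_and_eq_mod
    (q := M0 * m) (a := 1) isUnit_one (N + 3 + (s.map fun z => z.2.natAbs).sum)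
  have hℓM' : ℓ ≡ 1 [MOD (M0 * m)] := (ZMod.natCast_eq_natCast_iff _ _ _).1 (by simpa using hℓM)
  have hℓ0 : ℓ ≡ 1 [MOD M0] := Nat.ModEq.of_mul_right _ hℓM'
  have hℓm : (ℓ : ZMod m) = 1 := by
    have := (ZMod.natCast_eq_natCast_iff _ _ _).2 (Nat.ModEq.of_mul_left _ hℓM')
    simpa using this
  have hF : Fact ℓ.Prime := ⟨hℓ⟩
  have hℓ3 : 3 ≤ ℓ := by omega
  obtain ⟨k, _, _, φ, Γ, _, v, hv1, hv2, hv3⟩ := exists_val hℓ
  have hv : Above φ v := ⟨hv1, hv2, hv3⟩
  obtain ⟨χ1, hχ1, hχφ⟩ := exists_teich (ℓ := ℓ) φ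
  obtain ⟨ζ, hζ⟩ : ∃ ζ : AI, IsPrimitiveRoot ζ ℓ := by
    have h1 := Complex.isPrimitiveRoot_exp ℓ hℓ.ne_zero
    have h2 : IsIntegral ℤ (Complex.exp (2 * Real.pi * Complex.I / ((ℓ : ℕ) : ℂ))) :=
      h1.isIntegral hℓ.pos
    exact ⟨⟨_, h2⟩, IsPrimitiveRoot.of_map_of_injective (f := algebraMap AI ℂ) h1
      Subtype.val_injective⟩
  have hinj : Function.Injective (algebraMap AI ℂ) := Subtype.val_injective
  have hmdvd : m ∣ ℓ - 1 := by
    have h1 : ((ℓ - 1 : ℕ) : ZMod m) = 0 := by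
      rw [Nat.cast_sub (by omega), hℓm]; simp
    exact (ZMod.natCast_eq_zero_iff _ _).mp h1
  obtain ⟨e, he⟩ := hmdvd
  have he0 : 0 < e := Nat.pos_of_ne_zero (by rintro rfl; rw [mul_zero] at he; omega)
  set τ : ℕ := (t : ZMod m).val with hτ
  have hτcop : τ.Coprime m := ZMod.val_coe_unit_coprime t
  set χ : MulChar (ZMod ℓ) AI := (χ1 ^ e) ^ τ with hχ
  have hord1 : orderOf (χ1 ^ e) = m := by
    rw [orderOf_pow_of_dvd he0.ne' (by rw [hχ1, he]; exact dvd_mul_left e m), hχ1, he,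
      Nat.mul_div_cancel _ he0]
  have hordχ : orderOf χ = m := by
    rw [hχ, Nat.Coprime.orderOf_pow (by rw [hord1]; exact hτcop.symm), hord1]
  set ψ := AddChar.zmodChar ℓ hζ.pow_eq_one with hψdef
  set χ' : MulChar (ZMod ℓ) ℂ := χ.ringHomComp (algebraMap AI ℂ) with hχ'
  set ψ' : AddChar (ZMod ℓ) ℂ := (algebraMap AI ℂ).toMonoidHom.compAddChar ψ with hψ'
  have hordχ' : orderOf χ' = m := by
    rw [← hordχ]
    exact orderOf_injective (MulChar.ringHomCompHom (algebraMap AI ℂ))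
      (MulChar.injective_ringHomComp hinj) χ
  have hψ1 : ψ' ≠ 1 := by
    intro h
    have h1 : ψ' 1 = 1 := by rw [h]; rfl
    have h2 : algebraMap AI ℂ (ψ 1) = 1 := h1
    rw [hψdef, AddChar.zmodChar_apply] at h2
    have : Fact (1 < ℓ) := ⟨hℓ.one_lt⟩
    rw [ZMod.val_one, pow_one] at h2
    exact hζ.ne_one hℓ.one_lt (hinj (by rw [h2, map_one]))
  have h1 := hN ℓ (by omega) hℓ hℓ0 (ZMod ℓ) (ZMod.card ℓ) χ' ψ' hordχ' hψ1
  have h2 := congrArg v h1
  rw [map_mul, map_pow, map_multiset_prod, map_multiset_prod, Multiset.map_map,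
    Multiset.map_map] at h2
  set π := v (((ζ - 1 : AI)) : ℂ) with hπ
  have hg : ∀ z ∈ s, v (gaussSum (χ' ^ z.1.val) ψ') = π ^ (e * ((t : ZMod m) * z.1).val) := by
    intro z hz
    have e1 : gaussSum (χ' ^ z.1.val) ψ' = ((gaussSum (χ ^ z.1.val) ψ : AI) : ℂ) := by
      have : gaussSum (χ' ^ z.1.val) ψ' = algebraMap AI ℂ (gaussSum (χ ^ z.1.val) ψ) := by
        unfold gaussSum
        rw [map_sum]
        refine sum_congr rfl fun x _ => ?_
        rw [map_mul, hχ', MulChar.ringHomComp_pow, MulChar.ringHomComp_apply]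
        rfl
      rw [this]; rfl
    have e2 : χ ^ z.1.val = χ1 ^ (e * ((t : ZMod m) * z.1).val) := by
      rw [hχ, ← pow_mul, ← pow_mul, pow_eq_pow_iff_modEq, hχ1, he, ZMod.val_mul, mul_comm m e]
      exact (Nat.ModEq.mul_left' e (Nat.mod_modEq _ _)).symm
    have e3 : (t : ZMod m) * z.1 ≠ 0 := by
      intro h
      exact h0 z hz ((t.isUnit.mul_right_eq_zero).mp h)
    have e4 : 0 < ((t : ZMod m) * z.1).val := Nat.pos_of_ne_zero
      (fun h => e3 ((ZMod.val_eq_zero _).mp h))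
    have e5 := ZMod.val_lt ((t : ZMod m) * z.1)
    have e6 : e * ((t : ZMod m) * z.1).val ≤ e * (m - 1) := Nat.mul_le_mul_left e (by omega)
    have e7 : e * (m - 1) = ℓ - 1 - e := by
      rw [he, Nat.mul_sub, mul_one, mul_comm]
    rw [e1, e2]
    exact v_gauss hv hζ hχ1 hχφ hℓ3 _ (Nat.mul_pos he0 e4) (by omega)
  have hcf : ∀ z ∈ s, v ((χ' ^ z.1.val) (z.2 : ZMod ℓ)) = 1 := by
    intro z hz
    have e1 : (χ' ^ z.1.val) (z.2 : ZMod ℓ) = (((χ ^ z.1.val) (z.2 : ZMod ℓ) : AI) : ℂ) := by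
      rw [hχ', MulChar.ringHomComp_pow, MulChar.ringHomComp_apply]; rfl
    rw [e1]
    apply hv.root (n := orderOf (χ ^ z.1.val)) (orderOf_pos _).ne'
    apply mulChar_pow_one rfl
    apply int_cast_ne_zero (ℓ := ℓ) (hc z hz)
    have : z.2.natAbs ≤ (s.map fun z => z.2.natAbs).sum :=
      Multiset.single_le_sum (fun _ _ => Nat.zero_le _) _ (Multiset.mem_map_of_mem _ hz)
    omega
  have e1 : (s.map (v ∘ fun z => gaussSum (χ' ^ z.1.val) ψ')) =
      s.map fun z => π ^ (e * ((t : ZMod m) * z.1).val) := Multiset.map_congr rfl hg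
  have e2 : (s.map (v ∘ fun z => (χ' ^ z.1.val) (z.2 : ZMod ℓ))) = s.map fun _ => (1 : Γ) :=
    Multiset.map_congr rfl hcf
  rw [e1, e2, Multiset.map_const', Multiset.prod_replicate, one_pow, mul_one] at h2
  have hprodpow : ∀ s : Multiset (ZMod m × ℤ),
      (s.map fun z => π ^ (e * ((t : ZMod m) * z.1).val)).prod =
        π ^ (e * (s.map fun z => ((t : ZMod m) * z.1).val).sum) := by
    intro s
    induction s using Multiset.induction_on with
    | empty => simp
    | cons a s ih =>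
      rw [Multiset.map_cons, Multiset.prod_cons, ih, Multiset.map_cons, Multiset.sum_cons,
        ← pow_add, mul_add]
  rw [hprodpow] at h2
  -- the valuation of `ℓ`
  have hπ0 : π ≠ 0 := by
    rw [hπ, Valuation.ne_zero_iff]
    intro h0
    have h7 : (ζ : ℂ) = 1 := by
      have : ((ζ - 1 : AI) : ℂ) = (ζ : ℂ) - 1 := by push_cast; ring
      rw [this] at h0
      exact sub_eq_zero.mp h0
    exact hζ.ne_one hℓ.one_lt (Subtype.ext h7)
  have hπ1 : π < 1 := v_pi hv hζ
  have hvℓ : v ((ℓ : ℂ)) = π ^ (ℓ - 1) := by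
    refine le_antisymm (v_ell hv hζ) ?_
    have hprim : (AddChar.zmodChar ℓ hζ.pow_eq_one).IsPrimitive :=
      AddChar.zmodChar_primitive_of_primitive_root ℓ hζ
    have hne : χ1 ≠ 1 := by
      intro h; rw [h, orderOf_one] at hχ1; omega
    have h3 := gaussSum_mul_gaussSum_pow_orderOf_sub_one hne hprim
    rw [hχ1] at h3
    have h4 := congrArg (fun z : AI => v (z : ℂ)) h3
    push_cast at h4
    rw [map_mul, map_mul] at h4
    have hneg : v ((χ1 (-1) : AI) : ℂ) = 1 := by
      apply hv.root (n := 2) (by norm_num)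
      rw [← map_pow]
      have : ((-1 : ZMod ℓ)) ^ 2 = 1 := by ring
      rw [this, MulChar.map_one]
    rw [hneg, one_mul, ZMod.card, v_gauss_one hv hζ hχ1 hχφ hℓ3, show ℓ - 1 - 1 = ℓ - 2 by omega,
      v_gauss hv hζ hχ1 hχφ hℓ3 (ℓ - 2) (by omega) le_rfl, ← pow_succ',
      show ℓ - 2 + 1 = ℓ - 1 by omega] at h4
    exact h4.le
  rw [hvℓ, ← pow_mul] at h2
  have h3 := pow_right_injective₀ (zero_lt_iff.mpr hπ0) hπ1.ne h2
  obtain ⟨c, hcard⟩ := heven
  rw [hcard, show (c + c) / 2 = c by omega, he] at h3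
  have h4 : (s.map fun z => ((t : ZMod m) * z.1).val).sum = m * c := by
    have : e * (s.map fun z => ((t : ZMod m) * z.1).val).sum = e * (m * c) := by
      rw [h3]; ring
    exact Nat.eq_of_mul_eq_mul_left he0 this
  rw [Multiset.map_map, Multiset.card_map]
  have h5 : (s.map ((fun a => ((t : ZMod m) * a).val) ∘ Prod.fst)).sum = m * c := h4
  rw [h5, hcard]; ring


/-- (W1) -/
def S_weak1a : Prop := ∀ (m : ℕ), Odd m → 1 < m → ∀ s : Multiset (ZMod m × ℤ),
  Even (Multiset.card s) → (∀ z ∈ s, z.1 ≠ 0 ∧ z.2 ≠ 0) → AbelianClass m s →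
  Weak m (s.map Prod.fst)

/-- (W2) -/
def S_weak2a : Prop := ∀ (m : ℕ), Odd m → 1 < m → ∀ s : Multiset (ZMod (2 * m) × ℤ),
  Even (Multiset.card s) → (∀ z ∈ s, z.1 ≠ 0 ∧ z.2 ≠ 0) → (s.map Prod.fst).sum = 0 →
  AbelianClass (2 * m) s → Weak m ((s.map Prod.fst).bind dbl)

private lemma ab_prod_neg {α R : Type} [CommRing R] (s : Multiset α) (g : α → R) :
    (s.map fun z => -g z).prod = (-1) ^ Multiset.card s * (s.map g).prod := by
  induction s using Multiset.induction_on with
  | empty => simp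
  | cons a s ih =>
    rw [Multiset.map_cons, Multiset.prod_cons, ih, Multiset.card_cons, Multiset.map_cons,
      Multiset.prod_cons, pow_succ]
    ring

theorem weak1_ab : S_weak1a := by
  intro m _ hm1 s hs hne hR
  obtain ⟨M0, N, hM0, hN⟩ := hR
  refine ⟨M0 * m, m * (Multiset.card s / 2), N + (s.map fun z => z.2.natAbs).sum,
    Nat.mul_pos hM0 (by omega), ?_⟩
  intro ℓ hℓN hℓ hℓm F _ _ hF χ ψ hχ hψ
  have : Fact ℓ.Prime := ⟨hℓ⟩
  have hℓ0 : ℓ ≡ 1 [MOD M0] := Nat.ModEq.of_mul_right _ hℓm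
  have hchar : CharP F ℓ := by
    obtain ⟨p, hp⟩ := CharP.exists F
    obtain ⟨n, hpp, hn⟩ := FiniteField.card F p
    have h2 : p = ℓ := by
      rw [hF] at hn
      have h3 : p ∣ ℓ := by
        rw [hn]
        exact dvd_pow_self p n.ne_zero
      exact (Nat.prime_dvd_prime_iff_eq hpp hℓ).mp h3
    rw [← h2]
    exact hp
  have h2 := hN ℓ (by omega) hℓ hℓ0 F hF χ ψ hχ hψ
  rw [Multiset.map_map]
  have h3 : (s.map ((fun z => -gaussSum (χ ^ z.val) ψ) ∘ Prod.fst)).prod =
      (ℓ : ℂ) ^ (Multiset.card s / 2) * (s.map fun z => (χ ^ z.1.val) (z.2 : F)).prod := by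
    change (s.map fun z => -gaussSum (χ ^ z.1.val) ψ).prod = _
    rw [ab_prod_neg, hs.neg_one_pow, one_mul, h2]
  rw [h3, mul_pow, ← pow_mul, ← Multiset.prod_map_pow]
  have h4 : (s.map fun z => (χ ^ z.1.val) (z.2 : F) ^ m).prod = 1 := by
    refine Multiset.prod_eq_one fun x hx => ?_
    obtain ⟨z, hz, rfl⟩ := Multiset.mem_map.mp hx
    have hz0 : (z.2 : F) ≠ 0 := by
      apply int_cast_ne_zero (ℓ := ℓ) (hne z hz).2
      have : z.2.natAbs ≤ (s.map fun z => z.2.natAbs).sum :=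
        Multiset.single_le_sum (fun _ _ => Nat.zero_le _) _ (Multiset.mem_map_of_mem _ hz)
      omega
    rw [mulChar_pow_apply χ _ hz0, ← pow_mul, mul_comm, pow_mul, mulChar_pow_one hχ hz0, one_pow]
  rw [h4, mul_one, mul_comm]

theorem weak2_ab : S_weak2a := by
  classical
  intro m hm h1m s hcard hs hsum hR
  have : NeZero m := ⟨by omega⟩
  obtain ⟨M0, N0, hM0, hN0⟩ := hR
  set A := (s.map fun z => z.2.natAbs).prod with hA
  set O := (s.map fun z => w2o z.1).sum with hO
  set E := (s.map fun z => w2e z.1).sum with hE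
  have hApos : 0 < A := by
    rw [hA]
    apply Nat.pos_of_ne_zero
    intro h0
    rw [Multiset.prod_eq_zero_iff, Multiset.mem_map] at h0
    obtain ⟨z, hz, hz0⟩ := h0
    exact (hs z hz).2 (Int.natAbs_eq_zero.mp hz0)
  -- the number of odd entries
  have hOE : Even O := by
    have h1 : (2 * m) ∣ (s.map fun z => z.1.val).sum := by
      rw [← ZMod.natCast_eq_zero_iff, Nat.cast_multiset_sum, Multiset.map_map]
      rw [← hsum]
      congr 1
      refine Multiset.map_congr rfl fun z _ => ?_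
      simp
    have h2 : ∀ t : Multiset (ZMod (2 * m) × ℤ),
        (t.map fun z => w2o z.1).sum ≡ (t.map fun z => z.1.val).sum [MOD 2] := by
      intro t
      induction t using Multiset.induction_on with
      | empty => exact Nat.ModEq.refl _
      | cons a t ih =>
        simp only [Multiset.map_cons, Multiset.sum_cons]
        refine Nat.ModEq.add ?_ ih
        unfold w2o
        rcases Nat.even_or_odd a.1.val with he | ho
        · rw [if_neg (Nat.not_odd_iff_even.mpr he)]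
          exact (Nat.even_iff.mp he).symm
        · rw [if_pos ho]
          exact (Nat.odd_iff.mp ho).symm
    have h3 := (h2 s).trans ((Nat.modEq_zero_iff_dvd).mpr ((Dvd.intro m rfl : 2 ∣ 2 * m).trans h1))
    exact even_iff_two_dvd.mpr ((Nat.modEq_zero_iff_dvd).mp h3)
  have hOsum : ∀ t : Multiset (ZMod (2 * m) × ℤ),
      (t.map fun z => 1 - w2o z.1).sum + (t.map fun z => w2o z.1).sum = Multiset.card t := by
    intro t
    induction t using Multiset.induction_on with
    | empty => simp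
    | cons a t ih =>
      simp only [Multiset.map_cons, Multiset.sum_cons, Multiset.card_cons]
      have : w2o a.1 ≤ 1 := by unfold w2o; split_ifs <;> omega
      omega
  have hOs := hOsum s
  rw [← hO] at hOs
  refine ⟨M0 * (8 * m * A), m * (E + Multiset.card s / 2 - O / 2), N0 + 2, by positivity, ?_⟩
  intro ℓ hℓN hℓ hmodM F _ _ hF χ' ψ hχ hψ
  have hmod0 : ℓ ≡ 1 [MOD M0] := Nat.ModEq.of_mul_right _ hmodM
  have hmod : ℓ ≡ 1 [MOD (8 * m * A)] := Nat.ModEq.of_mul_left _ hmodM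
  have : Fact ℓ.Prime := ⟨hℓ⟩
  have : CharP F ℓ := charP_of_card_eq_prime hF
  have hring : ringChar F ≠ 2 := by
    rw [ringChar.eq F ℓ]; omega
  have hdvd : 8 * m * A ∣ ℓ - 1 := (Nat.modEq_iff_dvd' (by omega)).mp hmod.symm
  have hχ1 : χ' ^ m = 1 := by rw [← hχ]; exact pow_orderOf_eq_one _
  set χ := w2rho F * χ' ^ ((m + 1) / 2) with hdef
  have hord := w2_order hring hm hχ
  rw [← hdef] at hord
  have hcm := w2_chi_m hm hχ1
  rw [← hdef] at hcm
  have hrat := hN0 ℓ (by omega) hℓ hmod0 F hF χ ψ hord hψ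
  -- the m-th power
  have hrat2 : (s.map fun z => gaussSum (χ ^ z.1.val) ψ).prod ^ m =
      (Fintype.card F : ℂ) ^ (m * (Multiset.card s / 2)) := by
    rw [hrat, mul_pow, ← pow_mul, mul_comm (Multiset.card s / 2) m, ← Multiset.prod_map_pow, hF]
    have : (s.map fun z => (χ ^ z.1.val) (z.2 : F) ^ m) = s.map fun _ => (1 : ℂ) := by
      refine Multiset.map_congr rfl fun z hz => ?_
      have hz2 := (hs z hz).2
      have hdz : 4 * z.2.natAbs ∣ ℓ - 1 := by
        have h1 : z.2.natAbs ∣ A := Multiset.dvd_prod (Multiset.mem_map_of_mem _ hz)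
        obtain ⟨k, hk⟩ := h1
        refine Dvd.dvd.trans ?_ hdvd
        exact ⟨2 * m * k, by rw [hk]; ring⟩
      obtain ⟨h1, h2⟩ := w2rho_int hℓ hF hz2 hdz (by omega)
      have h3 : χ (z.2 : F) ^ m = 1 := by
        rw [← mulChar_pow_apply χ m h2, hcm, h1]
      rw [mulChar_pow_apply χ _ h2, pow_right_comm, h3, one_pow]
    rw [this]
    simp
  have hmain := w2_ind m s (fun z => ((dbl z.1).map fun w => -gaussSum (χ' ^ w.val) ψ).prod)
    (fun z => gaussSum (χ ^ z.1.val) ψ) (gaussSum (w2rho F) ψ) (Fintype.card F : ℂ)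
    (fun z => w2o z.1) (fun z => w2e z.1) (fun z _ => w2_term hring hm hχ hψ z.1)
  rw [hrat2, ← hO, ← hE] at hmain
  have hbind : (((s.map Prod.fst).bind dbl).map fun w => -gaussSum (χ' ^ w.val) ψ).prod =
      (s.map fun z => ((dbl z.1).map fun w => -gaussSum (χ' ^ w.val) ψ).prod).prod := by
    rw [Multiset.map_bind, Multiset.prod_bind, Multiset.map_map]
    rfl
  rw [hbind]
  -- the square of the quadratic Gauss sum
  have hg2 : gaussSum (w2rho F) ψ ^ 2 = (Fintype.card F : ℂ) := by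
    rw [gaussSum_sq (w2rho_ne_one hring) w2rho_quad (w2_prim hψ)]
    have h4 : 4 * (-1 : ℤ).natAbs ∣ ℓ - 1 := by
      refine Dvd.dvd.trans ?_ hdvd
      exact ⟨2 * m * A, by simp; ring⟩
    have := (w2rho_int (F := F) hℓ hF (c := -1) (by norm_num) h4 (by omega)).1
    push_cast at this
    rw [this, one_mul]
  obtain ⟨k, hk⟩ := hOE
  obtain ⟨j, hj⟩ := hcard
  have hsign : (-1 : ℂ) ^ (m * (s.map fun z => 1 - w2o z.1).sum) = 1 := by
    have : (s.map fun z => 1 - w2o z.1).sum = 2 * (j - k) := by omega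
    rw [this, mul_comm, mul_assoc, pow_mul]
    norm_num
  have hgk : gaussSum (w2rho F) ψ ^ (m * O) = (Fintype.card F : ℂ) ^ (m * k) := by
    have : m * O = 2 * (m * k) := by rw [hk]; ring
    rw [this, pow_mul, hg2]
  rw [hsign, one_mul, hgk, ← pow_add] at hmain
  have hne : (Fintype.card F : ℂ) ^ (m * k) ≠ 0 := by
    apply pow_ne_zero
    exact_mod_cast Fintype.card_ne_zero
  apply mul_right_cancel₀ hne
  rw [hmain, ← hF, ← pow_add]
  congr 1
  have h1 : O / 2 = k := by omega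
  have h2 : Multiset.card s / 2 = j := by omega
  rw [h1, h2]
  have h3 : k ≤ j := by omega
  obtain ⟨i, rfl⟩ := Nat.exists_eq_add_of_le h3
  have h4 : E + (k + i) - k = E + i := by omega
  rw [h4]
  ring

/-- **The main theorem.** -/
theorem main_ab (h1 : S_weak1a) (h2 : S_weak2a) (hA : S_thmA) (hC : S_core) {m : ℕ} (hm2 : 2 ≤ m)
    (h4 : ¬ 4 ∣ m) (hc : (m.primeFactors.erase 2).card ≤ 3)
    {s : Multiset (ZMod m × ℤ)} (hs : s ≠ 0) (heven : Even (Multiset.card s))
    (h0 : ∀ z ∈ s, z.1 ≠ 0 ∧ z.2 ≠ 0) (hsum : (s.map Prod.fst).sum = 0)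
    (hR : AbelianClass m s) : Generated m (fun _ => False) (s.map Prod.fst) := by
  classical
  have hH := hodge_of_abelian hm2 (fun z hz => (h0 z hz).1) heven hsum (fun z hz => (h0 z hz).2) hR
  have hne : s.map Prod.fst ≠ 0 := fun h => hs (Multiset.map_eq_zero.mp h)
  have : NeZero m := ⟨by omega⟩
  have key : ∑ z : ZMod m, ((s.map Prod.fst).count z : ℤ) • cQ m (fun _ => False) z = 0 := by
    rcases Nat.even_or_odd' m with ⟨n, hn | hn⟩
    · subst hn
      have hnodd : Odd n := by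
        by_contra h
        rw [Nat.not_odd_iff_even] at h
        obtain ⟨j, hj⟩ := h
        exact h4 ⟨j, by omega⟩
      have hcQ := cQ_oddDist (m := 2 * n) (base := fun _ => False)
      have hn0 : NeZero n := ⟨by omega⟩
      rw [sum_count, ← dbl_sum' hnodd hcQ]
      by_cases hn1 : n = 1
      · subst hn1
        rw [← sum_count]
        refine sum_eq_zero fun z _ => ?_
        have e : z = 0 := Subsingleton.elim (α := ZMod 1) _ _
        rw [e, iota_zero, hcQ.half 0 (by simp), smul_zero]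
      · have hw := h2 n hnodd (by omega) s heven h0 hsum hR
        have hcard : n.primeFactors.card ≤ 3 := by
          refine le_trans (card_le_card ?_) hc
          intro p hp
          rw [mem_erase, Nat.mem_primeFactors]
          have hp' := Nat.mem_primeFactors.1 hp
          refine ⟨?_, hp'.1, hp'.2.1.mul_left 2, by omega⟩
          rintro rfl
          exact (Nat.not_even_iff_odd.2 hnodd) (even_iff_two_dvd.2 hp'.2.1)
        have hcd := hA n hnodd hcard _ hw
        have h5 := hC n hnodd hcard _ (dbl_rel hnodd hH) hcd (hcQ.comp_iota rfl)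
        rw [← sum_count]
        exact h5
    · have hodd : Odd m := ⟨n, hn⟩
      have hcard : m.primeFactors.card ≤ 3 := by
        refine le_trans (card_le_card ?_) hc
        intro p hp
        rw [mem_erase]
        refine ⟨?_, hp⟩
        rintro rfl
        have hp' := Nat.mem_primeFactors.1 hp
        exact (Nat.not_even_iff_odd.2 hodd) (even_iff_two_dvd.2 hp'.2.1)
      have hw := h1 m hodd (by omega) s heven h0 hR
      exact hC m hodd hcard _ hH.rel (hA m hodd hcard _ hw) cQ_oddDist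
  rw [sum_count, cQ_sum, QuotientAddGroup.eq_zero_iff] at key
  exact generated_of_mem_LL (fun _ h => h.elim) (fun _ h => h.elim) hH.1 hH.2.1 hne key

end Pool.Agent.NH35.HG
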