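import Pool.Agent.NH35.HG.StmG
import Pool.Agent.H916K.StructThree

/-! The combinatorial core: reduction to squarefree level. -/

set_option autoImplicit false

namespace Pool.Agent.NH35.HG

open Finset Pool.Agent.H916R2 Pool.Agent.H916K

/-- the family of the digit distributions at `r`, of level `n` -/
private noncomputable def FamD (r n : ℕ) {m : ℕ} (z : ZMod m) :
    (ZMod n)ˣ × (ZMod n)ˣ → ZMod (r ^ orderOf (r : ZMod n) - 1) :=
  fun i => DD r n (orderOf (r : ZMod n)) i.1 i.2 z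

private lemma core_orderOf {r n : ℕ} [NeZero n] (h : r.Coprime n) :
    0 < orderOf (r : ZMod n) ∧ (r : ZMod n) ^ orderOf (r : ZMod n) = 1 := by
  refine ⟨?_, pow_orderOf_eq_one _⟩
  have h1 : ((ZMod.unitOfCoprime r h : (ZMod n)ˣ) : ZMod n) = (r : ZMod n) :=
    ZMod.coe_unitOfCoprime r h
  rw [← h1, orderOf_units]
  exact orderOf_pos _

private lemma core_fam_odd (h1 : S_dd) {r a n m : ℕ} [NeZero m] (hr : r.Prime) (ha : 0 < a)
    (hn : ¬ r ∣ n) (hm : r ^ a * n = m) (hodd : Odd m) :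
    OddDist (FamD r n (m := m)) := by
  have hn0 : NeZero n := ⟨by rintro rfl; exact NeZero.ne m (by rw [← hm, mul_zero])⟩
  have ho := core_orderOf ((Nat.Prime.coprime_iff_not_dvd hr).2 hn)
  have h : ∀ i : (ZMod n)ˣ × (ZMod n)ˣ,
      OddDist (DD r n (orderOf (r : ZMod n)) i.1 i.2 (m := m)) := fun i =>
    h1 r a n _ m hr ha hn hm hodd ho.1 ho.2 i.1 i.2
  exact
    { neg := fun z => funext fun i => (h i).neg z
      half := fun z hz => funext fun i => (h i).half z hz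
      dist := fun p d hp hpd z => funext fun i => by
        rw [Finset.sum_apply]
        exact (h i).dist p d hp hpd z }

private lemma core_cds (h2 : S_iota) {r a n n0 k m m0 : ℕ} [NeZero m] [NeZero m0]
    (hr : r.Prime) (ha : 0 < a) (hn : ¬ r ∣ n) (hm : r ^ a * n = m) (hodd : Odd m)
    (hm0 : r * n0 = m0) (hk : k * m0 = m) (hd : n0 ∣ n) (h1n : 1 < n) {x : ZMod m → ℤ}
    (hx : CD m x) {x0 : ZMod m0 → ℤ}
    (he : ∑ z, x z • FamD r n z = ∑ b : ZMod m0, x0 b • FamD r n (iota k b : ZMod m)) :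
    CDs r n0 x0 := by
  have hn0 : NeZero n := ⟨by rintro rfl; exact NeZero.ne m (by rw [← hm, mul_zero])⟩
  have ho := core_orderOf ((Nat.Prime.coprime_iff_not_dvd hr).2 hn)
  have hnodd : Odd n := by
    rw [← hm] at hodd
    exact (Nat.odd_mul.1 hodd).2
  refine ⟨orderOf (r : ZMod n), ho.1, ?_, fun t0 t0' => ?_⟩
  · have h3 := congrArg (ZMod.castHom hd (ZMod n0)) ho.2
    rwa [map_pow, map_natCast, map_one] at h3
  · obtain ⟨t, rfl⟩ := ZMod.unitsMap_surjective hd t0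
    obtain ⟨t', rfl⟩ := ZMod.unitsMap_surjective hd t0'
    obtain ⟨k1, hk1, h3⟩ := hx r a n hr ha hn hm h1n t t'
    obtain ⟨k', hk', u, hu⟩ := h2 r a n n0 (orderOf (r : ZMod n)) k m m0 hr ha hn hnodd ho.1 ho.2
      hm hm0 hk hd t t'
    refine ⟨k1 * k', hk1.mul hk', ?_⟩
    have h4 := congrFun he (t, t')
    rw [Finset.sum_apply, Finset.sum_apply] at h4
    have h5 : ∑ z : ZMod m, x z • DD r n (orderOf (r : ZMod n)) t t' z =
        ∑ b : ZMod m0, x0 b • DD r n (orderOf (r : ZMod n)) t t' (iota k b : ZMod m) := h4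
    rw [h5, Finset.sum_congr rfl fun b _ => by rw [hu b]] at h3
    have h6 : (u : ZMod (r ^ orderOf (r : ZMod n) - 1)) * ((k1 * k') • ∑ b : ZMod m0,
        x0 b • DD r n0 (orderOf (r : ZMod n)) (ZMod.unitsMap hd t) (ZMod.unitsMap hd t') b) = 0 := by
      rw [← h3, Finset.smul_sum, Finset.smul_sum, Finset.mul_sum]
      refine Finset.sum_congr rfl fun b _ => ?_
      simp only [zsmul_eq_mul]
      push_cast
      ring
    have h7 := congrArg (fun w => ((u⁻¹ : (ZMod (r ^ orderOf (r : ZMod n) - 1))ˣ) :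
      ZMod (r ^ orderOf (r : ZMod n) - 1)) * w) h6
    simpa only [← mul_assoc, Units.inv_mul, one_mul, mul_zero] using h7

private lemma core_two (h1 : S_dd) (h2 : S_iota) (h3 : S_fh) (h5 : S_two) {p q a b m : ℕ}
    [NeZero m] (hp : p.Prime) (hq : q.Prime) (hpq : p ≠ q) (ha : 0 < a) (hb : 0 < b)
    (hm : p ^ a * q ^ b = m) (hodd : Odd m) {x : ZMod m → ℤ} (hx : Rel x) (hcd : CD m x)
    {Q : Type} [AddCommGroup Q] {c : ZMod m → Q} (hc : OddDist c) : ∑ b, x b • c b = 0 := by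
  have hp2 : p ≠ 2 := by
    rintro rfl
    rw [← hm] at hodd
    have := (Nat.odd_mul.1 hodd).1
    rw [Nat.odd_pow_iff ha.ne'] at this
    exact absurd this (by decide)
  have hq2 : q ≠ 2 := by
    rintro rfl
    rw [← hm] at hodd
    have := (Nat.odd_mul.1 hodd).2
    rw [Nat.odd_pow_iff hb.ne'] at this
    exact absurd this (by decide)
  have : Fact p.Prime := ⟨hp⟩
  have : Fact q.Prime := ⟨hq⟩
  have : NeZero (p * q) := ⟨Nat.mul_ne_zero hp.ne_zero hq.ne_zero⟩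
  obtain ⟨k, hk, hred⟩ := exists_red_pq (m := m) hp hq hp2 hq2 ha hb (Or.inl rfl)
    (by rw [one_mul]; exact hm)
  have hqn : ¬ q ∣ p ^ a := fun h => hpq
    ((Nat.prime_dvd_prime_iff_eq hq hp).1 (hq.dvd_of_dvd_pow h)).symm
  have hmq : q ^ b * p ^ a = m := by rw [mul_comm]; exact hm
  obtain ⟨x0, hx0, he⟩ := hred _ _ (oddDist_prod hc (core_fam_odd h1 hq hb hqn hmq hodd)) x hx
  have k0 := congrArg Prod.fst he
  have k1 := congrArg Prod.snd he
  simp only [Prod.fst_sum, Prod.snd_sum, Prod.smul_fst, Prod.smul_snd] at k0 k1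
  rw [k0]
  have h6 : CDs q p x0 := core_cds h2 hq hb hqn hmq hodd (mul_comm q p) hk (dvd_pow_self p ha.ne')
    (Nat.one_lt_pow ha.ne' hp.one_lt) hcd k1
  have h7 : CR q p x0 := by
    intro t t'
    obtain ⟨f, hf, hf1, h8⟩ := h6
    obtain ⟨k', hk', h9⟩ := h8 t t'
    refine ⟨k' * q, hk'.mul ?_, ?_⟩
    · exact_mod_cast hq.odd_of_ne_two hq2
    · exact h3 q p f (p * q) hq (fun h => hpq ((Nat.prime_dvd_prime_iff_eq hq hp).1 h).symm) hq2
        (hp.odd_of_ne_two hp2) hp.one_lt hf hf1 (mul_comm q p) x0 hx0 t t' k' h9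
  exact h5 p q hp2 hq2 hpq x0 hx0 h7 (hc.comp_iota hk)

private lemma core_three (h1 : S_dd) (h2 : S_iota) (h6 : S_three) {p q r a b d m : ℕ}
    [NeZero m] (hp : p.Prime) (hq : q.Prime) (hr : r.Prime) (hpq : p ≠ q) (hpr : p ≠ r)
    (hqr : q ≠ r) (ha : 0 < a) (hb : 0 < b) (hd : 0 < d)
    (hm : p ^ a * q ^ b * r ^ d = m) (hodd : Odd m) {x : ZMod m → ℤ} (hx : Rel x) (hcd : CD m x)
    {Q : Type} [AddCommGroup Q] {c : ZMod m → Q} (hc : OddDist c) : ∑ b, x b • c b = 0 := by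
  have odd2 : ∀ l e : ℕ, 0 < e → l ^ e ∣ m → l ≠ 2 := by
    rintro l e he ⟨w, hw⟩ rfl
    rw [hw] at hodd
    have := (Nat.odd_mul.1 hodd).1
    rw [Nat.odd_pow_iff he.ne'] at this
    exact absurd this (by decide)
  have hp2 : p ≠ 2 := odd2 p a ha ⟨q ^ b * r ^ d, by rw [← hm]; ring⟩
  have hq2 : q ≠ 2 := odd2 q b hb ⟨p ^ a * r ^ d, by rw [← hm]; ring⟩
  have hr2 : r ≠ 2 := odd2 r d hd ⟨p ^ a * q ^ b, by rw [← hm]; ring⟩
  have : Fact p.Prime := ⟨hp⟩
  have : Fact q.Prime := ⟨hq⟩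
  have : Fact r.Prime := ⟨hr⟩
  have : NeZero (p * q * r) := ⟨Nat.mul_ne_zero (Nat.mul_ne_zero hp.ne_zero hq.ne_zero) hr.ne_zero⟩
  obtain ⟨k, hk, hred⟩ := exists_red_three (m := m) hp hq hr hp2 hq2 hr2 ha hb hd (Or.inl rfl)
    (by rw [one_mul]; exact hm)
  have nd : ∀ l l1 l2 e1 e2 : ℕ, l.Prime → l1.Prime → l2.Prime → l ≠ l1 → l ≠ l2 →
      ¬ l ∣ l1 ^ e1 * l2 ^ e2 := by
    intro l l1 l2 e1 e2 hl hl1 hl2 n1 n2 h
    rcases (Nat.Prime.dvd_mul hl).1 h with h | h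
    · exact n1 ((Nat.prime_dvd_prime_iff_eq hl hl1).1 (hl.dvd_of_dvd_pow h))
    · exact n2 ((Nat.prime_dvd_prime_iff_eq hl hl2).1 (hl.dvd_of_dvd_pow h))
  have g1 : ∀ l1 l2 e1 e2 : ℕ, l1.Prime → l2.Prime → 0 < e1 → 1 < l1 ^ e1 * l2 ^ e2 := by
    intro l1 l2 e1 e2 hl1 hl2 he
    have h3 : 1 < l1 ^ e1 := Nat.one_lt_pow he.ne' hl1.one_lt
    have h4 : 0 < l2 ^ e2 := pow_pos hl2.pos e2
    nlinarith
  have n1 := nd r p q a b hr hp hq hpr.symm hqr.symm
  have n2 := nd p q r b d hp hq hr hpq hpr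
  have n3 := nd q p r a d hq hp hr hpq.symm hqr
  have m1 : r ^ d * (p ^ a * q ^ b) = m := by rw [← hm]; ring
  have m2 : p ^ a * (q ^ b * r ^ d) = m := by rw [← hm]; ring
  have m3 : q ^ b * (p ^ a * r ^ d) = m := by rw [← hm]; ring
  obtain ⟨x0, hx0, he⟩ := hred _ _ (oddDist_prod hc
    (oddDist_prod (core_fam_odd h1 hr hd n1 m1 hodd)
      (oddDist_prod (core_fam_odd h1 hp ha n2 m2 hodd)
        (core_fam_odd h1 hq hb n3 m3 hodd)))) x hx
  have k0 := congrArg Prod.fst he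
  have k1 := congrArg (fun z => z.2.1) he
  have k2 := congrArg (fun z => z.2.2.1) he
  have k3 := congrArg (fun z => z.2.2.2) he
  simp only [Prod.fst_sum, Prod.snd_sum, Prod.smul_fst, Prod.smul_snd] at k0 k1 k2 k3
  rw [k0]
  have c1 : CDs r (p * q) x0 := core_cds h2 hr hd n1 m1 hodd (by ring) hk
    (Nat.mul_dvd_mul (dvd_pow_self p ha.ne') (dvd_pow_self q hb.ne')) (g1 p q a b hp hq ha) hcd k1
  have c2 : CDs p (q * r) x0 := core_cds h2 hp ha n2 m2 hodd (by ring) hk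
    (Nat.mul_dvd_mul (dvd_pow_self q hb.ne') (dvd_pow_self r hd.ne')) (g1 q r b d hq hr hb) hcd k2
  have c3 : CDs q (p * r) x0 := core_cds h2 hq hb n3 m3 hodd (by ring) hk
    (Nat.mul_dvd_mul (dvd_pow_self p ha.ne') (dvd_pow_self r hd.ne')) (g1 p r a d hp hr ha) hcd k3
  exact h6 p q r hp2 hq2 hr2 hpq hpr hqr x0 hx0 c1 c2 c3 (hc.comp_iota hk)

private lemma core_one (h4 : S_one) {p a m : ℕ} [NeZero m] (hp : p.Prime) (ha : 0 < a)
    (hm : p ^ a = m) (hodd : Odd m) {x : ZMod m → ℤ} (hx : Rel x)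
    {Q : Type} [AddCommGroup Q] {c : ZMod m → Q} (hc : OddDist c) : ∑ b, x b • c b = 0 := by
  have hp2 : p ≠ 2 := by
    rintro rfl
    rw [← hm, Nat.odd_pow_iff ha.ne'] at hodd
    exact absurd hodd (by decide)
  have : Fact p.Prime := ⟨hp⟩
  have hk : p ^ (a - 1) * p = m := by
    rw [← hm, ← pow_succ, Nat.sub_add_cancel ha]
  have hred : Red m p (p ^ (a - 1)) := by
    refine red_exists _ _ _ _ rfl hk ?_ ?_
    · intro l hl hdvd
      rw [← hm] at hdvd
      exact hl.dvd_of_dvd_pow hdvd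
    · intro h4
      exfalso
      have : Even m := even_iff_two_dvd.mpr ((by norm_num : 2 ∣ 4).trans h4)
      exact (Nat.not_even_iff_odd.mpr hodd) this
  obtain ⟨x0, hx0, he⟩ := hred _ _ hc x hx
  rw [he]
  exact h4 p hp2 x0 hx0 (hc.comp_iota hk)

/-- (G4) the combinatorial core -/
theorem core_of (h1 : S_dd) (h2 : S_iota) (h3 : S_fh) (h4 : S_one) (h5 : S_two) (h6 : S_three) :
    S_core := by
  intro m _ hodd hcard x hx hcd Q _ c hc
  have hm0 : m ≠ 0 := NeZero.ne m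
  have hfac : ∏ p ∈ m.primeFactors, p ^ m.factorization p = m :=
    Nat.prod_factorization_pow_eq_self hm0
  have hpr : ∀ p ∈ m.primeFactors, p.Prime ∧ 0 < m.factorization p := by
    intro p hp
    have h := Nat.prime_of_mem_primeFactors hp
    exact ⟨h, h.factorization_pos_of_dvd hm0 (Nat.dvd_of_mem_primeFactors hp)⟩
  obtain h | h | h | h : m.primeFactors.card = 0 ∨ m.primeFactors.card = 1 ∨
      m.primeFactors.card = 2 ∨ m.primeFactors.card = 3 := by omega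
  · rw [Finset.card_eq_zero] at h
    rw [h, Finset.prod_empty] at hfac
    subst hfac
    refine Finset.sum_eq_zero fun b _ => ?_
    rw [hc.half b (Subsingleton.elim _ _), smul_zero]
  · obtain ⟨p, hp⟩ := Finset.card_eq_one.1 h
    rw [hp, Finset.prod_singleton] at hfac
    obtain ⟨p1, p2⟩ := hpr p (by rw [hp]; simp)
    exact core_one h4 p1 p2 hfac hodd hx hc
  · obtain ⟨p, q, hpq, hp⟩ := Finset.card_eq_two.1 h
    rw [hp, Finset.prod_pair hpq] at hfac
    obtain ⟨p1, p2⟩ := hpr p (by rw [hp]; simp)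
    obtain ⟨q1, q2⟩ := hpr q (by rw [hp]; simp)
    exact core_two h1 h2 h3 h5 p1 q1 hpq p2 q2 hfac hodd hx hcd hc
  · obtain ⟨p, q, r, hpq, hpr', hqr, hp⟩ := Finset.card_eq_three.1 h
    have hfac' : p ^ m.factorization p * q ^ m.factorization q * r ^ m.factorization r = m := by
      rw [hp, Finset.prod_insert (by simp [hpq, hpr']), Finset.prod_pair hqr] at hfac
      rw [mul_assoc]
      exact hfac
    obtain ⟨p1, p2⟩ := hpr p (by rw [hp]; simp)
    obtain ⟨q1, q2⟩ := hpr q (by rw [hp]; simp)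
    obtain ⟨r1, r2⟩ := hpr r (by rw [hp]; simp)
    exact core_three h1 h2 h6 p1 q1 r1 hpq hpr' hqr p2 q2 r2 hfac' hodd hx hcd hc

end Pool.Agent.NH35.HG
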