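import Pool.Agent.NH35.HG.StmG

/-! Digit distributions are odd distributions. -/

set_option autoImplicit false

namespace Pool.Agent.NH35.HG

open Finset Pool.Agent.H916R2

/-- the difference of two residues -/
private def gdd {n : ℕ} (s s' : (ZMod n)ˣ) (y : ZMod n) : ℤ :=
  (((s : ZMod n) * y).val : ℤ) - (((s' : ZMod n) * y).val : ℤ)

private lemma gdd_saw {n : ℕ} [NeZero n] (s s' : (ZMod n)ˣ) (y : ZMod n) :
    2 * gdd s s' y = saw ((s : ZMod n) * y) - saw ((s' : ZMod n) * y) := by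
  unfold gdd saw
  by_cases h : y = 0
  · simp [h]
  · have h1 : (s : ZMod n) * y ≠ 0 := fun h2 => h ((Units.mul_right_eq_zero s).1 h2)
    have h2 : (s' : ZMod n) * y ≠ 0 := fun h2 => h ((Units.mul_right_eq_zero s').1 h2)
    rw [if_neg h1, if_neg h2]
    ring

private lemma gdd_neg {n : ℕ} [NeZero n] (s s' : (ZMod n)ˣ) (y : ZMod n) :
    gdd s s' (-y) = -gdd s s' y := by
  have h1 := gdd_saw s s' y
  have h2 := gdd_saw s s' (-y)
  rw [mul_neg, mul_neg, saw_neg, saw_neg] at h2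
  omega

private lemma gdd_zero {n : ℕ} (s s' : (ZMod n)ˣ) : gdd s s' 0 = 0 := by
  unfold gdd
  simp

private lemma gdd_dist {n l e : ℕ} [NeZero n] (hle : l * e = n) (s s' : (ZMod n)ˣ) (y : ZMod n) :
    ∑ i ∈ range l, gdd s s' (y + (i : ZMod n) * (e : ZMod n)) = gdd s s' ((l : ZMod n) * y) := by
  have h1 := saw_dist_unit hle s y
  have h2 := saw_dist_unit hle s' y
  have h3 : 2 * ∑ i ∈ range l, gdd s s' (y + (i : ZMod n) * (e : ZMod n)) =
      2 * gdd s s' ((l : ZMod n) * y) := by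
    rw [Finset.mul_sum, gdd_saw, ← h1, ← h2, ← Finset.sum_sub_distrib]
    exact Finset.sum_congr rfl fun i _ => gdd_saw s s' _
  linarith

/-- the digit distribution as a sum over the differences -/
private lemma DD_gdd {r n f m : ℕ} (R : (ZMod n)ˣ) (hR : (R : ZMod n) = (r : ZMod n))
    (t t' : (ZMod n)ˣ) (z : ZMod m) :
    DD r n f t t' z = ∑ j ∈ range f, (r : ZMod (r ^ f - 1)) ^ (f - j) *
      ((gdd (t * R ^ j) (t' * R ^ j) (z.val : ZMod n) : ℤ) : ZMod (r ^ f - 1)) := by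
  unfold DD gdd
  refine Finset.sum_congr rfl fun j _ => ?_
  rw [Units.val_mul, Units.val_mul, Units.val_pow_eq_pow_val, hR, mul_assoc, mul_assoc]
  push_cast
  rfl

private lemma cast_pow_dd {r f : ℕ} (hr : 0 < r) : ((r : ZMod (r ^ f - 1))) ^ f = 1 := by
  have h1 : r ^ f = (r ^ f - 1) + 1 := by
    have := Nat.pos_of_ne_zero (pow_ne_zero f hr.ne')
    omega
  have h2 : ((r ^ f : ℕ) : ZMod (r ^ f - 1)) = (((r ^ f - 1) + 1 : ℕ) : ZMod (r ^ f - 1)) := by
    rw [← h1]
  push_cast at h2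
  rw [h2]
  have h3 : ((r ^ f - 1 : ℕ) : ZMod (r ^ f - 1)) = 0 := ZMod.natCast_self _
  rw [h3, zero_add]

/-- the cyclic shift -/
private lemma shift_dd {N f : ℕ} (ρ : ZMod N) (hρ : ρ ^ f = 1) (H : ℕ → ZMod N)
    (hH : ∀ j, H (j + f) = H j) (s : ℕ) :
    ∑ j ∈ range f, ρ ^ (f - j) * H (j + s) = ρ ^ s * ∑ j ∈ range f, ρ ^ (f - j) * H j := by
  induction s with
  | zero => simp
  | succ s ih =>
    rw [pow_succ', mul_assoc, ← ih]
    have h1 : ∑ j ∈ range (f + 1), ρ ^ (f + 1 - j) * H (j + s) =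
        ρ * ∑ j ∈ range f, ρ ^ (f - j) * H (j + s) + ρ * H s := by
      rw [Finset.sum_range_succ, Finset.mul_sum]
      congr 1
      · refine Finset.sum_congr rfl fun j hj => ?_
        rw [Finset.mem_range] at hj
        have : f + 1 - j = (f - j) + 1 := by omega
        rw [this, pow_succ']
        ring
      · rw [Nat.add_sub_cancel_left, pow_one, add_comm f s, hH]
    have h2 : ∑ j ∈ range (f + 1), ρ ^ (f + 1 - j) * H (j + s) =
        ∑ j ∈ range f, ρ ^ (f - j) * H (j + (s + 1)) + ρ * H s := by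
      rw [Finset.sum_range_succ']
      congr 1
      · refine Finset.sum_congr rfl fun j _ => ?_
        rw [Nat.add_sub_add_right, add_assoc j 1 s, add_comm 1 s]
      · rw [Nat.sub_zero, zero_add, pow_succ', hρ, mul_one]
    have h3 := h1.symm.trans h2
    exact (add_right_cancel h3).symm

private lemma val_castHom_dd {n m : ℕ} [NeZero m] (h : n ∣ m) (z : ZMod m) :
    ((z.val : ℕ) : ZMod n) = ZMod.castHom h (ZMod n) z := by
  rw [ZMod.castHom_apply, ZMod.natCast_val]

/-- (G0a) the digit distribution is an odd distribution -/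
theorem dd : S_dd := by
  intro r a n f m hr ha hrn hm hodd hf hrf t t'
  have hm0 : m ≠ 0 := by rintro rfl; exact absurd hodd (by decide)
  have : NeZero m := ⟨hm0⟩
  have hn0 : NeZero n := ⟨by rintro rfl; exact hm0 (by rw [← hm, mul_zero])⟩
  have hnm : n ∣ m := ⟨r ^ a, by rw [← hm, mul_comm]⟩
  have hcop : r.Coprime n := (Nat.Prime.coprime_iff_not_dvd hr).2 hrn
  obtain ⟨R, hR⟩ : ∃ R : (ZMod n)ˣ, (R : ZMod n) = (r : ZMod n) :=
    ⟨ZMod.unitOfCoprime r hcop, ZMod.coe_unitOfCoprime r hcop⟩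
  refine
    { neg := fun z => ?_
      half := fun z hz => ?_
      dist := fun l d hl hld z => ?_ }
  · rw [DD_gdd R hR, DD_gdd R hR, ← Finset.sum_neg_distrib]
    refine Finset.sum_congr rfl fun j _ => ?_
    rw [val_castHom_dd hnm, val_castHom_dd hnm, map_neg, gdd_neg]
    push_cast
    ring
  · obtain ⟨k, hk⟩ := hodd
    have h1 : z = 0 := by
      have h2 : ((m : ℕ) : ZMod m) = 0 := ZMod.natCast_self m
      have h3 : ((m : ℕ) : ZMod m) = 2 * (k : ZMod m) + 1 := by
        have h5 := congrArg (fun w : ℕ => (w : ZMod m)) hk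
        beta_reduce at h5
        rw [h5]
        push_cast
        ring
      have h4 : z = ((m : ℕ) : ZMod m) * z - (k : ZMod m) * (z + z) := by
        rw [h3]
        ring
      rw [h4, h2, hz, zero_mul, mul_zero, sub_zero]
    rw [h1, DD_gdd R hR]
    refine Finset.sum_eq_zero fun j _ => ?_
    rw [ZMod.val_zero, Nat.cast_zero, gdd_zero, Int.cast_zero, mul_zero]
  · by_cases hlr : l = r
    · subst hlr
      have hd : d = l ^ (a - 1) * n := by
        have h1 : l * d = l * (l ^ (a - 1) * n) := by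
          rw [hld, ← hm, ← mul_assoc, ← pow_succ', Nat.sub_add_cancel ha]
        exact Nat.eq_of_mul_eq_mul_left hl.pos h1
      have hd0 : (ZMod.castHom hnm (ZMod n)) (d : ZMod m) = 0 := by
        rw [map_natCast, hd, Nat.cast_mul, ZMod.natCast_self, mul_zero]
      have h1 : ∀ i ∈ range l, DD l n f t t' (z + (i : ZMod m) * (d : ZMod m)) =
          DD l n f t t' z := by
        intro i _
        rw [DD_gdd R hR, DD_gdd R hR]
        refine Finset.sum_congr rfl fun j _ => ?_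
        rw [val_castHom_dd hnm, val_castHom_dd hnm, map_add, map_mul, hd0, mul_zero, add_zero]
      rw [Finset.sum_congr rfl h1, Finset.sum_const, card_range, nsmul_eq_mul]
      -- the shift
      let H : ℕ → ZMod (l ^ f - 1) := fun j =>
        ((gdd (t * R ^ j) (t' * R ^ j) (z.val : ZMod n) : ℤ) : ZMod (l ^ f - 1))
      have hRf : R ^ f = 1 := by
        apply Units.ext
        rw [Units.val_pow_eq_pow_val, hR, hrf, Units.val_one]
      have hH : ∀ j, H (j + f) = H j := by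
        intro j
        change ((gdd (t * R ^ (j + f)) (t' * R ^ (j + f)) (z.val : ZMod n) : ℤ) :
          ZMod (l ^ f - 1)) = ((gdd (t * R ^ j) (t' * R ^ j) (z.val : ZMod n) : ℤ) :
          ZMod (l ^ f - 1))
        rw [pow_add, hRf, mul_one]
      have h2 := shift_dd (l : ZMod (l ^ f - 1)) (cast_pow_dd hl.pos) H hH 1
      rw [pow_one] at h2
      rw [DD_gdd R hR, DD_gdd R hR]
      rw [← h2]
      refine Finset.sum_congr rfl fun j _ => ?_
      change (l : ZMod (l ^ f - 1)) ^ (f - j) *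
        ((gdd (t * R ^ (j + 1)) (t' * R ^ (j + 1)) (z.val : ZMod n) : ℤ) :
          ZMod (l ^ f - 1)) = _
      rw [val_castHom_dd hnm, val_castHom_dd hnm, map_mul, map_natCast]
      have h5 : ∀ s : (ZMod n)ˣ, ((s * R ^ (j + 1) : (ZMod n)ˣ) : ZMod n) *
          (ZMod.castHom hnm (ZMod n)) z = ((s * R ^ j : (ZMod n)ˣ) : ZMod n) *
          ((l : ZMod n) * (ZMod.castHom hnm (ZMod n)) z) := by
        intro s
        rw [pow_succ, ← mul_assoc, Units.val_mul _ R, hR, mul_assoc]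
      unfold gdd
      rw [h5, h5]
    · have hln : l ∣ n := by
        have h1 : l ∣ r ^ a * n := by rw [hm, ← hld]; exact Dvd.intro _ rfl
        rcases (Nat.Prime.dvd_mul hl).1 h1 with h2 | h2
        · exact absurd ((Nat.prime_dvd_prime_iff_eq hl hr).1 (hl.dvd_of_dvd_pow h2)) hlr
        · exact h2
      obtain ⟨e, he⟩ := hln
      have hd : d = r ^ a * e := by
        have h1 : l * d = l * (r ^ a * e) := by
          rw [hld, ← hm, he]
          ring
        exact Nat.eq_of_mul_eq_mul_left hl.pos h1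
      have hde : (ZMod.castHom hnm (ZMod n)) (d : ZMod m) = ((R ^ a : (ZMod n)ˣ) : ZMod n) * (e : ZMod n) := by
        rw [map_natCast, hd, Nat.cast_mul, Nat.cast_pow, Units.val_pow_eq_pow_val, hR]
      have key : ∀ j, ∑ i ∈ range l, gdd (t * R ^ j) (t' * R ^ j)
          (((z + (i : ZMod m) * (d : ZMod m)).val : ℕ) : ZMod n) =
          gdd (t * R ^ j) (t' * R ^ j) ((((l : ZMod m) * z).val : ℕ) : ZMod n) := by
        intro j
        rw [val_castHom_dd hnm, map_mul, map_natCast, ← gdd_dist he.symm]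
        have h1 := coset_sum_unit (fun y => gdd (t * R ^ j) (t' * R ^ j) y) he.symm (R ^ a)
          (((R ^ a)⁻¹ : (ZMod n)ˣ) * (ZMod.castHom hnm (ZMod n)) z)
        have h2 : ((R ^ a : (ZMod n)ˣ) : ZMod n) * ((((R ^ a)⁻¹ : (ZMod n)ˣ) : ZMod n) *
            (ZMod.castHom hnm (ZMod n)) z) = (ZMod.castHom hnm (ZMod n)) z := by
          rw [← mul_assoc, Units.mul_inv, one_mul]
        rw [h2] at h1
        rw [← h1]
        refine Finset.sum_congr rfl fun i _ => ?_
        rw [val_castHom_dd hnm, map_add, map_mul, map_natCast, hde, mul_add, h2]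
        congr 2
        ring
      calc ∑ i ∈ range l, DD r n f t t' (z + (i : ZMod m) * (d : ZMod m))
          = ∑ i ∈ range l, ∑ j ∈ range f, (r : ZMod (r ^ f - 1)) ^ (f - j) *
            ((gdd (t * R ^ j) (t' * R ^ j)
              (((z + (i : ZMod m) * (d : ZMod m)).val : ℕ) : ZMod n) : ℤ) : ZMod (r ^ f - 1)) :=
            Finset.sum_congr rfl fun i _ => DD_gdd R hR t t' _
        _ = ∑ j ∈ range f, (r : ZMod (r ^ f - 1)) ^ (f - j) *
            ((∑ i ∈ range l, gdd (t * R ^ j) (t' * R ^ j)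
              (((z + (i : ZMod m) * (d : ZMod m)).val : ℕ) : ZMod n) : ℤ) : ZMod (r ^ f - 1)) := by
            rw [Finset.sum_comm]
            refine Finset.sum_congr rfl fun j _ => ?_
            rw [Int.cast_sum, Finset.mul_sum]
        _ = DD r n f t t' ((l : ZMod m) * z) := by
            rw [DD_gdd R hR]
            exact Finset.sum_congr rfl fun j _ => by rw [key j]

private lemma val_mul_dd {c n0 n : ℕ} (hc : n = n0 * c) (hd : n0 ∣ n) (h0 : NeZero n)
    (t : (ZMod n)ˣ) (y : ℕ) :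
    ((t : ZMod n) * ((c : ZMod n) * (y : ZMod n))).val =
      c * ((ZMod.unitsMap hd t : ZMod n0) * (y : ZMod n0)).val := by
  have h1 : (t : ZMod n) = (((t : ZMod n).val : ℕ) : ZMod n) := (ZMod.natCast_zmod_val _).symm
  have h2 : ((ZMod.unitsMap hd t : (ZMod n0)ˣ) : ZMod n0) = (((t : ZMod n).val : ℕ) : ZMod n0) := by
    rw [val_castHom_dd hd]
    rfl
  have h3 : (t : ZMod n) * ((c : ZMod n) * (y : ZMod n)) =
      ((c * ((t : ZMod n).val * y) : ℕ) : ZMod n) := by
    push_cast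
    rw [← h1]
    ring
  have h4 : ((ZMod.unitsMap hd t : (ZMod n0)ˣ) : ZMod n0) * (y : ZMod n0) =
      (((t : ZMod n).val * y : ℕ) : ZMod n0) := by
    rw [h2]
    push_cast
    rfl
  rw [h3, h4, ZMod.val_natCast, ZMod.val_natCast]
  generalize (t : ZMod n).val = w
  rw [hc, mul_comm n0 c, Nat.mul_mod_mul_left]

/-- (G0b) the digit distribution on a lower level -/
theorem iota_dd : S_iota := by
  intro r a n n0 f k m m0 hr ha hrn hnodd hf hrf hm hm0 hk hd t t'
  obtain ⟨c, hc⟩ := hd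
  have hd : n0 ∣ n := ⟨c, hc⟩
  have hn : NeZero n := ⟨by rintro rfl; exact absurd hnodd (by decide)⟩
  have hn0 : NeZero n0 := ⟨by rintro rfl; exact NeZero.ne n (by rw [hc, zero_mul])⟩
  have hcodd : Odd c := by
    rw [hc] at hnodd
    exact (Nat.odd_mul.1 hnodd).2
  have hk' : k = r ^ (a - 1) * c := by
    have h1 : (r * n0) * k = (r * n0) * (r ^ (a - 1) * c) := by
      rw [hm0, mul_comm m0 k, hk, ← hm, ← hm0, hc]
      obtain ⟨a', rfl⟩ : ∃ a', a = a' + 1 := ⟨a - 1, by omega⟩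
      rw [Nat.add_sub_cancel]
      ring
    exact Nat.eq_of_mul_eq_mul_left (Nat.mul_pos hr.pos (NeZero.pos n0)) h1
  have hm0' : NeZero m0 := ⟨by rw [← hm0]; exact Nat.mul_ne_zero hr.ne_zero (NeZero.ne n0)⟩
  have hmne : NeZero m := ⟨by rw [← hm]; exact Nat.mul_ne_zero (pow_ne_zero _ hr.ne_zero) (NeZero.ne n)⟩
  have hρ : (r : ZMod (r ^ f - 1)) ^ f = 1 := cast_pow_dd hr.pos
  let u : (ZMod (r ^ f - 1))ˣ := (Units.mk (r : ZMod (r ^ f - 1)) ((r : ZMod (r ^ f - 1)) ^ (f - 1))
    (by rw [← pow_succ', Nat.sub_add_cancel hf, hρ])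
    (by rw [← pow_succ, Nat.sub_add_cancel hf, hρ]))
  refine ⟨(c : ℤ), by exact_mod_cast hcodd, u ^ (a - 1), fun b => ?_⟩
  have hu : ((u ^ (a - 1) : (ZMod (r ^ f - 1))ˣ) : ZMod (r ^ f - 1)) =
      (r : ZMod (r ^ f - 1)) ^ (a - 1) := by
    rw [Units.val_pow_eq_pow_val]
  -- the differences at level `n0`
  let H : ℕ → ZMod (r ^ f - 1) := fun j =>
    ((((ZMod.unitsMap hd t : ZMod n0) * ((r : ZMod n0) ^ j * (b.val : ZMod n0))).val :
      ZMod (r ^ f - 1)) -
      (((ZMod.unitsMap hd t' : ZMod n0) * ((r : ZMod n0) ^ j * (b.val : ZMod n0))).val :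
      ZMod (r ^ f - 1)))
  have hrf0 : (r : ZMod n0) ^ f = 1 := by
    have h3 := congrArg (ZMod.castHom hd (ZMod n0)) hrf
    rwa [map_pow, map_natCast, map_one] at h3
  have hH : ∀ j, H (j + f) = H j := by
    intro j
    change ((_ : ZMod (r ^ f - 1)) - _) = _ - _
    rw [pow_add, hrf0, mul_one]
  have h2 := shift_dd (r : ZMod (r ^ f - 1)) hρ H hH (a - 1)
  have h3 : ∑ j ∈ range f, (r : ZMod (r ^ f - 1)) ^ (f - j) * H j =
      DD r n0 f (ZMod.unitsMap hd t) (ZMod.unitsMap hd t') b := rfl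
  rw [h3] at h2
  rw [hu, zsmul_eq_mul]
  have h4 : (r : ZMod (r ^ f - 1)) ^ (a - 1) * (((c : ℤ) : ZMod (r ^ f - 1)) *
      DD r n0 f (ZMod.unitsMap hd t) (ZMod.unitsMap hd t') b) =
      (c : ZMod (r ^ f - 1)) * ((r : ZMod (r ^ f - 1)) ^ (a - 1) *
      DD r n0 f (ZMod.unitsMap hd t) (ZMod.unitsMap hd t') b) := by
    push_cast
    ring
  rw [h4, ← h2, Finset.mul_sum]
  unfold DD
  refine Finset.sum_congr rfl fun j _ => ?_
  have h5 : (((iota k b : ZMod m).val : ℕ) : ZMod n) = ((k * b.val : ℕ) : ZMod n) := by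
    have hnm : n ∣ m := ⟨r ^ a, by rw [← hm, mul_comm]⟩
    rw [val_castHom_dd hnm]
    unfold iota
    rw [map_natCast]
  have h6 : (r : ZMod n) ^ j * (((iota k b : ZMod m).val : ℕ) : ZMod n) =
      (c : ZMod n) * ((r ^ (j + (a - 1)) * b.val : ℕ) : ZMod n) := by
    rw [h5, hk']
    push_cast
    ring
  rw [h6, val_mul_dd hc hd hn, val_mul_dd hc hd hn]
  change _ = _ * (_ * ((_ : ZMod (r ^ f - 1)) - _))
  push_cast
  ring

end Pool.Agent.NH35.HG
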