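import Pool.Agent.NH35.HC.Euler
import Pool.Agent.NH35.HC.Hk

/-! The mean value of a character over the primes, with an element `β` which is only supposed to be
prime to the modulus. Adapted from `HC/Bdd`, `HC/Bdd2`, `HC/All`, `HC/Euler`. -/

set_option autoImplicit false
set_option linter.unusedSectionVars false
open Filter Topology NumberField NumberField.InfinitePlace NumberField.Units IsDedekindDomain
open Module nonZeroDivisors Ideal
open Pool.Agent.H484R2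

namespace Pool.Agent.NH35.HG.DnA
open Pool.Agent.NH35.HC

variable (K : Type) [Field K] [NumberField K]

/-- the data of a character at infinity and modulo `m` -/
structure Chr2 (χ : Ideal (𝓞 K) → ℂ) (m : Ideal (𝓞 K)) (β γ : 𝓞 K) : Prop where
  bd : ∀ I, ‖χ I‖ ≤ 1
  mul : ∀ I I', χ (I * I') = χ I * χ I'
  β0 : β ≠ 0
  γm : γ ∈ m
  γ1 : γ - 1 ∈ span {β}
  one : ‖χ (span {β})‖ = 1
  ne : χ (span {β}) ≠ 1
  lip : ∃ L : ℝ, 0 ≤ L ∧ ∀ J : Ideal (𝓞 K), ∀ I I' : Ideal (𝓞 K), ∀ x x' : 𝓞 K, x ≠ 0 → x' ≠ 0 →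
    J ≠ ⊥ → I * J = span {x} → I' * J = span {x'} → x' - x ∈ m * J →
    ∀ δ : ℝ, 0 ≤ δ → (∀ w : InfinitePlace K, w ((x' : K) - (x : K)) ≤ δ * w (x : K)) →
    ‖χ I' - χ I‖ ≤ L * δ

variable {K} {χ : Ideal (𝓞 K) → ℂ} {m : Ideal (𝓞 K)} {β γ : 𝓞 K}

section
variable (J : Ideal (𝓞 K)) (hJ : J ≠ ⊥)

theorem GG_bd (h : Chr2 K χ m β γ) (x : 𝓞 K) : ‖GG J hJ χ x‖ ≤ 1 := by
  unfold GG
  split_ifs
  · exact h.bd _
  · rw [norm_zero]
    exact zero_le_one

theorem sum_tm (h : Chr2 K χ m β γ) {s : ℝ} (hs : 1 < s) (hs2 : s ≤ 2) :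
    Summable (tm K J hJ χ (psi K) s) := by
  obtain ⟨C, hC0, hC⟩ := ff_bound K
  have hn : (0 : ℝ) < finrank ℚ K := by exact_mod_cast finrank_pos
  refine Summable.of_norm_bounded
    ((summable_hh K J hJ (r := finrank ℚ K * s) (by nlinarith)).mul_left C) fun x => ?_
  rw [tm_eq]
  exact hC _ (GG_bd J hJ h) s (by linarith) hs2 x.1 x.2.2

theorem tm_mul (h : Chr2 K χ m β γ) (s : ℝ) (x : XJ K J) : ff K (GG J hJ χ) s (β * x.1) =
    (χ (span {β}) * ((Real.exp (-(s * lN K (β : K))) : ℝ) : ℂ)) *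
      tm K J hJ χ (fun y => psi K ((β : K) * y)) s x := by
  have hβ : (β : K) ≠ 0 := RingOfIntegers.coe_ne_zero_iff.mpr h.β0
  have hx : (x.1 : K) ≠ 0 := RingOfIntegers.coe_ne_zero_iff.mpr x.2.2
  have hmem : β * x.1 ∈ J ∧ β * x.1 ≠ 0 := ⟨J.mul_mem_left _ x.2.1, mul_ne_zero h.β0 x.2.2⟩
  rw [ff_ne _ s hmem.2, GG_pos J hJ hmem, qI_mul J hJ β h.β0 x hmem, h.mul]
  unfold tm
  have e1 : ((β * x.1 : 𝓞 K) : K) = (β : K) * (x.1 : K) := by simp
  rw [e1, lN_mul K hβ hx, mul_add, neg_add, Real.exp_add]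
  push_cast
  ring

theorem sum_tm' (h : Chr2 K χ m β γ) {s : ℝ} (hs : 1 < s) (hs2 : s ≤ 2) :
    Summable (tm K J hJ χ (fun y => psi K ((β : K) * y)) s) := by
  have hβ : (β : K) ≠ 0 := RingOfIntegers.coe_ne_zero_iff.mpr h.β0
  have hc0 : χ (span {β}) * ((Real.exp (-(s * lN K (β : K))) : ℝ) : ℂ) ≠ 0 := by
    refine mul_ne_zero ?_ (Complex.ofReal_ne_zero.2 (Real.exp_pos _).ne')
    rw [← norm_pos_iff, h.one]
    exact one_pos
  rw [← summable_mul_left_iff hc0]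
  have e : (fun x : XJ K J => χ (span {β}) * ((Real.exp (-(s * lN K (β : K))) : ℝ) : ℂ) *
      tm K J hJ χ (fun y => psi K ((β : K) * y)) s x) =
      fun x : XJ K J => tm K J hJ χ (psi K) s ⟨β * x.1, J.mul_mem_left _ x.2.1,
        mul_ne_zero h.β0 x.2.2⟩ := by
    funext x
    rw [← tm_mul J hJ h, tm_eq]
  rw [e]
  refine (sum_tm J hJ h hs hs2).comp_injective fun x y hxy => ?_
  have := congrArg (fun z : XJ K J => z.1) hxy
  exact Subtype.ext (mul_left_cancel₀ h.β0 this)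

/-- the values of the two sums agree -/
theorem tsum_tm' (h : Chr2 K χ m β γ) {s : ℝ} (hs : 1 < s) (hs2 : s ≤ 2) :
    ∑' x, tm K J hJ χ (fun y => psi K ((β : K) * y)) s x = ∑' x, tm K J hJ χ (psi K) s x := by
  have hβ : (β : K) ≠ 0 := RingOfIntegers.coe_ne_zero_iff.mpr h.β0
  have hC : ClassGroup.mk0 ⟨J, mem_nonZeroDivisors_of_ne_zero hJ⟩ =
      ((ClassGroup.mk0 ⟨J, mem_nonZeroDivisors_of_ne_zero hJ⟩)⁻¹)⁻¹ := (inv_inv _).symm
  rw [class_sum K J hJ χ (part_mul K hβ) s _ hC (sum_tm' J hJ h hs hs2),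
    class_sum K J hJ χ (part_psi K) s _ hC (sum_tm J hJ h hs hs2)]

end


section
variable {K : Type} [Field K] [NumberField K] (J : Ideal (𝓞 K)) (β γ : 𝓞 K)

/-- the decomposition -/
noncomputable def dec (p : J × Qt J β) : J :=
  ⟨β * p.1.1 + γ * rp J β p.2,
    J.add_mem (J.mul_mem_left _ p.1.2) (J.mul_mem_left _ (rp_mem J β p.2))⟩

theorem dec_bij (hβ : β ≠ 0) (hγ : γ - 1 ∈ span {β}) : Function.Bijective (dec J β γ) := by
  obtain ⟨δ, hδ⟩ := Ideal.mem_span_singleton'.1 hγ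
  have hmk : ∀ p : J × Qt J β,
      Ideal.Quotient.mk (span {β} * J) (dec J β γ p).1 = p.2.1 := by
    intro p
    rw [← rp_mk, Ideal.Quotient.mk_eq_mk_iff_sub_mem]
    have e : (dec J β γ p).1 - rp J β p.2 = β * (p.1.1 + δ * rp J β p.2) := by
      unfold dec
      simp only
      linear_combination -(rp J β p.2) * hδ
    rw [e, mem_span_mul]
    exact ⟨_, J.add_mem p.1.2 (J.mul_mem_left _ (rp_mem J β p.2)), rfl⟩
  constructor
  · intro p p' h
    have h1 : p.2 = p'.2 := Subtype.ext (by rw [← hmk, ← hmk, h])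
    have h2 := congrArg Subtype.val h
    unfold dec at h2
    simp only at h2
    rw [h1] at h2
    have h3 := mul_left_cancel₀ hβ (add_right_cancel h2)
    exact Prod.ext (Subtype.ext h3) h1
  · intro y
    set q : Qt J β := ⟨Ideal.Quotient.mk (span {β} * J) y.1, y.1, y.2, rfl⟩ with hq
    have h1 : y.1 - rp J β q ∈ span {β} * J := by
      rw [← Ideal.Quotient.mk_eq_mk_iff_sub_mem, rp_mk]
    obtain ⟨z, hz, hzy⟩ := (mem_span_mul J β).1 h1
    refine ⟨(⟨z - δ * rp J β q, J.sub_mem hz (J.mul_mem_left _ (rp_mem J β q))⟩, q),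
      Subtype.ext ?_⟩
    unfold dec
    simp only
    linear_combination hzy - rp J β q * hδ

variable {β γ} {χ : Ideal (𝓞 K) → ℂ} {m : Ideal (𝓞 K)} (hJ : J ≠ ⊥)

/-- the bound for the differences -/
theorem diff_bound (h : Chr2 K χ m β γ) : ∃ C : ℝ, 0 ≤ C ∧ ∀ s : ℝ, 1 < s → s ≤ 2 →
    ∀ x : XJ K J, ∀ q : Qt J β,
    ‖ff K (GG J hJ χ) s (β * x.1 + γ * rp J β q) - ff K (GG J hJ χ) s (β * x.1)‖ ≤
      C * hh K (x.1 : K) ^ (-((finrank ℚ K : ℝ) + 1)) := by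
  have hfin := finite_Qt J β hJ h.β0
  have hβ : (β : K) ≠ 0 := RingOfIntegers.coe_ne_zero_iff.mpr h.β0
  obtain ⟨L, hL0, hL⟩ := h.lip
  obtain ⟨D, hD⟩ : ∃ D : ℝ, 0 ≤ D ∧
      ∀ q : Qt J β, hh K ((γ * rp J β q : 𝓞 K) : K) ≤ D := by
    cases nonempty_fintype (Qt J β)
    refine ⟨∑ q, hh K ((γ * rp J β q : 𝓞 K) : K),
      Finset.sum_nonneg fun q _ => hh_nonneg _, fun q => ?_⟩
    exact Finset.single_le_sum
      (f := fun q : Qt J β => hh K ((γ * rp J β q : 𝓞 K) : K))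
      (fun q _ => hh_nonneg _) (Finset.mem_univ q)
  obtain ⟨C, hC0, hC⟩ := ff_lip K D L hD.1 hL0
  obtain ⟨cβ, hcβ, hmul⟩ := hh_mul_ge hβ
  set n : ℝ := (finrank ℚ K : ℝ) with hn
  have hn0 : 0 ≤ n := Nat.cast_nonneg _
  refine ⟨(C + (D + 1) ^ (n + 1)) * cβ ^ (-(n + 1)), by
    have : 0 ≤ D := hD.1
    positivity, fun s hs hs2 x q => ?_⟩
  have hx : (x.1 : K) ≠ 0 := RingOfIntegers.coe_ne_zero_iff.mpr x.2.2
  have hβx : β * x.1 ≠ 0 := mul_ne_zero h.β0 x.2.2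
  have hhx := hh_pos hx
  have e1 : ((β * x.1 : 𝓞 K) : K) = (β : K) * (x.1 : K) := by simp
  have hcast : hh K ((β * x.1 : 𝓞 K) : K) ^ (-(n + 1)) ≤
      cβ ^ (-(n + 1)) * hh K (x.1 : K) ^ (-(n + 1)) := by
    rw [← Real.mul_rpow hcβ.le hhx.le, Real.rpow_neg (hh_nonneg _), Real.rpow_neg (by positivity),
      e1]
    exact inv_anti₀ (by positivity) (Real.rpow_le_rpow (by positivity) (hmul _) (by positivity))
  have hd : ((β * x.1 + γ * rp J β q : 𝓞 K) : K) - ((β * x.1 : 𝓞 K) : K) =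
      ((γ * rp J β q : 𝓞 K) : K) := by
    push_cast
    ring
  have hkey : ‖ff K (GG J hJ χ) s (β * x.1 + γ * rp J β q) -
      ff K (GG J hJ χ) s (β * x.1)‖ ≤
      (C + (D + 1) ^ (n + 1)) * hh K ((β * x.1 : 𝓞 K) : K) ^ (-(n + 1)) := by
    have hpow : 0 ≤ hh K ((β * x.1 : 𝓞 K) : K) ^ (-(n + 1)) := Real.rpow_nonneg (hh_nonneg _) _
    by_cases h0 : β * x.1 + γ * rp J β q = 0
    · rw [h0, ff_zero, zero_sub, norm_neg]
      have h1 := norm_ff_le_one (GG_bd J hJ h) (by linarith : 0 ≤ s) (β * x.1)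
      have h2 : hh K ((β * x.1 : 𝓞 K) : K) ≤ D + 1 := by
        have h3 : ((β * x.1 : 𝓞 K) : K) = -((γ * rp J β q : 𝓞 K) : K) := by
          rw [← hd, h0]
          simp
        rw [h3, hh_neg]
        exact (hD.2 q).trans (by linarith)
      have h4 : 0 < hh K ((β * x.1 : 𝓞 K) : K) :=
        hh_pos (RingOfIntegers.coe_ne_zero_iff.mpr hβx)
      have h5 : 1 ≤ (D + 1) ^ (n + 1) * hh K ((β * x.1 : 𝓞 K) : K) ^ (-(n + 1)) := by
        rw [Real.rpow_neg h4.le, ← div_eq_mul_inv, one_le_div (by positivity)]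
        exact Real.rpow_le_rpow h4.le h2 (by positivity)
      calc _ ≤ (1 : ℝ) := h1
        _ ≤ (D + 1) ^ (n + 1) * hh K ((β * x.1 : 𝓞 K) : K) ^ (-(n + 1)) := h5
        _ ≤ _ := mul_le_mul_of_nonneg_right (by linarith) hpow
    · refine (hC (GG J hJ χ) (GG_bd J hJ h) s hs.le hs2 (β * x.1) _ hβx h0 ?_ ?_).trans
        (mul_le_mul_of_nonneg_right (by
          have : 0 ≤ (D + 1) ^ (n + 1) := Real.rpow_nonneg (by linarith [hD.1]) _
          linarith) hpow)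
      · rw [hd]
        exact hD.2 q
      · intro δ hδ hw
        have hm1 : β * x.1 ∈ J ∧ β * x.1 ≠ 0 := ⟨J.mul_mem_left _ x.2.1, hβx⟩
        have hm2 : β * x.1 + γ * rp J β q ∈ J ∧ β * x.1 + γ * rp J β q ≠ 0 :=
          ⟨J.add_mem (J.mul_mem_left _ x.2.1) (J.mul_mem_left _ (rp_mem J β q)), h0⟩
        rw [GG_pos J hJ hm1, GG_pos J hJ hm2]
        refine hL J _ _ (β * x.1) _ hβx h0 hJ (qI_spec K J hJ ⟨_, hm1⟩)
          (qI_spec K J hJ ⟨_, hm2⟩) ?_ δ hδ hw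
        rw [add_sub_cancel_left]
        exact Ideal.mul_mem_mul h.γm (rp_mem J β q)
  refine hkey.trans ?_
  calc (C + (D + 1) ^ (n + 1)) * hh K ((β * x.1 : 𝓞 K) : K) ^ (-(n + 1))
      ≤ (C + (D + 1) ^ (n + 1)) * (cβ ^ (-(n + 1)) * hh K (x.1 : K) ^ (-(n + 1))) :=
        mul_le_mul_of_nonneg_left hcast (by
          have : 0 ≤ (D + 1) ^ (n + 1) := Real.rpow_nonneg (by linarith [hD.1]) _
          linarith)
    _ = _ := by ring

/-- **The lattice sums are bounded.** -/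
theorem tm_bounded (h : Chr2 K χ m β γ) : ∃ C : ℝ, ∀ s : ℝ, 1 < s → s ≤ 2 →
    ‖∑' x, tm K J hJ χ (psi K) s x‖ ≤ C := by
  have hfin := finite_Qt J β hJ h.β0
  cases nonempty_fintype (Qt J β)
  obtain ⟨C, hC0, hC⟩ := diff_bound J hJ h
  obtain ⟨δ, hδ, hray⟩ := ray h.one h.ne
  set n : ℝ := (finrank ℚ K : ℝ) with hn
  set q : ℝ := (Fintype.card (Qt J β) : ℝ) with hq
  have hsum := summable_hh K J hJ (r := n + 1) (by linarith)
  set W : ℝ := ∑' x : XJ K J, hh K (x.1 : K) ^ (-(n + 1)) with hW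
  refine ⟨(q + q * (C * W)) / δ, fun s hs hs2 => ?_⟩
  set F : 𝓞 K → ℂ := ff K (GG J hJ χ) s with hF
  have hF0 : F 0 = 0 := ff_zero _ _
  have hS1 : Summable fun x : XJ K J => F x.1 :=
    (sum_tm J hJ h hs hs2).congr fun x => tm_eq J hJ s x
  obtain ⟨hS2, hS3⟩ := tsum_J J hF0 hS1
  set S : ℂ := ∑' x, tm K J hJ χ (psi K) s x with hS
  have hSe : ∑' y : J, F y.1 = S := by
    rw [hS3]
    exact (tsum_congr fun x => tm_eq J hJ s x).symm
  -- the sum over the multiples of beta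
  set e : ℝ := Real.exp (-(s * lN K (β : K))) with he
  have hU1 : Summable fun x : XJ K J => F (β * x.1) := by
    refine ((sum_tm' J hJ h hs hs2).mul_left (χ (span {β}) * (e : ℂ))).congr fun x => ?_
    exact (tm_mul J hJ h s x).symm
  have hβ0 : F (β * 0) = 0 := by rw [mul_zero, hF0]
  obtain ⟨hU2, hU3⟩ := tsum_J J (f := fun x => F (β * x)) hβ0 hU1
  have hUe : ∑' y : J, F (β * y.1) = (χ (span {β}) * (e : ℂ)) * S := by
    rw [hU3, tsum_congr fun x : XJ K J => tm_mul J hJ h s x, tsum_mul_left,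
      tsum_tm' J hJ h hs hs2]
  -- the decomposition
  have hdec : Summable fun p : J × Qt J β => F (dec J β γ p).1 :=
    (Equiv.ofBijective _ (dec_bij J β γ h.β0 h.γ1)).summable_iff.2 hS2
  have hSd : S = ∑' x : J, ∑ q : Qt J β, F (dec J β γ (x, q)).1 := by
    rw [← hSe, ← (Equiv.ofBijective _ (dec_bij J β γ h.β0 h.γ1)).tsum_eq (fun y : J => F y.1)]
    refine (hdec.tsum_prod' fun x => Summable.of_finite).trans ?_
    exact tsum_congr fun x => tsum_fintype _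
  have hdec2 : Summable fun x : J => ∑ q : Qt J β, F (dec J β γ (x, q)).1 := by
    refine hdec.prod.congr fun x => ?_
    exact tsum_fintype _
  have hU4 : Summable fun x : J => ∑ _q : Qt J β, F (β * x.1) := by
    simp only [Finset.sum_const]
    exact hU2.const_smul _
  have hdiff : S - (q : ℂ) * ((χ (span {β}) * (e : ℂ)) * S) =
      ∑' x : J, ∑ q : Qt J β, (F (dec J β γ (x, q)).1 - F (β * x.1)) := by
    rw [← hUe, ← tsum_mul_left]
    nth_rw 1 [hSd]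
    have e1 : (fun x : J => (q : ℂ) * F (β * x.1)) = fun x : J => ∑ _q : Qt J β, F (β * x.1) := by
      funext x
      rw [Finset.sum_const, Finset.card_univ, nsmul_eq_mul, hq]
      push_cast
      rfl
    rw [e1, ← hdec2.tsum_sub hU4]
    refine tsum_congr fun x => ?_
    rw [Finset.sum_sub_distrib]
  -- the bound
  classical
  have hsumJ := hasSum_J J (g := fun x : 𝓞 K => q * (C * hh K (x : K) ^ (-(n + 1))))
    ((hsum.hasSum.mul_left C).mul_left q) q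
  have hnorm : ∀ x : J, ‖∑ q : Qt J β, (F (dec J β γ (x, q)).1 - F (β * x.1))‖ ≤
      if x = 0 then q else q * (C * hh K (x.1 : K) ^ (-(n + 1))) := by
    intro x
    split_ifs with hx
    · refine (norm_sum_le _ _).trans ?_
      refine (Finset.sum_le_card_nsmul _ _ 1 fun r _ => ?_).trans ?_
      · have hx1 : x.1 = 0 := by rw [hx]; rfl
        rw [hx1, mul_zero, hF0, sub_zero]
        exact norm_ff_le_one (GG_bd J hJ h) (by linarith) _
      · rw [nsmul_eq_mul, mul_one, Finset.card_univ]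
    · refine (norm_sum_le _ _).trans ?_
      refine (Finset.sum_le_card_nsmul _ _ (C * hh K (x.1 : K) ^ (-(n + 1))) fun r _ => ?_).trans ?_
      · exact hC s hs hs2 ⟨x.1, x.2, fun h0 => hx (Subtype.ext h0)⟩ r
      · rw [nsmul_eq_mul, Finset.card_univ]
  have hfinal : ‖S - (q : ℂ) * ((χ (span {β}) * (e : ℂ)) * S)‖ ≤ q + q * (C * W) := by
    rw [hdiff]
    exact tsum_of_norm_bounded hsumJ hnorm
  have hfac : S - (q : ℂ) * ((χ (span {β}) * (e : ℂ)) * S) =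
      (1 - ((q * e : ℝ) : ℂ) * χ (span {β})) * S := by
    push_cast
    ring
  rw [hfac, norm_mul] at hfinal
  have hr := hray (q * e) (mul_nonneg (Nat.cast_nonneg _) (Real.exp_pos _).le)
  rw [le_div_iff₀ hδ]
  calc ‖S‖ * δ ≤ ‖S‖ * ‖1 - ((q * e : ℝ) : ℂ) * χ (span {β})‖ :=
        mul_le_mul_of_nonneg_left hr (norm_nonneg _)
    _ ≤ _ := by rw [mul_comm]; exact hfinal


end

section
variable {K : Type} [Field K] [NumberField K]
variable {χ : Ideal (𝓞 K) → ℂ} {m : Ideal (𝓞 K)} {β γ : 𝓞 K}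

theorem cs_bounded (h : Chr2 K χ m β γ) (C : ClassGroup (𝓞 K)) : ∃ B : ℝ, ∀ s : ℝ, 1 < s → s ≤ 2 →
    ‖cs K χ s C‖ ≤ B := by
  obtain ⟨B, hB⟩ := tm_bounded (rep K C).1 (rep K C).2 h
  have hJ0 : absNorm (rep K C).1 ≠ 0 := by
    rw [Ne, absNorm_eq_zero_iff]; exact (rep K C).2
  have hJ1 : (1 : ℝ) ≤ absNorm (rep K C).1 := by exact_mod_cast Nat.one_le_iff_ne_zero.2 hJ0
  have hw : (1 : ℝ) ≤ torsionOrder K := by
    exact_mod_cast Nat.one_le_iff_ne_zero.2 (torsionOrder_ne_zero K)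
  refine ⟨B * (absNorm (rep K C).1 : ℝ) ^ (2 : ℝ), fun s hs hs2 => ?_⟩
  have h1 := class_sum K (rep K C).1 (rep K C).2 χ (part_psi K) s C (rep_spec K C)
    (sum_tm _ _ h hs hs2)
  have h2 := hB s hs hs2
  rw [h1, norm_mul, norm_mul, Complex.norm_natCast, Complex.norm_real,
    Real.norm_of_nonneg (by positivity)] at h2
  have h3 : (0 : ℝ) < (absNorm (rep K C).1 : ℝ) ^ (-s) := by positivity
  have h4 : (absNorm (rep K C).1 : ℝ) ^ (-(2 : ℝ)) ≤ (absNorm (rep K C).1 : ℝ) ^ (-s) :=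
    Real.rpow_le_rpow_of_exponent_le hJ1 (by linarith)
  have h5 : (absNorm (rep K C).1 : ℝ) ^ (-(2 : ℝ)) * ‖cs K χ s C‖ ≤ B := by
    refine le_trans ?_ h2
    refine mul_le_mul_of_nonneg_right ?_ (norm_nonneg _)
    calc (absNorm (rep K C).1 : ℝ) ^ (-(2 : ℝ)) ≤ 1 * (absNorm (rep K C).1 : ℝ) ^ (-s) := by
          rw [one_mul]; exact h4
      _ ≤ _ := mul_le_mul_of_nonneg_right hw h3.le
  have h6 : (0 : ℝ) < (absNorm (rep K C).1 : ℝ) ^ (2 : ℝ) := by positivity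
  rw [Real.rpow_neg (by positivity), inv_mul_le_iff₀ h6, mul_comm] at h5
  exact h5

/-- **The `L`-function is bounded near `s = 1`.** -/
theorem L_bounded (h : Chr2 K χ m β γ) : ∃ B : ℝ, ∀ s : ℝ, 1 < s → s ≤ 2 →
    ‖∑' I : NZI K, χ I.1 * (((absNorm I.1 : ℝ) ^ (-s) : ℝ) : ℂ)‖ ≤ B := by
  choose B hB using fun C : ClassGroup (𝓞 K) => cs_bounded h C
  refine ⟨∑ C, B C, fun s hs hs2 => ?_⟩
  rw [sum_cs h.bd hs]
  exact (norm_sum_le _ _).trans (Finset.sum_le_sum fun C _ => hB C s hs hs2)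


end

section
variable {K : Type} [Field K] [NumberField K]

variable {χ : Ideal (𝓞 K) → ℂ} {m : Ideal (𝓞 K)} {β γ : 𝓞 K}

theorem chi_top (h : Chr2 K χ m β γ) : χ ⊤ = 1 := by
  have h1 : χ (span {β}) ≠ 0 := by
    rw [← norm_pos_iff, h.one]
    exact one_pos
  have h2 := h.mul (span {β}) ⊤
  rw [Ideal.mul_top] at h2
  have h3 : χ (span {β}) * 1 = χ (span {β}) * χ ⊤ := by rw [mul_one]; exact h2
  exact (mul_left_cancel₀ h1 h3).symm

/-- **The mean value of a nontrivial character over the primes is at most zero.** -/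
theorem prime_bound (h : Chr2 K χ m β γ) : ∃ C : ℝ, ∀ ε : ℝ, 0 < ε → ε ≤ 1 →
    W540.BE.EP (W540.BE.nm K) ε (fun v => (χ v.asIdeal).re) ≤ C := by
  classical
  obtain ⟨B, hB⟩ := L_bounded h
  refine ⟨Real.log B + |1| * ∑' v, (W540.BE.nm K v : ℝ) ^ (-2 : ℝ), fun ε hε hε1 => ?_⟩
  have hN := W540.BE.normSys (F := K)
  set F : Ideal (𝓞 K) → ℂ := fun I => χ I * (((absNorm I : ℝ) ^ (-(1 + ε)) : ℝ) : ℂ) with hF
  set G : HeightOneSpectrum (𝓞 K) → ℂ := fun v => -Complex.log (1 - F v.asIdeal) with hG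
  have hFs : Summable fun I : NZI K => ‖F I.1‖ := summable_chi h.bd (by linarith)
  have hFm : ∀ I I', F (I * I') = F I * F I' := by
    intro I I'
    simp only [hF]
    rw [h.mul, map_mul]
    push_cast
    rw [Real.mul_rpow (by positivity) (by positivity)]
    push_cast
    ring
  have hF1 : F ⊤ = 1 := by
    simp only [hF]
    rw [chi_top h, Ideal.absNorm_top]
    simp
  have hFv : ∀ v : HeightOneSpectrum (𝓞 K), F v.asIdeal =
      χ v.asIdeal * ((W540.BE.nm K v : ℝ) ^ (-(1 + ε)) : ℝ) := fun v => rfl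
  have hn : ∀ v : HeightOneSpectrum (𝓞 K), ‖F v.asIdeal‖ ≤ (W540.BE.nm K v : ℝ) ^ (-(1 : ℝ)) := by
    intro v
    have h2 := hN.two_le v
    have h2' : (2 : ℝ) ≤ W540.BE.nm K v := by exact_mod_cast h2
    rw [hFv, norm_mul, Complex.norm_real, Real.norm_of_nonneg (by positivity)]
    calc ‖χ v.asIdeal‖ * (W540.BE.nm K v : ℝ) ^ (-(1 + ε))
        ≤ 1 * (W540.BE.nm K v : ℝ) ^ (-(1 + ε)) :=
          mul_le_mul_of_nonneg_right (h.bd _) (by positivity)
      _ ≤ _ := by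
          rw [one_mul]
          exact Real.rpow_le_rpow_of_exponent_le (by linarith) (by linarith)
  have hn2 : ∀ v : HeightOneSpectrum (𝓞 K), ‖F v.asIdeal‖ ≤ 1 / 2 := by
    intro v
    have h2 := hN.two_le v
    have h2' : (2 : ℝ) ≤ W540.BE.nm K v := by exact_mod_cast h2
    refine (hn v).trans ?_
    rw [Real.rpow_neg_one, one_div]
    exact inv_anti₀ (by norm_num) h2'
  have hGb : ∀ v : HeightOneSpectrum (𝓞 K), True →
      ‖G v - χ v.asIdeal * ((W540.BE.nm K v : ℝ) ^ (-(1 + ε)) : ℝ)‖ ≤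
        1 * (W540.BE.nm K v : ℝ) ^ (-2 : ℝ) := by
    intro v _
    rw [← hFv, hG]
    refine (H341R2.norm_neg_log_sub_le (hn2 v)).trans ?_
    rw [one_mul]
    calc ‖F v.asIdeal‖ ^ 2 ≤ ((W540.BE.nm K v : ℝ) ^ (-(1 : ℝ))) ^ 2 :=
          pow_le_pow_left₀ (norm_nonneg _) (hn v) 2
      _ = _ := by
          rw [← Real.rpow_natCast, ← Real.rpow_mul (by positivity)]
          norm_num
  obtain ⟨hsum, hbd⟩ := W540.BE.summable_and_boundP hN (Good := fun _ => True) hε G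
    (fun v => χ v.asIdeal) (K := 1) (fun v => h.bd _) (fun v hv => absurd trivial hv) hGb
  simp only [if_true] at hsum hbd
  have hGe : ∀ v : HeightOneSpectrum (𝓞 K), Complex.exp (-G v) = 1 - F v.asIdeal := by
    intro v
    rw [hG]
    simp only [neg_neg]
    refine Complex.exp_log ?_
    intro h0
    have h3 : ‖F v.asIdeal‖ = 1 := by
      have : F v.asIdeal = 1 := by linear_combination -h0
      rw [this, norm_one]
    have := hn2 v
    rw [h3] at this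
    norm_num at this
  have h5 := euler_exp hFs hFm hF1 G hGe hsum
  have h6 := hB (1 + ε) (by linarith) (by linarith)
  have h7 : ‖Complex.exp (∑' v, G v)‖ ≤ B := by
    rw [← h5]
    exact h6
  rw [Complex.norm_exp] at h7
  have h8 : (∑' v, G v).re ≤ Real.log B := by
    rw [← Real.log_exp (∑' v, G v).re]
    exact Real.log_le_log (Real.exp_pos _) h7
  have h9 := (abs_le.1 hbd).1
  linarith


end

end Pool.Agent.NH35.HG.DnA
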