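import Pool.Agent.NH35.HG.StmN
import Pool.Agent.NH35.HG.DnA
import Pool.Agent.NH35.HD.Tr
import Pool.Agent.NH35.HD.Cyc

/-! Density: a Hecke character of trivial type at infinity is not one at many primes of degree one
with norm congruent to one. -/

set_option autoImplicit false
set_option linter.unusedSectionVars false
open NumberField NumberField.InfinitePlace IsDedekindDomain Filter Topology
open Module nonZeroDivisors Ideal IsCyclotomicExtension
open Pool.Agent.H921R2.TatePole (below deg nm_eq deg_two_bound w)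
open Pool.Agent.H341R2 (E lam lam_tendsto)

namespace Pool.Agent.NH35.HG.DnA
open Pool.Agent.NH35.HC (Hk)
open Pool.Agent.NH35.HD (sa above_one deg_ne_one)

/-! ### The twist by a Dirichlet character of the norm -/

section
variable {K : Type} [Field K] [NumberField K]

/-- the norm of an ideal prime to `M` -/
theorem unit_of_coprime {M : ℕ} {I : Ideal (𝓞 K)} (h : IsCoprime I (span {(M : 𝓞 K)})) :
    IsUnit ((absNorm I : ℕ) : ZMod M) := by
  rw [ZMod.isUnit_iff_coprime]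
  by_contra hcon
  obtain ⟨p, hp, hp1, hp2⟩ := Nat.Prime.not_coprime_iff_dvd.1 hcon
  -- an element of order `p` modulo `I`
  obtain ⟨x, hx1, hx2⟩ : ∃ x : 𝓞 K, x ∉ I ∧ (p : 𝓞 K) * x ∈ I := by
    by_cases hI : I = ⊥
    · subst hI
      rw [Ideal.isCoprime_iff_sup_eq, bot_sup_eq, Ideal.span_singleton_eq_top] at h
      exfalso
      obtain ⟨c, hc⟩ := hp2
      rw [hc, Nat.cast_mul] at h
      have h1 := isUnit_of_mul_isUnit_left h
      have h2 : IsUnit (Algebra.norm ℤ ((p : ℕ) : 𝓞 K)) := h1.map _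
      have h3 : Algebra.norm ℤ ((p : ℕ) : 𝓞 K) = (p : ℤ) ^ Module.finrank ℤ (𝓞 K) := by
        have := Algebra.norm_algebraMap (R := ℤ) (S := 𝓞 K) (p : ℤ)
        simpa using this
      rw [h3, isUnit_pow_iff (Module.finrank_pos).ne', Int.isUnit_iff] at h2
      have := hp.two_le
      omega
    · have hfin : Finite (𝓞 K ⧸ I) := Ideal.finiteQuotientOfFreeOfNeBot _ hI
      have hcard : Nat.card (𝓞 K ⧸ I) = absNorm I := rfl
      have : Fact p.Prime := ⟨hp⟩
      obtain ⟨q, hq⟩ := exists_prime_addOrderOf_dvd_card' (G := 𝓞 K ⧸ I) p (by rw [hcard]; exact hp1)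
      obtain ⟨x, rfl⟩ := Ideal.Quotient.mk_surjective q
      refine ⟨x, fun hx => ?_, ?_⟩
      · rw [Ideal.Quotient.eq_zero_iff_mem.2 hx, addOrderOf_zero] at hq
        exact hp.one_lt.ne hq
      · rw [← Ideal.Quotient.eq_zero_iff_mem, map_mul, map_natCast, ← nsmul_eq_mul, ← hq]
        exact addOrderOf_nsmul_eq_zero _
  obtain ⟨a, ha, b, hb, hab⟩ := Ideal.isCoprime_iff_exists.1 h
  obtain ⟨c, hc⟩ := Ideal.mem_span_singleton'.1 hb
  obtain ⟨e, he⟩ := hp2
  apply hx1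
  have h1 : x = x * a + (c * e) * ((p : 𝓞 K) * x) := by
    have h2 : b = c * ((p : 𝓞 K) * e) := by rw [← hc, he, Nat.cast_mul]
    linear_combination -x * hab + x * h2
  rw [h1]
  exact I.add_mem (I.mul_mem_left _ ha) (I.mul_mem_left _ hx2)

theorem not_unit_of_not_coprime {M : ℕ} {I : Ideal (𝓞 K)} (h : ¬ IsCoprime I (span {(M : 𝓞 K)})) :
    ¬ IsUnit ((absNorm I : ℕ) : ZMod M) := by
  intro hu
  apply h
  rw [ZMod.isUnit_iff_coprime] at hu
  rw [Ideal.isCoprime_iff_exists]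
  have h1 : IsCoprime ((absNorm I : ℕ) : ℤ) (M : ℤ) := Nat.isCoprime_iff_coprime.2 hu
  obtain ⟨a, b, hab⟩ := h1
  refine ⟨(a : 𝓞 K) * ((absNorm I : ℕ) : 𝓞 K), I.mul_mem_left _ (Ideal.absNorm_mem I),
    (b : 𝓞 K) * (M : 𝓞 K), Ideal.mem_span_singleton'.2 ⟨b, rfl⟩, ?_⟩
  have := congrArg (fun z : ℤ => (z : 𝓞 K)) hab
  simpa using this

end

section
variable {K : Type} [Field K] [NumberField K]

/-- the norm of an element congruent to one -/
theorem norm_one_mod (n : ℕ) [NeZero n] [IsCyclotomicExtension {n} ℚ K] (hnn : ∀ α : 𝓞 K, 0 ≤ Algebra.norm ℤ α) {M : ℕ} {α : 𝓞 K}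
    (h : α - 1 ∈ span {(M : 𝓞 K)}) : ((absNorm (span {α}) : ℕ) : ZMod M) = 1 := by
  have h1 : ((Algebra.norm ℤ α : ℤ) : 𝓞 K) - 1 ∈ span {(M : 𝓞 K)} := by
    rw [← Ideal.Quotient.mk_eq_mk_iff_sub_mem, Pool.Agent.NH35.HD.norm_prod (m := n), map_prod, map_one]
    refine Finset.prod_eq_one fun u _ => ?_
    rw [← map_one (Ideal.Quotient.mk (span {(M : 𝓞 K)})), Ideal.Quotient.mk_eq_mk_iff_sub_mem]
    have h2 := Ideal.mem_map_of_mem (sa n K u) h
    rw [Ideal.map_span, Set.image_singleton, map_natCast, map_sub, map_one] at h2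
    exact h2
  -- the norm is an integer
  have h3 : (M : ℤ) ∣ Algebra.norm ℤ α - 1 := by
    obtain ⟨c, hc⟩ := Ideal.mem_span_singleton.1 h1
    have h4 : ((Algebra.norm ℤ α - 1 : ℤ) : 𝓞 K) = (M : 𝓞 K) * c := by
      push_cast
      exact hc
    by_cases hM : M = 0
    · rw [hM, Nat.cast_zero, zero_mul] at h4
      have h5 : Algebra.norm ℤ α - 1 = 0 := by exact_mod_cast h4
      rw [h5]
      exact dvd_zero _
    · -- the quotient is a rational integer
      have hMQ : (M : ℚ) ≠ 0 := by exact_mod_cast hM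
      have h6 : ((c : 𝓞 K) : K) = algebraMap ℚ K (((Algebra.norm ℤ α - 1 : ℤ) : ℚ) / M) := by
        have h7 := congrArg (fun z : 𝓞 K => (z : K)) h4
        simp only [map_mul, map_natCast, map_intCast] at h7
        rw [map_div₀, map_natCast, map_intCast, h7]
        have hMK : (M : K) ≠ 0 := by exact_mod_cast hM
        field_simp
      have h8 : IsIntegral ℤ (((Algebra.norm ℤ α - 1 : ℤ) : ℚ) / M) := by
        have h9 : IsIntegral ℤ ((c : 𝓞 K) : K) := c.2
        rw [h6] at h9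
        exact (isIntegral_algebraMap_iff (algebraMap ℚ K).injective).1 h9
      obtain ⟨z, hz⟩ := IsIntegrallyClosed.isIntegral_iff.1 h8
      refine ⟨z, ?_⟩
      have h10 : ((z : ℤ) : ℚ) = ((Algebra.norm ℤ α - 1 : ℤ) : ℚ) / M := by
        rw [← hz]
        simp
      rw [eq_div_iff hMQ] at h10
      have h11 : (z * (M : ℤ) : ℤ) = Algebra.norm ℤ α - 1 := by exact_mod_cast h10
      rw [← h11, mul_comm]
  have h5 : ((absNorm (span {α}) : ℕ) : ℤ) = Algebra.norm ℤ α := by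
    rw [Ideal.absNorm_span_singleton, Int.natAbs_of_nonneg (hnn α)]
  have h6 : (((absNorm (span {α}) : ℕ) : ℤ) : ZMod M) = 1 := by
    rw [h5]
    have := (ZMod.intCast_zmod_eq_zero_iff_dvd (Algebra.norm ℤ α - 1) M).2 h3
    rw [Int.cast_sub, Int.cast_one, sub_eq_zero] at this
    exact this
  exact_mod_cast h6

/-- the twist -/
noncomputable def tw {M : ℕ} (χ : Ideal (𝓞 K) → ℂ) (ω : DirichletCharacter ℂ M)
    (I : Ideal (𝓞 K)) : ℂ := χ I * ω ((absNorm I : ℕ) : ZMod M)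

theorem tw_hk (n : ℕ) [NeZero n] [IsCyclotomicExtension {n} ℚ K] (hnn : ∀ α : 𝓞 K, 0 ≤ Algebra.norm ℤ α) {χ : Ideal (𝓞 K) → ℂ} {N : Ideal (𝓞 K)}
    (h : Hk χ N (fun _ => 1)) {M : ℕ} (hM : 0 < M) (ω : DirichletCharacter ℂ M) :
    Hk (tw χ ω) (N * span {(M : 𝓞 K)}) (fun _ => 1) := by
  have : NeZero M := ⟨hM.ne'⟩
  have hM0 : (M : 𝓞 K) ≠ 0 := by exact_mod_cast hM.ne'
  refine ⟨?_, fun I hI => ?_, fun I hI => ?_, fun I I' => ?_, fun α h0 h1 => ?_,
    fun x y hx hy => by simp, fun x hx => by simp, ⟨0, le_rfl, fun x x' _ _ δ _ _ => by simp⟩⟩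
  · exact mul_ne_zero h.m0 (by simpa using hM0)
  · unfold tw
    by_cases h1 : IsCoprime I N
    · have h2 : ¬ IsCoprime I (span {(M : 𝓞 K)}) := fun h2 => hI (h1.mul_right h2)
      rw [ω.map_nonunit (not_unit_of_not_coprime h2), mul_zero]
    · rw [h.zero I h1, zero_mul]
  · rw [IsCoprime.mul_right_iff] at hI
    unfold tw
    obtain ⟨u, hu⟩ := unit_of_coprime hI.2
    rw [norm_mul, h.one I hI.1, one_mul, ← hu]
    exact DirichletCharacter.unit_norm_eq_one ω u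
  · unfold tw
    rw [h.mul, map_mul, Nat.cast_mul, map_mul]
    ring
  · have h2 : α - 1 ∈ N := (Ideal.mul_le_left (I := N) (J := span {(M : 𝓞 K)})) h1
    have h3 : α - 1 ∈ span {(M : 𝓞 K)} :=
      (Ideal.mul_le_right (I := N) (J := span {(M : 𝓞 K)})) h1
    have h4 := norm_one_mod n hnn (M := M) (α := α) h3
    have h5 := h.prin α h0 h2
    unfold tw
    rw [h5, h4, map_one, mul_one]

theorem tw_bound (n : ℕ) [NeZero n] [IsCyclotomicExtension {n} ℚ K] (hnn : ∀ α : 𝓞 K, 0 ≤ Algebra.norm ℤ α) {χ : Ideal (𝓞 K) → ℂ}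
    {N : Ideal (𝓞 K)} (h : Hk χ N (fun _ => 1)) {M : ℕ} (hM : 0 < M) {β : 𝓞 K} (hβ : β ≠ 0)
    (h1 : IsCoprime (span {β}) N) (h2 : IsCoprime (span {β}) (span {(M : 𝓞 K)}))
    (h3 : ((absNorm (span {β}) : ℕ) : ZMod M) = 1) (h4 : χ (span {β}) ≠ 1)
    (ω : DirichletCharacter ℂ M) : ∃ C : ℝ, ∀ ε : ℝ, 0 < ε → ε ≤ 1 →
    W540.BE.EP (W540.BE.nm K) ε (fun v => (tw χ ω v.asIdeal).re) ≤ C := by
  have hk := tw_hk n hnn h hM ω
  have hc : IsCoprime (span {β}) (N * span {(M : 𝓞 K)}) := h1.mul_right h2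
  obtain ⟨a, ha, b, hb, hab⟩ := Ideal.isCoprime_iff_exists.1 hc
  have hchr : Chr2 K (tw χ ω) (N * span {(M : 𝓞 K)}) β b := by
    refine ⟨hk.bd, hk.mul, hβ, hb, ?_, hk.one _ hc, ?_, hk.lip'⟩
    · have : b - 1 = -a := by linear_combination hab
      rw [this]
      exact (span {β}).neg_mem ha
    · unfold tw
      rw [h3, map_one, mul_one]
      exact h4
  exact prime_bound hchr

end

/-! ### Sums over the primes of the progression -/

section
open Pool.Agent.H341R2 (w_nonneg summable_E E_add)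

theorem E_mono_dn {ε : ℝ} (hε : 0 < ε) {φ ψ : Nat.Primes → ℝ} {B B' : ℝ} (hφ : ∀ p, |φ p| ≤ B)
    (hψ : ∀ p, |ψ p| ≤ B') (h : ∀ p, φ p ≤ ψ p) : E ε φ ≤ E ε ψ :=
  Summable.tsum_le_tsum (fun p => mul_le_mul_of_nonneg_right (h p) (w_nonneg ε p))
    (summable_E hε hφ) (summable_E hε hψ)

theorem E_fin_dn {ε : ℝ} (hε : 0 < ε) (S : Finset Nat.Primes) {D : Nat.Primes → ℝ} {b : ℝ}
    (hD : ∀ p, p ∉ S → D p = 0) (hb : ∀ p, |D p| ≤ b) : E ε D ≤ S.card * b := by
  rw [E, tsum_eq_sum (s := S) fun p hp => by rw [hD p hp, zero_mul], ← nsmul_eq_mul]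
  refine Finset.sum_le_card_nsmul _ _ _ fun p _ => ?_
  have hp1 : (1 : ℝ) ≤ ((p : ℕ) : ℝ) := by exact_mod_cast p.2.one_lt.le
  have h1 : ((p : ℕ) : ℝ) ^ (-(1 + ε)) ≤ 1 := Real.rpow_le_one_of_one_le_of_nonpos hp1 (by linarith)
  calc D p * ((p : ℕ) : ℝ) ^ (-(1 + ε)) ≤ |D p| * ((p : ℕ) : ℝ) ^ (-(1 + ε)) :=
        mul_le_mul_of_nonneg_right (le_abs_self _) (w_nonneg ε p)
    _ ≤ |D p| * 1 := mul_le_mul_of_nonneg_left h1 (abs_nonneg _)
    _ ≤ b := by rw [mul_one]; exact hb p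

/-- the indicator function of the progression -/
noncomputable def ap (M : ℕ) (ℓ : Nat.Primes) : ℝ := if M ∣ (ℓ : ℕ) - 1 then 1 else 0

theorem ap_abs (M : ℕ) (ℓ : Nat.Primes) : |ap M ℓ| ≤ 1 := by
  unfold ap
  split_ifs <;> simp

theorem ap_nonneg (M : ℕ) (ℓ : Nat.Primes) : 0 ≤ ap M ℓ := by
  unfold ap
  split_ifs <;> simp

/-- the sums over the fibres -/
theorem fib_abs {K : Type} [Field K] [NumberField K] {g : HeightOneSpectrum (𝓞 K) → ℝ} {C : ℝ}
    (hC : 0 ≤ C) (hg : ∀ v, |g v| ≤ C) (ℓ : Nat.Primes) :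
    |∑ v : {v : HeightOneSpectrum (𝓞 K) // below v = ℓ}, if deg v.1 = 1 then g v.1 else 0| ≤
      Module.finrank ℚ K * C := by
  refine (Finset.abs_sum_le_sum_abs _ _).trans ?_
  calc ∑ v : {v : HeightOneSpectrum (𝓞 K) // below v = ℓ}, |if deg v.1 = 1 then g v.1 else 0|
      ≤ ∑ v : {v : HeightOneSpectrum (𝓞 K) // below v = ℓ}, C := by
        refine Finset.sum_le_sum fun v _ => ?_
        split_ifs
        · exact hg _
        · simpa using hC
    _ = (Fintype.card {v : HeightOneSpectrum (𝓞 K) // below v = ℓ} : ℝ) * C := by simp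
    _ ≤ _ := mul_le_mul_of_nonneg_right (by exact_mod_cast H921R2.TatePole.fiber_card_le ℓ) hC

theorem first_lower (M : ℕ) [NeZero M] (K : Type) [Field K] [NumberField K]
    [IsCyclotomicExtension {M} ℚ K] : ∃ C : ℝ, ∀ ε : ℝ, 0 < ε →
      W540.BE.EP (W540.BE.nm K) ε (fun _ => 1) ≤ (M.totient : ℝ) * E ε (ap M) + C := by
  classical
  let S : Finset Nat.Primes := Finset.subtype Nat.Prime M.primeFactors
  let D : Nat.Primes → ℝ := fun ℓ => if (ℓ : ℕ) ∣ M then (Module.finrank ℚ K : ℝ) else 0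
  have hD : ∀ ℓ, ℓ ∉ S → D ℓ = 0 := by
    intro ℓ hℓ
    refine if_neg fun h => hℓ ?_
    exact Finset.mem_subtype.2 (Nat.mem_primeFactors.2 ⟨ℓ.2, h, NeZero.ne M⟩)
  have hDb : ∀ ℓ, |D ℓ| ≤ Module.finrank ℚ K := by
    intro ℓ
    simp only [D]
    split_ifs <;> simp
  let R : Nat.Primes → ℝ := fun ℓ =>
    ∑ v : {v : HeightOneSpectrum (𝓞 K) // below v = ℓ}, if deg v.1 = 1 then (1 : ℝ) else 0
  have hRb : ∀ ℓ, |R ℓ| ≤ Module.finrank ℚ K * 1 := fun ℓ =>
    fib_abs (g := fun _ => (1 : ℝ)) zero_le_one (fun _ => by simp) ℓ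
  have hR : ∀ ℓ, R ℓ ≤ (M.totient : ℝ) * ap M ℓ + D ℓ := by
    intro ℓ
    by_cases h1 : (ℓ : ℕ) ∣ M
    · have h2 := (abs_le.1 (hRb ℓ)).2
      have h3 : D ℓ = Module.finrank ℚ K := if_pos h1
      have h4 := mul_nonneg (Nat.cast_nonneg (α := ℝ) M.totient) (ap_nonneg M ℓ)
      rw [h3]
      linarith
    · have h3 : D ℓ = 0 := if_neg h1
      rw [h3, add_zero]
      by_cases h2 : M ∣ (ℓ : ℕ) - 1
      · obtain ⟨hdeg, hcard⟩ := above_one K ℓ h1 h2
        have h4 : R ℓ = M.totient := by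
          simp only [R]
          rw [Finset.sum_congr rfl fun v _ => if_pos (hdeg v.1 v.2)]
          rw [Finset.sum_const, Finset.card_univ, hcard, nsmul_eq_mul, mul_one]
        have h5 : ap M ℓ = 1 := if_pos h2
        rw [h4, h5, mul_one]
      · have h4 : R ℓ = 0 := Finset.sum_eq_zero fun v _ => if_neg (deg_ne_one K h1 h2 v.1 v.2)
        rw [h4]
        exact mul_nonneg (Nat.cast_nonneg _) (ap_nonneg M ℓ)
  refine ⟨S.card * Module.finrank ℚ K + 1 * Module.finrank ℚ K * H921R2.TatePole.C0,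
    fun ε hε => ?_⟩
  have h3 := deg_two_bound (K := K) (x := 1 + ε) (by linarith) (g := fun _ => 1) (C := 1)
    (fun _ => by simp)
  have h4 := (abs_le.1 h3).2
  have h5 : W540.BE.EP (W540.BE.nm K) ε (fun _ => 1) =
      ∑' v : HeightOneSpectrum (𝓞 K), (1 : ℝ) * (H921R2.TatePole.nm v : ℝ) ^ (-(1 + ε)) := rfl
  have h6 : E ε R = ∑' p : Nat.Primes,
      (∑ v : {v : HeightOneSpectrum (𝓞 K) // below v = p}, if deg v.1 = 1 then (1 : ℝ) else 0) *
        w (1 + ε) p := rfl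
  have h7 : E ε R ≤ E ε (fun ℓ => (M.totient : ℝ) * ap M ℓ + D ℓ) := by
    refine E_mono_dn hε hRb (B' := (M.totient : ℝ) * 1 + Module.finrank ℚ K) (fun ℓ => ?_) hR
    refine (abs_add_le _ _).trans (add_le_add ?_ (hDb ℓ))
    rw [abs_mul, abs_of_nonneg (Nat.cast_nonneg (α := ℝ) M.totient)]
    exact mul_le_mul_of_nonneg_left (ap_abs M ℓ) (Nat.cast_nonneg _)
  rw [E_add hε (B := (M.totient : ℝ) * 1) (fun ℓ => by
    rw [abs_mul, abs_of_nonneg (Nat.cast_nonneg (α := ℝ) M.totient)]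
    exact mul_le_mul_of_nonneg_left (ap_abs M ℓ) (Nat.cast_nonneg _)) hDb,
    H341R2.E_const_mul] at h7
  have h8 := E_fin_dn hε S hD hDb
  rw [h5]
  rw [← h6] at h4
  linarith

/-- the sum over the primes of the progression is unbounded -/
theorem ap_unbounded (M : ℕ) [NeZero M] (C : ℝ) : ∃ ε : ℝ, 0 < ε ∧ ε ≤ 1 ∧ C < E ε (ap M) := by
  have hcyc : IsCyclotomicExtension {M} ℚ (CyclotomicField M ℚ) :=
    CyclotomicField.isCyclotomicExtension M ℚ
  obtain ⟨C1, hC1⟩ := first_lower M (CyclotomicField M ℚ)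
  have h1 := W540.BE.EP_one (CyclotomicField M ℚ)
  have h2 : ∀ᶠ ε : ℝ in 𝓝[>] 0, 1 / 2 < W540.BE.EP (W540.BE.nm (CyclotomicField M ℚ)) ε
      (fun _ => 1) / lam ε := h1.eventually_const_lt (by norm_num)
  have hφ : (0 : ℝ) < M.totient := by
    exact_mod_cast Nat.totient_pos.2 (Nat.pos_of_ne_zero (NeZero.ne M))
  have h3 : ∀ᶠ ε : ℝ in 𝓝[>] 0, 2 * ((M.totient : ℝ) * |C| + |C1|) + 1 < lam ε :=
    lam_tendsto.eventually_gt_atTop _
  have h4 : ∀ᶠ ε : ℝ in 𝓝[>] 0, ε ∈ Set.Ioc (0 : ℝ) 1 := Ioc_mem_nhdsGT one_pos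
  obtain ⟨ε, ⟨h5, h6⟩, h7, h8⟩ := ((h2.and h3).and h4).exists
  refine ⟨ε, h7, h8, ?_⟩
  have h9 : 0 < lam ε := by
    have : 0 ≤ (M.totient : ℝ) * |C| + |C1| := by positivity
    linarith
  rw [lt_div_iff₀ h9] at h5
  have h10 := hC1 ε h7
  have h11 := le_abs_self C1
  have h12 : (M.totient : ℝ) * |C| < (M.totient : ℝ) * E ε (ap M) := by linarith
  have h13 := lt_of_mul_lt_mul_left h12 hφ.le
  exact (le_abs_self C).trans_lt h13

end

/-! ### The theorem -/

/-- **Density.** -/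
theorem dn_aux : S_dn := by
  classical
  intro n _ K _ _ _ hnn χ N hχ M hM hnM β hβ h1 h2 h3 h4 B
  have : NeZero M := ⟨hM.ne'⟩
  by_contra hcon
  have key : ∀ P : Ideal (𝓞 K), P.IsPrime → (absNorm P).Prime → B < absNorm P →
      absNorm P ≡ 1 [MOD M] → IsCoprime P N → χ P = 1 := by
    intro P hP1 hP2 hP3 hP4 hP5
    by_contra hP6
    exact hcon ⟨P, hP1, hP2, hP3, hP4, hP5, hP6⟩
  choose C hC using tw_bound n hnn hχ hM hβ h1 h2 h3 h4
  have hφ : (1 : ℝ) ≤ M.totient := by exact_mod_cast Nat.totient_pos.2 hM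
  have hN := W540.BE.normSys (F := K)
  have hbd : ∀ (ω : DirichletCharacter ℂ M) (v : HeightOneSpectrum (𝓞 K)),
      |(tw χ ω v.asIdeal).re| ≤ 1 := fun ω v =>
    (Complex.abs_re_le_norm _).trans ((tw_hk n hnn hχ hM ω).bd _)
  -- the sum of the twists
  obtain ⟨g, hg⟩ : ∃ g : HeightOneSpectrum (𝓞 K) → ℝ,
      g = fun v => ∑ ω : DirichletCharacter ℂ M, (tw χ ω v.asIdeal).re := ⟨_, rfl⟩
  have hg1 : ∀ v, g v = if ((absNorm v.asIdeal : ℕ) : ZMod M) = 1 then
      (M.totient : ℝ) * (χ v.asIdeal).re else 0 := by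
    intro v
    rw [hg]
    simp only
    rw [← Complex.re_sum]
    unfold tw
    rw [← Finset.mul_sum, DirichletCharacter.sum_characters_eq]
    split_ifs with h
    · rw [mul_comm, ← Complex.ofReal_natCast, Complex.re_ofReal_mul]
    · rw [mul_zero, Complex.zero_re]
  have hgb : ∀ v, |g v| ≤ M.totient := by
    intro v
    rw [hg1]
    split_ifs
    · rw [abs_mul, abs_of_nonneg (by linarith : (0 : ℝ) ≤ M.totient)]
      calc (M.totient : ℝ) * |(χ v.asIdeal).re| ≤ (M.totient : ℝ) * 1 :=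
            mul_le_mul_of_nonneg_left ((Complex.abs_re_le_norm _).trans (hχ.bd _)) (by linarith)
        _ = _ := mul_one _
    · rw [abs_zero]
      linarith
  obtain ⟨R, hR⟩ : ∃ R : Nat.Primes → ℝ, R = fun ℓ =>
    ∑ v : {v : HeightOneSpectrum (𝓞 K) // below v = ℓ}, if deg v.1 = 1 then g v.1 else 0 :=
    ⟨_, rfl⟩
  have hRb : ∀ ℓ, |R ℓ| ≤ Module.finrank ℚ K * M.totient := by
    intro ℓ
    rw [hR]
    exact fib_abs (by linarith) hgb ℓ
  -- the exceptional primes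
  have hN0 : absNorm N ≠ 0 := by
    rw [Ne, Ideal.absNorm_eq_zero_iff]
    exact hχ.m0
  have hfin : {ℓ : Nat.Primes | (ℓ : ℕ) ≤ B ∨ (ℓ : ℕ) ∣ absNorm N}.Finite := by
    have h5 : {ℓ : Nat.Primes | (ℓ : ℕ) ≤ B ∨ (ℓ : ℕ) ∣ absNorm N} ⊆
        (fun ℓ : Nat.Primes => (ℓ : ℕ)) ⁻¹' (Set.Iic (B + absNorm N)) := by
      rintro ℓ (h | h)
      · show (ℓ : ℕ) ≤ B + absNorm N
        omega
      · have := Nat.le_of_dvd (Nat.pos_of_ne_zero hN0) h
        show (ℓ : ℕ) ≤ B + absNorm N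
        omega
    exact ((Set.finite_Iic _).preimage (Nat.Primes.coe_nat_injective.injOn)).subset h5
  set S : Finset Nat.Primes := hfin.toFinset with hS
  let D : Nat.Primes → ℝ := fun ℓ => if ℓ ∈ S then (Module.finrank ℚ K * M.totient : ℝ) + 1 else 0
  have hD : ∀ ℓ, ℓ ∉ S → D ℓ = 0 := fun ℓ hℓ => if_neg hℓ
  have hDb : ∀ ℓ, |D ℓ| ≤ (Module.finrank ℚ K * M.totient : ℝ) + 1 := by
    intro ℓ
    have h5 : (0 : ℝ) ≤ (Module.finrank ℚ K * M.totient : ℝ) + 1 := by positivity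
    simp only [D]
    split_ifs
    · rw [abs_of_nonneg h5]
    · rw [abs_zero]
      exact h5
  have hlow : ∀ ℓ, ap M ℓ ≤ R ℓ + D ℓ := by
    intro ℓ
    by_cases hℓ : ℓ ∈ S
    · have h5 := (abs_le.1 (hRb ℓ)).1
      have h6 : D ℓ = (Module.finrank ℚ K * M.totient : ℝ) + 1 := if_pos hℓ
      have h7 := (abs_le.1 (ap_abs M ℓ)).2
      rw [h6]
      linarith
    · rw [hD ℓ hℓ, add_zero]
      rw [hS, Set.Finite.mem_toFinset] at hℓ
      have hℓ1 : ¬ (ℓ : ℕ) ≤ B := fun h => hℓ (Or.inl h)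
      have hℓ2 : ¬ (ℓ : ℕ) ∣ absNorm N := fun h => hℓ (Or.inr h)
      have hnm : ∀ v : HeightOneSpectrum (𝓞 K), below v = ℓ → deg v = 1 →
          absNorm v.asIdeal = ℓ := by
        intro v hv hd
        have h5 := (nm_eq v).1
        rw [hd, pow_one, hv] at h5
        exact h5
      by_cases hM1 : M ∣ (ℓ : ℕ) - 1
      · have hℓ3 := ℓ.2.two_le
        have hn1 : n ∣ (ℓ : ℕ) - 1 := hnM.trans hM1
        have hℓn : ¬ (ℓ : ℕ) ∣ n := by
          intro h5
          have := Nat.le_of_dvd (by omega) (h5.trans hn1)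
          omega
        obtain ⟨hdeg, hcard⟩ := above_one K ℓ hℓn hn1
        have hmod : ((ℓ : ℕ) : ZMod M) = 1 := by
          have h5 : (((ℓ : ℕ) - 1 : ℕ) : ZMod M) = 0 := (ZMod.natCast_eq_zero_iff _ _).2 hM1
          rw [Nat.cast_sub (by omega), Nat.cast_one, sub_eq_zero] at h5
          exact h5
        have h5 : R ℓ = ∑ v : {v : HeightOneSpectrum (𝓞 K) // below v = ℓ}, (M.totient : ℝ) := by
          rw [hR]
          refine Finset.sum_congr rfl fun v _ => ?_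
          have hv1 := hnm v.1 v.2 (hdeg v.1 v.2)
          rw [if_pos (hdeg v.1 v.2), hg1, if_pos (by rw [hv1]; exact hmod), key v.1.asIdeal
            v.1.isPrime (by rw [hv1]; exact ℓ.2) (by rw [hv1]; omega) ?_ ?_, Complex.one_re, mul_one]
          · rw [hv1, ← ZMod.natCast_eq_natCast_iff, hmod, Nat.cast_one]
          · rw [Ideal.isCoprime_iff_sup_eq]
            have hmax : v.1.asIdeal.IsMaximal := v.1.isPrime.isMaximal v.1.ne_bot
            by_contra h6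
            have h7 : v.1.asIdeal = v.1.asIdeal ⊔ N := hmax.eq_of_le h6 le_sup_left
            have h8 : N ≤ v.1.asIdeal := h7 ▸ le_sup_right
            have h9 := Ideal.absNorm_dvd_absNorm_of_le h8
            rw [hv1] at h9
            exact hℓ2 h9
        have h6 : ap M ℓ = 1 := if_pos hM1
        have h7 : (1 : ℝ) ≤ n.totient := by
          exact_mod_cast Nat.totient_pos.2 (Nat.pos_of_ne_zero (NeZero.ne n))
        rw [h6, h5, Finset.sum_const, Finset.card_univ, hcard, nsmul_eq_mul]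
        nlinarith
      · have h5 : R ℓ = 0 := by
          rw [hR]
          refine Finset.sum_eq_zero fun v _ => ?_
          split_ifs with hd
          · rw [hg1, if_neg]
            rw [hnm v.1 v.2 hd]
            intro h6
            apply hM1
            rw [← ZMod.natCast_eq_zero_iff, Nat.cast_sub ℓ.2.one_lt.le, h6, Nat.cast_one, sub_self]
          · rfl
        have h6 : ap M ℓ = 0 := if_neg hM1
        rw [h5, h6]
  -- the contradiction
  obtain ⟨ε, hε, hε1, hlarge⟩ := ap_unbounded M (∑ ω : DirichletCharacter ℂ M, C ω +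
    (M.totient : ℝ) * Module.finrank ℚ K * H921R2.TatePole.C0 +
    S.card * ((Module.finrank ℚ K * M.totient : ℝ) + 1))
  have h5 : E ε (ap M) ≤ E ε R + E ε D := by
    rw [← H341R2.E_add hε hRb hDb]
    exact E_mono_dn hε (ap_abs M) (B' := (Module.finrank ℚ K * M.totient : ℝ) +
      ((Module.finrank ℚ K * M.totient : ℝ) + 1))
      (fun ℓ => (abs_add_le _ _).trans (add_le_add (hRb ℓ) (hDb ℓ))) hlow
  have h6 := E_fin_dn hε S hD hDb
  have h7 := deg_two_bound (K := K) (x := 1 + ε) (by linarith) hgb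
  have h8 := (abs_le.1 h7).1
  have h9 : W540.BE.EP (W540.BE.nm K) ε g =
      ∑' v : HeightOneSpectrum (𝓞 K), g v * (H921R2.TatePole.nm v : ℝ) ^ (-(1 + ε)) := rfl
  have h10 : E ε R = ∑' p : Nat.Primes,
      (∑ v : {v : HeightOneSpectrum (𝓞 K) // below v = p}, if deg v.1 = 1 then g v.1 else 0) *
        w (1 + ε) p := by rw [hR]; rfl
  have h11 : W540.BE.EP (W540.BE.nm K) ε g ≤ ∑ ω : DirichletCharacter ℂ M, C ω := by
    rw [hg, W540.BE.EP_sum hN hε Finset.univ _ (fun _ => 1) fun ω _ v => hbd ω v]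
    exact Finset.sum_le_sum fun ω _ => hC ω ε hε hε1
  rw [← h9, ← h10] at h8
  linarith

end Pool.Agent.NH35.HG.DnA

namespace Pool.Agent.NH35.HG

/-- **Density.** -/
theorem dn : S_dn := DnA.dn_aux

end Pool.Agent.NH35.HG
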