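import Pool.Agent.NH35.HG.StmG
import Pool.Agent.H916K.Level

/-! The digit sum in terms of `FH`. -/

set_option autoImplicit false
set_option linter.unusedSectionVars false

namespace Pool.Agent.NH35.HG

open Finset Pool.Agent.H916R2

namespace FhAux

/-- the difference of the residues -/
def hh {n : ℕ} (t t' : (ZMod n)ˣ) (v : ZMod n) : ℤ :=
  (((t : ZMod n) * v).val : ℤ) - (((t' : ZMod n) * v).val : ℤ)

section

variable {n : ℕ} [NeZero n] (t t' : (ZMod n)ˣ)

theorem two_hh (v : ZMod n) : 2 * hh t t' v = saw ((t : ZMod n) * v) - saw ((t' : ZMod n) * v) := by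
  unfold hh saw
  by_cases hv : v = 0
  · subst hv
    simp
  · have h1 : (t : ZMod n) * v ≠ 0 := fun h => hv ((Units.mul_right_eq_zero t).1 h)
    have h2 : (t' : ZMod n) * v ≠ 0 := fun h => hv ((Units.mul_right_eq_zero t').1 h)
    rw [if_neg h1, if_neg h2]
    ring

theorem hh_zero : hh t t' 0 = 0 := by
  unfold hh
  simp

theorem hh_neg (v : ZMod n) : hh t t' (-v) = - hh t t' v := by
  by_cases hv : v = 0
  · subst hv
    simp [hh_zero]
  · have h1 : (t : ZMod n) * v ≠ 0 := fun h => hv ((Units.mul_right_eq_zero t).1 h)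
    have h2 : (t' : ZMod n) * v ≠ 0 := fun h => hv ((Units.mul_right_eq_zero t').1 h)
    unfold hh
    rw [mul_neg, mul_neg, ZMod.neg_val, ZMod.neg_val, if_neg h1, if_neg h2,
      Nat.cast_sub (ZMod.val_lt _).le, Nat.cast_sub (ZMod.val_lt _).le]
    ring

/-- distribution relation -/
theorem hh_dist {p d : ℕ} (hpd : p * d = n) (s : (ZMod n)ˣ) (v : ZMod n) :
    ∑ i ∈ range p, hh t t' ((s : ZMod n) * (v + (i : ZMod n) * (d : ZMod n))) =
      hh t t' ((s : ZMod n) * ((p : ZMod n) * v)) := by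
  have h1 : (2 : ℤ) * ∑ i ∈ range p, hh t t' ((s : ZMod n) * (v + (i : ZMod n) * (d : ZMod n))) =
      2 * hh t t' ((s : ZMod n) * ((p : ZMod n) * v)) := by
    rw [mul_sum, two_hh]
    have h2 := saw_dist_unit hpd (t * s) v
    have h3 := saw_dist_unit hpd (t' * s) v
    rw [sum_congr rfl fun i _ => two_hh t t' _, sum_sub_distrib]
    simp only [Units.val_mul, mul_assoc] at h2 h3 ⊢
    rw [h2, h3]
  linarith

/-- distribution relation, with another generator of the subgroup -/
theorem hh_dist' {p d : ℕ} (hpd : p * d = n) (s w : (ZMod n)ˣ) (v : ZMod n) :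
    ∑ i ∈ range p, hh t t' ((s : ZMod n) * (v + (i : ZMod n) * ((w : ZMod n) * (d : ZMod n)))) =
      hh t t' ((s : ZMod n) * ((p : ZMod n) * v)) := by
  have h1 := coset_sum_unit (fun b => hh t t' ((s : ZMod n) * b)) hpd w
    (((w⁻¹ : (ZMod n)ˣ) : ZMod n) * v)
  have hw : (w : ZMod n) * (((w⁻¹ : (ZMod n)ˣ) : ZMod n) * v) = v := by
    rw [← mul_assoc, Units.mul_inv, one_mul]
  simp only [mul_add, hw] at h1
  have h2 := hh_dist t t' hpd s v
  simp only [mul_add] at h2 ⊢
  rw [← h2, ← h1]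
  refine sum_congr rfl fun i _ => ?_
  congr 2
  ring

end

section

variable {r n m : ℕ} [NeZero m] [NeZero n] [NeZero r]

/-- the distribution of level `m` -/
def gg (hr : r ∣ m) (hn : n ∣ m) (t t' : (ZMod n)ˣ) (s : (ZMod n)ˣ) (z : ZMod m) : ℤ :=
  if ZMod.castHom hr (ZMod r) z = 0 then
    ((r : ℤ) - 1) * hh t t' ((s : ZMod n) * ZMod.castHom hn (ZMod n) z)
  else hh t t' ((s : ZMod n) * ((r : ZMod n) * ZMod.castHom hn (ZMod n) z)) -
    hh t t' ((s : ZMod n) * ZMod.castHom hn (ZMod n) z)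

theorem gg_odd (hrp : r.Prime) (hrn : ¬ r ∣ n) (hr2 : r ≠ 2) (hno : Odd n) (hm : r * n = m)
    (hr : r ∣ m) (hn : n ∣ m) (t t' s : (ZMod n)ˣ) : OddDist (gg hr hn t t' s) := by
  have hcop : Nat.Coprime r n := (Nat.Prime.coprime_iff_not_dvd hrp).2 hrn
  obtain ⟨w, hw⟩ : ∃ w : (ZMod n)ˣ, (w : ZMod n) = (r : ZMod n) :=
    ⟨ZMod.unitOfCoprime r hcop, ZMod.coe_unitOfCoprime r hcop⟩
  have hmo : Odd m := by
    rw [← hm]
    exact (hrp.odd_of_ne_two hr2).mul hno
  refine ⟨fun a => ?_, fun a ha => ?_, fun p d hp hpd a => ?_⟩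
  · unfold gg
    rw [map_neg, map_neg]
    by_cases h : ZMod.castHom hr (ZMod r) a = 0
    · rw [if_pos (by rw [h, neg_zero]), if_pos h, mul_neg, hh_neg]
      ring
    · rw [if_neg (by rwa [neg_eq_zero]), if_neg h, mul_neg, mul_neg, hh_neg, mul_neg, hh_neg]
      ring
  · have ha0 : a = 0 := by
      have h2 : IsUnit ((2 : ℕ) : ZMod m) := by
        rw [ZMod.isUnit_iff_coprime]
        exact (Nat.coprime_two_left).2 hmo
      have h3 : ((2 : ℕ) : ZMod m) * a = 0 := by
        push_cast
        rw [two_mul, ha]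
      exact (h2.mul_right_eq_zero).1 h3
    subst ha0
    unfold gg
    rw [map_zero, if_pos rfl, map_zero, mul_zero, hh_zero, mul_zero]
  · by_cases hpr : p = r
    · subst hpr
      have hdn : d = n := Nat.eq_of_mul_eq_mul_left hp.pos (hpd.trans hm.symm)
      subst hdn
      -- exactly one term vanishes
      have hcast : ∀ i : ℕ, ZMod.castHom hn (ZMod d) (a + (i : ZMod m) * (d : ZMod m)) =
          ZMod.castHom hn (ZMod d) a := by
        intro i
        rw [map_add, map_mul, map_natCast, map_natCast, ZMod.natCast_self, mul_zero, add_zero]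
      have hone : ∃! i, i ∈ range p ∧
          ZMod.castHom hr (ZMod p) (a + (i : ZMod m) * (d : ZMod m)) = 0 := by
        have := Fact.mk hp
        have hd0 : (d : ZMod p) ≠ 0 := by
          rw [Ne, ZMod.natCast_eq_zero_iff]
          exact hrn
        refine ⟨(-(ZMod.castHom hr (ZMod p) a) * (d : ZMod p)⁻¹).val,
          ⟨mem_range.2 (ZMod.val_lt _), ?_⟩, ?_⟩
        · rw [map_add, map_mul, map_natCast, map_natCast, ZMod.natCast_zmod_val, mul_assoc,
            inv_mul_cancel₀ hd0, mul_one, add_neg_cancel]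
        · rintro i ⟨hi, h0⟩
          rw [map_add, map_mul, map_natCast, map_natCast] at h0
          have h1 : (i : ZMod p) = -(ZMod.castHom hr (ZMod p) a) * (d : ZMod p)⁻¹ := by
            rw [eq_mul_inv_iff_mul_eq₀ hd0]
            linear_combination h0
          rw [← h1, ZMod.val_natCast, Nat.mod_eq_of_lt (mem_range.1 hi)]
      obtain ⟨i0, ⟨hi0, h0⟩, huniq⟩ := hone
      have hr0 : ZMod.castHom hr (ZMod p) ((p : ZMod m) * a) = 0 := by
        rw [map_mul, map_natCast, ZMod.natCast_self, zero_mul]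
      have hterm : ∀ i ∈ range p, gg hr hn t t' s (a + (i : ZMod m) * (d : ZMod m)) =
          (hh t t' ((s : ZMod d) * ((p : ZMod d) * ZMod.castHom hn (ZMod d) a)) -
            hh t t' ((s : ZMod d) * ZMod.castHom hn (ZMod d) a)) +
          if i = i0 then ((p : ℤ) * hh t t' ((s : ZMod d) * ZMod.castHom hn (ZMod d) a) -
            hh t t' ((s : ZMod d) * ((p : ZMod d) * ZMod.castHom hn (ZMod d) a))) else 0 := by
        intro i hi
        unfold gg
        rw [hcast]
        by_cases hii : i = i0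
        · rw [hii, if_pos h0, if_pos rfl]
          ring
        · rw [if_neg fun h => hii (huniq i ⟨hi, h⟩), if_neg hii, add_zero]
      rw [sum_congr rfl hterm, sum_add_distrib, sum_const, card_range, sum_ite_eq', if_pos hi0]
      unfold gg
      rw [if_pos hr0, map_mul, map_natCast, nsmul_eq_mul]
      ring
    · -- the other primes
      have hpn : p ∣ n := by
        have h1 : p ∣ r * n := by
          rw [hm, ← hpd]
          exact dvd_mul_right _ _
        rcases (Nat.Prime.dvd_mul hp).1 h1 with h | h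
        · exact absurd ((Nat.prime_dvd_prime_iff_eq hp hrp).1 h) hpr
        · exact h
      obtain ⟨d', hd'⟩ := hpn
      have hdd : d = r * d' := by
        have h1 : p * d = p * (r * d') := by
          rw [hpd, ← hm, hd']
          ring
        exact Nat.eq_of_mul_eq_mul_left hp.pos h1
      have hc1 : ∀ i : ℕ, ZMod.castHom hr (ZMod r) (a + (i : ZMod m) * (d : ZMod m)) =
          ZMod.castHom hr (ZMod r) a := by
        intro i
        rw [map_add, map_mul, map_natCast, map_natCast, hdd, Nat.cast_mul, ZMod.natCast_self,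
          zero_mul, mul_zero, add_zero]
      have hc2 : ∀ i : ℕ, ZMod.castHom hn (ZMod n) (a + (i : ZMod m) * (d : ZMod m)) =
          ZMod.castHom hn (ZMod n) a + (i : ZMod n) * ((w : ZMod n) * (d' : ZMod n)) := by
        intro i
        rw [map_add, map_mul, map_natCast, map_natCast, hdd, Nat.cast_mul, hw]
      have hp0 : ZMod.castHom hr (ZMod r) ((p : ZMod m) * a) = 0 ↔
          ZMod.castHom hr (ZMod r) a = 0 := by
        have := Fact.mk hrp
        rw [map_mul, map_natCast, mul_eq_zero, ZMod.natCast_eq_zero_iff]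
        constructor
        · rintro (h | h)
          · exact absurd ((Nat.prime_dvd_prime_iff_eq hrp hp).1 h).symm hpr
          · exact h
        · exact Or.inr
      unfold gg
      simp only [hc1, hc2]
      by_cases h : ZMod.castHom hr (ZMod r) a = 0
      · simp only [if_pos h, if_pos (hp0.2 h)]
        rw [← mul_sum, hh_dist' t t' hd'.symm s w, map_mul, map_natCast]
      · have h' : ¬ ZMod.castHom hr (ZMod r) ((p : ZMod m) * a) = 0 := fun h' => h (hp0.1 h')
        simp only [if_neg h, if_neg h']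
        rw [sum_sub_distrib, hh_dist' t t' hd'.symm s w, map_mul, map_natCast]
        congr 1
        have h3 := hh_dist' t t' hd'.symm (s * w) w (ZMod.castHom hn (ZMod n) a)
        simp only [Units.val_mul, hw, mul_assoc] at h3 ⊢
        rw [h3]

end

end FhAux

open FhAux in
theorem fh : S_fh := by
  intro r n f m _ hrp hrn hr2 hno hn1 hf hrf hm x hx t t' k hk
  have : NeZero n := ⟨by omega⟩
  have : NeZero r := ⟨hrp.ne_zero⟩
  have hr : r ∣ m := ⟨n, hm.symm⟩
  have hn : n ∣ m := ⟨r, by rw [← hm, mul_comm]⟩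
  have hcop : Nat.Coprime r n := (Nat.Prime.coprime_iff_not_dvd hrp).2 hrn
  obtain ⟨w, hw⟩ : ∃ w : (ZMod n)ˣ, (w : ZMod n) = (r : ZMod n) :=
    ⟨ZMod.unitOfCoprime r hcop, ZMod.coe_unitOfCoprime r hcop⟩
  have hφ : ∀ z : ZMod m, (z.val : ZMod n) = ZMod.castHom hn (ZMod n) z := by
    intro z
    rw [ZMod.castHom_apply, ZMod.natCast_val]
  have hρ : ∀ z : ZMod m, (z.val : ZMod r) = ZMod.castHom hr (ZMod r) z := by
    intro z
    rw [ZMod.castHom_apply, ZMod.natCast_val]
  obtain ⟨φ, hφ'⟩ : ∃ φ : ZMod m → ZMod n, φ = fun z => ZMod.castHom hn (ZMod n) z := ⟨_, rfl⟩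
  obtain ⟨ρ, hρ'⟩ : ∃ ρ : ZMod m → ZMod r, ρ = fun z => ZMod.castHom hr (ZMod r) z := ⟨_, rfl⟩
  -- relation for each power
  have hrel : ∀ j : ℕ, ((r : ℤ) - 1) * ∑ z, x z * hh t t' ((r : ZMod n) ^ j * φ z) =
      ∑ z, if ρ z = 0 then 0 else x z * ((r : ℤ) * hh t t' ((r : ZMod n) ^ j * φ z) -
        hh t t' ((r : ZMod n) ^ (j + 1) * φ z)) := by
    intro j
    have h1 := H916K.rel_int hx (gg_odd hrp hrn hr2 hno hm hr hn t t' (w ^ j))
    have h2 : (∑ z, (if ρ z = 0 then 0 else x z * ((r : ℤ) * hh t t' ((r : ZMod n) ^ j * φ z) -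
        hh t t' ((r : ZMod n) ^ (j + 1) * φ z)))) + ∑ z, x z * gg hr hn t t' (w ^ j) z =
        ((r : ℤ) - 1) * ∑ z, x z * hh t t' ((r : ZMod n) ^ j * φ z) := by
      rw [← sum_add_distrib, mul_sum]
      refine sum_congr rfl fun z _ => ?_
      unfold gg
      rw [Units.val_pow_eq_pow_val, hw]
      simp only [hφ', hρ', pow_succ, mul_assoc]
      split_ifs
      · ring
      · ring
    rw [h1, add_zero] at h2
    exact h2.symm
  -- telescoping
  obtain ⟨S, hS⟩ : ∃ S : ℤ, S = ∑ z, x z * ∑ j ∈ range f, (r : ℤ) ^ (f - j) *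
    hh t t' ((r : ZMod n) ^ j * φ z) := ⟨_, rfl⟩
  have hFH : FH r n x t t' = ∑ z, if ρ z = 0 then 0 else x z * hh t t' (φ z) := by
    unfold FH
    refine sum_congr rfl fun z _ => ?_
    rw [hρ, hφ]
    simp only [hφ', hρ', hh]
  have hSr : ((r : ℤ) - 1) * S = r * ((r : ℤ) ^ f - 1) * FH r n x t t' := by
    have h1 : ((r : ℤ) - 1) * S = ∑ j ∈ range f, (r : ℤ) ^ (f - j) *
        (((r : ℤ) - 1) * ∑ z, x z * hh t t' ((r : ZMod n) ^ j * φ z)) := by
      rw [hS]
      simp only [mul_sum]
      rw [sum_comm]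
      refine sum_congr rfl fun j _ => sum_congr rfl fun z _ => ?_
      ring
    rw [h1, sum_congr rfl fun j _ => by rw [hrel j]]
    simp only [mul_sum]
    rw [sum_comm, hFH, mul_sum]
    refine sum_congr rfl fun z _ => ?_
    by_cases hz : ρ z = 0
    · simp only [if_pos hz, mul_zero, sum_const_zero]
    · simp only [if_neg hz]
      have h2 : ∀ g : ℕ, g ≤ f → ∑ j ∈ range g, (r : ℤ) ^ (f - j) *
          (x z * ((r : ℤ) * hh t t' ((r : ZMod n) ^ j * φ z) -
            hh t t' ((r : ZMod n) ^ (j + 1) * φ z))) =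
          x z * ((r : ℤ) ^ (f + 1) * hh t t' (φ z) -
            (r : ℤ) ^ (f + 1 - g) * hh t t' ((r : ZMod n) ^ g * φ z)) := by
        intro g
        induction g with
        | zero =>
          intro _
          rw [range_zero, sum_empty, pow_zero, one_mul, Nat.sub_zero, sub_self, mul_zero]
        | succ g ih =>
          intro hg
          rw [sum_range_succ, ih (by omega)]
          have e1 : f + 1 - g = (f - g) + 1 := by omega
          have e2 : f + 1 - (g + 1) = f - g := by omega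
          rw [e1, e2, pow_succ (r : ℤ) (f - g)]
          ring
      rw [h2 f le_rfl, hrf, one_mul]
      have e3 : f + 1 - f = 1 := by omega
      rw [e3]
      ring
  -- the divisibility
  have hdvd : (((r ^ f - 1 : ℕ) : ℤ)) ∣ k * S := by
    rw [← ZMod.intCast_zmod_eq_zero_iff_dvd]
    rw [← hk]
    push_cast
    rw [zsmul_eq_mul, hS]
    congr 1
    push_cast
    refine sum_congr rfl fun z _ => ?_
    rw [zsmul_eq_mul]
    congr 1
    unfold DD
    refine sum_congr rfl fun j _ => ?_
    congr 1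
    unfold hh
    rw [hφ]
    simp only [hφ']
    push_cast
    rfl
  have hcast : ((r ^ f - 1 : ℕ) : ℤ) = (r : ℤ) ^ f - 1 := by
    rw [Nat.cast_sub (Nat.one_le_pow _ _ hrp.pos)]
    push_cast
    ring
  rw [hcast] at hdvd
  have hne : (r : ℤ) ^ f - 1 ≠ 0 := by
    have h1 : 1 < (r : ℤ) ^ f := one_lt_pow₀ (by exact_mod_cast hrp.one_lt) hf.ne'
    omega
  have h5 : ((r : ℤ) ^ f - 1) * ((r : ℤ) - 1) ∣ ((r : ℤ) ^ f - 1) * (k * r * FH r n x t t') := by
    have h6 : ((r : ℤ) ^ f - 1) * (k * r * FH r n x t t') = (k * S) * ((r : ℤ) - 1) := by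
      linear_combination -k * hSr
    rw [h6]
    exact mul_dvd_mul_right hdvd _
  exact (mul_dvd_mul_iff_left hne).1 h5

end Pool.Agent.NH35.HG
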