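import Pool.Agent.NH35.HG.StmG
import Pool.Agent.NH35.HG.Gs
import Pool.Agent.H916K.Level

/-! Relations at the levels `p` and `p * q`. -/

set_option autoImplicit false

namespace Pool.Agent.NH35.HG

open Finset Pool.Agent.H916R2 Pool.Agent.H916K

/-- distributions of prime level: the test functions `δ_v - δ_{-v}` -/
private lemma test_dist {p : ℕ} [hp : Fact p.Prime] (v : ZMod p) (hv : v ≠ 0) :
    OddDist (fun a : ZMod p => dl v a - dl (-v) a) where
  neg := fun a => by
    simp only [dl_neg, neg_neg]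
    ring
  half := fun a ha => by
    have h1 : a = -a := eq_neg_of_add_eq_zero_left ha
    have h2 : dl v a = dl (-v) a := by
      conv_lhs => rw [h1]
      exact dl_neg v a
    rw [h2, sub_self]
  dist := fun l d hl hd a => by
    have hlp : l = p := (Nat.prime_dvd_prime_iff_eq hl hp.out).mp (by rw [← hd]; exact dvd_mul_right l d)
    subst hlp
    have hd1 : d = 1 := Nat.eq_of_mul_eq_mul_left hl.pos (by rw [hd, mul_one])
    subst hd1
    have h1 := sum_range_shift (n := l) (fun a : ZMod l => dl v a - dl (-v) a) a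
      (k := ((1 : ℕ) : ZMod l)) (by simp)
    rw [h1, sum_sub_distrib, sum_dl, sum_dl, sub_self]
    simp [dl_zero hv, dl_zero (neg_ne_zero.mpr hv)]

theorem one : S_one := by
  intro p hp hp2 x hx Q _ c hc
  have hsym : ∀ v, v ≠ 0 → x v = x (-v) := by
    intro v hv
    have h1 := rel_int hx (test_dist v hv)
    simp only [mul_sub, sum_sub_distrib, sum_mul_dl] at h1
    linarith
  have h0 : c 0 = 0 := hc.half 0 (by simp)
  rw [← add_sum_erase _ _ (mem_univ (0 : ZMod p)), h0, smul_zero, zero_add,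
    (half_HS hp2).sum_all]
  refine sum_eq_zero fun u hu => ?_
  rw [hc.neg, smul_neg, ← hsym u ((half_HS hp2).ne u hu), add_neg_cancel]

variable {p q : ℕ} [hp : Fact p.Prime] [hq : Fact q.Prime]

private lemma row_sum {x : ZMod p → ZMod q → ℤ} (hx : Rel2 x) {a : ZMod p} (ha : a ≠ 0) :
    2 * (∑ v ∈ univ.erase (0 : ZMod q), x a v - ∑ v ∈ univ.erase (0 : ZMod q), x (-a) v) =
      ((q : ℤ) - 1) * AA x a := by
  classical
  have hcardq : ((univ.erase (0 : ZMod q)).card : ℤ) = (q : ℤ) - 1 := by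
    rw [card_erase_of_mem (mem_univ _), card_univ, ZMod.card,
      Nat.cast_sub (Fact.out : q.Prime).one_lt.le]
    simp
  have hnegsum : ∀ F : ZMod q → ℤ, ∑ v ∈ univ.erase (0 : ZMod q), F v =
      ∑ v ∈ univ.erase (0 : ZMod q), F (-v) := by
    intro F
    refine sum_bij' (fun v _ => -v) (fun v _ => -v) ?_ ?_ ?_ ?_ ?_
    · intro v hv; exact mem_erase.mpr ⟨neg_ne_zero.mpr (ne_of_mem_erase hv), mem_univ _⟩
    · intro v hv; exact mem_erase.mpr ⟨neg_ne_zero.mpr (ne_of_mem_erase hv), mem_univ _⟩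
    · intro v _; exact neg_neg v
    · intro v _; exact neg_neg v
    · intro v _; rw [neg_neg]
  have hB : ∑ v ∈ univ.erase (0 : ZMod q), BB x v = 0 := by
    have h8 := hnegsum (fun v => BB x v)
    have h9 : ∑ v ∈ univ.erase (0 : ZMod q), BB x (-v) = - ∑ v ∈ univ.erase (0 : ZMod q), BB x v := by
      rw [← sum_neg_distrib]
      exact sum_congr rfl fun v _ => BB_neg x v
    linarith
  have hY : ∑ v ∈ univ.erase (0 : ZMod q), x a v - ∑ v ∈ univ.erase (0 : ZMod q), x (-a) v =
      ∑ v ∈ univ.erase (0 : ZMod q), yy x a v := by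
    rw [hnegsum (fun v => x (-a) v), ← sum_sub_distrib]
    rfl
  rw [hY, mul_sum, sum_congr rfl fun v hv => two_yy hx ha (ne_of_mem_erase hv), sum_add_distrib, hB,
    sum_const, nsmul_eq_mul, hcardq]
  ring

private lemma fh_two (hpq : p ≠ q) (x : ZMod (p * q) → ℤ) (t t' : (ZMod p)ˣ) :
    FH q p x t t' = ∑ u : ZMod p, (∑ v ∈ univ.erase (0 : ZMod q), two hpq x u v) *
      ((((t : ZMod p) * u).val : ℤ) - (((t' : ZMod p) * u).val : ℤ)) := by
  classical
  unfold FH
  rw [sum_two hpq]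
  refine sum_congr rfl fun u _ => ?_
  rw [← add_sum_erase _ _ (mem_univ (0 : ZMod q)), sum_mul]
  have hco : ∀ v : ZMod q, (((((ee hpq).symm (u, v)).val : ℕ) : ZMod p) = u) ∧
      (((((ee hpq).symm (u, v)).val : ℕ) : ZMod q) = v) := by
    intro v
    have h1 := ee_natCast hpq ((ee hpq).symm (u, v)).val
    rw [ZMod.natCast_zmod_val, RingEquiv.apply_symm_apply] at h1
    exact ⟨(congrArg Prod.fst h1).symm, (congrArg Prod.snd h1).symm⟩
  have h0 : two hpq (fun z : ZMod (p * q) => if (z.val : ZMod q) = 0 then 0 else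
      x z * ((((t : ZMod p) * (z.val : ZMod p)).val : ℤ) -
        (((t' : ZMod p) * (z.val : ZMod p)).val : ℤ))) u 0 = 0 := by
    unfold two
    simp only [(hco 0).2, if_true]
  rw [h0, zero_add]
  refine sum_congr rfl fun v hv => ?_
  unfold two
  simp only [(hco v).2, (hco v).1]
  rw [if_neg (ne_of_mem_erase hv)]

theorem two : S_two := by
  intro p q hp hq hnz hp2 hq2 hpq x hx hcr Q _ c hc
  classical
  rw [sum_two hpq]
  have hX := rel_two hpq hx
  set X := H916K.two hpq x with hXdef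
  have h11 : ∀ u v, u ≠ 0 → v ≠ 0 → (2 ∣ AA X u ↔ 2 ∣ BB X v) := by
    intro u v hu hv
    have := two_yy hX hu hv
    omega
  by_cases h : 2 ∣ AA X 1
  · have hB : ∀ v, v ≠ 0 → 2 ∣ BB X v := fun v hv => (h11 1 v one_ne_zero hv).mp h
    exact even_case hp2 hq2 hpq hX (fun u hu => (h11 u 1 hu one_ne_zero).mpr (hB 1 one_ne_zero)) hB
      (two_d2 hpq hc)
  · exfalso
    have hodd : ∀ u, u ≠ 0 → ¬ 2 ∣ AA X u := by
      intro u hu h1
      exact h ((h11 1 1 one_ne_zero one_ne_zero).mpr ((h11 u 1 hu one_ne_zero).mp h1))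
    have hrc : ringChar (ZMod p) ≠ 2 := by
      rw [ZMod.ringChar_zmod_n]; exact hp2
    obtain ⟨a, ha⟩ := FiniteField.exists_nonsquare hrc
    have ha0 : a ≠ 0 := by
      rintro rfl
      exact ha (IsSquare.zero)
    obtain ⟨k, hk, hdvd⟩ := hcr (Units.mk0 a ha0) 1
    rw [fh_two hpq x (Units.mk0 a ha0) 1] at hdvd
    simp only [Units.val_mk0, Units.val_one, one_mul] at hdvd
    set h' : ZMod p → ℤ := fun u => ((a * u).val : ℤ) - (u.val : ℤ) with hh
    set X1 : ZMod p → ℤ := fun u => ∑ v ∈ univ.erase (0 : ZMod q), X u v with hX1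
    have hh0 : h' 0 = 0 := by simp [hh]
    have hhn : ∀ u, h' (-u) = - h' u := by
      intro u
      by_cases hu : u = 0
      · rw [hu, neg_zero, hh0, neg_zero]
      · have e1 : ((-u).val : ℤ) = p - u.val := by
          rw [ZMod.neg_val, if_neg hu, Nat.cast_sub (ZMod.val_lt u).le]
        have hau : a * u ≠ 0 := mul_ne_zero ha0 hu
        have e2 : ((-(a * u)).val : ℤ) = p - (a * u).val := by
          rw [ZMod.neg_val, if_neg hau, Nat.cast_sub (ZMod.val_lt _).le]
        simp only [hh, mul_neg, e1, e2]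
        ring
    have hsum : 2 * ∑ u : ZMod p, X1 u * h' u = ((q : ℤ) - 1) * ∑ u ∈ HS p, AA X u * h' u := by
      rw [← add_sum_erase _ _ (mem_univ (0 : ZMod p)), hh0, mul_zero, zero_add,
        (half_HS hp2).sum_all, mul_sum, mul_sum]
      refine sum_congr rfl fun u hu => ?_
      have h2 := row_sum hX ((half_HS hp2).ne u hu)
      rw [hhn]
      have h3 : ((q : ℤ) - 1) * (AA X u * h' u) = (((q : ℤ) - 1) * AA X u) * h' u := by ring
      rw [h3, ← h2]
      simp only [hX1]
      ring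
    obtain ⟨e, he⟩ := hdvd
    have hq1 : ((q : ℤ) - 1) ≠ 0 := by
      have := (Fact.out : q.Prime).one_lt
      omega
    have h4 : k * ∑ u ∈ HS p, AA X u * h' u = 2 * e := by
      apply mul_left_cancel₀ hq1
      have : k * (2 * ∑ u : ZMod p, X1 u * h' u) = 2 * (((q : ℤ) - 1) * e) := by
        rw [← he]; ring
      rw [hsum] at this
      linarith
    have h5 : (2 : ℤ) ∣ ∑ u ∈ HS p, AA X u * h' u := by
      have h6 : Even (k * ∑ u ∈ HS p, AA X u * h' u) := by
        rw [h4]; exact even_two_mul e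
      rcases Int.even_mul.mp h6 with h7 | h7
      · exact absurd h7 (Int.not_even_iff_odd.mpr hk)
      · exact h7.two_dvd
    apply gauss_odd hp2 ha
    have h6 : ∑ u ∈ HS p, h' u = ∑ u ∈ HS p, AA X u * h' u - ∑ u ∈ HS p, (AA X u - 1) * h' u := by
      rw [← sum_sub_distrib]
      exact sum_congr rfl fun u _ => by ring
    have h7 : (2 : ℤ) ∣ ∑ u ∈ HS p, (AA X u - 1) * h' u := by
      refine dvd_sum fun u hu => ?_
      have := hodd u ((half_HS hp2).ne u hu)
      exact Dvd.dvd.mul_right (by omega) _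
    show (2 : ℤ) ∣ ∑ u ∈ HS p, h' u
    rw [h6]
    exact dvd_sub h5 h7

end Pool.Agent.NH35.HG
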