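import Pool.Agent.NH35.HG.StmN
import Pool.Agent.H916K.Double
import Pool.Agent.H916K.Stick

/-! The main theorem from its parts. -/

set_option autoImplicit false
set_option linter.unusedSectionVars false

namespace Pool.Agent.NH35.HG

open Finset Pool.Agent.H916R2 Pool.Agent.H916K

theorem dbl_sum {m : ℕ} [NeZero m] (hm : Odd m) {Q : Type} [AddCommGroup Q]
    {c : ZMod (2 * m) → Q} (hc : OddDist c) (z : ZMod (2 * m)) :
    ((dbl z).map fun v => c (iota 2 v)).sum = c z := by
  have : NeZero (2 * m) := ⟨by have := NeZero.ne m; omega⟩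
  have hev : ∀ k : ℕ, (iota 2 ((k : ℕ) : ZMod m) : ZMod (2 * m)) = ((2 * k : ℕ) : ZMod (2 * m)) := by
    intro k; rw [iota_natCast rfl]
  unfold dbl
  split_ifs with h
  · rw [Multiset.map_singleton, Multiset.sum_singleton, hev]
    obtain ⟨k, hk⟩ := h
    have e : 2 * (z.val / 2) = z.val := by omega
    rw [e, ZMod.natCast_zmod_val]
  · rw [Nat.not_even_iff_odd] at h
    obtain ⟨k, hk⟩ := h
    obtain ⟨j, hj⟩ := hm
    have hins : ∀ a b : ZMod m, (({a, b} : Multiset (ZMod m)).map fun v => c (iota 2 v)).sum =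
        c (iota 2 a) + c (iota 2 b) := by
      intro a b
      simp
    rw [hins, iota_neg rfl, hc.neg, hev, hev]
    have h2 := hc.dist 2 m Nat.prime_two rfl z
    rw [sum_range_succ, sum_range_one] at h2
    have h3 : z + ((0 : ℕ) : ZMod (2 * m)) * (m : ZMod (2 * m)) = z := by push_cast; ring
    have h4 : z + ((1 : ℕ) : ZMod (2 * m)) * (m : ZMod (2 * m)) =
        ((2 * ((z.val + m) / 2) : ℕ) : ZMod (2 * m)) := by
      have e : 2 * ((z.val + m) / 2) = z.val + m := by omega
      rw [e]
      push_cast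
      rw [ZMod.natCast_zmod_val]; ring
    have h5 : ((2 : ℕ) : ZMod (2 * m)) * z = ((2 * z.val : ℕ) : ZMod (2 * m)) := by
      push_cast; rw [ZMod.natCast_zmod_val]
    rw [h3, h4, h5] at h2
    rw [← h2]; abel

theorem dbl_sum' {m : ℕ} [NeZero m] (hm : Odd m) {Q : Type} [AddCommGroup Q]
    {c : ZMod (2 * m) → Q} (hc : OddDist c) (s : Multiset (ZMod (2 * m))) :
    ((s.bind dbl).map fun v => c (iota 2 v)).sum = (s.map c).sum := by
  induction s using Multiset.induction_on with
  | empty => simp
  | cons a s ih =>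
      rw [Multiset.cons_bind, Multiset.map_add, Multiset.sum_add, ih, dbl_sum hm hc,
        Multiset.map_cons, Multiset.sum_cons]

theorem dbl_rel {m : ℕ} [NeZero m] (hm : Odd m) {s : Multiset (ZMod (2 * m))}
    (hs : IsHodge (2 * m) s) : Rel (fun v => ((s.bind dbl).count v : ℤ)) := by
  classical
  have : NeZero (2 * m) := ⟨by have := NeZero.ne m; omega⟩
  intro t'
  have hdvd : m ∣ 2 * m := Dvd.intro_left 2 rfl
  obtain ⟨t, ht⟩ := ZMod.unitsMap_surjective hdvd t'
  have hodd : OddDist (fun a : ZMod (2 * m) => saw ((t : ZMod (2 * m)) * a)) := by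
    refine ⟨?_, ?_, ?_⟩
    · intro a; simp only [mul_neg, saw_neg]
    · intro a ha
      apply saw_half
      rw [← mul_add, ha, mul_zero]
    · intro p d _ hpd a
      exact saw_dist_unit hpd t a
  have h1 := dbl_sum' hm hodd s
  have h2 : (s.map fun a => saw ((t : ZMod (2 * m)) * a)).sum = 0 := hs.saw_sum t
  rw [h2] at h1
  have h3 : ∀ b : ZMod m, saw ((t : ZMod (2 * m)) * iota 2 b) = 2 * saw ((t' : ZMod m) * b) := by
    intro b
    have h4 := saw_iota (k := 2) (m0 := m) (m := 2 * m) rfl ((t' : ZMod m) * b)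
    push_cast at h4
    rw [← h4]
    congr 1
    have ht' : (t' : ZMod m) = (((t : ZMod (2 * m)).val : ℕ) : ZMod m) := by
      rw [← ht, ZMod.unitsMap_val]
      rw [ZMod.natCast_val]
    rw [ht', iota_natMul rfl, ZMod.natCast_zmod_val]
  simp only [h3] at h1
  have h5 : (∑ a, ((s.bind dbl).count a : ℤ) * (2 * saw ((t' : ZMod m) * a)) : ℤ) = 0 := by
    rw [← h1, ← sum_count]
    simp only [smul_eq_mul]
  have h6 : (2 : ℤ) * ∑ a, ((s.bind dbl).count a : ℤ) * saw ((t' : ZMod m) * a) = 0 := by
    rw [mul_sum, ← h5]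
    refine sum_congr rfl fun a _ => ?_
    ring
  exact (mul_eq_zero.mp h6).resolve_left (by norm_num)

/-- **The main theorem.** -/
theorem main_of (h1 : S_weak1) (h2 : S_weak2) (hA : S_thmA) (hC : S_core) {m : ℕ} (hm2 : 2 ≤ m)
    (h4 : ¬ 4 ∣ m) (hc : (m.primeFactors.erase 2).card ≤ 3)
    {s : Multiset (ZMod m × ℤ)} (hs : s ≠ 0) (heven : Even (Multiset.card s))
    (h0 : ∀ z ∈ s, z.1 ≠ 0 ∧ z.2 ≠ 0) (hsum : (s.map Prod.fst).sum = 0)
    (hR : RationalClass m s) : Generated m (fun _ => False) (s.map Prod.fst) := by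
  classical
  have hH := hodge_of_rational hm2 (fun z hz => (h0 z hz).1) heven hsum (fun z hz => (h0 z hz).2) hR
  have hne : s.map Prod.fst ≠ 0 := fun h => hs (Multiset.map_eq_zero.mp h)
  have : NeZero m := ⟨by omega⟩
  have key : ∑ z : ZMod m, ((s.map Prod.fst).count z : ℤ) • cQ m (fun _ => False) z = 0 := by
    rcases Nat.even_or_odd' m with ⟨n, hn | hn⟩
    · subst hn
      have hnodd : Odd n := by
        by_contra h
        rw [Nat.not_odd_iff_even] at h
        obtain ⟨j, hj⟩ := h
        exact h4 ⟨j, by omega⟩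
      have hcQ := cQ_oddDist (m := 2 * n) (base := fun _ => False)
      have hn0 : NeZero n := ⟨by omega⟩
      rw [sum_count, ← dbl_sum' hnodd hcQ]
      by_cases hn1 : n = 1
      · subst hn1
        rw [← sum_count]
        refine sum_eq_zero fun z _ => ?_
        have e : z = 0 := Subsingleton.elim (α := ZMod 1) _ _
        rw [e, iota_zero, hcQ.half 0 (by simp), smul_zero]
      · have hw := h2 n hnodd (by omega) s heven h0 hsum hR
        have hcard : n.primeFactors.card ≤ 3 := by
          refine le_trans (card_le_card ?_) hc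
          intro p hp
          rw [mem_erase, Nat.mem_primeFactors]
          have hp' := Nat.mem_primeFactors.1 hp
          refine ⟨?_, hp'.1, hp'.2.1.mul_left 2, by omega⟩
          rintro rfl
          exact (Nat.not_even_iff_odd.2 hnodd) (even_iff_two_dvd.2 hp'.2.1)
        have hcd := hA n hnodd hcard _ hw
        have h5 := hC n hnodd hcard _ (dbl_rel hnodd hH) hcd (hcQ.comp_iota rfl)
        rw [← sum_count]
        exact h5
    · have hodd : Odd m := ⟨n, hn⟩
      have hcard : m.primeFactors.card ≤ 3 := by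
        refine le_trans (card_le_card ?_) hc
        intro p hp
        rw [mem_erase]
        refine ⟨?_, hp⟩
        rintro rfl
        have hp' := Nat.mem_primeFactors.1 hp
        exact (Nat.not_even_iff_odd.2 hodd) (even_iff_two_dvd.2 hp'.2.1)
      have hw := h1 m hodd (by omega) s heven h0 hR
      exact hC m hodd hcard _ hH.rel (hA m hodd hcard _ hw) cQ_oddDist
  rw [sum_count, cQ_sum, QuotientAddGroup.eq_zero_iff] at key
  exact generated_of_mem_LL (fun _ h => h.elim) (fun _ h => h.elim) hH.1 hH.2.1 hne key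

end Pool.Agent.NH35.HG
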