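import Pool.Agent.NH35.HG.OddS
import Pool.Agent.NH35.HE.Gp

/-! Roots of unity: from odd powers to the odd part of `m`. -/

set_option autoImplicit false
set_option linter.unusedSectionVars false

namespace Pool.Agent.NH35.HG

open Finset Pool.Agent.H916R2 Pool.Agent.H916K NumberField
open Pool.Agent.NH35.HE (mon gl yj gp gp_inj)

private lemma odd_prod_neg {α R : Type} [CommRing R] (s : Multiset α) (g : α → R) :
    (s.map fun z => -g z).prod = (-1) ^ Multiset.card s * (s.map g).prod := by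
  induction s using Multiset.induction_on with
  | empty => simp
  | cons a s ih =>
    rw [Multiset.map_cons, Multiset.prod_cons, ih, Multiset.card_cons, Multiset.map_cons,
      Multiset.prod_cons, pow_succ]
    ring

/-- characters of the same order are powers of each other -/
theorem char_pow {F : Type} [Field F] [Fintype F] {m : ℕ} (hm : 0 < m) {χ χ0 : MulChar F ℂ}
    (h : orderOf χ = m) (h0 : orderOf χ0 = m) : ∃ j : ℕ, χ = χ0 ^ j := by
  classical
  obtain ⟨g, hg⟩ := IsCyclic.exists_monoid_generator (α := Fˣ)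
  have hpow : ∀ (φ : MulChar F ℂ) (j : ℕ) (x : Fˣ), (φ ^ j) (x : F) = φ (x : F) ^ j :=
    fun φ j x => MulChar.pow_apply_coe φ j x
  have hev : ∀ (φ : MulChar F ℂ) (i : ℕ), φ ((g ^ i : Fˣ) : F) = φ (g : F) ^ i := by
    intro φ i
    rw [Units.val_pow_eq_pow_val, map_pow]
  have hm1 : ∀ φ : MulChar F ℂ, orderOf φ = m → φ (g : F) ^ m = 1 := by
    intro φ hφ
    rw [← hpow, ← hφ, pow_orderOf_eq_one, MulChar.one_apply_coe]
  have hprim : IsPrimitiveRoot (χ0 (g : F)) m := by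
    refine ⟨hm1 χ0 h0, fun l hl => ?_⟩
    rw [← h0]
    apply orderOf_dvd_of_pow_eq_one
    ext x
    obtain ⟨i, hi⟩ := hg x
    simp only at hi
    rw [hpow, ← hi, hev, MulChar.one_apply_coe, ← pow_mul, mul_comm, pow_mul, hl, one_pow]
  have : NeZero m := ⟨hm.ne'⟩
  obtain ⟨j, _, hj⟩ := hprim.eq_pow_of_pow_eq_one (hm1 χ h)
  refine ⟨j, ?_⟩
  ext x
  obtain ⟨i, hi⟩ := hg x
  simp only at hi
  rw [hpow, ← hi, hev, hev, ← hj, ← pow_mul, ← pow_mul, mul_comm]

theorem odd_core {m : ℕ} [NeZero m] (K : Type) [Field K] [NumberField K]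
    [IsCyclotomicExtension {m} ℚ K] (hm : 2 < m) {s : Multiset (ZMod m × ℤ)}
    (heven : Even (Multiset.card s)) (hne : ∀ z ∈ s, z.1 ≠ 0 ∧ z.2 ≠ 0)
    (hsum : (s.map Prod.fst).sum = 0) {k e mo : ℕ} (hk : Odd k)
    (hme : m = 2 ^ e * mo) {ℓ : ℕ} (hℓN : 2 + (s.map fun z => z.2.natAbs).sum < ℓ)
    (hℓ : ℓ.Prime) (hℓm : ℓ ≡ 1 [MOD m]) {F : Type} [Field F] [Fintype F]
    (hF : Fintype.card F = ℓ) {χ : MulChar F ℂ} {ψ : AddChar F ℂ} (hχ : orderOf χ = m)
    (hψ : ψ ≠ 1)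
    (hR : (s.map fun z => gaussSum (χ ^ z.1.val) ψ).prod ^ k =
      ((ℓ : ℂ) ^ (Multiset.card s / 2) * (s.map fun z => (χ ^ z.1.val) (z.2 : F)).prod) ^ k) :
    (s.map fun z => gaussSum (χ ^ z.1.val) ψ).prod ^ mo =
      ((ℓ : ℂ) ^ (Multiset.card s / 2) * (s.map fun z => (χ ^ z.1.val) (z.2 : F)).prod) ^ mo := by
  classical
  have hFact : Fact ℓ.Prime := ⟨hℓ⟩
  have hchar : CharP F ℓ := charP_of_card_eq_prime hF
  let ι : K →+* ℂ := Classical.arbitrary (K →+* ℂ)
  let τ : 𝓞 K →+* ℂ := ι.comp (algebraMap (𝓞 K) K)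
  have hτ : Function.Injective τ := gp_inj m τ
  have hdvd : m ∣ Fintype.card F - 1 := by
    rw [hF]
    exact (Nat.modEq_iff_dvd' (by omega)).mp hℓm.symm
  obtain ⟨χ0, hχ0⟩ := MulChar.exists_mulChar_orderOf F hdvd (HD.zt_prim (m := m) (K := K))
  have hord : ∀ φ : MulChar F (𝓞 K), orderOf (φ.ringHomComp τ) = orderOf φ := fun φ =>
    orderOf_injective (MulChar.ringHomCompHom τ) (MulChar.injective_ringHomComp hτ) φ
  obtain ⟨j, hj⟩ := char_pow (by omega : 0 < m) hχ (by rw [hord, hχ0] : orderOf (χ0.ringHomComp τ) = m)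
  set χ' : MulChar F (𝓞 K) := χ0 ^ j with hχ'
  have hcomp : χ'.ringHomComp τ = χ := by rw [hχ', ← MulChar.ringHomComp_pow, ← hj]
  have hχ'o : orderOf χ' = m := by rw [← hord, hcomp, hχ]
  set L : List (ZMod m) := (s.map Prod.fst).toList with hL
  have hLc : (L : Multiset (ZMod m)) = s.map Prod.fst := Multiset.coe_toList _
  have hLs : L.sum = 0 := by
    rw [← Multiset.sum_coe, hLc]; exact hsum
  set y : 𝓞 K := mon (gl 0 L) (yj χ') with hy
  have hgp := gp m K hm F χ' hχ'o L hLs ℂ τ ψ hψ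
  rw [hcomp, ← Multiset.prod_coe, ← Multiset.map_coe, hLc, Multiset.map_map] at hgp
  have hA : τ y = (s.map fun z => gaussSum (χ ^ z.1.val) ψ).prod := by
    rw [hy, hgp]
    change (s.map fun z => -gaussSum (χ ^ z.1.val) ψ).prod = _
    rw [odd_prod_neg, heven.neg_one_pow, one_mul]
  set w : 𝓞 K := ((ℓ : ℕ) : 𝓞 K) ^ (Multiset.card s / 2) *
    (s.map fun z => (χ' ^ z.1.val) (z.2 : F)).prod with hw
  have hB : τ w = (ℓ : ℂ) ^ (Multiset.card s / 2) * (s.map fun z => (χ ^ z.1.val) (z.2 : F)).prod := by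
    rw [hw, map_mul, map_pow, map_natCast, map_multiset_prod, Multiset.map_map]
    congr 2
    refine Multiset.map_congr rfl fun z _ => ?_
    simp only [Function.comp]
    rw [← hcomp, MulChar.ringHomComp_pow, MulChar.ringHomComp_apply]
  have hw0 : w ≠ 0 := by
    rw [hw]
    apply mul_ne_zero (pow_ne_zero _ (by exact_mod_cast hℓ.ne_zero))
    rw [Ne, Multiset.prod_eq_zero_iff, Multiset.mem_map]
    rintro ⟨z, hz, hz0⟩
    have hzF : (z.2 : F) ≠ 0 := by
      apply int_cast_ne_zero (ℓ := ℓ) (hne z hz).2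
      have : z.2.natAbs ≤ (s.map fun z => z.2.natAbs).sum :=
        Multiset.single_le_sum (fun _ _ => Nat.zero_le _) _ (Multiset.mem_map_of_mem _ hz)
      omega
    have hu : IsUnit ((χ' ^ z.1.val) (z.2 : F)) := (isUnit_iff_ne_zero.2 hzF).map _
    exact hu.ne_zero hz0
  rw [← hA, ← hB, ← map_pow, ← map_pow] at hR
  have hyw : y ^ k = w ^ k := hτ hR
  have hwK : (w : K) ≠ 0 := by
    intro h0
    exact hw0 (RingOfIntegers.ext (by rw [h0]; rfl))
  have hZ : ((y : K) / (w : K)) ^ k = 1 := by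
    have h1 : (y : K) ^ k = (w : K) ^ k := by
      have := congrArg (algebraMap (𝓞 K) K) hyw
      rwa [map_pow, map_pow] at this
    rw [div_pow, h1, div_self (pow_ne_zero _ hwK)]
  set Z : K := (y : K) / (w : K) with hZd
  have hk0 : 0 < k := hk.pos
  have hd0 : orderOf Z ≠ 0 := by
    have : IsOfFinOrder Z := isOfFinOrder_iff_pow_eq_one.2 ⟨k, hk0, hZ⟩
    exact this.orderOf_pos.ne'
  have hdk : orderOf Z ∣ k := orderOf_dvd_of_pow_eq_one hZ
  have hdodd : Odd (orderOf Z) := Odd.of_dvd_nat hk hdk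
  have hd2 : orderOf Z ∣ 2 * m :=
    IsPrimitiveRoot.dvd_of_isCyclotomicExtension m (IsPrimitiveRoot.orderOf Z) hd0
  have hdmo : orderOf Z ∣ mo := by
    have h1 : orderOf Z ∣ 2 ^ (e + 1) * mo := by
      have : 2 * m = 2 ^ (e + 1) * mo := by
        conv_lhs => rw [hme]
        rw [pow_succ]; ring
      rwa [this] at hd2
    exact Nat.Coprime.dvd_of_dvd_mul_left
      (Nat.Coprime.pow_right _ (Nat.coprime_two_right.2 hdodd)) h1
  have hZmo : Z ^ mo = 1 := orderOf_dvd_iff_pow_eq_one.1 hdmo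
  have hfin : y ^ mo = w ^ mo := by
    have h1 : (y : K) ^ mo = (w : K) ^ mo := by
      rw [hZd, div_pow, div_eq_one_iff_eq (pow_ne_zero _ hwK)] at hZmo
      exact hZmo
    apply RingOfIntegers.ext
    push_cast
    exact h1
  have := congrArg τ hfin
  rwa [map_pow, map_pow, hA, hB] at this

theorem odd_field (n : ℕ) [NeZero n] : ∃ (K : Type) (_ : Field K) (_ : NumberField K),
    IsCyclotomicExtension {n} ℚ K := by
  refine ⟨CyclotomicField n ℚ, inferInstance, inferInstance, ?_⟩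
  have h : @IsCyclotomicExtension {n} ℚ (CyclotomicField n ℚ) _ _ (CyclotomicField.algebra n ℚ) :=
    inferInstance
  convert h
  exact Subsingleton.elim _ _

theorem odd_weak : S_odd := by
  intro m hm s heven hne hsum hO
  obtain ⟨M, N, k, hM, hk, h⟩ := hO
  have hm0 : NeZero m := ⟨by omega⟩
  obtain ⟨e, mo, hmo, hme⟩ := Nat.exists_eq_two_pow_mul_odd (n := m) (by omega)
  refine ⟨M * m, N + 2 + (s.map fun z => z.2.natAbs).sum, e, mo,
    Nat.mul_pos hM (by omega), hme, hmo, ?_⟩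
  intro ℓ hℓN hℓ hmod F _ _ hF χ ψ hχ hψ
  have hℓM : ℓ ≡ 1 [MOD M] := Nat.ModEq.of_mul_right _ hmod
  have hℓm : ℓ ≡ 1 [MOD m] := Nat.ModEq.of_mul_left _ hmod
  have hR := h ℓ (by omega) hℓ hℓM F hF χ ψ hχ hψ
  obtain ⟨K, _, _, _⟩ := odd_field m
  exact odd_core K hm heven hne hsum hk hme (by omega) hℓ hℓm hF hχ hψ hR

end Pool.Agent.NH35.HG
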