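import Pool.Agent.NH35.HG.Ab

/-! Classes which are rational over number fields of odd degree over an abelian number field:
statements. -/

set_option autoImplicit false
set_option linter.unusedSectionVars false

namespace Pool.Agent.NH35.HG

open Finset Pool.Agent.H916R2 Pool.Agent.H916K

/-- Let `X` be the diagonal hypersurface `c_0 * x_0 ^ m + ... + c_(n+1) * x_(n+1) ^ m = 0` of even
dimension `n` over the rational numbers, and `K` the field of `m`-th roots of unity. The multiset
`s` consists of the `n + 2` pairs `(a_i, c_i)` of an eigenline `V(a)` of the middle cohomology.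
The property says that for some `M > 0`, some odd `k` and all large primes `ℓ` congruent to `1`
modulo `M` the `k`-th powers of the Frobenius elements of the primes of `K` above `ℓ`, with residue
field `F` of `ℓ` elements, act trivially on `V(a)(n/2)`: the eigenvalue of the Frobenius on `V(a)` is
`ℓ⁻¹ * ∏ g(χ ^ a_i) / χ ^ a_i (c_i)` (Weil). It holds if the Galois group of a number field `L` which
contains `K` and is of odd degree over an abelian number field `L₀` acts trivially on `V(a)(n/2)`:
let `M` be divisible by `m` and by the conductor of `L₀`, and `k` the product of all odd numbers up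
to the degree of `L` over `L₀`. -/
def OddClass (m : ℕ) (s : Multiset (ZMod m × ℤ)) : Prop :=
  ∃ M N k : ℕ, 0 < M ∧ Odd k ∧ ∀ ℓ : ℕ, N < ℓ → ℓ.Prime → ℓ ≡ 1 [MOD M] →
    ∀ (F : Type) [Field F] [Fintype F], Fintype.card F = ℓ →
    ∀ (χ : MulChar F ℂ) (ψ : AddChar F ℂ), orderOf χ = m → ψ ≠ 1 →
    (s.map fun z => gaussSum (χ ^ z.1.val) ψ).prod ^ k =
      ((ℓ : ℂ) ^ (Multiset.card s / 2) * (s.map fun z => (χ ^ z.1.val) (z.2 : F)).prod) ^ k

/-- the same with `k` the odd part of `m` -/
def WeakClass (m : ℕ) (s : Multiset (ZMod m × ℤ)) : Prop :=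
  ∃ M N e mo : ℕ, 0 < M ∧ m = 2 ^ e * mo ∧ Odd mo ∧ ∀ ℓ : ℕ, N < ℓ → ℓ.Prime → ℓ ≡ 1 [MOD M] →
    ∀ (F : Type) [Field F] [Fintype F], Fintype.card F = ℓ →
    ∀ (χ : MulChar F ℂ) (ψ : AddChar F ℂ), orderOf χ = m → ψ ≠ 1 →
    (s.map fun z => gaussSum (χ ^ z.1.val) ψ).prod ^ mo =
      ((ℓ : ℂ) ^ (Multiset.card s / 2) * (s.map fun z => (χ ^ z.1.val) (z.2 : F)).prod) ^ mo

/-- (O) the normalised product of the Gauss sums is in the field of `m`-th roots of unity -/
def S_odd : Prop := ∀ m : ℕ, 2 < m → ∀ s : Multiset (ZMod m × ℤ), Even (Multiset.card s) →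
  (∀ z ∈ s, z.1 ≠ 0 ∧ z.2 ≠ 0) → (s.map Prod.fst).sum = 0 → OddClass m s → WeakClass m s

end Pool.Agent.NH35.HG
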