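import Pool.Agent.H916R2.Descent

/-! Statements of the project on diagonal hypersurfaces: combinatorial part. -/

set_option autoImplicit false

namespace Pool.Agent.NH35.HG

open Finset Pool.Agent.H916R2

/-- the digit distribution attached to a prime `r`, the level `n` and two units -/
def DD (r n f : ℕ) {m : ℕ} (t t' : (ZMod n)ˣ) (z : ZMod m) : ZMod (r ^ f - 1) :=
  ∑ j ∈ range f, (r : ZMod (r ^ f - 1)) ^ (f - j) *
    ((((t : ZMod n) * ((r : ZMod n) ^ j * (z.val : ZMod n))).val : ZMod (r ^ f - 1)) -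
      (((t' : ZMod n) * ((r : ZMod n) ^ j * (z.val : ZMod n))).val : ZMod (r ^ f - 1)))

/-- the integral sum over the entries whose component at `r` does not vanish -/
def FH (r n : ℕ) {m : ℕ} [NeZero m] (x : ZMod m → ℤ) (t t' : (ZMod n)ˣ) : ℤ :=
  ∑ z : ZMod m, if (z.val : ZMod r) = 0 then 0 else
    x z * ((((t : ZMod n) * (z.val : ZMod n)).val : ℤ) - (((t' : ZMod n) * (z.val : ZMod n)).val : ℤ))

/-- the criterion in terms of the digit distributions, for all prime divisors `r` of `m` -/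
def CD (m : ℕ) [NeZero m] (x : ZMod m → ℤ) : Prop :=
  ∀ r a n : ℕ, r.Prime → 0 < a → ¬ r ∣ n → r ^ a * n = m → 1 < n → ∀ t t' : (ZMod n)ˣ,
    ∃ k : ℤ, Odd k ∧ k • ∑ z : ZMod m, x z • DD r n (orderOf (r : ZMod n)) t t' z = 0

/-- the criterion at squarefree level -/
def CR (r n : ℕ) {m : ℕ} [NeZero m] (x : ZMod m → ℤ) : Prop :=
  ∀ t t' : (ZMod n)ˣ, ∃ k : ℤ, Odd k ∧ ((r : ℤ) - 1) ∣ k * FH r n x t t'

/-- (G0a) the digit distribution is an odd distribution -/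
def S_dd : Prop := ∀ (r a n f m : ℕ), r.Prime → 0 < a → ¬ r ∣ n → r ^ a * n = m → Odd m →
  0 < f → (r : ZMod n) ^ f = 1 → ∀ t t' : (ZMod n)ˣ, OddDist (DD r n f (m := m) t t')

/-- (G0b) the digit distribution on a lower level -/
def S_iota : Prop := ∀ (r a n n0 f k m m0 : ℕ), r.Prime → 0 < a → ¬ r ∣ n → Odd n → 0 < f →
  (r : ZMod n) ^ f = 1 → r ^ a * n = m → r * n0 = m0 → k * m0 = m →
  ∀ (hd : n0 ∣ n) (t t' : (ZMod n)ˣ),
  ∃ k' : ℤ, Odd k' ∧ ∃ u : (ZMod (r ^ f - 1))ˣ, ∀ b : ZMod m0,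
    DD r n f t t' (iota k b : ZMod m) =
      (u : ZMod (r ^ f - 1)) * (k' • DD r n0 f (ZMod.unitsMap hd t) (ZMod.unitsMap hd t') b)

/-- (G0c) the digit sum in terms of `FH` -/
def S_fh : Prop := ∀ (r n f m : ℕ) [NeZero m], r.Prime → ¬ r ∣ n → r ≠ 2 → Odd n → 1 < n →
  0 < f → (r : ZMod n) ^ f = 1 → r * n = m → ∀ x : ZMod m → ℤ, Rel x → ∀ t t' : (ZMod n)ˣ,
  ∀ k : ℤ, k • ∑ b : ZMod m, x b • DD r n f t t' b = 0 →
    ((r : ℤ) - 1) ∣ k * r * FH r n x t t'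

/-- (G1) one prime -/
def S_one : Prop := ∀ (p : ℕ) [Fact p.Prime], p ≠ 2 → ∀ x : ZMod p → ℤ, Rel x →
  ∀ {Q : Type} [AddCommGroup Q] {c : ZMod p → Q}, OddDist c → ∑ b, x b • c b = 0

/-- (G2) two primes -/
def S_two : Prop := ∀ (p q : ℕ) [Fact p.Prime] [Fact q.Prime] [NeZero (p * q)], p ≠ 2 → q ≠ 2 →
  p ≠ q → ∀ x : ZMod (p * q) → ℤ, Rel x → CR q p x →
  ∀ {Q : Type} [AddCommGroup Q] {c : ZMod (p * q) → Q}, OddDist c → ∑ b, x b • c b = 0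

/-- the criterion in terms of digit distributions, for one prime and one level -/
def CDs (r n : ℕ) {m : ℕ} [NeZero m] (x : ZMod m → ℤ) : Prop :=
  ∃ f : ℕ, 0 < f ∧ (r : ZMod n) ^ f = 1 ∧ ∀ t t' : (ZMod n)ˣ,
    ∃ k : ℤ, Odd k ∧ k • ∑ z : ZMod m, x z • DD r n f t t' z = 0

/-- (G3) three primes -/
def S_three : Prop := ∀ (p q r : ℕ) [Fact p.Prime] [Fact q.Prime] [Fact r.Prime]
  [NeZero (p * q * r)], p ≠ 2 → q ≠ 2 → r ≠ 2 → p ≠ q → p ≠ r → q ≠ r →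
  ∀ x : ZMod (p * q * r) → ℤ, Rel x → CDs r (p * q) x → CDs p (q * r) x → CDs q (p * r) x →
  ∀ {Q : Type} [AddCommGroup Q] {c : ZMod (p * q * r) → Q}, OddDist c → ∑ b, x b • c b = 0

/-- (G4) the combinatorial core -/
def S_core : Prop := ∀ (m : ℕ) [NeZero m], Odd m → m.primeFactors.card ≤ 3 →
  ∀ x : ZMod m → ℤ, Rel x → CD m x →
  ∀ {Q : Type} [AddCommGroup Q] {c : ZMod m → Q}, OddDist c → ∑ b, x b • c b = 0

end Pool.Agent.NH35.HG
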