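import Pool.Agent.NH35.HG.StmN

/-! Weak rationality and reduction modulo primes above `r`. -/

set_option autoImplicit false

namespace Pool.Agent.NH35.HG

open Finset Pool.Agent.H916R2 Pool.Agent.H916K NumberField Ideal

private lemma we_prod_neg {α R : Type} [CommRing R] (s : Multiset α) (g : α → R) :
    (s.map fun z => -g z).prod = (-1) ^ Multiset.card s * (s.map g).prod := by
  induction s using Multiset.induction_on with
  | empty => simp
  | cons a s ih =>
    rw [Multiset.map_cons, Multiset.prod_cons, ih, Multiset.card_cons, Multiset.map_cons,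
      Multiset.prod_cons, pow_succ]
    ring

theorem weak1 : S_weak1 := by
  intro m _ hm1 s hs hne hR
  obtain ⟨N, hN⟩ := hR
  refine ⟨m, m * (Multiset.card s / 2), N + (s.map fun z => z.2.natAbs).sum, by omega, ?_⟩
  intro ℓ hℓN hℓ hℓm F _ _ hF χ ψ hχ hψ
  have : Fact ℓ.Prime := ⟨hℓ⟩
  have h1 : (ℓ : ZMod m) = 1 := by
    have := (ZMod.natCast_eq_natCast_iff _ _ _).mpr hℓm
    simpa using this
  have hchar : CharP F ℓ := by
    obtain ⟨p, hp⟩ := CharP.exists F
    obtain ⟨n, hpp, hn⟩ := FiniteField.card F p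
    have h2 : p = ℓ := by
      rw [hF] at hn
      have h3 : p ∣ ℓ := by
        rw [hn]
        exact dvd_pow_self p n.ne_zero
      exact (Nat.prime_dvd_prime_iff_eq hpp hℓ).mp h3
    rw [← h2]
    exact hp
  have h2 := hN ℓ (by omega) hℓ F (by rw [h1, orderOf_one, pow_one]; exact hF) χ ψ hχ hψ
  rw [Multiset.map_map]
  have h3 : (s.map ((fun z => -gaussSum (χ ^ z.val) ψ) ∘ Prod.fst)).prod =
      (ℓ : ℂ) ^ (Multiset.card s / 2) * (s.map fun z => (χ ^ z.1.val) (z.2 : F)).prod := by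
    change (s.map fun z => -gaussSum (χ ^ z.1.val) ψ).prod = _
    rw [we_prod_neg, hs.neg_one_pow, one_mul, h2, hF]
  rw [h3, mul_pow, ← pow_mul, ← Multiset.prod_map_pow]
  have h4 : (s.map fun z => (χ ^ z.1.val) (z.2 : F) ^ m).prod = 1 := by
    refine Multiset.prod_eq_one fun x hx => ?_
    obtain ⟨z, hz, rfl⟩ := Multiset.mem_map.mp hx
    have hz0 : (z.2 : F) ≠ 0 := by
      apply int_cast_ne_zero (ℓ := ℓ) (hne z hz).2
      have : z.2.natAbs ≤ (s.map fun z => z.2.natAbs).sum :=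
        Multiset.single_le_sum (fun _ _ => Nat.zero_le _) _ (Multiset.mem_map_of_mem _ hz)
      omega
    rw [mulChar_pow_apply χ _ hz0, ← pow_mul, mul_comm, pow_mul, mulChar_pow_one hχ hz0, one_pow]
  rw [h4, mul_one, mul_comm]

private lemma we_root (n : ℕ) (hn : n ≠ 0) : ∃ ζ : AI, IsPrimitiveRoot ζ n := by
  have hinj : Function.Injective (algebraMap AI ℂ) := Subtype.val_injective
  have h1 := Complex.isPrimitiveRoot_exp n hn
  have h2 : IsIntegral ℤ (Complex.exp (2 * Real.pi * Complex.I / n)) :=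
    h1.isIntegral (Nat.pos_of_ne_zero hn)
  refine ⟨⟨_, h2⟩, ?_⟩
  exact IsPrimitiveRoot.of_map_of_injective (f := algebraMap AI ℂ) h1 hinj

theorem ee_red : S_e := by
  classical
  intro r a n m hr ha hrn hm hmo hn s hW k _ _ φ
  have : Fact r.Prime := ⟨hr⟩
  obtain ⟨M0, e, N, hM0, hN⟩ := hW
  have hm0 : 0 < m := by
    rw [← hm]
    have := hr.pos
    positivity
  refine ⟨M0 * m * r, N, by have := hr.pos; positivity, ?_⟩
  intro ℓ hℓN hℓ hℓM F _ _ hF χ ψ hχ hψ
  have hℓ1 := hℓ.one_lt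
  have hmℓ : m ∣ ℓ - 1 := by
    have h1 : ℓ ≡ 1 [MOD m] := (Nat.ModEq.of_mul_right _ hℓM).of_mul_left _
    exact (Nat.modEq_iff_dvd' hℓ1.le).mp h1.symm
  have hrℓ : r ∣ ℓ - 1 := by
    have h1 : ℓ ≡ 1 [MOD r] := hℓM.of_mul_left _
    exact (Nat.modEq_iff_dvd' hℓ1.le).mp h1.symm
  have hraℓ : r ^ a ∣ ℓ - 1 := (Dvd.intro _ hm).trans hmℓ
  obtain ⟨ζ, hζ⟩ := we_root (r ^ a) (pow_ne_zero a hr.ne_zero)
  obtain ⟨χ', hχ'⟩ := MulChar.exists_mulChar_orderOf F (n := r ^ a)
    (by rw [hF]; exact hraℓ) hζ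
  have hcop : (orderOf χ).Coprime (orderOf χ') := by
    rw [hχ, hχ']
    exact Nat.Coprime.pow_right a ((Nat.Prime.coprime_iff_not_dvd hr).mpr hrn).symm
  have hord : orderOf (χ * χ') = m := by
    rw [Commute.orderOf_mul_eq_mul_orderOf_of_coprime (Commute.all _ _) hcop, hχ, hχ', ← hm,
      mul_comm]
  -- transfer to the complex numbers
  have hinj : Function.Injective (algebraMap AI ℂ) := Subtype.val_injective
  set χc : MulChar F ℂ := (χ * χ').ringHomComp (algebraMap AI ℂ) with hχc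
  set ψc : AddChar F ℂ := (algebraMap AI ℂ).toMonoidHom.compAddChar ψ with hψc
  have hordc : orderOf χc = m := by
    rw [← hord]
    exact orderOf_injective (MulChar.ringHomCompHom (algebraMap AI ℂ))
      (MulChar.injective_ringHomComp hinj) _
  have hψc1 : ψc ≠ 1 := by
    intro h
    apply hψ
    ext x
    have h1 : ψc x = 1 := by rw [h]; rfl
    exact h1
  have h1 := hN ℓ hℓN hℓ ((Nat.ModEq.of_mul_right _ hℓM).of_mul_right _) F hF χc ψc hordc hψc1
  have hg : ∀ a : ℕ, gaussSum (χc ^ a) ψc = algebraMap AI ℂ (gaussSum ((χ * χ') ^ a) ψ) := by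
    intro a
    unfold gaussSum
    rw [map_sum]
    refine sum_congr rfl fun x _ => ?_
    rw [map_mul, hχc, MulChar.ringHomComp_pow, MulChar.ringHomComp_apply]
    rfl
  have h2 : (s.map fun z => -gaussSum ((χ * χ') ^ z.val) ψ).prod ^ m = (ℓ : AI) ^ e := by
    apply hinj
    rw [map_pow, map_pow, map_natCast, map_multiset_prod, Multiset.map_map, ← h1]
    congr 2
    refine Multiset.map_congr rfl fun z _ => ?_
    rw [Function.comp_apply, map_neg, hg]
  -- reduction
  have hℓk : ((ℓ : ℕ) : k) = 1 := by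
    have h3 : ((ℓ - 1 : ℕ) : k) = 0 := by
      rw [CharP.cast_eq_zero_iff k r]
      exact hrℓ
    rw [Nat.cast_sub hℓ1.le, Nat.cast_one] at h3
    exact sub_eq_zero.mp h3
  have h4 : ∀ z : ZMod m, φ (-gaussSum ((χ * χ') ^ z.val) ψ) =
      φ (-gaussSum (χ ^ ((z.val : ℕ) : ZMod n).val) ψ) := by
    intro z
    rw [map_neg, map_neg]
    congr 1
    unfold gaussSum
    rw [map_sum, map_sum]
    refine sum_congr rfl fun x _ => ?_
    rw [map_mul, map_mul]
    congr 1
    by_cases hx : x = 0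
    · rw [hx, MulChar.map_zero, MulChar.map_zero]
    · have h5 : φ (χ' x) = 1 := by
        apply pow_one_of_char (q := r) (b := a)
        rw [← map_pow, mulChar_pow_one hχ' hx, map_one]
      rw [ZMod.val_natCast, ← hχ, pow_mod_orderOf, mul_pow, MulChar.mul_apply, map_mul,
        mulChar_pow_apply χ' _ hx, map_pow, h5, one_pow, mul_one]
  have h5 := congrArg φ h2
  rw [map_pow, map_pow, map_natCast, hℓk, one_pow, map_multiset_prod, Multiset.map_map] at h5
  rw [map_pow, map_multiset_prod, Multiset.map_map]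
  have h6 : s.map (φ ∘ fun z => -gaussSum ((χ * χ') ^ z.val) ψ) =
      s.map (φ ∘ fun z => -gaussSum (χ ^ ((z.val : ℕ) : ZMod n).val) ψ) :=
    Multiset.map_congr rfl fun z _ => h4 z
  rw [h6] at h5
  apply pow_one_of_char (q := r) (b := a)
  rw [← pow_mul, mul_comm, hm]
  exact h5

end Pool.Agent.NH35.HG
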